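import Pool.Agent.CVH.St

/-!
# CVH, module Ab: functions with the parallelogram inequality (proved by helper17)
-/

set_option autoImplicit false

noncomputable section

namespace Pool.Agent.CVH

open Polynomial
open scoped Classical

theorem Ab_rec (h : ℤ → ℤ) (hh : ∀ x, h (x + 1) + h (x - 1) = 2 * h x) (h0 : h 0 = 0) (h1 : h 1 = 0) (x : ℤ) :
    h x = 0 := by
  have key : ∀ x : ℤ, h x = 0 ∧ h (x + 1) = 0 := by
    intro x
    induction x using Int.induction_on with
    | zero => exact ⟨h0, by simpa using h1⟩
    | succ i ih =>
      refine ⟨ih.2, ?_⟩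
      have h3 := hh ((i : ℤ) + 1)
      rw [add_sub_cancel_right, ih.1, ih.2] at h3
      linarith
    | pred i ih =>
      have h3 := hh (-(i : ℤ))
      rw [ih.1, ih.2] at h3
      refine ⟨by linarith, ?_⟩
      rw [sub_add_cancel]
      exact ih.1
  exact (key x).1

theorem thm_Ab : St_Ab := by
  intro G _ d hd hp P Q x y
  have h0 : d 0 = 0 := by
    have h := hd 0
    rw [add_zero] at h
    omega
  have hpe : ∀ A B : G, (d (A + B) : ℤ) + d (A - B) = 2 * d A + 2 * d B := by
    intro A B
    have h1 := hp A B
    have h2 := hp (A + B) (A - B)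
    have e1 : A + B + (A - B) = A + A := by abel
    have e2 : A + B - (A - B) = B + B := by abel
    rw [e1, e2, hd, hd] at h2
    have h3 : d (A + B) + d (A - B) = 2 * d A + 2 * d B := by omega
    exact_mod_cast h3
  -- one variable
  have hone : ∀ y : ℤ, (d (y • Q) : ℤ) = y ^ 2 * d Q := by
    intro y
    have h := Ab_rec (fun y => (d (y • Q) : ℤ) - y ^ 2 * d Q) (fun y => by
      have h1 := hpe (y • Q) Q
      have e1 : (y + 1) • Q = y • Q + Q := by rw [add_smul, one_smul]
      have e2 : (y - 1) • Q = y • Q - Q := by rw [sub_smul, one_smul]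
      simp only [e1, e2]
      linear_combination h1) (by simp [h0]) (by simp) y
    linear_combination h
  have htwo : ∀ y : ℤ, (d (P + y • Q) : ℤ) = d P + y ^ 2 * d Q + y * ((d (P + Q) : ℤ) - d P - d Q) := by
    intro y
    have h := Ab_rec (fun y => (d (P + y • Q) : ℤ) - (d P + y ^ 2 * d Q + y * ((d (P + Q) : ℤ) - d P - d Q)))
      (fun y => by
        have h1 := hpe (P + y • Q) Q
        have e1 : P + (y + 1) • Q = P + y • Q + Q := by rw [add_smul, one_smul, add_assoc]
        have e2 : P + (y - 1) • Q = P + y • Q - Q := by rw [sub_smul, one_smul, add_sub_assoc]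
        simp only [e1, e2]
        linear_combination h1) (by simp) (by simp) y
    linear_combination h
  have h := Ab_rec (fun x => (d (x • P + y • Q) : ℤ) -
      (x ^ 2 * d P + y ^ 2 * d Q + x * y * ((d (P + Q) : ℤ) - d P - d Q)))
    (fun x => by
      have h1 := hpe (x • P + y • Q) P
      have e1 : (x + 1) • P + y • Q = x • P + y • Q + P := by rw [add_smul, one_smul]; abel
      have e2 : (x - 1) • P + y • Q = x • P + y • Q - P := by rw [sub_smul, one_smul]; abel
      simp only [e1, e2]
      linear_combination h1)
    (by
      have := hone y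
      simp only [zero_smul, zero_add]
      linear_combination this)
    (by
      have := htwo y
      simp only [one_smul]
      linear_combination this) x
  linear_combination h

end Pool.Agent.CVH
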