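import Pool.Agent.CVH.St

/-!
# CVH: [Cp] the map of degree `3` on general points
-/

set_option autoImplicit false

noncomputable section

namespace Pool.Agent.CVH

open Polynomial
open scoped Classical

private theorem Cp_frac {F : Type} [Field F] (u a v : F) (hv : v ≠ 0) :
    cub u (a / v ^ 2) = (a ^ 3 - 2 * u * a ^ 2 * v ^ 2 + a * v ^ 4) / v ^ 6 := by
  unfold cub
  field_simp

theorem thm_Cp : St_Cp := by
  intro F _ δ u u' c D r s hδ h2 hc hδc hu hu' hs hr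
  have h4 : (4 : F) * c ≠ 0 := by
    have h : (4 : F) = 2 * 2 := by norm_num
    rw [h]
    exact mul_ne_zero (mul_ne_zero h2 h2) hc
  have key : (r ^ 2 - 2 * u * r + 1) * (c * r ^ 2 + (3 - c ^ 2) * r + c) ^ 2 =
      c ^ 2 * (r ^ 2 * (r + c) ^ 4 - 2 * u' * r * (r + c) ^ 2 * (1 + c * r) ^ 2 +
        (1 + c * r) ^ 4) := by
    apply mul_left_cancel₀ h4
    linear_combination (-(r * (c * r ^ 2 + (3 - c ^ 2) * r + c) ^ 2)) * hu +
      (r * (r + c) ^ 2 * (1 + c * r) ^ 2) * hu'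
  constructor
  · have e1 : D * (s * (r + c) * (c * r ^ 2 + (3 - c ^ 2) * r + c) / (c * (1 + c * r) ^ 3)) ^ 2 =
        cub u r * ((r + c) ^ 2 * (c * r ^ 2 + (3 - c ^ 2) * r + c) ^ 2) /
          (c ^ 2 * (1 + c * r) ^ 6) := by
      rw [← hs, div_pow, mul_div_assoc']
      congr 1
      · ring
      · ring
    have e2 : cub u' (r * (r + c) ^ 2 / (1 + c * r) ^ 2) =
        (r * (r + c) ^ 2 * (r ^ 2 * (r + c) ^ 4 - 2 * u' * r * (r + c) ^ 2 * (1 + c * r) ^ 2 +
          (1 + c * r) ^ 4)) / (1 + c * r) ^ 6 := by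
      rw [Cp_frac u' (r * (r + c) ^ 2) (1 + c * r) hr]
      congr 1
      ring
    rw [e1, e2, div_eq_div_iff (mul_ne_zero (pow_ne_zero 2 hc) (pow_ne_zero 6 hr))
      (pow_ne_zero 6 hr)]
    unfold cub
    linear_combination ((r * (r + c) ^ 2) * (1 + c * r) ^ 6) * key
  · intro e he
    have h1 : δ (r + c) = δ r := by rw [hδ.add, hδc, add_zero]
    have hN : δ (r * (r + c) ^ 2) = δ r * (r + c) ^ 2 + r * (2 * (r + c) * δ r) := by
      rw [hδ.mul, hδ.sq, h1]
    have hM : δ ((1 + c * r) ^ 2) = 2 * (1 + c * r) * (c * δ r) := by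
      rw [hδ.sq, hδ.add, hδ.one, hδ.mul, hδc, zero_mul, zero_add, zero_add]
    rw [hδ.div _ _ (pow_ne_zero 2 hr), hN, hM, he]
    field_simp
    ring

end Pool.Agent.CVH
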