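import Pool.Agent.CVH.St

/-!
# CVH [Dc]: facts on the derivation of the rational functions
-/

set_option autoImplicit false

noncomputable section

namespace Pool.Agent.CVH

open Polynomial
open scoped Classical

theorem thm_Dc : St_Dc := by
  intro K _ _ δ hδ
  obtain ⟨hD, hP⟩ := hδ
  have hC : ∀ a : K, kc a = io (C a) := fun a => (RatFunc.algebraMap_C a).symm
  have h3 : ∀ A B : K[X], B ≠ 0 → δ (io A / io B) =
      io (derivative A * B - A * derivative B) / io B ^ 2 := by
    intro A B hB
    have hB' : io B ≠ 0 := by
      simpa using hB
    rw [hD.div _ _ hB', hP, hP]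
    congr 1
    simp only [io, map_sub, map_mul]
  refine ⟨?_, ?_, h3, ?_⟩
  · intro a
    rw [hC, hP, derivative_C]
    simp [io]
  · have hX : (RatFunc.X : RatFunc K) = io X := RatFunc.algebraMap_X.symm
    rw [hX, hP, derivative_X]
    simp [io]
  · intro r hr
    have hB0 : r.denom ≠ 0 := r.denom_ne_zero
    have e := h3 r.num r.denom hB0
    have er : io r.num / io r.denom = r := r.num_div_denom
    rw [er, hr] at e
    have hB' : io r.denom ≠ 0 := by
      simpa using hB0
    have e1 : io (derivative r.num * r.denom - r.num * derivative r.denom) = 0 := by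
      have := e.symm
      rw [div_eq_zero_iff] at this
      rcases this with h | h
      · exact h
      · exact absurd h (pow_ne_zero 2 hB')
    have e2 : derivative r.num * r.denom - r.num * derivative r.denom = 0 := by
      exact (RatFunc.algebraMap_injective K) (by rw [map_zero]; exact e1)
    have hcop : IsCoprime r.num r.denom := r.isCoprime_num_denom
    have hdv : r.denom ∣ derivative r.denom := by
      have h1 : r.denom ∣ r.num * derivative r.denom := by
        refine ⟨derivative r.num, ?_⟩
        linear_combination -e2
      exact hcop.symm.dvd_of_dvd_mul_left h1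
    have hBd : derivative r.denom = 0 := by
      by_contra hne
      have h1 := natDegree_le_of_dvd hdv hne
      have h2 : r.denom.natDegree ≠ 0 := by
        intro h0
        apply hne
        rw [eq_C_of_natDegree_eq_zero h0, derivative_C]
      have h4 := natDegree_derivative_lt h2
      omega
    have hB0' : r.denom.natDegree = 0 := derivative_eq_zero.mp hBd
    have hAd : derivative r.num = 0 := by
      rw [hBd, mul_zero, sub_zero] at e2
      rcases mul_eq_zero.mp e2 with h | h
      · exact h
      · exact absurd h hB0
    have hA0' : r.num.natDegree = 0 := derivative_eq_zero.mp hAd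
    refine ⟨r.num.coeff 0 / r.denom.coeff 0, ?_⟩
    rw [← er]
    nth_rewrite 1 [eq_C_of_natDegree_eq_zero hA0']
    nth_rewrite 1 [eq_C_of_natDegree_eq_zero hB0']
    simp only [kc, io, map_div₀, RatFunc.algebraMap_C]
    rw [er]

end Pool.Agent.CVH
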