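import Mathlib

/-!
# CVH (helper13): the two split cases of statement (a) of MP_7d6c83_nt

Definitions.  `R(t) = t D*(t²) / D(t²)` is an isogeny of the Jacobi quartics
`w² = 1 - 2 u t² + t⁴` and `w² = 1 - 2 u' t² + t⁴` (`Iso`); the rational functions `r(X)`, `X = t²`,
of a group of isogenies are points of a quadratic twist over `K(X)` (`WD`).
-/

set_option autoImplicit false

noncomputable section

namespace Pool.Agent.CVH

open Polynomial
open scoped Classical

/-- the cubic `z³ - 2 u z² + z` -/
def cub {R : Type*} [CommRing R] (u z : R) : R := z ^ 3 - 2 * u * z ^ 2 + z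

/-- the derivative of the cubic -/
def dcub {R : Type*} [CommRing R] (u z : R) : R := 3 * z ^ 2 - 4 * u * z + 1

/-- the Legendre polynomial `P_n(1 - 2 X)` -/
def PL {R : Type*} [CommRing R] (n : ℕ) (X : R) : R :=
  ∑ i ∈ Finset.range (n + 1), (-1) ^ i * ((n.choose i * (n + i).choose i : ℕ) : R) * X ^ i

/-- the curve `D s² = cub u r` in Weierstrass form: `x = D r`, `y = D² s` -/
def WD {F : Type*} [Field F] (u D : F) : WeierstrassCurve.Affine F where
  a₁ := 0
  a₂ := -2 * u * D
  a₃ := 0
  a₄ := D ^ 2
  a₆ := 0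

/-- the points of the curve `WD u D` -/
abbrev Ps {F : Type*} [Field F] (u D : F) : Type _ := (WD u D).Point

/-- `P` is the point with the coordinates `r`, `s` on the curve `D s² = cub u r` -/
def Pt {F : Type*} [Field F] {u D : F} (P : Ps u D) (r s : F) : Prop :=
  ∃ h, P = WeierstrassCurve.Affine.Point.some (D * r) (D ^ 2 * s) h

/-- `δ` is a derivation of the field `F` -/
structure Dn {F : Type*} [Field F] (δ : F → F) : Prop where
  add : ∀ a b, δ (a + b) = δ a + δ b
  mul : ∀ a b, δ (a * b) = δ a * b + a * δ b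

namespace Dn

variable {F : Type*} [Field F] {δ : F → F}

theorem zero (h : Dn δ) : δ 0 = 0 := by
  have := h.add 0 0
  rw [add_zero] at this
  linear_combination -this

theorem one (h : Dn δ) : δ 1 = 0 := by
  have := h.mul 1 1
  rw [mul_one] at this
  linear_combination -this

theorem neg (h : Dn δ) (a : F) : δ (-a) = -δ a := by
  have := h.add a (-a)
  rw [add_neg_cancel, h.zero] at this
  linear_combination -this

theorem sub (h : Dn δ) (a b : F) : δ (a - b) = δ a - δ b := by
  rw [sub_eq_add_neg, h.add, h.neg, ← sub_eq_add_neg]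

theorem nat (h : Dn δ) (n : ℕ) : δ (n : F) = 0 := by
  induction n with
  | zero => simpa using h.zero
  | succ n ih => push_cast; rw [h.add, ih, h.one, add_zero]

theorem ofNat (h : Dn δ) (n : ℕ) [n.AtLeastTwo] : δ (OfNat.ofNat n : F) = 0 := h.nat n

theorem int (h : Dn δ) (n : ℤ) : δ (n : F) = 0 := by
  obtain ⟨m, rfl | rfl⟩ := n.eq_nat_or_neg
  · simpa using h.nat m
  · push_cast; rw [h.neg, h.nat, neg_zero]

theorem sq (h : Dn δ) (a : F) : δ (a ^ 2) = 2 * a * δ a := by
  rw [pow_two, h.mul]; ring

theorem pow (h : Dn δ) (a : F) (n : ℕ) : δ (a ^ n) = n * a ^ (n - 1) * δ a := by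
  induction n with
  | zero => simp [h.one]
  | succ n ih =>
    rw [pow_succ, h.mul, ih]
    rcases n with _ | n
    · simp
    · simp only [Nat.add_sub_cancel]
      push_cast
      ring

theorem inv (h : Dn δ) (a : F) : δ a⁻¹ = -δ a / a ^ 2 := by
  by_cases ha : a = 0
  · simp [ha, h.zero]
  · have := h.mul a a⁻¹
    rw [mul_inv_cancel₀ ha, h.one] at this
    have h2 : a * δ a⁻¹ = -(δ a * a⁻¹) := by linear_combination -this
    have h3 : δ a⁻¹ = a⁻¹ * (a * δ a⁻¹) := by rw [← mul_assoc, inv_mul_cancel₀ ha, one_mul]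
    rw [h3, h2]
    field_simp

theorem div (h : Dn δ) (a b : F) (hb : b ≠ 0) : δ (a / b) = (δ a * b - a * δ b) / b ^ 2 := by
  rw [div_eq_mul_inv, h.mul, h.inv]
  field_simp
  ring

end Dn

/-- `c` is the logarithmic derivative of the point `P` (for the derivation `δ` and the invariant
differential), that is `δ r = c s` and `2 D δ s = dcub u r c - δ D s` -/
def Lg {F : Type*} [Field F] (δ : F → F) {u D : F} (P : Ps u D) (c : F) : Prop :=
  (P = 0 ∧ c = 0) ∨
    ∃ r s, Pt P r s ∧ δ r = c * s ∧ 2 * D * δ s = dcub u r * c - δ D * s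

/-- the degree of a rational function -/
def rdeg {K : Type*} [Field K] (r : RatFunc K) : ℕ := max r.num.natDegree r.denom.natDegree

/-- the degree of the coordinate `r` of a point -/
def dd {K : Type*} [Field K] {u D : RatFunc K} : Ps u D → ℕ
  | .zero => 0
  | .some x _ _ => rdeg (x / D)

/-- a polynomial as a rational function -/
abbrev io {K : Type*} [Field K] (A : K[X]) : RatFunc K := algebraMap K[X] (RatFunc K) A

/-- the constant rational function -/
abbrev kc {K : Type*} [Field K] (a : K) : RatFunc K := RatFunc.C a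

/-- the cubic of `X` -/
def DX {K : Type*} [Field K] (u : K) : RatFunc K := cub (kc u) RatFunc.X

/-- `δ` is the derivative of rational functions -/
def IsDer {K : Type*} [Field K] (δ : RatFunc K → RatFunc K) : Prop :=
  Dn δ ∧ ∀ P : K[X], δ (io P) = io (derivative P)

/-- `A / B` is a solution of the differential equation `cub u X (r')² = μ² cub u' r` -/
def Sol {K : Type*} [Field K] (u u' μ : K) (A B : K[X]) : Prop :=
  X * (X ^ 2 - C (2 * u) * X + 1) * (derivative A * B - A * derivative B) ^ 2 =
    C (μ ^ 2) * (A * B * (A ^ 2 - C (2 * u') * A * B + B ^ 2))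

/-- the reciprocal polynomial `X^m D(1 / X)` -/
abbrev rp {K : Type*} [Field K] (m : ℕ) (D : K[X]) : K[X] := reflect m D

/-- `R(t) = t D*(t²) / D(t²)`, `D* = rp m D`, is an isogeny of degree `2 m + 1` with the multiplier
`μ` (up to sign) of the Jacobi quartics with the parameters `u` and `u'` -/
structure Iso {K : Type*} [Field K] (u u' μ : K) (m : ℕ) (D : K[X]) : Prop where
  deg : D.natDegree ≤ m
  one : D.coeff 0 = 1
  ode : (X ^ 2 - C (2 * u) * X + 1) *
    (rp m D * D + 2 * X * (derivative (rp m D) * D - rp m D * derivative D)) ^ 2 =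
      C (μ ^ 2) * (X ^ 2 * rp m D ^ 4 - C (2 * u') * X * rp m D ^ 2 * D ^ 2 + D ^ 4)

/-- the coordinate `r = X (rp m D)² / D²` of the isogeny -/
abbrev ir {K : Type*} [Field K] (m : ℕ) (D : K[X]) : RatFunc K :=
  RatFunc.X * io (rp m D) ^ 2 / io D ^ 2

/-- the valuation ring `V` has the residue characteristic `p` -/
def Res {K : Type*} [Field K] (V : ValuationSubring K) (p : ℕ) : Prop := (p : K) ∈ V.nonunits

/-- the constants of the field `ℚ(√5, √-3)`: `g` is the golden ratio, `w` a cube root of unity; there
is no square root of `-1` -/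
structure Kg {K : Type*} [Field K] (g w : K) : Prop where
  hg : g ^ 2 = g + 1
  hw : w ^ 2 = -1 - w
  hi : ∀ z : K, z ^ 2 ≠ -1

/-- the parameter `1 - 2 x` of the first curve -/
def u₁ {K : Type*} [Field K] (g w : K) : K := (14 * g + 9) * (2 * w + 1)

/-- the parameter `1 - 2 y` of the second curve -/
def u₂ {K : Type*} [Field K] (g w : K) : K := (14 * g - 23) * (2 * w + 1)

/-- the multiplier of the isogeny of degree `3` from the first to the second curve -/
def c₃ {K : Type*} [Field K] (g w : K) : K := -((2 * g + 1) * (2 * w + 1))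

/-- the multiplier of the isogeny of degree `5` from the first to the second curve -/
def c₅ {K : Type*} [Field K] (g : K) : K := -(4 * g + 3)

/-- the square root of `-15` -/
def d₀ {K : Type*} [Field K] (g w : K) : K := (2 * g - 1) * (2 * w + 1)

end Pool.Agent.CVH
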