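import Pool.Agent.CVH.St

/-!
# CVH, module Dv: the derivation of the field of rational functions exists
-/

set_option autoImplicit false

noncomputable section

namespace Pool.Agent.CVH

open Polynomial
open scoped Classical

private def Dv_del (K : Type) [Field K] (r : RatFunc K) : RatFunc K :=
  io (derivative r.num * r.denom - r.num * derivative r.denom) / io r.denom ^ 2

private theorem Dv_inj {K : Type} [Field K] {A B : K[X]} (h : io A = io B) : A = B :=
  RatFunc.algebraMap_injective K h

private theorem Dv_ne {K : Type} [Field K] {B : K[X]} (h : B ≠ 0) : io B ≠ 0 := by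
  intro h0
  apply h
  apply Dv_inj
  rw [h0]
  exact (map_zero (algebraMap K[X] (RatFunc K))).symm

private theorem Dv_key {K : Type} [Field K] (r : RatFunc K) (A B : K[X]) (hB : B ≠ 0)
    (h : r = io A / io B) :
    Dv_del K r = io (derivative A * B - A * derivative B) / io B ^ 2 := by
  have hd : r.denom ≠ 0 := RatFunc.denom_ne_zero r
  have hd' : io r.denom ≠ 0 := Dv_ne hd
  have hB' : io B ≠ 0 := Dv_ne hB
  have e1 : r.num * B = A * r.denom := by
    apply Dv_inj
    have h1 : io r.num / io r.denom = io A / io B := (RatFunc.num_div_denom r).trans h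
    rw [div_eq_div_iff hd' hB'] at h1
    simpa only [io, map_mul] using h1
  have e2 : derivative r.num * B + r.num * derivative B =
      derivative A * r.denom + A * derivative r.denom := by
    have := congrArg derivative e1
    rwa [derivative_mul, derivative_mul] at this
  unfold Dv_del
  rw [div_eq_div_iff (pow_ne_zero 2 hd') (pow_ne_zero 2 hB')]
  have e3 : (derivative r.num * r.denom - r.num * derivative r.denom) * B ^ 2 =
      (derivative A * B - A * derivative B) * r.denom ^ 2 := by
    linear_combination r.denom * B * e2 -
      (derivative r.denom * B + derivative B * r.denom) * e1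
  have := congrArg (algebraMap K[X] (RatFunc K)) e3
  simpa only [io, map_mul, map_pow] using this

private theorem Dv_rep {K : Type} [Field K] (r : RatFunc K) :
    ∃ A B : K[X], B ≠ 0 ∧ r = io A / io B :=
  ⟨r.num, r.denom, RatFunc.denom_ne_zero r, (RatFunc.num_div_denom r).symm⟩

theorem thm_Dv : St_Dv := by
  intro K _
  refine ⟨Dv_del K, ⟨?_, ?_⟩, ?_⟩
  · intro r s
    obtain ⟨A, B, hB, hr⟩ := Dv_rep r
    obtain ⟨C, D, hD, hs⟩ := Dv_rep s
    have hB' : io B ≠ 0 := Dv_ne hB
    have hD' : io D ≠ 0 := Dv_ne hD
    rw [Dv_key r A B hB hr, Dv_key s C D hD hs,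
      Dv_key (r + s) (A * D + C * B) (B * D) (mul_ne_zero hB hD) (by
        rw [hr, hs]
        simp only [io, map_mul, map_add] at *
        field_simp)]
    simp only [io, derivative_add, derivative_mul, map_mul, map_add, map_sub] at *
    field_simp
    ring
  · intro r s
    obtain ⟨A, B, hB, hr⟩ := Dv_rep r
    obtain ⟨C, D, hD, hs⟩ := Dv_rep s
    have hB' : io B ≠ 0 := Dv_ne hB
    have hD' : io D ≠ 0 := Dv_ne hD
    rw [Dv_key r A B hB hr, Dv_key s C D hD hs,
      Dv_key (r * s) (A * C) (B * D) (mul_ne_zero hB hD) (by
        rw [hr, hs]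
        simp only [io, map_mul] at *
        field_simp), hr, hs]
    simp only [io, derivative_mul, map_mul, map_add, map_sub] at *
    field_simp
    ring
  · intro P
    rw [Dv_key (io P) P 1 one_ne_zero (by simp [io])]
    simp [io]

end Pool.Agent.CVH
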