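import Pool.Agent.CVH.St

/-!
# CVH, module Ex: the explicit points (helper30)
-/

set_option autoImplicit false

noncomputable section

namespace Pool.Agent.CVH

open Polynomial
open scoped Classical

private theorem Ex_DX {K : Type} [Field K] (u : K) : DX u ≠ 0 := by
  have h1 : DX u = io (X ^ 3 - C (2 * u) * X ^ 2 + X) := by
    unfold DX cub
    rw [io, map_add, map_sub, map_mul, map_pow, map_pow, RatFunc.algebraMap_X,
      RatFunc.algebraMap_C, map_mul, map_ofNat]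
  rw [h1]
  intro h0
  have h2 := (map_eq_zero_iff _ (RatFunc.algebraMap_injective K)).1 h0
  have h3 : (X ^ 3 - C (2 * u) * X ^ 2 + X : K[X]).coeff 1 = (0 : K[X]).coeff 1 := by rw [h2]
  rw [coeff_add, coeff_sub, coeff_X_pow, coeff_C_mul_X_pow, coeff_X_one, coeff_zero,
    if_neg (by norm_num), if_neg (by norm_num), sub_zero, zero_add] at h3
  exact one_ne_zero h3

theorem thm_Ex (hDc : St_Dc) (hRd : St_Rd) (hRt : St_Rt) (hRm : St_Rm) (hGr : St_Gr)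
    (hLi : St_Li) (hFd : St_Fd) (hCp : St_Cp) (hIp : St_Ip) (hIc : St_Ic) (hIe : St_Ie) :
    St_Ex := by
  intro K _ _ δ hδ g w hk
  obtain ⟨I1, I2, I3, I4, I5, I6, I7, I8, I9, I10, I11, I12, I13, I14, I15⟩ := hIc K g w hk
  obtain ⟨-, -, -, -, -, -, J7, -, -, J10, -, -, -, J14, J15⟩ := hIc K (1 - g) (-1 - w) I1
  obtain ⟨E1, E3, E5⟩ := hIe K g w hk
  obtain ⟨D1, D2, D3, D4⟩ := hDc K δ hδ
  obtain ⟨R1, R2, R3, R4, R5⟩ := hRd K
  obtain ⟨M1, M2, M3, M4⟩ := hRm K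
  have hDX := Ex_DX (u₁ g w)
  have h2 : (2 : RatFunc K) ≠ 0 := by
    have h3 : (2 : RatFunc K) = kc (2 : K) := by
      rw [kc, map_ofNat]
    rw [h3]
    intro h0
    exact two_ne_zero ((map_eq_zero_iff _ RatFunc.C_injective).1 h0)
  have hsq : ∀ u : K, u ^ 2 ≠ 1 → (kc u) ^ 2 ≠ 1 := by
    intro u hu h0
    apply hu
    apply RatFunc.C_injective (K := K)
    rw [map_pow, map_one]
    exact h0
  obtain ⟨P0, s0, hP0, -, -, hL0⟩ := hIp K δ hδ (u₁ g w) (u₁ g w) 1 0 1 I4 one_ne_zero E1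
  obtain ⟨P3, s3, hP3, -, -, hL3⟩ := hIp K δ hδ (u₁ g w) (u₂ g w) (c₃ g w) 1 _ I5 I7 E3
  obtain ⟨P5, s5, hP5, hs5, hd5, hL5⟩ := hIp K δ hδ (u₁ g w) (u₂ g w) (c₅ g) 2 _ I5 I8 E5
  have F1 := (hFd K (u₁ g w) (DX (u₁ g w)) hDX I4).1
  have F2 := (hFd K (u₂ g w) (DX (u₁ g w)) hDX I5).1
  have d0 : dd P0 = 1 := (F1 _ _ _ hP0).trans M2
  have d3 : dd P3 = 3 := (F2 _ _ _ hP3).trans (M3 _ I10)
  have r5 : rdeg (ir 2 (1 + C (2 * c₅ g * (2 * w + 1)) * X + C (c₅ g) * X ^ 2)) = 5 :=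
    M4 _ _ I12 I13
  have d5 : dd P5 = 5 := (F2 _ _ _ hP5).trans r5
  refine ⟨?_, ⟨P3, P5, hL3, hL5, d3, d5⟩⟩
  -- the point `Q₀`
  set r : RatFunc K := ir 2 (1 + C (2 * c₅ g * (2 * w + 1)) * X + C (c₅ g) * X ^ 2) with hr
  set c : K := c₃ (1 - g) (-1 - w) with hc
  have q1 : 8 * c * u₂ g w = c ^ 4 - 6 * c ^ 2 - 3 := by
    rw [← I2]
    exact J14
  have q2 : 8 * c ^ 3 * u₁ g w = c ^ 4 + 18 * c ^ 2 - 27 := by
    rw [← I3]
    exact J15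
  have Q1 : 8 * kc c * kc (u₂ g w) = kc c ^ 4 - 6 * kc c ^ 2 - 3 := by
    have h := congrArg (RatFunc.C (K := K)) q1
    simpa only [map_mul, map_sub, map_pow, map_ofNat] using h
  have Q2 : 8 * kc c ^ 3 * kc (u₁ g w) = kc c ^ 4 + 18 * kc c ^ 2 - 27 := by
    have h := congrArg (RatFunc.C (K := K)) q2
    simpa only [map_mul, map_sub, map_add, map_pow, map_ofNat] using h
  have hkc : kc c ≠ 0 := by
    intro h0
    exact J7 ((map_eq_zero_iff _ RatFunc.C_injective).1 h0)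
  obtain ⟨G1, G2, G3, G4, G5, G6, G7, G8⟩ :=
    hGr (RatFunc K) (kc (u₂ g w)) (DX (u₁ g w)) h2 hDX (hsq _ I5)
  have heq := G1 P5 r s5 hP5
  have hne : 1 + kc c * r ≠ 0 := by
    intro h0
    have h1 : r = kc (-1 / c) := by
      have h3 : kc (-1 / c) = -1 / kc c := by
        rw [kc, map_div₀, map_neg, map_one]
      rw [h3, eq_div_iff hkc]
      linear_combination h0
    have h4 := R3 (-1 / c)
    rw [← h1, r5] at h4
    exact absurd h4 (by norm_num)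
  obtain ⟨A1, A2⟩ := hCp (RatFunc K) δ (kc (u₂ g w)) (kc (u₁ g w)) (kc c) (DX (u₁ g w)) r s5
    hδ.1 h2 hkc (D1 c) Q1 Q2 heq hne
  have A3 := A2 (kc (c₅ g)) hd5
  set r₂ : RatFunc K := r * (r + kc c) ^ 2 / (1 + kc c * r) ^ 2 with hr2
  set s₂ : RatFunc K := s5 * (r + kc c) * (kc c * r ^ 2 + (3 - kc c ^ 2) * r + kc c) /
    (kc c * (1 + kc c * r) ^ 3) with hs2
  have hcc : kc c * kc (c₅ g) = kc (d₀ g w) := by
    rw [← map_mul, hc, I11]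
  rw [hcc] at A3
  have hdeg : rdeg r₂ = 15 := by
    rw [hr2, hRt K c r J10 hne, r5]
  have hs2' : s₂ ≠ 0 := by
    intro h0
    rw [h0, mul_zero] at A3
    obtain ⟨a, ha⟩ := D4 r₂ A3
    rw [ha, R3] at hdeg
    exact absurd hdeg (by norm_num)
  obtain ⟨H1, H2, H3, H4, H5, H6, H7, H8⟩ :=
    hGr (RatFunc K) (kc (u₁ g w)) (DX (u₁ g w)) h2 hDX (hsq _ I4)
  obtain ⟨Q0, hQ0⟩ := H2 r₂ s₂ A1
  obtain ⟨L1, L2, L3⟩ := hLi (RatFunc K) δ (kc (u₁ g w)) (DX (u₁ g w)) hδ.1 h2 hDX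
    (hsq _ I4) (D1 _)
  exact ⟨P0, Q0, hL0, L1 Q0 r₂ s₂ _ hQ0 hs2' A3, d0, (F1 _ _ _ hQ0).trans hdeg⟩

end Pool.Agent.CVH
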