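import Pool.Agent.CVH.St

/-!
# CVH, module Fd: the degree of the points, the parallelogram inequality (helper30)
-/

set_option autoImplicit false

noncomputable section

namespace Pool.Agent.CVH

open Polynomial
open scoped Classical

private theorem Fd_const (hRd : St_Rd) {K : Type} [Field K] (u : K) (r : RatFunc K)
    (h : cub (kc u) r = 0) : rdeg r = 0 := by
  obtain ⟨R1, R2, R3, R4, R5⟩ := hRd K
  obtain ⟨A, B, hco, hB, hr⟩ := R2 r
  have hB0 : B ≠ 0 := hB.ne_zero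
  have hiB : io B ≠ 0 := by
    intro h0
    exact hB0 ((map_eq_zero_iff _ (RatFunc.algebraMap_injective K)).1 h0)
  have hkc : kc u = io (C u) := (RatFunc.algebraMap_C u).symm
  have hpoly : A * (A ^ 2 - 2 * C u * (A * B) + B ^ 2) = 0 := by
    apply RatFunc.algebraMap_injective K
    have h1 : io A = r * io B := by
      rw [hr]
      field_simp
    rw [map_mul, map_add, map_sub, map_mul, map_mul, map_mul, map_pow, map_pow, map_zero,
      map_ofNat]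
    change io A * (io A ^ 2 - 2 * io (C u) * (io A * io B) + io B ^ 2) = 0
    rw [h1, ← hkc]
    have h2 : r * io B * ((r * io B) ^ 2 - 2 * kc u * (r * io B * io B) + io B ^ 2) =
        io B ^ 3 * cub (kc u) r := by
      unfold cub
      ring
    rw [h2, h, mul_zero]
  rcases mul_eq_zero.1 hpoly with hA | hq
  · have h0 : r = kc 0 := by
      have z1 : io (0 : K[X]) = 0 := map_zero (algebraMap K[X] (RatFunc K))
      have z2 : kc (0 : K) = 0 := map_zero RatFunc.C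
      rw [hr, hA, z1, z2, zero_div]
    rw [h0]
    exact R3 0
  · have hBA : B ∣ A ^ 2 := ⟨2 * C u * A - B, by linear_combination hq⟩
    have hAB : A ∣ B ^ 2 := ⟨2 * C u * B - A, by linear_combination hq⟩
    have hBu : IsUnit B := (hco.symm.pow_right (n := 2)).isUnit_of_dvd' dvd_rfl hBA
    have hAu : IsUnit A := (hco.pow_right (n := 2)).isUnit_of_dvd' dvd_rfl hAB
    rw [hr, R1 A B hco hB0, natDegree_eq_zero_of_isUnit hBu, natDegree_eq_zero_of_isUnit hAu]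
    rfl

theorem thm_Fd (hGr : St_Gr) (hGs : St_Gs) (hRd : St_Rd) (hRp : St_Rp) (hRq : St_Rq) :
    St_Fd := by
  intro K _ _ u D hD hu
  have h2 : (2 : RatFunc K) ≠ 0 := by
    have h3 : (2 : RatFunc K) = kc (2 : K) := by
      rw [kc, map_ofNat]
    rw [h3]
    intro h0
    exact two_ne_zero ((map_eq_zero_iff _ RatFunc.C_injective).1 h0)
  have hu' : (kc u) ^ 2 ≠ 1 := by
    intro h0
    apply hu
    apply RatFunc.C_injective (K := K)
    rw [map_pow, map_one]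
    exact h0
  obtain ⟨G1, G2, G3, G4, G5, G6, G7, G8⟩ := hGr (RatFunc K) (kc u) D h2 hD hu'
  obtain ⟨S1, S2⟩ := hGs (RatFunc K) (kc u) D h2 hD hu'
  have h0 : ∀ (P : Ps (kc u) D) (r s : RatFunc K), Pt P r s → dd P = rdeg r := by
    rintro P r s ⟨h, rfl⟩
    show rdeg (D * r / D) = rdeg r
    rw [mul_div_cancel_left₀ _ hD]
  have hz : dd (0 : Ps (kc u) D) = 0 := rfl
  have hneg : ∀ P : Ps (kc u) D, dd (-P) = dd P := by
    intro P
    by_cases hP : P = 0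
    · rw [hP, neg_zero]
    · obtain ⟨r, s, hrs⟩ := G3 P hP
      rw [h0 _ _ _ (G6 P r s hrs), h0 _ _ _ hrs]
  have hdbl : ∀ P : Ps (kc u) D, dd (P + P) = 4 * dd P := by
    intro P
    by_cases hP : P = 0
    · rw [hP, add_zero, hz]
    · obtain ⟨r, s, hrs⟩ := G3 P hP
      have hc := G1 P r s hrs
      by_cases hs : s = 0
      · rw [hs] at hrs hc
        rw [(G8 P r hrs).1, hz, h0 _ _ _ hrs, Fd_const hRd u r (by rw [← hc]; ring)]
      · have hl : dcub (kc u) r / (2 * D * s) * (2 * D * s) = dcub (kc u) r := by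
          refine div_mul_cancel₀ _ ?_
          exact mul_ne_zero (mul_ne_zero h2 hD) hs
        set l := dcub (kc u) r / (2 * D * s) with hldef
        have hPP := S2 P r s l hrs hs hl
        rw [h0 _ _ _ hPP, h0 _ _ _ hrs]
        refine hRq K u r _ hu ?_ ?_
        · rw [← hc]
          exact mul_ne_zero hD (pow_ne_zero 2 hs)
        · have e1 : (D * l ^ 2 + 2 * kc u - 2 * r) * (4 * cub (kc u) r) =
              dcub (kc u) r ^ 2 + (2 * kc u - 2 * r) * (4 * cub (kc u) r) := by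
            rw [← hl, ← hc]
            ring
          rw [e1]
          unfold dcub cub
          ring
  refine ⟨h0, hdbl, ?_⟩
  intro P Q
  by_cases hP : P = 0
  · rw [hP, zero_add, zero_sub, hneg, hz]
    omega
  by_cases hQ : Q = 0
  · rw [hQ, add_zero, sub_zero, hz]
    omega
  obtain ⟨r₁, s₁, hP1⟩ := G3 P hP
  obtain ⟨r₂, s₂, hQ1⟩ := G3 Q hQ
  by_cases hr : r₁ = r₂
  · subst hr
    rcases G7 P Q r₁ s₁ s₂ hP1 hQ1 with ⟨h, _⟩ | ⟨h, _⟩
    · rw [h, sub_self, hz, hdbl]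
      omega
    · rw [h, add_neg_cancel, sub_neg_eq_add, hz, hdbl, hneg]
      omega
  · have hd : r₁ - r₂ ≠ 0 := sub_ne_zero.2 hr
    have c1 := G1 P r₁ s₁ hP1
    have c2 := G1 Q r₂ s₂ hQ1
    have hl : (s₁ - s₂) / (r₁ - r₂) * (r₁ - r₂) = s₁ - s₂ := div_mul_cancel₀ _ hd
    have hm : (s₁ - -s₂) / (r₁ - r₂) * (r₁ - r₂) = s₁ - -s₂ := div_mul_cancel₀ _ hd
    set l := (s₁ - s₂) / (r₁ - r₂) with hldef
    set m := (s₁ - -s₂) / (r₁ - r₂) with hmdef
    have hA := S1 P Q r₁ s₁ r₂ s₂ l hP1 hQ1 hr hl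
    have hB := S1 P (-Q) r₁ s₁ r₂ (-s₂) m hP1 (G6 Q r₂ s₂ hQ1) hr hm
    rw [sub_eq_add_neg P Q, h0 _ _ _ hA, h0 _ _ _ hB, h0 _ _ _ hP1, h0 _ _ _ hQ1]
    have e3 : (r₁ - r₂) ^ 2 * (D * l ^ 2 + 2 * kc u - r₁ - r₂) =
        D * (s₁ - s₂) ^ 2 + (2 * kc u - r₁ - r₂) * (r₁ - r₂) ^ 2 := by
      rw [← hl]
      ring
    have e4 : (r₁ - r₂) ^ 2 * (D * m ^ 2 + 2 * kc u - r₁ - r₂) =
        D * (s₁ + s₂) ^ 2 + (2 * kc u - r₁ - r₂) * (r₁ - r₂) ^ 2 := by
      have : s₁ + s₂ = m * (r₁ - r₂) := by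
        rw [hm]
        ring
      rw [this]
      ring
    refine hRp K u r₁ r₂ _ _ hr ?_ ?_
    · rw [mul_add, e3, e4]
      have e5 : D * (s₁ - s₂) ^ 2 + (2 * kc u - r₁ - r₂) * (r₁ - r₂) ^ 2 +
          (D * (s₁ + s₂) ^ 2 + (2 * kc u - r₁ - r₂) * (r₁ - r₂) ^ 2) =
          2 * (D * s₁ ^ 2) + 2 * (D * s₂ ^ 2) +
            2 * ((2 * kc u - r₁ - r₂) * (r₁ - r₂) ^ 2) := by ring
      rw [e5, c1, c2]
      unfold cub
      ring
    · have hd2 : (r₁ - r₂) ^ 2 ≠ 0 := pow_ne_zero 2 hd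
      apply mul_left_cancel₀ hd2
      have e5 : (r₁ - r₂) ^ 2 * ((r₁ - r₂) ^ 2 * ((D * l ^ 2 + 2 * kc u - r₁ - r₂) *
          (D * m ^ 2 + 2 * kc u - r₁ - r₂))) =
          ((r₁ - r₂) ^ 2 * (D * l ^ 2 + 2 * kc u - r₁ - r₂)) *
            ((r₁ - r₂) ^ 2 * (D * m ^ 2 + 2 * kc u - r₁ - r₂)) := by ring
      rw [e5, e3, e4]
      have e6 : (D * (s₁ - s₂) ^ 2 + (2 * kc u - r₁ - r₂) * (r₁ - r₂) ^ 2) *
          (D * (s₁ + s₂) ^ 2 + (2 * kc u - r₁ - r₂) * (r₁ - r₂) ^ 2) =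
          (D * s₁ ^ 2 + D * s₂ ^ 2 + (2 * kc u - r₁ - r₂) * (r₁ - r₂) ^ 2) ^ 2 -
            4 * (D * s₁ ^ 2) * (D * s₂ ^ 2) := by ring
      rw [e6, c1, c2]
      unfold cub
      ring

end Pool.Agent.CVH
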