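import Pool.Agent.CVH.St

/-!
# CVH, Gp: from two points to two isogenies
-/

set_option autoImplicit false

noncomputable section

namespace Pool.Agent.CVH

open Polynomial
open scoped Classical

private theorem Gp_one (hGr : St_Gr) (hFd : St_Fd) (hSf : St_Sf) (hSe : St_Se) (K : Type) [Field K]
    [CharZero K] (δ : RatFunc K → RatFunc K) (hδ : IsDer δ) (u u' μ : K) (h2 : (2 : RatFunc K) ≠ 0)
    (hD : DX u ≠ 0) (hu : u' ^ 2 ≠ 1) (hu' : (kc u') ^ 2 ≠ 1) (hz : ∀ z : K, z ^ 2 ≠ -1)
    (hirr : Irreducible (X ^ 2 - C (2 * u) * X + 1 : K[X])) (P : Ps (kc u') (DX u)) (m : ℕ)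
    (hL : Lg δ P (kc μ)) (hd : dd P = 2 * m + 1) (hμ : μ ≠ 0) : ∃ D : K[X], Iso u u' μ m D := by
  rcases hL with ⟨h0, -⟩ | ⟨r, s, hP, hr, -⟩
  · exfalso
    rw [h0] at hd
    have h1 : dd (0 : Ps (kc u') (DX u)) = 0 := rfl
    omega
  · have h1 := (hGr (RatFunc K) (kc u') (DX u) h2 hD hu').1 P r s hP
    have h3 := (hFd K u' (DX u) hD hu).1 P r s hP
    have h4 := hSf K δ hδ u u' μ r (by
      rw [hr, ← h1]
      ring)
    refine hSe K u u' μ r.num r.denom m hμ hz hirr r.isCoprime_num_denom h4 ?_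
    have h5 : max r.num.natDegree r.denom.natDegree = rdeg r := rfl
    rw [h5, ← h3, hd]

theorem thm_Gp (hDc : St_Dc) (hGr : St_Gr) (hLt : St_Lt) (hFd : St_Fd) (hAb : St_Ab) (hSf : St_Sf)
    (hSe : St_Se) : St_Gp := by
  intro K _ _ δ hδ u u' hu hz hirr P Q c c' i j x y hP hQ hi hj hio hjo hxy hμ hμ'
  have hCinj : Function.Injective (RatFunc.C : K →+* RatFunc K) := RingHom.injective _
  have h2 : (2 : RatFunc K) ≠ 0 := by
    intro h
    have h1 : (RatFunc.C (2 : K) : RatFunc K) = RatFunc.C 0 := by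
      rw [map_ofNat, map_zero]
      exact h
    have h3 : (2 : K) = 0 := hCinj h1
    exact two_ne_zero h3
  have hD : DX u ≠ 0 := by
    have h1 : DX u = io (X * (X ^ 2 - C (2 * u) * X + 1)) := by
      unfold DX cub
      simp only [map_mul, map_add, map_sub, map_pow, map_one, RatFunc.algebraMap_X,
        RatFunc.algebraMap_C, map_ofNat]
      ring
    rw [h1]
    intro h3
    have h4 : (X * (X ^ 2 - C (2 * u) * X + 1) : K[X]) = 0 := by
      apply RatFunc.algebraMap_injective K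
      rw [map_zero]
      exact h3
    rcases mul_eq_zero.1 h4 with h5 | h5
    · exact X_ne_zero h5
    · exact hirr.ne_zero h5
  have hu' : (kc u' : RatFunc K) ^ 2 ≠ 1 := by
    intro h
    apply hu
    apply hCinj
    rw [map_pow, map_one]
    exact h
  have hδu : δ (kc u') = 0 := (hDc K δ hδ).1 u'
  have hLg := (hLt (RatFunc K) δ (kc u') (DX u) hδ.1 h2 hD hu' hδu).2
  obtain ⟨-, f1, f2⟩ := hFd K u' (DX u) hD hu
  have hab := hAb (Ps (kc u') (DX u)) dd f1 f2 P Q
  have hp := hab x y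
  have hm := hab x (-y)
  rw [hi, hj] at hp hm
  obtain ⟨b, hb⟩ : ∃ b : ℤ, b = (dd (P + Q) : ℤ) - i - j := ⟨_, rfl⟩
  rw [← hb] at hp hm
  -- parities
  have hxye : Even (x * y) := by
    rcases Int.even_or_odd x with h | h
    · exact h.mul_right y
    · have h1 : Even y := by
        by_contra h3
        rw [Int.not_even_iff_odd] at h3
        exact (Int.not_even_iff_odd.2 hxy) (h.add_odd h3)
      exact h1.mul_left x
  have hodd : Odd (x ^ 2 * (i : ℤ) + y ^ 2 * (j : ℤ)) := by
    have hi' : Odd (i : ℤ) := by exact_mod_cast hio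
    have hj' : Odd (j : ℤ) := by exact_mod_cast hjo
    rcases Int.even_or_odd x with h | h
    · have h1 : Odd y := by
        by_contra h3
        rw [Int.not_odd_iff_even] at h3
        exact (Int.not_even_iff_odd.2 hxy) (h.add h3)
      exact ((h.pow_of_ne_zero two_ne_zero).mul_right _).add_odd (h1.pow.mul hj')
    · have h1 : Even y := by
        by_contra h3
        rw [Int.not_even_iff_odd] at h3
        exact (Int.not_even_iff_odd.2 hxy) (h.add_odd h3)
      exact (h.pow.mul hi').add_even ((h1.pow_of_ne_zero two_ne_zero).mul_right _)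
  have hop : Odd (dd (x • P + y • Q) : ℤ) := by
    rw [hp]
    exact hodd.add_even (hxye.mul_right b)
  have hom : Odd (dd (x • P + (-y) • Q) : ℤ) := by
    rw [hm]
    have e : x ^ 2 * (i : ℤ) + (-y) ^ 2 * (j : ℤ) + x * (-y) * b =
      (x ^ 2 * (i : ℤ) + y ^ 2 * (j : ℤ)) + x * y * (-b) := by ring
    rw [e]
    exact hodd.add_even (hxye.mul_right _)
  obtain ⟨m, hm1⟩ : Odd (dd (x • P + y • Q)) := by exact_mod_cast hop
  obtain ⟨m', hm2⟩ : Odd (dd (x • P + (-y) • Q)) := by exact_mod_cast hom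
  -- the multipliers
  have hk1 : Lg δ (x • P + y • Q) (kc ((x : K) * c + (y : K) * c')) := by
    have h1 := hLg P Q (kc c) (kc c') x y hP hQ
    have e : (kc ((x : K) * c + (y : K) * c') : RatFunc K) =
        (x : RatFunc K) * kc c + (y : RatFunc K) * kc c' := by
      show (RatFunc.C ((x : K) * c + (y : K) * c') : RatFunc K) =
        (x : RatFunc K) * RatFunc.C c + (y : RatFunc K) * RatFunc.C c'
      rw [map_add, map_mul, map_mul, map_intCast, map_intCast]
    rw [e]
    exact h1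
  have hk2 : Lg δ (x • P + (-y) • Q) (kc ((x : K) * c - (y : K) * c')) := by
    have h1 := hLg P Q (kc c) (kc c') x (-y) hP hQ
    have e : (kc ((x : K) * c - (y : K) * c') : RatFunc K) =
        (x : RatFunc K) * kc c + ((-y : ℤ) : RatFunc K) * kc c' := by
      show (RatFunc.C ((x : K) * c - (y : K) * c') : RatFunc K) =
        (x : RatFunc K) * RatFunc.C c + ((-y : ℤ) : RatFunc K) * RatFunc.C c'
      rw [map_sub, map_mul, map_mul, map_intCast, map_intCast]
      push_cast
      ring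
    rw [e]
    exact h1
  obtain ⟨D, hD1⟩ := Gp_one hGr hFd hSf hSe K δ hδ u u' _ h2 hD hu hu' hz hirr _ m hk1 hm1 hμ
  obtain ⟨D', hD2⟩ := Gp_one hGr hFd hSf hSe K δ hδ u u' _ h2 hD hu hu' hz hirr _ m' hk2 hm2 hμ'
  refine ⟨m, m', D, D', hD1, hD2, ?_⟩
  rw [hm1] at hp
  rw [hm2] at hm
  push_cast at hp hm ⊢
  linear_combination hp + hm

end Pool.Agent.CVH
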