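import Pool.Agent.CVH.St

/-!
# CVH Gr: the points of the curve `WD u D` and their coordinates
-/

set_option autoImplicit false

noncomputable section

namespace Pool.Agent.CVH

open Polynomial
open scoped Classical

private lemma Gr_dcub {F : Type} [Field F] {u r : F} (h2 : (2 : F) ≠ 0) (hu : u ^ 2 ≠ 1)
    (h : cub u r = 0) : dcub u r ≠ 0 := by
  intro hd
  have h1 : r * (r ^ 2 - 2 * u * r + 1) = 0 := by
    have : r * (r ^ 2 - 2 * u * r + 1) = cub u r := by unfold cub; ring
    rw [this, h]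
  rcases mul_eq_zero.1 h1 with h0 | h0
  · rw [h0] at hd
    simp [dcub] at hd
  · have h3 : (2 * r) * (r - u) = 0 := by
      have : (2 * r) * (r - u) = dcub u r - (r ^ 2 - 2 * u * r + 1) := by unfold dcub; ring
      rw [this, hd, h0, sub_zero]
    rcases mul_eq_zero.1 h3 with h4 | h4
    · rcases mul_eq_zero.1 h4 with h5 | h5
      · exact h2 h5
      · rw [h5] at hd
        simp [dcub] at hd
    · have h5 : r = u := sub_eq_zero.1 h4
      apply hu
      rw [h5] at h0
      linear_combination -h0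

private lemma Gr_equ {F : Type} [Field F] {u D : F} (hD : D ≠ 0) (r s : F) :
    (WD u D).Equation (D * r) (D ^ 2 * s) ↔ D * s ^ 2 = cub u r := by
  rw [WeierstrassCurve.Affine.equation_iff]
  simp only [WD]
  constructor
  · intro h
    have h3 : D ^ 3 * (D * s ^ 2) = D ^ 3 * cub u r := by
      unfold cub
      linear_combination h
    exact mul_left_cancel₀ (pow_ne_zero 3 hD) h3
  · intro h
    unfold cub at h
    linear_combination D ^ 3 * h

private lemma Gr_non {F : Type} [Field F] {u D : F} (h2 : (2 : F) ≠ 0) (hD : D ≠ 0)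
    (hu : u ^ 2 ≠ 1) (r s : F) (h : D * s ^ 2 = cub u r) :
    (WD u D).Nonsingular (D * r) (D ^ 2 * s) := by
  rw [WeierstrassCurve.Affine.nonsingular_iff']
  refine ⟨(Gr_equ hD r s).2 h, ?_⟩
  simp only [WD]
  by_cases hs : s = 0
  · left
    rw [hs] at h
    have hc : cub u r = 0 := by rw [← h]; ring
    have hd := Gr_dcub h2 hu hc
    intro h3
    apply mul_ne_zero (pow_ne_zero 2 hD) hd
    unfold dcub
    linear_combination -h3
  · right
    intro h3
    apply mul_ne_zero h2 (mul_ne_zero (pow_ne_zero 2 hD) hs)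
    linear_combination h3

private lemma Gr_neg {F : Type} [Field F] {u D : F} {P : Ps u D} {r s : F} (h : Pt P r s) :
    Pt (-P) r (-s) := by
  obtain ⟨h, rfl⟩ := h
  have hn : (WD u D).negY (D * r) (D ^ 2 * s) = D ^ 2 * -s := by
    simp only [WeierstrassCurve.Affine.negY, WD]
    ring
  unfold Pt
  rw [WeierstrassCurve.Affine.Point.neg_some, ← hn]
  exact ⟨_, rfl⟩

private lemma Gr_unq {F : Type} [Field F] {u D : F} {P Q : Ps u D} {r s : F} (h : Pt P r s)
    (h' : Pt Q r s) : Q = P := by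
  obtain ⟨h, rfl⟩ := h
  obtain ⟨h', rfl⟩ := h'
  rfl

theorem thm_Gr : St_Gr := by
  intro F _ u D h2 hD hu
  have e1 : ∀ (P : Ps u D) (r s : F), Pt P r s → D * s ^ 2 = cub u r := by
    rintro P r s ⟨h, -⟩
    exact (Gr_equ hD r s).1 h.1
  refine ⟨e1, ?_, ?_, ?_, ?_, fun P r s h => Gr_neg h, ?_, ?_⟩
  · intro r s h
    exact ⟨_, Gr_non h2 hD hu r s h, rfl⟩
  · intro P hP
    cases P with
    | zero => exact absurd rfl hP
    | some x y h =>
      refine ⟨x / D, y / D ^ 2, ?_⟩
      have hx : D * (x / D) = x := mul_div_cancel₀ x hD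
      have hy : D ^ 2 * (y / D ^ 2) = y := mul_div_cancel₀ y (pow_ne_zero 2 hD)
      unfold Pt
      rw [hx, hy]
      exact ⟨h, rfl⟩
  · rintro P r s ⟨h, rfl⟩
    exact WeierstrassCurve.Affine.Point.some_ne_zero h
  · rintro P r s r' s' ⟨h, rfl⟩ ⟨h', he⟩
    rw [WeierstrassCurve.Affine.Point.some.injEq] at he
    exact ⟨mul_left_cancel₀ hD he.1, mul_left_cancel₀ (pow_ne_zero 2 hD) he.2⟩
  · intro P Q r s s' h h'
    have h3 : s' ^ 2 = s ^ 2 :=
      mul_left_cancel₀ hD ((e1 Q r s' h').trans (e1 P r s h).symm)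
    rcases sq_eq_sq_iff_eq_or_eq_neg.1 h3 with h4 | h4
    · left
      subst h4
      exact ⟨Gr_unq h h', rfl⟩
    · right
      subst h4
      exact ⟨Gr_unq (Gr_neg h) h', rfl⟩
  · intro P r h
    have hc : cub u r = 0 := by rw [← e1 P r 0 h]; ring
    refine ⟨?_, Gr_dcub h2 hu hc⟩
    obtain ⟨h, rfl⟩ := h
    apply WeierstrassCurve.Affine.Point.add_self_of_Y_eq
    simp only [WeierstrassCurve.Affine.negY, WD]
    ring

end Pool.Agent.CVH
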