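import Pool.Agent.CVH.St

/-!
# CVH, module Gs: addition and duplication in coordinates (proved by helper17)
-/

set_option autoImplicit false

noncomputable section

namespace Pool.Agent.CVH

open Polynomial
open scoped Classical

theorem Gs_mk {F : Type} [Field F] {u D : F} {P : Ps u D} {x y r s : F} {h}
    (hP : P = WeierstrassCurve.Affine.Point.some x y h) (hx : x = D * r) (hy : y = D ^ 2 * s) : Pt P r s := by
  subst hx hy
  exact ⟨h, hP⟩

theorem thm_Gs (hGr : St_Gr) : St_Gs := by
  intro F _ u D h2 hD hu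
  have _ := hGr
  constructor
  · rintro P Q r₁ s₁ r₂ s₂ l ⟨h1, rfl⟩ ⟨h2', rfl⟩ hr hl
    have hX : D * r₁ ≠ D * r₂ := fun h => hr (mul_left_cancel₀ hD h)
    have hslope : (WD u D).slope (D * r₁) (D * r₂) (D ^ 2 * s₁) (D ^ 2 * s₂) = D * l := by
      rw [WeierstrassCurve.Affine.slope_of_X_ne hX, div_eq_iff (sub_ne_zero.2 hX)]
      linear_combination (-D ^ 2) * hl
    refine Gs_mk (WeierstrassCurve.Affine.Point.add_of_X_ne hX) ?_ ?_
    · rw [hslope]
      simp only [WeierstrassCurve.Affine.addX, WD]
      ring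
    · rw [hslope]
      simp only [WeierstrassCurve.Affine.addX, WeierstrassCurve.Affine.addY, WeierstrassCurve.Affine.negAddY,
        WeierstrassCurve.Affine.negY, WD]
      ring
  · rintro P r s l ⟨h1, rfl⟩ hs hl
    have hY : D ^ 2 * s ≠ (WD u D).negY (D * r) (D ^ 2 * s) := by
      intro h
      simp only [WeierstrassCurve.Affine.negY, WD] at h
      have h3 : 2 * (D ^ 2 * s) = 0 := by linear_combination h
      have h4 := mul_ne_zero h2 (mul_ne_zero (pow_ne_zero 2 hD) hs)
      exact h4 h3
    have hslope : (WD u D).slope (D * r) (D * r) (D ^ 2 * s) (D ^ 2 * s) = D * l := by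
      rw [WeierstrassCurve.Affine.slope_of_Y_ne rfl hY, div_eq_iff (sub_ne_zero.2 hY)]
      simp only [WeierstrassCurve.Affine.negY, WD]
      rw [dcub] at hl
      linear_combination (-D ^ 2) * hl
    refine Gs_mk (WeierstrassCurve.Affine.Point.add_self_of_Y_ne hY) ?_ ?_
    · rw [hslope]
      simp only [WeierstrassCurve.Affine.addX, WD]
      ring
    · rw [hslope]
      simp only [WeierstrassCurve.Affine.addX, WeierstrassCurve.Affine.addY, WeierstrassCurve.Affine.negAddY,
        WeierstrassCurve.Affine.negY, WD]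
      ring

end Pool.Agent.CVH
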