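import Pool.Agent.CVH.St

/-! CVH, module Ic: the constants. -/

set_option autoImplicit false

noncomputable section

namespace Pool.Agent.CVH

open Polynomial
open scoped Classical

private lemma Ic_g {K : Type} [Field K] {g w : K} (h : Kg g w) : g ≠ 0 := by
  intro hg
  have := h.hg
  rw [hg] at this
  norm_num at this

private lemma Ic_u1 {K : Type} [Field K] {g w : K} (h : Kg g w) :
    u₁ g w ^ 2 - 1 = -(8 * g ^ 4) ^ 2 := by
  unfold u₁
  linear_combination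
    (64 * g ^ 6 + 64 * g ^ 5 + 128 * g ^ 4 + 192 * g ^ 3 + 320 * g ^ 2 + 512 * g + 784 * w
      ^ 2 + 784 * w + 1028) * h.hg + (1792 * g + 1108) * h.hw

private lemma Ic_c3 {K : Type} [Field K] {g w : K} (h : Kg g w) :
    c₃ g w ^ 2 = -3 * g ^ 6 := by
  unfold c₃
  linear_combination
    (3 * g ^ 4 + 3 * g ^ 3 + 6 * g ^ 2 + 9 * g + 16 * w ^ 2 + 16 * w + 19) * h.hg + (32 *
      g + 20) * h.hw

private lemma Ic_c31 {K : Type} [Field K] {g w : K} (h : Kg g w) :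
    c₃ g w ^ 2 - 1 = -8 * g ^ 4 := by
  unfold c₃
  linear_combination
    (8 * g ^ 2 + 8 * g + 16 * w ^ 2 + 16 * w + 20) * h.hg + (32 * g + 20) * h.hw

private lemma Ic_swap {K : Type} [Field K] {g w : K} (h : Kg g w) : Kg (1 - g) (-1 - w) :=
  ⟨by linear_combination h.hg, by linear_combination h.hw, h.hi⟩

private lemma Ic_irr {K : Type} [Field K] [CharZero K] {g w : K} (h : Kg g w) :
    Irreducible (X ^ 2 - C (2 * u₁ g w) * X + 1 : K[X]) := by
  have hd : (X ^ 2 - C (2 * u₁ g w) * X + 1 : K[X]).natDegree = 2 := by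
    compute_degree
    · norm_num
    · norm_num
  have hm : (X ^ 2 - C (2 * u₁ g w) * X + 1 : K[X]).Monic := by
    rw [Monic, leadingCoeff, hd]
    simp [coeff_one]
  rw [hm.irreducible_iff_roots_eq_zero_of_degree_le_three (by rw [hd]) (by rw [hd]; norm_num)]
  rw [Multiset.eq_zero_iff_forall_notMem]
  intro z hz
  have hz' := (mem_roots'.1 hz).2
  rw [IsRoot.def] at hz'
  simp only [eval_add, eval_sub, eval_mul, eval_pow, eval_X, eval_C, eval_one] at hz'
  have h8 : (8 * g ^ 4 : K) ≠ 0 := mul_ne_zero (by norm_num) (pow_ne_zero 4 (Ic_g h))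
  refine h.hi ((z - u₁ g w) / (8 * g ^ 4)) ?_
  rw [div_pow, div_eq_iff (pow_ne_zero 2 h8)]
  linear_combination hz' + Ic_u1 h

theorem thm_Ic : St_Ic := by
  intro K _ _ g w h
  have hg0 : g ≠ 0 := Ic_g h
  have hs := Ic_swap h
  have e12 : u₁ (1 - g) (-1 - w) = u₂ g w := by
    unfold u₁ u₂
    ring
  have e21 : u₂ (1 - g) (-1 - w) = u₁ g w := by
    unfold u₁ u₂
    ring
  refine ⟨hs, e12, e21, ?_, ?_, Ic_irr h, ?_, ?_, ?_, ?_, ?_, ?_, ?_, ?_, ?_⟩
  · intro hu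
    have h1 := Ic_u1 h
    rw [hu] at h1
    have h2 : (8 * g ^ 4) ^ 2 ≠ 0 := pow_ne_zero 2 (mul_ne_zero (by norm_num) (pow_ne_zero 4 hg0))
    exact h2 (by linear_combination h1)
  · intro hu
    have h1 := Ic_u1 hs
    rw [e12, hu] at h1
    have h2 : (8 * (1 - g) ^ 4) ^ 2 ≠ 0 :=
      pow_ne_zero 2 (mul_ne_zero (by norm_num) (pow_ne_zero 4 (Ic_g hs)))
    exact h2 (by linear_combination h1)
  · intro hc
    have h1 := Ic_c3 h
    rw [hc] at h1
    have h2 : (-3 * g ^ 6 : K) ≠ 0 := mul_ne_zero (by norm_num) (pow_ne_zero 6 hg0)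
    exact h2 (by rw [← h1]; ring)
  · intro hc
    unfold c₅ at hc
    have h1 : (5 : K) = 0 := by
      linear_combination (4 * g - 7) * hc + 16 * h.hg
    norm_num at h1
  · unfold d₀
    linear_combination (16 * w ^ 2 + 16 * w + 4) * h.hg + (20) * h.hw
  · intro hc
    have h1 := Ic_c31 h
    rw [hc] at h1
    have h2 : (-8 * g ^ 4 : K) ≠ 0 := mul_ne_zero (by norm_num) (pow_ne_zero 4 hg0)
    exact h2 (by rw [← h1]; ring)
  · unfold c₃ c₅ d₀
    linear_combination (16 * w + 8) * h.hg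
  · intro hc
    unfold c₅ at hc
    have h1 : (1 : K) = 0 := by
      linear_combination (-1 / 4 * (2 - g)) * hc + 1 * h.hg
    norm_num at h1
  · intro hc
    unfold c₅ at hc
    have h1 : (64 * g ^ 6 : K) = 0 := by
      linear_combination hc - (
        (-64 * g ^ 4 - 64 * g ^ 3 - 128 * g ^ 2 - 192 * g - 256 * w ^ 2 - 256 * w - 368) *
        h.hg + (-640 * g - 400) * h.hw)
    exact (mul_ne_zero (by norm_num) (pow_ne_zero 6 hg0)) h1
  · unfold c₃ u₁
    linear_combination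
      (-256 * g ^ 2 * w ^ 4 - 512 * g ^ 2 * w ^ 3 - 384 * g ^ 2 * w ^ 2 - 128 * g ^ 2 * w -
      16 * g ^ 2 - 768 * g * w ^ 4 - 1536 * g * w ^ 3 - 1152 * g * w ^ 2 - 384 * g * w - 48
      * g - 1408 * w ^ 4 - 2816 * w ^ 3 - 2912 * w ^ 2 - 1504 * w - 288) * h.hg + (-2304 * g
      * w ^ 2 - 2304 * g * w - 576 * g - 1424 * w ^ 2 - 1424 * w - 352) * h.hw
  · unfold c₃ u₂
    linear_combination
      (-14592 * g ^ 2 * w ^ 4 - 29184 * g ^ 2 * w ^ 3 - 21888 * g ^ 2 * w ^ 2 - 7296 * g ^ 2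
      * w - 912 * g ^ 2 - 13056 * g * w ^ 4 - 26112 * g * w ^ 3 - 19584 * g * w ^ 2 - 6528 *
      g * w - 816 * g - 3456 * w ^ 4 - 6912 * w ^ 3 - 5472 * w ^ 2 - 2016 * w - 288) * h.hg
      + (-768 * g * w ^ 2 - 768 * g * w - 192 * g - 528 * w ^ 2 - 528 * w - 96) * h.hw

end Pool.Agent.CVH
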