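import Pool.Agent.CVH.St

/-! CVH: the explicit isogenies of degrees one, three and five. -/

set_option autoImplicit false

noncomputable section

namespace Pool.Agent.CVH

open Polynomial
open scoped Classical

private lemma Ie_rp1 {K : Type*} [Field K] (c : K) :
    rp 1 (1 + C c * X : K[X]) = X + C c := by
  have h : (1 + C c * X : K[X]) = C 1 * X ^ 0 + C c * X ^ 1 := by simp
  rw [rp, h, reflect_add, reflect_C_mul_X_pow, reflect_C_mul_X_pow, revAt_le (by norm_num),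
    revAt_le (by norm_num)]
  simp

private lemma Ie_rp2 {K : Type*} [Field K] (c d : K) :
    rp 2 (1 + C c * X + C d * X ^ 2 : K[X]) = X ^ 2 + C c * X + C d := by
  have h : (1 + C c * X + C d * X ^ 2 : K[X]) = C 1 * X ^ 0 + C c * X ^ 1 + C d * X ^ 2 := by simp
  rw [rp, h, reflect_add, reflect_add, reflect_C_mul_X_pow, reflect_C_mul_X_pow,
    reflect_C_mul_X_pow, revAt_le (by norm_num), revAt_le (by norm_num), revAt_le (by norm_num)]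
  simp

private lemma Ie_three {R : Type*} [CommRing R] (X G V : R) (hG : G ^ 2 = G + 1)
    (hV : V ^ 2 = -1 - V) :
    (X ^ 2 - 2 * ((14 * G + 9) * (2 * V + 1)) * X + 1) *
      ((X + -((2 * G + 1) * (2 * V + 1))) * (1 + -((2 * G + 1) * (2 * V + 1)) * X) +
        2 * X * (1 * (1 + -((2 * G + 1) * (2 * V + 1)) * X) -
          (X + -((2 * G + 1) * (2 * V + 1))) * -((2 * G + 1) * (2 * V + 1)))) ^ 2 =
      (-((2 * G + 1) * (2 * V + 1))) ^ 2 *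
        (X ^ 2 * (X + -((2 * G + 1) * (2 * V + 1))) ^ 4 -
          2 * ((14 * G - 23) * (2 * V + 1)) * X * (X + -((2 * G + 1) * (2 * V + 1))) ^ 2 *
            (1 + -((2 * G + 1) * (2 * V + 1)) * X) ^ 2 +
          (1 + -((2 * G + 1) * (2 * V + 1)) * X) ^ 4) := by
  linear_combination
    (
      14336 * X ^ 5 * G ^ 5 * V ^ 3 + 21504 * X ^ 5 * G ^ 5 * V ^ 2 - 3584 * X ^ 5 * G ^ 5 +
      5120 * X ^ 5 * G ^ 4 * V ^ 3 + 7680 * X ^ 5 * G ^ 4 * V ^ 2 - 1280 * X ^ 5 * G ^ 4 - 25600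
      * X ^ 5 * G ^ 3 * V ^ 3 - 38400 * X ^ 5 * G ^ 3 * V ^ 2 - 512 * X ^ 5 * G ^ 3 * V + 6144 *
      X ^ 5 * G ^ 3 - 28160 * X ^ 5 * G ^ 2 * V ^ 3 - 42240 * X ^ 5 * G ^ 2 * V ^ 2 - 896 * X ^
      5 * G ^ 2 * V + 6592 * X ^ 5 * G ^ 2 - 10880 * X ^ 5 * G * V ^ 3 - 16320 * X ^ 5 * G * V ^
      2 - 512 * X ^ 5 * G * V + 2464 * X ^ 5 * G - 1472 * X ^ 5 * V ^ 3 - 2208 * X ^ 5 * V ^ 2 -
      96 * X ^ 5 * V + 320 * X ^ 5 - 118784 * X ^ 4 * G ^ 6 * V ^ 4 - 237568 * X ^ 4 * G ^ 6 * V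
      ^ 3 - 89088 * X ^ 4 * G ^ 6 * V ^ 2 + 29696 * X ^ 4 * G ^ 6 * V - 51968 * X ^ 4 * G ^ 6 -
      110592 * X ^ 4 * G ^ 5 * V ^ 4 - 221184 * X ^ 4 * G ^ 5 * V ^ 3 - 82944 * X ^ 4 * G ^ 5 *
      V ^ 2 + 27648 * X ^ 4 * G ^ 5 * V - 48384 * X ^ 4 * G ^ 5 + 168960 * X ^ 4 * G ^ 4 * V ^ 4
      + 337920 * X ^ 4 * G ^ 4 * V ^ 3 + 111104 * X ^ 4 * G ^ 4 * V ^ 2 - 57856 * X ^ 4 * G ^ 4
      * V + 81728 * X ^ 4 * G ^ 4 + 317440 * X ^ 4 * G ^ 3 * V ^ 4 + 634880 * X ^ 4 * G ^ 3 * V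
      ^ 3 + 221184 * X ^ 4 * G ^ 3 * V ^ 2 - 96256 * X ^ 4 * G ^ 3 * V + 147328 * X ^ 4 * G ^ 3
      + 195840 * X ^ 4 * G ^ 2 * V ^ 4 + 391680 * X ^ 4 * G ^ 2 * V ^ 3 + 144960 * X ^ 4 * G ^ 2
      * V ^ 2 - 50880 * X ^ 4 * G ^ 2 * V + 87936 * X ^ 4 * G ^ 2 + 54528 * X ^ 4 * G * V ^ 4 +
      109056 * X ^ 4 * G * V ^ 3 + 43840 * X ^ 4 * G * V ^ 2 - 10688 * X ^ 4 * G * V + 23872 * X
      ^ 4 * G + 5824 * X ^ 4 * V ^ 4 + 11648 * X ^ 4 * V ^ 3 + 5184 * X ^ 4 * V ^ 2 - 640 * X ^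
      4 * V + 2560 * X ^ 4 + 229376 * X ^ 3 * G ^ 7 * V ^ 5 + 573440 * X ^ 3 * G ^ 7 * V ^ 4 +
      401408 * X ^ 3 * G ^ 7 * V ^ 3 + 28672 * X ^ 3 * G ^ 7 * V ^ 2 + 71680 * X ^ 3 * G ^ 7 * V
      + 50176 * X ^ 3 * G ^ 7 + 311296 * X ^ 3 * G ^ 6 * V ^ 5 + 778240 * X ^ 3 * G ^ 6 * V ^ 4
      + 544768 * X ^ 3 * G ^ 6 * V ^ 3 + 38912 * X ^ 3 * G ^ 6 * V ^ 2 + 97280 * X ^ 3 * G ^ 6 *
      V + 68096 * X ^ 3 * G ^ 6 - 270336 * X ^ 3 * G ^ 5 * V ^ 5 - 675840 * X ^ 3 * G ^ 5 * V ^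
      4 - 421888 * X ^ 3 * G ^ 5 * V ^ 3 + 43008 * X ^ 3 * G ^ 5 * V ^ 2 - 84480 * X ^ 3 * G ^ 5
      * V - 71936 * X ^ 3 * G ^ 5 - 839680 * X ^ 3 * G ^ 4 * V ^ 5 - 2099200 * X ^ 3 * G ^ 4 * V
      ^ 4 - 1466368 * X ^ 3 * G ^ 4 * V ^ 3 - 100352 * X ^ 3 * G ^ 4 * V ^ 2 - 262400 * X ^ 3 *
      G ^ 4 * V - 184448 * X ^ 3 * G ^ 4 - 727040 * X ^ 3 * G ^ 3 * V ^ 5 - 1817600 * X ^ 3 * G
      ^ 3 * V ^ 4 - 1394176 * X ^ 3 * G ^ 3 * V ^ 3 - 273664 * X ^ 3 * G ^ 3 * V ^ 2 - 222464 *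
      X ^ 3 * G ^ 3 * V - 126208 * X ^ 3 * G ^ 3 - 310272 * X ^ 3 * G ^ 2 * V ^ 5 - 775680 * X ^
      3 * G ^ 2 * V ^ 4 - 666368 * X ^ 3 * G ^ 2 * V ^ 3 - 223872 * X ^ 3 * G ^ 2 * V ^ 2 -
      91264 * X ^ 3 * G ^ 2 * V - 34176 * X ^ 3 * G ^ 2 - 67072 * X ^ 3 * G * V ^ 5 - 167680 * X
      ^ 3 * G * V ^ 4 - 163840 * X ^ 3 * G * V ^ 3 - 78080 * X ^ 3 * G * V ^ 2 - 18816 * X ^ 3 *
      G * V - 1984 * X ^ 3 * G - 5888 * X ^ 3 * V ^ 5 - 14720 * X ^ 3 * V ^ 4 - 16512 * X ^ 3 *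
      V ^ 3 - 10048 * X ^ 3 * V ^ 2 - 1600 * X ^ 3 * V + 384 * X ^ 3 - 118784 * X ^ 2 * G ^ 6 *
      V ^ 4 - 237568 * X ^ 2 * G ^ 6 * V ^ 3 - 89088 * X ^ 2 * G ^ 6 * V ^ 2 + 29696 * X ^ 2 * G
      ^ 6 * V - 51968 * X ^ 2 * G ^ 6 - 110592 * X ^ 2 * G ^ 5 * V ^ 4 - 221184 * X ^ 2 * G ^ 5
      * V ^ 3 - 82944 * X ^ 2 * G ^ 5 * V ^ 2 + 27648 * X ^ 2 * G ^ 5 * V - 48384 * X ^ 2 * G ^
      5 + 168960 * X ^ 2 * G ^ 4 * V ^ 4 + 337920 * X ^ 2 * G ^ 4 * V ^ 3 + 111104 * X ^ 2 * G ^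
      4 * V ^ 2 - 57856 * X ^ 2 * G ^ 4 * V + 81728 * X ^ 2 * G ^ 4 + 317440 * X ^ 2 * G ^ 3 * V
      ^ 4 + 634880 * X ^ 2 * G ^ 3 * V ^ 3 + 221184 * X ^ 2 * G ^ 3 * V ^ 2 - 96256 * X ^ 2 * G
      ^ 3 * V + 147328 * X ^ 2 * G ^ 3 + 195840 * X ^ 2 * G ^ 2 * V ^ 4 + 391680 * X ^ 2 * G ^ 2
      * V ^ 3 + 144960 * X ^ 2 * G ^ 2 * V ^ 2 - 50880 * X ^ 2 * G ^ 2 * V + 87936 * X ^ 2 * G ^
      2 + 54528 * X ^ 2 * G * V ^ 4 + 109056 * X ^ 2 * G * V ^ 3 + 43840 * X ^ 2 * G * V ^ 2 -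
      10688 * X ^ 2 * G * V + 23872 * X ^ 2 * G + 5824 * X ^ 2 * V ^ 4 + 11648 * X ^ 2 * V ^ 3 +
      5184 * X ^ 2 * V ^ 2 - 640 * X ^ 2 * V + 2560 * X ^ 2 + 14336 * X * G ^ 5 * V ^ 3 + 21504
      * X * G ^ 5 * V ^ 2 - 3584 * X * G ^ 5 + 5120 * X * G ^ 4 * V ^ 3 + 7680 * X * G ^ 4 * V ^
      2 - 1280 * X * G ^ 4 - 25600 * X * G ^ 3 * V ^ 3 - 38400 * X * G ^ 3 * V ^ 2 - 512 * X * G
      ^ 3 * V + 6144 * X * G ^ 3 - 28160 * X * G ^ 2 * V ^ 3 - 42240 * X * G ^ 2 * V ^ 2 - 896 *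
      X * G ^ 2 * V + 6592 * X * G ^ 2 - 10880 * X * G * V ^ 3 - 16320 * X * G * V ^ 2 - 512 * X
      * G * V + 2464 * X * G - 1472 * X * V ^ 3 - 2208 * X * V ^ 2 - 96 * X * V + 320 * X
    ) * hV + (
      8064 * X ^ 5 * G ^ 3 * V + 4032 * X ^ 5 * G ^ 3 + 10944 * X ^ 5 * G ^ 2 * V + 5472 * X ^ 5
      * G ^ 2 + 4992 * X ^ 5 * G * V + 2496 * X ^ 5 * G + 768 * X ^ 5 * V + 384 * X ^ 5 + 50112
      * X ^ 4 * G ^ 4 + 96768 * X ^ 4 * G ^ 3 + 66816 * X ^ 4 * G ^ 2 + 20160 * X ^ 4 * G + 2304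
      * X ^ 4 - 96768 * X ^ 3 * G ^ 5 * V - 48384 * X ^ 3 * G ^ 5 - 228096 * X ^ 3 * G ^ 4 * V -
      114048 * X ^ 3 * G ^ 4 - 182016 * X ^ 3 * G ^ 3 * V - 91008 * X ^ 3 * G ^ 3 - 54144 * X ^
      3 * G ^ 2 * V - 27072 * X ^ 3 * G ^ 2 - 1536 * X ^ 3 * G * V - 768 * X ^ 3 * G + 1536 * X
      ^ 3 * V + 768 * X ^ 3 + 50112 * X ^ 2 * G ^ 4 + 96768 * X ^ 2 * G ^ 3 + 66816 * X ^ 2 * G
      ^ 2 + 20160 * X ^ 2 * G + 2304 * X ^ 2 + 8064 * X * G ^ 3 * V + 4032 * X * G ^ 3 + 10944 *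
      X * G ^ 2 * V + 5472 * X * G ^ 2 + 4992 * X * G * V + 2496 * X * G + 768 * X * V + 384 * X
    ) * hG

private lemma Ie_five {R : Type*} [CommRing R] (X G V : R) (hG : G ^ 2 = G + 1)
    (hV : V ^ 2 = -1 - V) :
    (X ^ 2 - 2 * ((14 * G + 9) * (2 * V + 1)) * X + 1) *
      ((X ^ 2 + 2 * -(4 * G + 3) * (2 * V + 1) * X + -(4 * G + 3)) *
          (1 + 2 * -(4 * G + 3) * (2 * V + 1) * X + -(4 * G + 3) * X ^ 2) +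
        2 * X * ((2 * X + 2 * -(4 * G + 3) * (2 * V + 1)) *
            (1 + 2 * -(4 * G + 3) * (2 * V + 1) * X + -(4 * G + 3) * X ^ 2) -
          (X ^ 2 + 2 * -(4 * G + 3) * (2 * V + 1) * X + -(4 * G + 3)) *
            (2 * -(4 * G + 3) * (2 * V + 1) + -(4 * G + 3) * (2 * X)))) ^ 2 =
      (-(4 * G + 3)) ^ 2 *
        (X ^ 2 * (X ^ 2 + 2 * -(4 * G + 3) * (2 * V + 1) * X + -(4 * G + 3)) ^ 4 -
          2 * ((14 * G - 23) * (2 * V + 1)) * X *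
            (X ^ 2 + 2 * -(4 * G + 3) * (2 * V + 1) * X + -(4 * G + 3)) ^ 2 *
            (1 + 2 * -(4 * G + 3) * (2 * V + 1) * X + -(4 * G + 3) * X ^ 2) ^ 2 +
          (1 + 2 * -(4 * G + 3) * (2 * V + 1) * X + -(4 * G + 3) * X ^ 2) ^ 4) := by
  linear_combination
    (
      -458752 * X ^ 8 * G ^ 6 - 851968 * X ^ 8 * G ^ 5 + 352256 * X ^ 8 * G ^ 4 + 1964032 * X ^
      8 * G ^ 3 + 1817856 * X ^ 8 * G ^ 2 + 701568 * X ^ 8 * G + 100224 * X ^ 8 + 3670016 * X ^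
      7 * G ^ 7 * V + 1835008 * X ^ 7 * G ^ 7 + 6815744 * X ^ 7 * G ^ 6 * V + 3407872 * X ^ 7 *
      G ^ 6 - 3637248 * X ^ 7 * G ^ 5 * V - 1818624 * X ^ 7 * G ^ 5 - 17743872 * X ^ 7 * G ^ 4 *
      V - 8871936 * X ^ 7 * G ^ 4 - 16035840 * X ^ 7 * G ^ 3 * V - 8017920 * X ^ 7 * G ^ 3 -
      5584896 * X ^ 7 * G ^ 2 * V - 2792448 * X ^ 7 * G ^ 2 - 373248 * X ^ 7 * G * V - 186624 *
      X ^ 7 * G + 124416 * X ^ 7 * V + 62208 * X ^ 7 + 29360128 * X ^ 6 * G ^ 7 * V ^ 2 +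
      29360128 * X ^ 6 * G ^ 7 * V - 12845056 * X ^ 6 * G ^ 7 + 75497472 * X ^ 6 * G ^ 6 * V ^ 2
      + 75497472 * X ^ 6 * G ^ 6 * V - 33816576 * X ^ 6 * G ^ 6 + 12320768 * X ^ 6 * G ^ 5 * V ^
      2 + 12320768 * X ^ 6 * G ^ 5 * V - 7864320 * X ^ 6 * G ^ 5 - 156041216 * X ^ 6 * G ^ 4 * V
      ^ 2 - 156041216 * X ^ 6 * G ^ 4 * V + 64708608 * X ^ 6 * G ^ 4 - 225705984 * X ^ 6 * G ^ 3
      * V ^ 2 - 225705984 * X ^ 6 * G ^ 3 * V + 95488000 * X ^ 6 * G ^ 3 - 141225984 * X ^ 6 * G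
      ^ 2 * V ^ 2 - 141225984 * X ^ 6 * G ^ 2 * V + 59798272 * X ^ 6 * G ^ 2 - 42854400 * X ^ 6
      * G * V ^ 2 - 42854400 * X ^ 6 * G * V + 18049920 * X ^ 6 * G - 5142528 * X ^ 6 * V ^ 2 -
      5142528 * X ^ 6 * V + 2148480 * X ^ 6 + 58720256 * X ^ 5 * G ^ 7 * V ^ 3 + 88080384 * X ^
      5 * G ^ 7 * V ^ 2 + 14680064 * X ^ 5 * G ^ 7 * V - 7340032 * X ^ 5 * G ^ 7 + 167772160 * X
      ^ 5 * G ^ 6 * V ^ 3 + 251658240 * X ^ 5 * G ^ 6 * V ^ 2 + 36175872 * X ^ 5 * G ^ 6 * V -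
      23855104 * X ^ 5 * G ^ 6 + 57671680 * X ^ 5 * G ^ 5 * V ^ 3 + 86507520 * X ^ 5 * G ^ 5 * V
      ^ 2 - 14417920 * X ^ 5 * G ^ 5 - 331874304 * X ^ 5 * G ^ 4 * V ^ 3 - 497811456 * X ^ 5 * G
      ^ 4 * V ^ 2 - 91521024 * X ^ 5 * G ^ 4 * V + 37208064 * X ^ 5 * G ^ 4 - 554729472 * X ^ 5
      * G ^ 3 * V ^ 3 - 832094208 * X ^ 5 * G ^ 3 * V ^ 2 - 132276224 * X ^ 5 * G ^ 3 * V +
      72544256 * X ^ 5 * G ^ 3 - 388399104 * X ^ 5 * G ^ 2 * V ^ 3 - 582598656 * X ^ 5 * G ^ 2 *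
      V ^ 2 - 87232512 * X ^ 5 * G ^ 2 * V + 53483520 * X ^ 5 * G ^ 2 - 132046848 * X ^ 5 * G *
      V ^ 3 - 198070272 * X ^ 5 * G * V ^ 2 - 28855296 * X ^ 5 * G * V + 18584064 * X ^ 5 * G -
      17915904 * X ^ 5 * V ^ 3 - 26873856 * X ^ 5 * V ^ 2 - 3898368 * X ^ 5 * V + 2529792 * X ^
      5 + 29360128 * X ^ 4 * G ^ 7 * V ^ 2 + 29360128 * X ^ 4 * G ^ 7 * V - 12845056 * X ^ 4 * G
      ^ 7 + 75497472 * X ^ 4 * G ^ 6 * V ^ 2 + 75497472 * X ^ 4 * G ^ 6 * V - 33816576 * X ^ 4 *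
      G ^ 6 + 12320768 * X ^ 4 * G ^ 5 * V ^ 2 + 12320768 * X ^ 4 * G ^ 5 * V - 7864320 * X ^ 4
      * G ^ 5 - 156041216 * X ^ 4 * G ^ 4 * V ^ 2 - 156041216 * X ^ 4 * G ^ 4 * V + 64708608 * X
      ^ 4 * G ^ 4 - 225705984 * X ^ 4 * G ^ 3 * V ^ 2 - 225705984 * X ^ 4 * G ^ 3 * V + 95488000
      * X ^ 4 * G ^ 3 - 141225984 * X ^ 4 * G ^ 2 * V ^ 2 - 141225984 * X ^ 4 * G ^ 2 * V +
      59798272 * X ^ 4 * G ^ 2 - 42854400 * X ^ 4 * G * V ^ 2 - 42854400 * X ^ 4 * G * V +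
      18049920 * X ^ 4 * G - 5142528 * X ^ 4 * V ^ 2 - 5142528 * X ^ 4 * V + 2148480 * X ^ 4 +
      3670016 * X ^ 3 * G ^ 7 * V + 1835008 * X ^ 3 * G ^ 7 + 6815744 * X ^ 3 * G ^ 6 * V +
      3407872 * X ^ 3 * G ^ 6 - 3637248 * X ^ 3 * G ^ 5 * V - 1818624 * X ^ 3 * G ^ 5 - 17743872
      * X ^ 3 * G ^ 4 * V - 8871936 * X ^ 3 * G ^ 4 - 16035840 * X ^ 3 * G ^ 3 * V - 8017920 * X
      ^ 3 * G ^ 3 - 5584896 * X ^ 3 * G ^ 2 * V - 2792448 * X ^ 3 * G ^ 2 - 373248 * X ^ 3 * G *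
      V - 186624 * X ^ 3 * G + 124416 * X ^ 3 * V + 62208 * X ^ 3 - 458752 * X ^ 2 * G ^ 6 -
      851968 * X ^ 2 * G ^ 5 + 352256 * X ^ 2 * G ^ 4 + 1964032 * X ^ 2 * G ^ 3 + 1817856 * X ^
      2 * G ^ 2 + 701568 * X ^ 2 * G + 100224 * X ^ 2
    ) * hV + (
      14336 * X ^ 9 * G ^ 3 * V + 7168 * X ^ 9 * G ^ 3 + 33792 * X ^ 9 * G ^ 2 * V + 16896 * X ^
      9 * G ^ 2 + 26496 * X ^ 9 * G * V + 13248 * X ^ 9 * G + 6912 * X ^ 9 * V + 3456 * X ^ 9 +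
      339968 * X ^ 8 * G ^ 4 + 960512 * X ^ 8 * G ^ 3 + 1001728 * X ^ 8 * G ^ 2 + 455296 * X ^ 8
      * G + 75648 * X ^ 8 - 2752512 * X ^ 7 * G ^ 5 * V - 1376256 * X ^ 7 * G ^ 5 - 8044544 * X
      ^ 7 * G ^ 4 * V - 4022272 * X ^ 7 * G ^ 4 - 8605696 * X ^ 7 * G ^ 3 * V - 4302848 * X ^ 7
      * G ^ 3 - 3868672 * X ^ 7 * G ^ 2 * V - 1934336 * X ^ 7 * G ^ 2 - 503808 * X ^ 7 * G * V -
      251904 * X ^ 7 * G + 59904 * X ^ 7 * V + 29952 * X ^ 7 + 15138816 * X ^ 6 * G ^ 5 +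
      54657024 * X ^ 6 * G ^ 4 + 78008320 * X ^ 6 * G ^ 3 + 54892288 * X ^ 6 * G ^ 2 + 18990464
      * X ^ 6 * G + 2574464 * X ^ 6 + 22249472 * X ^ 5 * G ^ 5 * V + 11124736 * X ^ 5 * G ^ 5 +
      90144768 * X ^ 5 * G ^ 4 * V + 45072384 * X ^ 5 * G ^ 4 + 145100800 * X ^ 5 * G ^ 3 * V +
      72550400 * X ^ 5 * G ^ 3 + 115951616 * X ^ 5 * G ^ 2 * V + 57975808 * X ^ 5 * G ^ 2 +
      45986048 * X ^ 5 * G * V + 22993024 * X ^ 5 * G + 7239168 * X ^ 5 * V + 3619584 * X ^ 5 +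
      15138816 * X ^ 4 * G ^ 5 + 54657024 * X ^ 4 * G ^ 4 + 78008320 * X ^ 4 * G ^ 3 + 54892288
      * X ^ 4 * G ^ 2 + 18990464 * X ^ 4 * G + 2574464 * X ^ 4 - 2752512 * X ^ 3 * G ^ 5 * V -
      1376256 * X ^ 3 * G ^ 5 - 8044544 * X ^ 3 * G ^ 4 * V - 4022272 * X ^ 3 * G ^ 4 - 8605696
      * X ^ 3 * G ^ 3 * V - 4302848 * X ^ 3 * G ^ 3 - 3868672 * X ^ 3 * G ^ 2 * V - 1934336 * X
      ^ 3 * G ^ 2 - 503808 * X ^ 3 * G * V - 251904 * X ^ 3 * G + 59904 * X ^ 3 * V + 29952 * X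
      ^ 3 + 339968 * X ^ 2 * G ^ 4 + 960512 * X ^ 2 * G ^ 3 + 1001728 * X ^ 2 * G ^ 2 + 455296 *
      X ^ 2 * G + 75648 * X ^ 2 + 14336 * X * G ^ 3 * V + 7168 * X * G ^ 3 + 33792 * X * G ^ 2 *
      V + 16896 * X * G ^ 2 + 26496 * X * G * V + 13248 * X * G + 6912 * X * V + 3456 * X
    ) * hG

/-- **Ie** -/
theorem thm_Ie (hIc : St_Ic) : St_Ie := by
  have _ := hIc
  intro K _ _ g w hgw
  have hG : (C g : K[X]) ^ 2 = C g + 1 := by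
    rw [← C_pow, hgw.hg, C_add, C_1]
  have hV : (C w : K[X]) ^ 2 = -1 - C w := by
    rw [← C_pow, hgw.hw, C_sub, C_neg, C_1]
  refine ⟨⟨?_, ?_, ?_⟩, ⟨?_, ?_, ?_⟩, ⟨?_, ?_, ?_⟩⟩
  · simp
  · simp
  · have h : rp 0 (1 : K[X]) = 1 := by
      have h1 : (1 : K[X]) = C 1 * X ^ 0 := by simp
      rw [rp, h1, reflect_C_mul_X_pow, revAt_le (by norm_num)]
    rw [h]
    simp
  · compute_degree
  · simp
  · rw [Ie_rp1]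
    have h := Ie_three (X : K[X]) (C g) (C w) hG hV
    have e1 : (C (2 * u₁ g w) : K[X]) = 2 * ((14 * C g + 9) * (2 * C w + 1)) := by
      simp only [u₁, map_mul, map_add, map_ofNat, map_one]
    have e2 : (C (2 * u₂ g w) : K[X]) = 2 * ((14 * C g - 23) * (2 * C w + 1)) := by
      simp only [u₂, map_mul, map_add, map_sub, map_ofNat, map_one]
    have e3 : (C (c₃ g w) : K[X]) = -((2 * C g + 1) * (2 * C w + 1)) := by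
      simp only [c₃, map_mul, map_add, map_neg, map_ofNat, map_one]
    have e4 : derivative (X + C (c₃ g w) : K[X]) = 1 := by simp
    have e5 : derivative (1 + C (c₃ g w) * X : K[X]) = C (c₃ g w) := by simp
    rw [e4, e5, C_pow, e1, e2, e3]
    exact h
  · compute_degree
  · simp
  · rw [Ie_rp2]
    have h := Ie_five (X : K[X]) (C g) (C w) hG hV
    have e1 : (C (2 * u₁ g w) : K[X]) = 2 * ((14 * C g + 9) * (2 * C w + 1)) := by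
      simp only [u₁, map_mul, map_add, map_ofNat, map_one]
    have e2 : (C (2 * u₂ g w) : K[X]) = 2 * ((14 * C g - 23) * (2 * C w + 1)) := by
      simp only [u₂, map_mul, map_add, map_sub, map_ofNat, map_one]
    have e3 : (C (c₅ g) : K[X]) = -(4 * C g + 3) := by
      simp only [c₅, map_mul, map_add, map_neg, map_ofNat, map_one]
    have e6 : (C (2 * c₅ g * (2 * w + 1)) : K[X]) = 2 * -(4 * C g + 3) * (2 * C w + 1) := by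
      simp only [c₅, map_mul, map_add, map_neg, map_ofNat, map_one]
    have e4 : derivative (X ^ 2 + C (2 * c₅ g * (2 * w + 1)) * X + C (c₅ g) : K[X]) =
        2 * X + C (2 * c₅ g * (2 * w + 1)) := by
      simp only [derivative_add, derivative_C, derivative_C_mul, derivative_X, derivative_X_sq,
        C_ofNat, add_zero, mul_one]
    have e5 : derivative (1 + C (2 * c₅ g * (2 * w + 1)) * X + C (c₅ g) * X ^ 2 : K[X]) =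
        C (2 * c₅ g * (2 * w + 1)) + C (c₅ g) * (2 * X) := by
      simp only [derivative_add, derivative_one, derivative_C_mul, derivative_X, derivative_X_sq,
        C_ofNat, zero_add, mul_one]
    rw [e4, e5, C_pow, e1, e2, e6, e3]
    exact h

end Pool.Agent.CVH
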