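import Pool.Agent.CVH.St

/-!
# CVH: the field `ℚ(√5, √-3)` with its automorphisms
-/

set_option autoImplicit false

noncomputable section

namespace Pool.Agent.CVH

open Polynomial
open scoped Classical

private lemma Kf_sq (n : ℕ) (hn : ¬ IsSquare n) (r : ℚ) : r ^ 2 ≠ (n : ℚ) := by
  intro h
  have h1 : Irrational (Real.sqrt (n : ℝ)) := irrational_sqrt_natCast_iff.2 hn
  apply h1
  refine ⟨|r|, ?_⟩
  have h2 : ((r : ℝ)) ^ 2 = (n : ℝ) := by exact_mod_cast h
  rw [← h2, Real.sqrt_sq_eq_abs]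
  push_cast
  rfl

private lemma Kf_ns (n : ℕ) (h : n = 3 ∨ n = 5 ∨ n = 15) : ¬ IsSquare n := by
  rintro ⟨m, hm⟩
  have h1 : m < 4 := by
    by_contra h2
    have h3 : 4 ≤ m := not_lt.1 h2
    have h4 : 4 * 4 ≤ m * m := Nat.mul_le_mul h3 h3
    omega
  interval_cases m <;> omega

private instance Kf_fact1 : Fact (∀ r : ℚ, r ^ 2 ≠ 1 + 1 * r) := ⟨by
  intro r h
  apply Kf_sq 5 (Kf_ns 5 (by norm_num)) (2 * r - 1)
  push_cast
  linear_combination 4 * h⟩

private abbrev Kf_F : Type := QuadraticAlgebra ℚ 1 1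

private lemma Kf_neg (y : Kf_F) : y ^ 2 ≠ -3 ∧ y ^ 2 ≠ -1 := by
  constructor
  · intro h
    have h1 := congrArg QuadraticAlgebra.re h
    rw [pow_two, QuadraticAlgebra.re_mul, QuadraticAlgebra.re_neg, QuadraticAlgebra.re_ofNat] at h1
    nlinarith [sq_nonneg y.re, sq_nonneg y.im]
  · intro h
    have h1 := congrArg QuadraticAlgebra.re h
    rw [pow_two, QuadraticAlgebra.re_mul, QuadraticAlgebra.re_neg, QuadraticAlgebra.re_one] at h1
    nlinarith [sq_nonneg y.re, sq_nonneg y.im]

private instance Kf_fact2 : Fact (∀ r : Kf_F, r ^ 2 ≠ -1 + -1 * r) := ⟨by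
  intro r h
  apply (Kf_neg (2 * r + 1)).1
  linear_combination 4 * h⟩

private abbrev Kf_K : Type := QuadraticAlgebra Kf_F (-1) (-1)

private lemma Kf_third (y : Kf_F) : 3 * y ^ 2 ≠ 1 := by
  intro h
  have h1 := congrArg QuadraticAlgebra.re h
  have h2 := congrArg QuadraticAlgebra.im h
  rw [pow_two, QuadraticAlgebra.re_mul, QuadraticAlgebra.re_mul, QuadraticAlgebra.re_ofNat,
    QuadraticAlgebra.im_ofNat, QuadraticAlgebra.re_one] at h1
  rw [pow_two, QuadraticAlgebra.im_mul, QuadraticAlgebra.im_mul, QuadraticAlgebra.re_ofNat,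
    QuadraticAlgebra.im_ofNat, QuadraticAlgebra.im_one] at h2
  have h3 : y.im * (2 * y.re + y.im) = 0 := by linear_combination h2 / 3
  rcases mul_eq_zero.1 h3 with h4 | h4
  · apply Kf_sq 3 (Kf_ns 3 (by norm_num)) (3 * y.re)
    rw [h4] at h1
    push_cast
    linear_combination 3 * h1
  · apply Kf_sq 15 (Kf_ns 15 (by norm_num)) (15 * y.re)
    have h5 : y.im = -2 * y.re := by linear_combination h4
    rw [h5] at h1
    push_cast
    linear_combination 15 * h1

private lemma Kf_hi (z : Kf_K) : z ^ 2 ≠ -1 := by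
  intro h
  have h1 := congrArg QuadraticAlgebra.re h
  have h2 := congrArg QuadraticAlgebra.im h
  rw [pow_two, QuadraticAlgebra.re_mul, QuadraticAlgebra.re_neg, QuadraticAlgebra.re_one] at h1
  rw [pow_two, QuadraticAlgebra.im_mul, QuadraticAlgebra.im_neg, QuadraticAlgebra.im_one] at h2
  have h3 : z.im * (2 * z.re - z.im) = 0 := by linear_combination h2
  rcases mul_eq_zero.1 h3 with h4 | h4
  · apply (Kf_neg z.re).2
    rw [h4] at h1
    linear_combination h1
  · apply Kf_third z.re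
    have h5 : z.im = 2 * z.re := by linear_combination -h4
    rw [h5] at h1
    linear_combination -h1

private def Kf_s : Kf_K ≃+* Kf_K where
  toFun z := ⟨star z.re, star z.im⟩
  invFun z := ⟨star z.re, star z.im⟩
  left_inv z := by ext1 <;> simp
  right_inv z := by ext1 <;> simp
  map_mul' x y := by
    ext1
    · simp only [QuadraticAlgebra.re_mul, star_add, star_mul', star_neg, star_one]
    · simp only [QuadraticAlgebra.im_mul, star_add, star_mul', star_neg, star_one]
  map_add' x y := by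
    ext1
    · simp only [QuadraticAlgebra.re_add, star_add]
    · simp only [QuadraticAlgebra.im_add, star_add]

theorem thm_Kf : St_Kf := by
  refine ⟨Kf_K, inferInstance, inferInstance, ⟨⟨0, 1⟩, 0⟩, ⟨0, 1⟩, Kf_s.trans starRingAut,
    starRingAut, ⟨?_, ?_, Kf_hi⟩, ?_, ?_, ?_, ?_⟩
  · rw [pow_two]
    ext <;> simp [QuadraticAlgebra.re_one, QuadraticAlgebra.im_one]
  · rw [pow_two]
    ext <;> simp [QuadraticAlgebra.re_one, QuadraticAlgebra.im_one]
  · rw [RingEquiv.trans_apply]
    ext <;> simp [Kf_s, QuadraticAlgebra.re_one, QuadraticAlgebra.im_one]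
  · rw [RingEquiv.trans_apply]
    ext <;> simp [Kf_s, QuadraticAlgebra.re_one, QuadraticAlgebra.im_one]
  · ext <;> simp
  · ext <;> simp [QuadraticAlgebra.re_one, QuadraticAlgebra.im_one]

end Pool.Agent.CVH
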