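import Pool.Agent.CVH.St

/-!
# CVH, module La: the logarithmic derivative of a sum (proved by helper17)
-/

set_option autoImplicit false

noncomputable section

namespace Pool.Agent.CVH

open Polynomial
open scoped Classical

theorem La_E {F : Type} [Field F] {D u r₁ r₂ s₁ s₂ l : F} (hr : r₁ ≠ r₂)
    (hl : l * (r₁ - r₂) = s₁ - s₂) (h1 : D * s₁ ^ 2 = cub u r₁) (h2 : D * s₂ ^ 2 = cub u r₂) :
    r₁ ^ 2 + r₁ * r₂ + r₂ ^ 2 - 2 * u * (r₁ + r₂) + 1 = D * l * (s₁ + s₂) := by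
  rw [cub] at h1 h2
  apply mul_right_cancel₀ (sub_ne_zero.2 hr)
  linear_combination h2 - h1 - D * (s₁ + s₂) * hl

theorem thm_La (hGr : St_Gr) (hGs : St_Gs) : St_La := by
  intro F _ δ u D hδ h2 hD hu hδu P Q r₁ s₁ r₂ s₂ c₁ c₂ hP hQ hr hc1 hc2
  obtain ⟨g1, g2, g3, g4, g5, g6, g7, g8⟩ := hGr F u D h2 hD hu
  have a1 := g1 P r₁ s₁ hP
  have a2 := g1 Q r₂ s₂ hQ
  have hr' := sub_ne_zero.2 hr
  obtain ⟨l, hl⟩ : ∃ l : F, l * (r₁ - r₂) = s₁ - s₂ := ⟨(s₁ - s₂) / (r₁ - r₂), div_mul_cancel₀ _ hr'⟩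
  have hS := (hGs F u D h2 hD hu).1 P Q r₁ s₁ r₂ s₂ l hP hQ hr hl
  obtain ⟨r₃, h3⟩ : ∃ r₃ : F, r₃ = D * l ^ 2 + 2 * u - r₁ - r₂ := ⟨_, rfl⟩
  rw [← h3] at hS
  obtain ⟨s₃, h4⟩ : ∃ s₃ : F, s₃ = l * (r₁ - r₃) - s₁ := ⟨_, rfl⟩
  rw [← h4] at hS
  -- the data of the two points
  obtain ⟨b1, d1⟩ : δ r₁ = c₁ * s₁ ∧ 2 * D * δ s₁ = dcub u r₁ * c₁ - δ D * s₁ := by
    rcases hc1 with ⟨h, _⟩ | ⟨r, s, hp, h, h'⟩
    · exact absurd h (g4 P r₁ s₁ hP)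
    · obtain ⟨rfl, rfl⟩ := g5 P r₁ s₁ r s hP hp
      exact ⟨h, h'⟩
  obtain ⟨b2, d2⟩ : δ r₂ = c₂ * s₂ ∧ 2 * D * δ s₂ = dcub u r₂ * c₂ - δ D * s₂ := by
    rcases hc2 with ⟨h, _⟩ | ⟨r, s, hp, h, h'⟩
    · exact absurd h (g4 Q r₂ s₂ hQ)
    · obtain ⟨rfl, rfl⟩ := g5 Q r₂ s₂ r s hQ hp
      exact ⟨h, h'⟩
  have hE := La_E hr hl a1 a2
  have i1 : dcub u r₁ - 2 * D * l * s₁ = (r₁ - r₂) * (r₁ - r₃) := by
    rw [dcub]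
    linear_combination hE + D * l * hl + (r₁ - r₂) * h3
  have i2 : dcub u r₂ - 2 * D * l * s₂ = (r₂ - r₁) * (r₂ - r₃) := by
    rw [dcub]
    linear_combination hE - D * l * hl - (r₁ - r₂) * h3
  have i3 : dcub u r₃ + 2 * D * l * s₃ = (r₃ - r₁) * (r₃ - r₂) := by
    rw [dcub] at i1 ⊢
    linear_combination i1 + 2 * D * l * h4 - 2 * (r₁ - r₃) * h3
  -- the derivative of the slope
  have e1 : δ l * (r₁ - r₂) + l * (c₁ * s₁ - c₂ * s₂) = δ s₁ - δ s₂ := by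
    have h := congrArg δ hl
    rw [hδ.mul, hδ.sub, hδ.sub, b1, b2] at h
    exact h
  have key : 2 * D * δ l = c₁ * (r₁ - r₃) + c₂ * (r₂ - r₃) - δ D * l := by
    apply mul_right_cancel₀ hr'
    linear_combination 2 * D * e1 + d1 - d2 + c₁ * i1 - c₂ * i2 + δ D * hl
  have er : δ r₃ = (c₁ + c₂) * s₃ := by
    have h : δ r₃ = δ D * l ^ 2 + D * (2 * l * δ l) - c₁ * s₁ - c₂ * s₂ := by
      rw [h3, hδ.sub, hδ.sub, hδ.add, hδ.mul, hδ.sq, hδ.mul, hδu, hδ.ofNat, b1, b2]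
      ring
    linear_combination h + l * key - (c₁ + c₂) * h4 - c₂ * hl
  refine Or.inr ⟨r₃, s₃, hS, er, ?_⟩
  have es : δ s₃ = δ l * (r₁ - r₃) + l * (c₁ * s₁ - (c₁ + c₂) * s₃) - δ s₁ := by
    rw [h4, hδ.sub, hδ.mul, hδ.sub, b1, er, ← h4]
  linear_combination 2 * D * es + (r₁ - r₃) * key - d1 - c₁ * i1 - (c₁ + c₂) * i3 + δ D * h4

end Pool.Agent.CVH
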