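import Pool.Agent.CVH.St

/-!
# CVH, module Lb: the logarithmic derivative of a double point (proved by helper17)
-/

set_option autoImplicit false

noncomputable section

namespace Pool.Agent.CVH

open Polynomial
open scoped Classical

theorem thm_Lb (hGr : St_Gr) (hGs : St_Gs) : St_Lb := by
  intro F _ δ u D hδ h2 hD hu hδu P r s c hP hs hc
  obtain ⟨g1, g2, g3, g4, g5, g6, g7, g8⟩ := hGr F u D h2 hD hu
  obtain ⟨l, hl⟩ : ∃ l : F, l * (2 * D * s) = dcub u r :=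
    ⟨dcub u r / (2 * D * s), div_mul_cancel₀ _ (mul_ne_zero (mul_ne_zero h2 hD) hs)⟩
  have hS := (hGs F u D h2 hD hu).2 P r s l hP hs hl
  obtain ⟨r₃, h3⟩ : ∃ r₃ : F, r₃ = D * l ^ 2 + 2 * u - 2 * r := ⟨_, rfl⟩
  rw [← h3] at hS
  obtain ⟨s₃, h4⟩ : ∃ s₃ : F, s₃ = l * (r - r₃) - s := ⟨_, rfl⟩
  rw [← h4] at hS
  obtain ⟨b1, d1⟩ : δ r = c * s ∧ 2 * D * δ s = dcub u r * c - δ D * s := by
    rcases hc with ⟨h, _⟩ | ⟨r', s', hp, h, h'⟩
    · exact absurd h (g4 P r s hP)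
    · obtain ⟨rfl, rfl⟩ := g5 P r s r' s' hP hp
      exact ⟨h, h'⟩
  have i3 : dcub u r₃ + 2 * D * l * s₃ = (r₃ - r) ^ 2 := by
    rw [dcub] at hl ⊢
    linear_combination 2 * D * l * h4 - 2 * (r - r₃) * h3 - hl
  -- the derivative of the slope
  have e0 : δ (dcub u r) = (6 * r - 4 * u) * δ r := by
    rw [dcub, hδ.add, hδ.sub, hδ.mul, hδ.sq, hδ.mul, hδ.mul, hδu, hδ.ofNat, hδ.ofNat, hδ.one]
    ring
  have e1 : δ l * (2 * D * s) + l * (2 * (δ D * s + D * δ s)) = (6 * r - 4 * u) * (c * s) := by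
    have h := congrArg δ hl
    rw [e0, b1, hδ.mul, hδ.mul, hδ.mul, hδ.ofNat] at h
    linear_combination h
  have key : 2 * D * δ l = 2 * c * (r - r₃) - δ D * l := by
    apply mul_right_cancel₀ hs
    linear_combination e1 - l * d1 + l * c * hl + 2 * c * s * h3
  have er : δ r₃ = (c + c) * s₃ := by
    have h : δ r₃ = δ D * l ^ 2 + D * (2 * l * δ l) - 2 * (c * s) := by
      rw [h3, hδ.sub, hδ.add, hδ.mul, hδ.sq, hδ.mul, hδ.mul, hδu, hδ.ofNat, b1]
      ring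
    linear_combination h + l * key - 2 * c * h4
  refine Or.inr ⟨r₃, s₃, hS, er, ?_⟩
  have es : δ s₃ = δ l * (r - r₃) + l * (c * s - (c + c) * s₃) - δ s := by
    rw [h4, hδ.sub, hδ.mul, hδ.sub, b1, er, ← h4]
  linear_combination 2 * D * es + (r - r₃) * key - d1 + c * hl - 2 * c * i3 + δ D * h4

end Pool.Agent.CVH
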