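import Pool.Agent.CVH.St

/-!
# CVH: module Lc (MP_7d6c83_nt)

The Legendre polynomial modulo the square of the multiplier.
-/

set_option autoImplicit false

noncomputable section

namespace Pool.Agent.CVH

open Polynomial
open scoped Classical

private lemma Lc_PL {K : Type} [Field K] (V : ValuationSubring K) (x : K) (hx : x ∈ V) (n : ℕ) :
    PL n x ∈ V := by
  unfold PL
  refine sum_mem fun i _ => ?_
  exact mul_mem (mul_mem (pow_mem (neg_mem (one_mem V)) _) (natCast_mem V _)) (pow_mem hx _)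

/-- integers between `0` and `p` are units -/
private lemma Lc_inv {K : Type} [Field K] (V : ValuationSubring K) (p j : ℕ) (hp : p.Prime)
    (hV : Res V p) (h0 : 0 < j) (hj : j < p) : ((j : K))⁻¹ ∈ V := by
  by_contra hcon
  have hjV : V.valuation (j : K) < 1 := by
    by_contra hge
    push Not at hge
    apply hcon
    rw [← V.valuation_le_one_iff, map_inv₀]
    exact inv_le_one_of_one_le₀ hge
  have hpV : V.valuation (p : K) < 1 := (ValuationSubring.mem_nonunits_iff V).1 hV
  have hcop : IsCoprime (j : ℤ) (p : ℤ) := by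
    rw [Nat.isCoprime_iff_coprime]
    exact (Nat.coprime_comm.1 ((Nat.Prime.coprime_iff_not_dvd hp).2
      (fun h => absurd (Nat.le_of_dvd h0 h) (not_le.2 hj))))
  obtain ⟨a, b, hab⟩ := hcop
  have h1 : (a : K) * (j : K) + (b : K) * (p : K) = 1 := by
    have := congrArg (fun z : ℤ => (z : K)) hab
    push_cast at this
    exact this
  have ha : V.valuation ((a : K) * (j : K)) < 1 := by
    rw [map_mul]
    exact lt_of_le_of_lt
      (mul_le_of_le_one_left' ((V.valuation_le_one_iff _).2 (intCast_mem V a))) hjV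
  have hb : V.valuation ((b : K) * (p : K)) < 1 := by
    rw [map_mul]
    exact lt_of_le_of_lt
      (mul_le_of_le_one_left' ((V.valuation_le_one_iff _).2 (intCast_mem V b))) hpV
  have h2 := V.valuation.map_add ((a : K) * (j : K)) ((b : K) * (p : K))
  rw [h1, map_one] at h2
  exact absurd (h2.trans_lt (max_lt ha hb)) (lt_irrefl _)

/-- sums of multiples -/
private lemma Lc_sum {K ι : Type} [Field K] (V : ValuationSubring K) (c : K) (s : Finset ι)
    (f : ι → K) (h : ∀ i ∈ s, ∃ z ∈ V, f i = c * z) : ∃ z ∈ V, ∑ i ∈ s, f i = c * z := by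
  refine Finset.sum_induction f (fun y => ∃ z ∈ V, y = c * z) ?_ ⟨0, zero_mem V, by ring⟩ h
  rintro a b ⟨z, hz, rfl⟩ ⟨w, hw, rfl⟩
  exact ⟨z + w, add_mem hz hw, by ring⟩

private lemma Lc_low {K : Type} [Field K] (V : ValuationSubring K) (p : ℕ) (μ : K)
    (R : PowerSeries K) (hR : ∀ k, k < p → ∃ z ∈ V, PowerSeries.coeff k R = μ * z) (n : ℕ) :
    ∀ N, N < p → ∃ z ∈ V, PowerSeries.coeff N (R ^ n) = μ ^ n * z := by
  induction n with
  | zero =>
    intro N _
    rw [pow_zero, PowerSeries.coeff_one]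
    split_ifs
    · exact ⟨1, one_mem V, by ring⟩
    · exact ⟨0, zero_mem V, by ring⟩
  | succ n ih =>
    intro N hN
    rw [pow_succ, PowerSeries.coeff_mul]
    refine Lc_sum V _ _ _ fun i hi => ?_
    have hi' := Finset.HasAntidiagonal.mem_antidiagonal.1 hi
    obtain ⟨z, hz, h1⟩ := ih i.1 (by omega)
    obtain ⟨w, hw, h2⟩ := hR i.2 (by omega)
    exact ⟨z * w, mul_mem hz hw, by rw [h1, h2]; ring⟩

private lemma Lc_top {K : Type} [Field K] (V : ValuationSubring K) (p : ℕ) (μ : K)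
    (R : PowerSeries K) (hR : ∀ k, k < p → ∃ z ∈ V, PowerSeries.coeff k R = μ * z)
    (h0 : PowerSeries.coeff 0 R = 0) (n : ℕ) (hn : 1 ≤ n) :
    ∃ z ∈ V, PowerSeries.coeff p (R ^ (n + 1)) = μ ^ (n + 1) * z := by
  rw [pow_succ, PowerSeries.coeff_mul]
  refine Lc_sum V _ _ _ fun i hi => ?_
  have hi' := Finset.HasAntidiagonal.mem_antidiagonal.1 hi
  by_cases h1 : i.1 = 0
  · refine ⟨0, zero_mem V, ?_⟩
    have : PowerSeries.coeff i.1 (R ^ n) = 0 := by
      rw [h1, PowerSeries.coeff_zero_eq_constantCoeff_apply, map_pow,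
        ← PowerSeries.coeff_zero_eq_constantCoeff_apply, h0, zero_pow (by omega)]
    rw [this]
    ring
  by_cases h2 : i.2 = 0
  · refine ⟨0, zero_mem V, ?_⟩
    rw [h2, h0]
    ring
  obtain ⟨z, hz, h3⟩ := Lc_low V p μ R hR n i.1 (by omega)
  obtain ⟨w, hw, h4⟩ := hR i.2 (by omega)
  exact ⟨z * w, mul_mem hz hw, by rw [h3, h4]; ring⟩

private lemma Lc_ord {K : Type} [Field K] (R : PowerSeries K) (h0 : PowerSeries.coeff 0 R = 0)
    (n p : ℕ) : PowerSeries.coeff p (R ^ n) =
      if n < p then PowerSeries.coeff p (R ^ n) else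
        if n = p then PowerSeries.coeff 1 R ^ n else 0 := by
  split_ifs with h1 h2
  · rfl
  · obtain ⟨S, rfl⟩ : (PowerSeries.X : PowerSeries K) ∣ R := PowerSeries.X_dvd_iff.2
      (by rw [← PowerSeries.coeff_zero_eq_constantCoeff_apply]; exact h0)
    have e1 : PowerSeries.coeff 1 (PowerSeries.X * S) = PowerSeries.coeff 0 S :=
      PowerSeries.coeff_succ_X_mul 0 S
    rw [e1, mul_pow, PowerSeries.coeff_X_pow_mul', if_pos (by omega), h2, Nat.sub_self,
      PowerSeries.coeff_zero_eq_constantCoeff_apply, map_pow,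
      PowerSeries.coeff_zero_eq_constantCoeff_apply]
  · obtain ⟨S, rfl⟩ : (PowerSeries.X : PowerSeries K) ∣ R := PowerSeries.X_dvd_iff.2
      (by rw [← PowerSeries.coeff_zero_eq_constantCoeff_apply]; exact h0)
    rw [mul_pow, PowerSeries.coeff_X_pow_mul', if_neg (by omega)]

private lemma Lc_der {K : Type} [Field K] (R : PowerSeries K) (m k : ℕ) :
    (2 * (k : K) + 1) * PowerSeries.coeff (2 * m) (PowerSeries.derivative K R * R ^ (2 * k)) =
      (2 * (m : K) + 1) * PowerSeries.coeff (2 * m + 1) (R ^ (2 * k + 1)) := by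
  have h1 := PowerSeries.coeff_derivative (R := K) (R ^ (2 * k + 1)) (2 * m)
  rw [Derivation.leibniz_pow, Nat.add_sub_cancel, map_nsmul, smul_eq_mul, nsmul_eq_mul] at h1
  rw [mul_comm (PowerSeries.derivative K R)]
  push_cast at h1
  rw [h1]
  ring

theorem thm_Lc (hLf : St_Lf) (hLp : St_Lp) : St_Lc := by
  intro K _ _ V p m x x' μ ε D hp hpm hV hx hx' hμ hμ0 hpμ hε hiso hD hDm
  have h2V : ∀ y ∈ V, (1 - 2 * y : K) ∈ V := by
    intro y hy
    have h2 : (2 : K) ∈ V := by
      have := natCast_mem V 2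
      rwa [Nat.cast_ofNat] at this
    exact sub_mem (one_mem V) (mul_mem h2 hy)
  obtain ⟨R, hRV, hR0, hR1, hRl, ⟨zp, hzp, hRp⟩, hode⟩ :=
    hLp K V p m (1 - 2 * x) (1 - 2 * x') μ ε D hp hpm hV (h2V x hx) (h2V x' hx') hμ hμ0 hε
      hiso hD hDm
  have hε0 : ε ≠ 0 := by
    rintro rfl
    norm_num at hε
  have hεV : ε ∈ V := by
    have h1 : (ε - 1) * (ε + 1) = 0 := by linear_combination hε
    rcases mul_eq_zero.1 h1 with h | h
    · rw [sub_eq_zero.1 h]
      exact one_mem V
    · rw [eq_neg_of_add_eq_zero_left h]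
      exact neg_mem (one_mem V)
  have hf := hLf K x x' (ε * μ) R (mul_ne_zero hε0 hμ0) hR0 hR1 hode m
  have hm1 : 1 ≤ m := by
    rcases Nat.eq_zero_or_pos m with h | h
    · rw [h] at hpm
      rw [hpm] at hp
      exact absurd hp (by norm_num)
    · exact h
  have hpK : (p : K) = 2 * (m : K) + 1 := by
    rw [hpm]
    push_cast
    ring
  have hpV : (p : K) ∈ V := natCast_mem V p
  have hp0 : (p : K) ≠ 0 := Nat.cast_ne_zero.2 hp.ne_zero
  -- the coefficients
  let a : ℕ → K := fun k => PowerSeries.coeff (2 * m) (PowerSeries.derivative K R * R ^ (2 * k))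
  have hk : ∀ k : ℕ, (2 * (k : K) + 1) * a k = p * PowerSeries.coeff p (R ^ (2 * k + 1)) := by
    intro k
    rw [hpK]
    have := Lc_der R m k
    rw [← hpm] at this
    exact this
  have hk0 : ∀ k : ℕ, (2 * (k : K) + 1) ≠ 0 := by
    intro k
    have : ((2 * k + 1 : ℕ) : K) ≠ 0 := Nat.cast_ne_zero.2 (by omega)
    push_cast at this
    exact this
  have hS : ∑ k ∈ Finset.range (2 * m + 1), PL k x' * a k = ε * μ * PL m x := by
    rw [← hf, Finset.mul_sum, map_sum]
    refine Finset.sum_congr rfl fun k _ => ?_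
    rw [mul_left_comm, PowerSeries.coeff_C_mul]
  have ha0 : a 0 = p * (1 + μ ^ 2 * zp) := by
    have := hk 0
    rw [mul_zero, zero_add, pow_one, hRp] at this
    push_cast at this
    linear_combination this
  have ham : a m = (ε * μ) ^ p := by
    have h1 := hk m
    rw [← hpm, Lc_ord R hR0 p p, if_neg (lt_irrefl p), if_pos rfl, hR1, ← hpK] at h1
    exact mul_left_cancel₀ hp0 h1
  have hal : ∀ k, 1 ≤ k → k < m → ∃ z ∈ V, a k = p * μ ^ 3 * z := by
    intro k h1 h2
    obtain ⟨z, hz, h3⟩ := Lc_top V p μ R hRl hR0 (2 * k) (by omega)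
    have h4 := Lc_inv V p (2 * k + 1) hp hV (by omega) (by omega)
    push_cast at h4
    refine ⟨(2 * (k : K) + 1)⁻¹ * (μ ^ (2 * k - 2) * z),
      mul_mem h4 (mul_mem (pow_mem hμ _) hz), ?_⟩
    have h5 := hk k
    rw [h3] at h5
    have h6 : μ ^ (2 * k + 1) = μ ^ 3 * μ ^ (2 * k - 2) := by
      rw [← pow_add]
      congr 1
      omega
    rw [h6] at h5
    have h7 : a k = (2 * (k : K) + 1)⁻¹ * ((2 * (k : K) + 1) * a k) := by
      rw [← mul_assoc, inv_mul_cancel₀ (hk0 k), one_mul]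
    rw [h7, h5]
    ring
  have hau : ∀ k, m < k → a k = 0 := by
    intro k h1
    have h2 := hk k
    rw [Lc_ord R hR0 (2 * k + 1) p, if_neg (by omega), if_neg (by omega), mul_zero] at h2
    exact (mul_eq_zero.1 h2).resolve_left (hk0 k)
  have hterm : ∃ z ∈ V, ∑ k ∈ Finset.range (2 * m + 1), (PL k x' * a k -
      (if k = 0 then (p : K) * (1 + μ ^ 2 * zp) else 0) -
      (if k = m then PL m x' * (ε * μ) ^ p else 0)) = p * μ ^ 3 * z := by
    refine Lc_sum V _ _ _ fun k _ => ?_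
    rcases Nat.lt_trichotomy k m with h | h | h
    · rcases Nat.eq_zero_or_pos k with h0 | h0
      · subst h0
        refine ⟨0, zero_mem V, ?_⟩
        have e : PL 0 x' = 1 := by simp [PL]
        rw [if_pos rfl, if_neg (by omega), e, ha0]
        ring
      · obtain ⟨z, hz, h1⟩ := hal k h0 h
        refine ⟨PL k x' * z, mul_mem (Lc_PL V x' hx' k) hz, ?_⟩
        rw [if_neg (by omega), if_neg (by omega), h1]
        ring
    · subst h
      refine ⟨0, zero_mem V, ?_⟩
      rw [if_neg (by omega), if_pos rfl, ham]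
      ring
    · refine ⟨0, zero_mem V, ?_⟩
      rw [if_neg (by omega), if_neg (by omega), hau k h]
      ring
  obtain ⟨z1, hz1, hsum⟩ := hterm
  rw [Finset.sum_sub_distrib, Finset.sum_sub_distrib, hS, Finset.sum_ite_eq',
    Finset.sum_ite_eq', if_pos (Finset.mem_range.2 (by omega)),
    if_pos (Finset.mem_range.2 (by omega))] at hsum
  have hpow : (ε * μ) ^ p = ε * μ * (μ ^ 2 * μ ^ (2 * m - 2)) := by
    have e1 : μ ^ 2 * μ ^ (2 * m - 2) = μ ^ (2 * m) := by
      rw [← pow_add]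
      congr 1
      omega
    rw [e1, hpm, pow_succ, mul_pow, pow_mul ε 2 m, hε, one_pow]
    ring
  refine ⟨ε * zp * (p / μ) + ε * p * z1 + μ ^ (2 * m - 2) * PL m x',
    add_mem (add_mem (mul_mem (mul_mem hεV hzp) hpμ) (mul_mem (mul_mem hεV hpV) hz1))
      (mul_mem (pow_mem hμ _) (Lc_PL V x' hx' m)), ?_⟩
  have h8 : ε * μ * PL m x = p * (1 + μ ^ 2 * zp) + PL m x' * (ε * μ) ^ p + p * μ ^ 3 * z1 := by
    linear_combination hsum
  rw [hpow] at h8
  have h9 : PL m x = (ε / μ) * (ε * μ * PL m x) := by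
    have : (ε / μ) * (ε * μ * PL m x) = ε ^ 2 * PL m x := by
      field_simp
    rw [this, hε, one_mul]
  rw [h9, h8]
  have h10 : (ε / μ) * (PL m x' * (ε * μ * (μ ^ 2 * μ ^ (2 * m - 2)))) =
      ε ^ 2 * (μ ^ 2 * μ ^ (2 * m - 2) * PL m x') := by
    field_simp
  rw [hε, one_mul] at h10
  have h11 : (ε / μ) * (p * μ ^ 3 * z1) = ε * p * μ ^ 2 * z1 := by
    field_simp
  rw [mul_add, mul_add, h10, h11]
  ring

end Pool.Agent.CVH
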