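import Pool.Agent.CVH.St

/-! CVH, module Le: the generating function of the Legendre polynomials. -/

set_option autoImplicit false

noncomputable section

namespace Pool.Agent.CVH

open Polynomial
open scoped Classical

/-- the coefficients -/
private def Le_a (n i : ℕ) : ℕ := (n + i).choose (2 * i) * Nat.centralBinom i

private lemma Le_a_eq (n i : ℕ) : n.choose i * (n + i).choose i = Le_a n i := by
  unfold Le_a Nat.centralBinom
  rw [Nat.choose_mul (show i ≤ 2 * i by omega)]
  have e1 : n + i - i = n := by omega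
  have e2 : 2 * i - i = i := by omega
  rw [e1, e2, mul_comm]

private lemma Le_a_zero (n : ℕ) : Le_a n 0 = 1 := by
  simp [Le_a]

private lemma Le_a_big {n i : ℕ} (h : n < i) : Le_a n i = 0 := by
  unfold Le_a
  rw [Nat.choose_eq_zero_of_lt (by omega), zero_mul]

private lemma Le_a_rec (K : Type) [Field K] [CharZero K] (n i : ℕ) :
    ((n : K) + 2) * (Le_a (n + 2) (i + 1) : K) =
      (2 * n + 3) * ((Le_a (n + 1) (i + 1) : K) + 2 * (Le_a (n + 1) i : K)) -
        (n + 1) * (Le_a n (i + 1) : K) := by
  -- `C0`, `C1`, `C2` are three consecutive binomial coefficients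
  have h0 : (Le_a n (i + 1) : K) =
      ((n + i + 1).choose (2 * i + 2) : K) * (Nat.centralBinom (i + 1) : K) := by
    unfold Le_a
    rw [show n + (i + 1) = n + i + 1 by ring, show 2 * (i + 1) = 2 * i + 2 by ring]
    push_cast
    ring
  have h1 : (Le_a (n + 1) (i + 1) : K) =
      (((n + i + 1).choose (2 * i + 1) : K) + ((n + i + 1).choose (2 * i + 2) : K)) *
        (Nat.centralBinom (i + 1) : K) := by
    unfold Le_a
    rw [show n + 1 + (i + 1) = n + i + 1 + 1 by ring, show 2 * (i + 1) = 2 * i + 1 + 1 by ring,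
      Nat.choose_succ_succ]
    push_cast
    ring
  have h2 : (Le_a (n + 2) (i + 1) : K) =
      (((n + i + 1).choose (2 * i) : K) + 2 * ((n + i + 1).choose (2 * i + 1) : K) +
        ((n + i + 1).choose (2 * i + 2) : K)) * (Nat.centralBinom (i + 1) : K) := by
    unfold Le_a
    rw [show n + 2 + (i + 1) = n + i + 1 + 1 + 1 by ring, show 2 * (i + 1) = 2 * i + 1 + 1 by ring,
      Nat.choose_succ_succ' (n + i + 1 + 1) (2 * i + 1), Nat.choose_succ_succ' (n + i + 1) (2 * i),
      Nat.choose_succ_succ' (n + i + 1) (2 * i + 1)]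
    push_cast
    ring
  have h3 : (Le_a (n + 1) i : K) =
      ((n + i + 1).choose (2 * i) : K) * (Nat.centralBinom i : K) := by
    unfold Le_a
    rw [show n + 1 + i = n + i + 1 by ring]
    push_cast
    ring
  have h4 : ((i : K) + 1) * (Nat.centralBinom (i + 1) : K) =
      2 * (2 * i + 1) * (Nat.centralBinom i : K) := by
    exact_mod_cast Nat.succ_mul_centralBinom_succ i
  have h5 : ((n + i + 1).choose (2 * i + 1) : K) * (2 * i + 1) =
      ((n + i + 1).choose (2 * i) : K) * (n + 1 - i) := by
    have h6 := Nat.choose_succ_right_eq (n + i + 1) (2 * i)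
    by_cases hle : 2 * i ≤ n + i + 1
    · have h7 : ((n + i + 1 - 2 * i : ℕ) : K) = (n : K) + 1 - i := by
        rw [Nat.cast_sub hle]
        push_cast
        ring
      have h8 : ((n + i + 1).choose (2 * i + 1) : K) * ((2 * i + 1 : ℕ) : K) =
          ((n + i + 1).choose (2 * i) : K) * ((n + i + 1 - 2 * i : ℕ) : K) := by
        exact_mod_cast h6
      rw [h7] at h8
      rw [← h8]
      push_cast
      ring
    · rw [Nat.choose_eq_zero_of_lt (by omega), Nat.choose_eq_zero_of_lt (by omega)]
      push_cast
      ring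
  have h9 : (2 * (i : K) + 1) ≠ 0 := by
    have : ((2 * i + 1 : ℕ) : K) ≠ 0 := Nat.cast_ne_zero.2 (by omega)
    intro hcon
    apply this
    push_cast
    exact hcon
  refine mul_left_cancel₀ h9 ?_
  rw [h0, h1, h2, h3]
  linear_combination (Nat.centralBinom (i + 1) : K) * h5 +
    (2 * (n : K) + 3) * ((n + i + 1).choose (2 * i) : K) * h4

private lemma Le_PL (K : Type) [Field K] (x : K) (n N : ℕ) (h : n < N) :
    PL n x = ∑ i ∈ Finset.range N, (-1) ^ i * (Le_a n i : K) * x ^ i := by
  unfold PL
  rw [← Finset.sum_subset (Finset.range_mono (show n + 1 ≤ N from h))]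
  · refine Finset.sum_congr rfl fun i _ => ?_
    rw [Le_a_eq]
  · intro i _ hi
    rw [Finset.mem_range] at hi
    rw [Le_a_big (by omega)]
    push_cast
    ring

private lemma Le_rec (K : Type) [Field K] [CharZero K] (x : K) (n : ℕ) :
    ((n : K) + 2) * PL (n + 2) x = (2 * n + 3) * (1 - 2 * x) * PL (n + 1) x -
      (n + 1) * PL n x := by
  have e1 : PL (n + 2) x = ∑ i ∈ Finset.range (n + 2), (-1) ^ (i + 1) *
      (Le_a (n + 2) (i + 1) : K) * x ^ (i + 1) + 1 := by
    rw [Le_PL K x (n + 2) (n + 2 + 1) (by omega), Finset.sum_range_succ', Le_a_zero]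
    push_cast
    ring
  have e2 : PL (n + 1) x = ∑ i ∈ Finset.range (n + 2), (-1) ^ (i + 1) *
      (Le_a (n + 1) (i + 1) : K) * x ^ (i + 1) + 1 := by
    rw [Le_PL K x (n + 1) (n + 2 + 1) (by omega), Finset.sum_range_succ', Le_a_zero]
    push_cast
    ring
  have e3 : PL n x = ∑ i ∈ Finset.range (n + 2), (-1) ^ (i + 1) *
      (Le_a n (i + 1) : K) * x ^ (i + 1) + 1 := by
    rw [Le_PL K x n (n + 2 + 1) (by omega), Finset.sum_range_succ', Le_a_zero]
    push_cast
    ring
  have e4 : x * PL (n + 1) x = - ∑ i ∈ Finset.range (n + 2), (-1) ^ (i + 1) *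
      (Le_a (n + 1) i : K) * x ^ (i + 1) := by
    rw [Le_PL K x (n + 1) (n + 2) (by omega), Finset.mul_sum, ← Finset.sum_neg_distrib]
    refine Finset.sum_congr rfl fun i _ => ?_
    ring
  have e5 : ((n : K) + 2) * (∑ i ∈ Finset.range (n + 2), (-1) ^ (i + 1) *
      (Le_a (n + 2) (i + 1) : K) * x ^ (i + 1)) =
      (2 * n + 3) * (∑ i ∈ Finset.range (n + 2), (-1) ^ (i + 1) *
      (Le_a (n + 1) (i + 1) : K) * x ^ (i + 1)) + 2 * (2 * n + 3) *
      (∑ i ∈ Finset.range (n + 2), (-1) ^ (i + 1) * (Le_a (n + 1) i : K) * x ^ (i + 1)) -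
      (n + 1) * (∑ i ∈ Finset.range (n + 2), (-1) ^ (i + 1) *
      (Le_a n (i + 1) : K) * x ^ (i + 1)) := by
    rw [Finset.mul_sum, Finset.mul_sum, Finset.mul_sum, Finset.mul_sum, ← Finset.sum_add_distrib,
      ← Finset.sum_sub_distrib]
    refine Finset.sum_congr rfl fun i _ => ?_
    linear_combination (-1) ^ (i + 1) * x ^ (i + 1) * Le_a_rec K n i
  have e6 : (2 * (n : K) + 3) * (1 - 2 * x) * PL (n + 1) x =
      (2 * n + 3) * PL (n + 1) x - 2 * (2 * n + 3) * (x * PL (n + 1) x) := by
    ring
  rw [e6, e4, e1, e2, e3]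
  linear_combination e5

theorem thm_Le : St_Le := by
  intro K _ _ x
  set G : PowerSeries K := PowerSeries.mk fun n => PL n x with hG
  set t : K := 1 - 2 * x with ht
  have hc : ∀ n, PowerSeries.coeff n G = PL n x := fun n => PowerSeries.coeff_mk _ _
  have hP0 : PL 0 x = 1 := by simp [PL]
  have hP1 : PL 1 x = t := by
    rw [ht]
    simp [PL, Finset.sum_range_succ]
    ring
  have hode : (1 - 2 * PowerSeries.C t * PowerSeries.X + PowerSeries.X ^ 2) *
      PowerSeries.derivative K G = (PowerSeries.C t - PowerSeries.X) * G := by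
    have e1 : (1 - 2 * PowerSeries.C t * PowerSeries.X + PowerSeries.X ^ 2) *
        PowerSeries.derivative K G = PowerSeries.derivative K G -
          PowerSeries.C (2 * t) * (PowerSeries.X * PowerSeries.derivative K G) +
          PowerSeries.X * (PowerSeries.X * PowerSeries.derivative K G) := by
      rw [map_mul, map_ofNat]
      ring
    have e2 : (PowerSeries.C t - PowerSeries.X) * G = PowerSeries.C t * G -
        PowerSeries.X * G := by ring
    rw [e1, e2]
    ext n
    rw [map_add, map_sub, map_sub, PowerSeries.coeff_C_mul, PowerSeries.coeff_C_mul,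
      PowerSeries.coeff_derivative]
    rcases n with _ | _ | n
    · rw [PowerSeries.coeff_zero_X_mul, PowerSeries.coeff_zero_X_mul, PowerSeries.coeff_zero_X_mul,
        hc, hc, hP0, hP1]
      push_cast
      ring
    · rw [PowerSeries.coeff_succ_X_mul, PowerSeries.coeff_succ_X_mul, PowerSeries.coeff_succ_X_mul,
        PowerSeries.coeff_zero_X_mul, PowerSeries.coeff_derivative, hc, hc, hc]
      have := Le_rec K x 0
      rw [← ht] at this
      push_cast at this ⊢
      linear_combination this
    · rw [PowerSeries.coeff_succ_X_mul, PowerSeries.coeff_succ_X_mul, PowerSeries.coeff_succ_X_mul,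
        PowerSeries.coeff_succ_X_mul, PowerSeries.coeff_derivative, PowerSeries.coeff_derivative,
        hc, hc, hc]
      have := Le_rec K x (n + 1)
      rw [← ht] at this
      push_cast at this ⊢
      linear_combination this
  refine PowerSeries.derivative.ext ?_ ?_
  · have hC : PowerSeries.derivative K (2 * PowerSeries.C t * PowerSeries.X) =
        2 * PowerSeries.C t := by
      have e : (2 * PowerSeries.C t * PowerSeries.X : PowerSeries K) =
          PowerSeries.C (2 * t) * PowerSeries.X := by
        rw [map_mul, map_ofNat]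
      rw [e, Derivation.leibniz, PowerSeries.derivative_C, PowerSeries.derivative_X, smul_zero,
        add_zero, smul_eq_mul, mul_one, map_mul, map_ofNat]
    have hQ : PowerSeries.derivative K
        (1 - 2 * PowerSeries.C t * PowerSeries.X + PowerSeries.X ^ 2) =
        2 * PowerSeries.X - 2 * PowerSeries.C t := by
      rw [map_add, map_sub, hC, PowerSeries.derivative_one, PowerSeries.derivative_pow,
        PowerSeries.derivative_X]
      push_cast
      ring
    rw [Derivation.leibniz, hQ, PowerSeries.derivative_pow, PowerSeries.derivative_one,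
      smul_eq_mul, smul_eq_mul]
    push_cast
    linear_combination 2 * G * hode
  · rw [map_mul, map_pow, map_add, map_sub, map_mul, map_mul, map_pow,
      PowerSeries.constantCoeff_X, map_one, ← PowerSeries.coeff_zero_eq_constantCoeff_apply, hc, hP0]
    ring

end Pool.Agent.CVH
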