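import Pool.Agent.CVH.St

/-!
# CVH, module Lf: the differential of an isogeny and Legendre polynomials (helper26)
-/

set_option autoImplicit false

noncomputable section

namespace Pool.Agent.CVH

open Polynomial
open scoped Classical

private theorem Lf_sub {K : Type} [Field K] (a : PowerSeries K) (ha : PowerSeries.constantCoeff a = 0)
    (t : K) (G : PowerSeries K)
    (h : G ^ 2 * (1 - 2 * PowerSeries.C t * PowerSeries.X + PowerSeries.X ^ 2) = 1) :
    (PowerSeries.subst a G : PowerSeries K) ^ 2 * (1 - 2 * PowerSeries.C t * a + a ^ 2) = 1 := by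
  have hs : PowerSeries.HasSubst a := PowerSeries.HasSubst.of_constantCoeff_zero' ha
  have h1 : PowerSeries.substAlgHom (R := K) hs
      (G ^ 2 * (1 - 2 * PowerSeries.C t * PowerSeries.X + PowerSeries.X ^ 2)) =
      PowerSeries.substAlgHom (R := K) hs 1 := congrArg _ h
  rw [map_mul, map_pow, map_add, map_sub, map_mul, map_mul, map_pow, map_one, map_ofNat,
    PowerSeries.substAlgHom_X hs, PowerSeries.coe_substAlgHom hs] at h1
  have h2 : PowerSeries.subst a (PowerSeries.C t : PowerSeries K) = (PowerSeries.C t : PowerSeries K) :=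
    PowerSeries.subst_C t
  rw [h2] at h1
  exact h1

private theorem Lf_low {K : Type} [Field K] (R : PowerSeries K) (h0 : PowerSeries.coeff 0 R = 0)
    (k e : ℕ) (h : e < 2 * k) : PowerSeries.coeff e (R ^ (2 * k)) = 0 := by
  have h1 : PowerSeries.X ∣ R := by
    rw [PowerSeries.X_dvd_iff, ← PowerSeries.coeff_zero_eq_constantCoeff_apply]
    exact h0
  exact (PowerSeries.X_pow_dvd_iff.1 (pow_dvd_pow_of_dvd h1 (2 * k))) e h

private theorem Lf_coe {K : Type} [Field K] (R G : PowerSeries K) (h0 : PowerSeries.coeff 0 R = 0)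
    (e M : ℕ) (h : e ≤ 2 * M) :
    PowerSeries.coeff e (PowerSeries.subst (R ^ 2) G : PowerSeries K) =
      PowerSeries.coeff e (∑ k ∈ Finset.range (2 * M + 1),
        PowerSeries.C (PowerSeries.coeff k G) * R ^ (2 * k)) := by
  have hc : PowerSeries.constantCoeff (R ^ 2) = 0 := by
    rw [map_pow, ← PowerSeries.coeff_zero_eq_constantCoeff_apply, h0]
    norm_num
  have hs : PowerSeries.HasSubst (R ^ 2) := PowerSeries.HasSubst.of_constantCoeff_zero' hc
  rw [PowerSeries.coeff_subst' hs, map_sum]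
  rw [finsum_eq_sum_of_support_subset (s := Finset.range (2 * M + 1))]
  · refine Finset.sum_congr rfl fun k _ => ?_
    rw [PowerSeries.coeff_C_mul, smul_eq_mul, ← pow_mul]
  · intro k hk
    rw [Finset.coe_range, Set.mem_Iio]
    by_contra hc'
    apply hk
    simp only
    rw [← pow_mul, Lf_low R h0 k e (by omega), smul_zero]

theorem thm_Lf (hLe : St_Le) : St_Lf := by
  intro K _ _ x x' μ R hμ h0 h1 hode N
  have hc : PowerSeries.constantCoeff (R ^ 2) = 0 := by
    rw [map_pow, ← PowerSeries.coeff_zero_eq_constantCoeff_apply, h0]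
    norm_num
  have hc2 : PowerSeries.constantCoeff ((PowerSeries.X : PowerSeries K) ^ 2) = 0 := by
    simp
  set G : PowerSeries K := PowerSeries.mk fun n => PL n x with hG
  set G' : PowerSeries K := PowerSeries.mk fun n => PL n x' with hG'
  have e1 := Lf_sub (PowerSeries.X ^ 2) hc2 (1 - 2 * x) G (hLe K x)
  have e2 := Lf_sub (R ^ 2) hc (1 - 2 * x') G' (hLe K x')
  set Q : PowerSeries K := PowerSeries.subst (PowerSeries.X ^ 2 : PowerSeries K) G with hQ
  set P : PowerSeries K := PowerSeries.subst (R ^ 2) G' with hP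
  set R' : PowerSeries K := PowerSeries.derivative K R with hR'
  have e3 : (R' * P) ^ 2 = (PowerSeries.C μ * Q) ^ 2 := by
    have h2 : PowerSeries.C (μ ^ 2) = (PowerSeries.C μ : PowerSeries K) ^ 2 := map_pow _ _ _
    rw [h2] at hode
    have e1' : Q ^ 2 * (1 - 2 * PowerSeries.C (1 - 2 * x) * PowerSeries.X ^ 2 + PowerSeries.X ^ 4) = 1 := by
      linear_combination e1
    have e2' : P ^ 2 * (1 - 2 * PowerSeries.C (1 - 2 * x') * R ^ 2 + R ^ 4) = 1 := by
      linear_combination e2
    calc (R' * P) ^ 2 = (Q ^ 2 * (1 - 2 * PowerSeries.C (1 - 2 * x) * PowerSeries.X ^ 2 +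
          PowerSeries.X ^ 4)) * (R' * P) ^ 2 := by rw [e1', one_mul]
      _ = Q ^ 2 * P ^ 2 * ((1 - 2 * PowerSeries.C (1 - 2 * x) * PowerSeries.X ^ 2 +
          PowerSeries.X ^ 4) * R' ^ 2) := by ring
      _ = (P ^ 2 * (1 - 2 * PowerSeries.C (1 - 2 * x') * R ^ 2 + R ^ 4)) *
          (PowerSeries.C μ * Q) ^ 2 := by rw [hode]; ring
      _ = _ := by rw [e2', one_mul]
  -- the coefficients
  have cQ : ∀ M, PowerSeries.coeff (2 * M) Q = PL M x := by
    intro M
    rw [hQ, PowerSeries.coeff_subst_X_pow (by norm_num), if_pos (Dvd.intro _ rfl),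
      Nat.mul_div_cancel_left _ (by norm_num), hG, PowerSeries.coeff_mk]
    rfl
  have cP : ∀ e M, e ≤ 2 * M → PowerSeries.coeff e P = PowerSeries.coeff e
      (∑ k ∈ Finset.range (2 * M + 1), PowerSeries.C (PL k x') * R ^ (2 * k)) := by
    intro e M he
    rw [hP, Lf_coe R G' h0 e M he]
    congr 1
    refine Finset.sum_congr rfl fun k _ => ?_
    rw [hG', PowerSeries.coeff_mk]
  have hPL : ∀ z : K, PL 0 z = 1 := by
    intro z
    simp [PL]
  have cP0 : PowerSeries.coeff 0 P = 1 := by
    rw [cP 0 0 le_rfl]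
    simp [hPL]
  have cQ0 : PowerSeries.coeff 0 Q = 1 := by
    have := cQ 0
    rw [mul_zero, hPL] at this
    exact this
  have cR : PowerSeries.coeff 0 R' = μ := by
    rw [hR', PowerSeries.coeff_derivative, zero_add, h1]
    simp
  have e4 : R' * P = PowerSeries.C μ * Q := by
    rcases sq_eq_sq_iff_eq_or_eq_neg.1 e3 with h | h
    · exact h
    · exfalso
      rw [PowerSeries.coeff_zero_eq_constantCoeff_apply] at cR cP0 cQ0
      have h2 := congrArg PowerSeries.constantCoeff h
      rw [map_neg, map_mul, map_mul, PowerSeries.constantCoeff_C, cR, cP0, cQ0] at h2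
      have h3 : 2 * μ = 0 := by linear_combination h2
      rcases mul_eq_zero.1 h3 with h4 | h4
      · exact two_ne_zero h4
      · exact hμ h4
  have e5 : PowerSeries.coeff (2 * N) (R' * P) = μ * PL N x := by
    rw [e4, PowerSeries.coeff_C_mul, cQ]
  rw [← e5, PowerSeries.coeff_mul, PowerSeries.coeff_mul]
  refine Finset.sum_congr rfl fun p hp => ?_
  have hp' : p.2 ≤ 2 * N := by
    have := Finset.HasAntidiagonal.mem_antidiagonal.1 hp
    omega
  rw [cP p.2 N hp']

end Pool.Agent.CVH
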