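import Pool.Agent.CVH.St

/-!
# CVH, module Li: logarithmic derivatives, first facts (proved by helper17)
-/

set_option autoImplicit false

noncomputable section

namespace Pool.Agent.CVH

open Polynomial
open scoped Classical

theorem Li_cub {F : Type} [Field F] {δ : F → F} (h : Dn δ) (u r : F) (hu : δ u = 0) :
    δ (cub u r) = dcub u r * δ r := by
  rw [cub, dcub, h.add, h.sub, h.pow, h.mul, h.mul, h.pow, hu, h.ofNat]
  push_cast
  ring

theorem Li_sq {F : Type} [Field F] {δ : F → F} (h : Dn δ) {u D r s : F} (hu : δ u = 0)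
    (he : D * s ^ 2 = cub u r) : δ D * s ^ 2 + 2 * D * s * δ s = dcub u r * δ r := by
  rw [← Li_cub h u r hu, ← he, h.mul, h.sq]
  ring

theorem thm_Li (hGr : St_Gr) : St_Li := by
  intro F _ δ u D hδ h2 hD hu hδu
  obtain ⟨g1, g2, g3, g4, g5, g6, g7, g8⟩ := hGr F u D h2 hD hu
  refine ⟨?_, ?_, ?_⟩
  · intro P r s c hP hs hc
    refine Or.inr ⟨r, s, hP, hc, ?_⟩
    have h1 := Li_sq hδ hδu (g1 P r s hP)
    rw [hc] at h1
    apply mul_right_cancel₀ hs
    linear_combination h1
  · rintro P c (⟨rfl, rfl⟩ | ⟨r, s, hP, hc, h3⟩)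
    · left
      exact ⟨neg_zero, neg_zero⟩
    · refine Or.inr ⟨r, -s, g6 P r s hP, by rw [hc]; ring, ?_⟩
      rw [hδ.neg]
      linear_combination -h3
  · rintro P r c hP (⟨_, hc⟩ | ⟨r', s', hP', hc, h3⟩)
    · exact hc
    · obtain ⟨rfl, rfl⟩ := g5 P r 0 r' s' hP hP'
      rw [hδ.zero] at h3
      have h4 : dcub u r * c = 0 := by linear_combination -h3
      exact (mul_eq_zero.1 h4).resolve_left (g8 P r hP).2

end Pool.Agent.CVH
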