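import Pool.Agent.CVH.St

/-!
# CVH, module Lk: an isogeny with multiplier zero in characteristic `p` (helper26)
-/

set_option autoImplicit false

noncomputable section

namespace Pool.Agent.CVH

open Polynomial
open scoped Classical

private theorem Lk_fac {K : Type*} [Field K] {P : K[X]} (hP : P ≠ 0) :
    ∃ (e : ℕ) (Q : K[X]), P = X ^ e * Q ∧ eval 0 Q ≠ 0 := by
  obtain ⟨Q, h1, h2⟩ := exists_eq_pow_rootMultiplicity_mul_and_not_dvd P hP 0
  refine ⟨P.rootMultiplicity 0, Q, ?_, ?_⟩
  · rw [C_0, sub_zero] at h1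
    exact h1
  · intro h
    apply h2
    rw [dvd_iff_isRoot]
    exact h

private theorem Lk_der {K : Type*} [Field K] (a : ℕ) (Q : K[X]) :
    X * derivative (X ^ a * Q) = X ^ a * (C (a : K) * Q + X * derivative Q) := by
  rcases a with _ | a
  · simp
  · rw [derivative_mul, derivative_X_pow, Nat.add_sub_cancel, pow_succ]
    ring

theorem thm_Lk : St_Lk := by
  intro k _ p _ m D hp hD hDm h
  have hR : reflect m D ≠ 0 := by
    rw [Ne, reflect_eq_zero_iff]
    exact hD
  obtain ⟨a, Q, hQ, hQ0⟩ := Lk_fac hR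
  obtain ⟨b, P, hP, hP0⟩ := Lk_fac hD
  -- the coefficients
  have hRc : ∀ i, m < i → (reflect m D).coeff i = 0 := by
    intro i hi
    rw [coeff_reflect, revAt_eq_self_of_lt hi]
    exact coeff_eq_zero_of_natDegree_lt (by omega)
  have ha : a ≤ m := by
    by_contra hc
    apply hQ0
    rw [← coeff_zero_eq_eval_zero]
    have h1 := hRc a (by omega)
    rw [hQ] at h1
    have h2 : (X ^ a * Q).coeff (0 + a) = Q.coeff 0 := coeff_X_pow_mul Q a 0
    rw [zero_add] at h2
    rw [← h2]
    exact h1
  have hb : b ≤ m := by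
    by_contra hc
    apply hP0
    rw [← coeff_zero_eq_eval_zero]
    have h1 : D.coeff b = 0 := coeff_eq_zero_of_natDegree_lt (by omega)
    rw [hP] at h1
    have h2 : (X ^ b * P).coeff (0 + b) = P.coeff 0 := coeff_X_pow_mul P b 0
    rw [zero_add] at h2
    rw [← h2]
    exact h1
  -- the lowest coefficient
  have h1 : X ^ (a + b) * (Q * P + 2 * ((C (a : k) * Q + X * derivative Q) * P -
      Q * (C (b : k) * P + X * derivative P))) = 0 := by
    have e1 := Lk_der a Q
    have e2 := Lk_der b P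
    have h' : rp m D * D + 2 * ((X * derivative (rp m D)) * D - rp m D * (X * derivative D)) = 0 := by
      linear_combination h
    have hQ' : rp m D = X ^ a * Q := hQ
    rw [hQ'] at h'
    rw [e1] at h'
    have h'' : X ^ a * Q * (X ^ b * P) + 2 * (X ^ a * (C (a : k) * Q + X * derivative Q) * (X ^ b * P) -
        X ^ a * Q * (X * derivative (X ^ b * P))) = 0 := by
      rw [← hP]
      exact h'
    rw [e2] at h''
    rw [pow_add]
    linear_combination h''
  have h2 := (mul_eq_zero.1 h1).resolve_left (pow_ne_zero _ X_ne_zero)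
  have h3 := congrArg (eval 0) h2
  simp only [eval_add, eval_sub, eval_mul, eval_C, eval_X, zero_mul, add_zero, eval_zero,
    eval_ofNat] at h3
  have h4 : ((2 * (a : ℤ) + 1 - 2 * b : ℤ) : k) = 0 := by
    have h5 : eval 0 Q * eval 0 P * ((2 * (a : ℤ) + 1 - 2 * b : ℤ) : k) = 0 := by
      push_cast
      linear_combination h3
    exact (mul_eq_zero.1 h5).resolve_left (mul_ne_zero hQ0 hP0)
  rw [CharP.intCast_eq_zero_iff k p] at h4
  have h5 : (p : ℤ) ≤ |2 * (a : ℤ) + 1 - 2 * b| :=
    Int.le_of_dvd (abs_pos.2 (by omega)) ((dvd_abs _ _).2 h4)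
  have h6 : (p : ℤ) ≤ 2 * (a : ℤ) + 1 - 2 * b ∨ (p : ℤ) ≤ -(2 * (a : ℤ) + 1 - 2 * b) := by
    rcases abs_choice (2 * (a : ℤ) + 1 - 2 * b) with h7 | h7
    · left
      rw [h7] at h5
      exact h5
    · right
      rw [h7] at h5
      exact h5
  refine ⟨by omega, ?_⟩
  intro hmp
  have ha' : a = m := by omega
  apply Nat.eq_zero_of_le_zero
  rw [natDegree_le_iff_coeff_eq_zero]
  intro i hi
  rcases Nat.lt_or_ge m i with hmi | hmi
  · exact coeff_eq_zero_of_natDegree_lt (by omega)
  · have e1 : (reflect m D).coeff (m - i) = D.coeff i := by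
      rw [coeff_reflect, revAt_le (by omega)]
      congr 1
      omega
    rw [← e1, hQ, ha', coeff_X_pow_mul', if_neg (by omega)]

end Pool.Agent.CVH
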