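import Pool.Agent.CVH.St

/-!
# CVH, module Lp (MP_7d6c83_nt): the power series of an isogeny of degree `p` over a valuation ring
-/

set_option autoImplicit false

noncomputable section

namespace Pool.Agent.CVH

open Polynomial
open scoped Classical

section Lp

variable {K : Type} [Field K]

/-- the multiples of `c` by elements of `V` -/
private def Lp_I (V : ValuationSubring K) (c : K) : AddSubgroup K where
  carrier := {x | ∃ z ∈ V, x = c * z}
  zero_mem' := ⟨0, V.zero_mem, (mul_zero c).symm⟩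
  add_mem' := by
    rintro _ _ ⟨z, hz, rfl⟩ ⟨w, hw, rfl⟩
    exact ⟨z + w, V.add_mem _ _ hz hw, (mul_add c z w).symm⟩
  neg_mem' := by
    rintro _ ⟨z, hz, rfl⟩
    exact ⟨-z, V.neg_mem _ hz, (mul_neg c z).symm⟩

private theorem Lp_mem {V : ValuationSubring K} {c x : K} : x ∈ Lp_I V c ↔ ∃ z ∈ V, x = c * z :=
  Iff.rfl

/-- the positive integers below `p` are units of `V` -/
private theorem Lp_inv (V : ValuationSubring K) {p : ℕ} (hp : p.Prime) (hV : Res V p) {k : ℕ}
    (h0 : 0 < k) (hk : k < p) : ((k : K))⁻¹ ∈ V := by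
  have hco : IsCoprime (k : ℤ) (p : ℤ) := by
    rw [Nat.isCoprime_iff_coprime]
    refine (Nat.Coprime.symm ?_)
    rw [hp.coprime_iff_not_dvd]
    intro h
    exact absurd (Nat.le_of_dvd h0 h) (by omega)
  obtain ⟨a, b, hab⟩ := hco
  by_contra h
  have h1 : (k : K) ∈ V.nonunits := V.mem_nonunits_iff_or.2 (Or.inr h)
  have h2 : (1 : K) ∈ V.nonunits := by
    have h3 : (1 : K) = a • (k : K) + b • (p : K) := by
      rw [zsmul_eq_mul, zsmul_eq_mul]
      have h4 := congrArg (Int.cast : ℤ → K) hab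
      push_cast at h4
      exact h4.symm
    rw [h3]
    exact add_mem (zsmul_mem h1 a) (zsmul_mem hV b)
  rcases V.mem_nonunits_iff_or.1 h2 with h3 | h3
  · exact one_ne_zero h3
  · exact h3 (by rw [inv_one]; exact V.one_mem)

private theorem Lp_coeff_mul (R B : PowerSeries K) (hB : PowerSeries.coeff 0 B = 1) (n : ℕ) :
    PowerSeries.coeff n (R * B) =
      ∑ k ∈ Finset.range n, PowerSeries.coeff k R * PowerSeries.coeff (n - k) B +
        PowerSeries.coeff n R := by
  rw [PowerSeries.coeff_mul, Finset.Nat.sum_antidiagonal_eq_sum_range_succ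
    (fun i j => PowerSeries.coeff i R * PowerSeries.coeff j B) n, Finset.sum_range_succ,
    Nat.sub_self, hB, mul_one]

/-- division by a series with the constant coefficient `1` -/
private theorem Lp_div (V : ValuationSubring K) {R B A : PowerSeries K} (h : R * B = A)
    (hB : PowerSeries.coeff 0 B = 1) (hBV : ∀ n, PowerSeries.coeff n B ∈ V)
    (hAV : ∀ n, PowerSeries.coeff n A ∈ V) : ∀ n, PowerSeries.coeff n R ∈ V := by
  intro n
  induction n using Nat.strong_induction_on with
  | _ n ih =>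
    have h1 := Lp_coeff_mul R B hB n
    rw [h] at h1
    have h2 : PowerSeries.coeff n R = PowerSeries.coeff n A -
        ∑ k ∈ Finset.range n, PowerSeries.coeff k R * PowerSeries.coeff (n - k) B := by
      rw [h1]; ring
    rw [h2]
    exact sub_mem (hAV n) (sum_mem fun k hk => mul_mem (ih k (Finset.mem_range.1 hk)) (hBV _))

/-- square roots with the constant coefficient `1` -/
private theorem Lp_sqrt (V : ValuationSubring K) {S E : PowerSeries K} (h : S * S = E)
    (hS : PowerSeries.coeff 0 S = 1) (h2 : (2 : K)⁻¹ ∈ V) (h20 : (2 : K) ≠ 0)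
    (hE : ∀ n, PowerSeries.coeff n E ∈ V) : ∀ n, PowerSeries.coeff n S ∈ V := by
  intro n
  induction n using Nat.strong_induction_on with
  | _ n ih =>
    rcases n with _ | n
    · rw [hS]; exact V.one_mem
    · have h1 := Lp_coeff_mul S S hS (n + 1)
      rw [h, Finset.sum_range_succ', hS, one_mul, Nat.sub_zero] at h1
      have h3 : PowerSeries.coeff (n + 1) S = (2 : K)⁻¹ * (PowerSeries.coeff (n + 1) E -
          ∑ k ∈ Finset.range n, PowerSeries.coeff (k + 1) S *
            PowerSeries.coeff (n + 1 - (k + 1)) S) := by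
        rw [h1]
        field_simp
        ring
      rw [h3]
      refine mul_mem h2 (sub_mem (hE _) (sum_mem fun k hk => mul_mem ?_ ?_))
      · exact ih _ (by have := Finset.mem_range.1 hk; omega)
      · exact ih _ (by have := Finset.mem_range.1 hk; omega)

/-- coefficients of products, sums, powers -/
private theorem Lp_mulV (V : ValuationSubring K) {A B : PowerSeries K}
    (hA : ∀ n, PowerSeries.coeff n A ∈ V) (hB : ∀ n, PowerSeries.coeff n B ∈ V) (n : ℕ) :
    PowerSeries.coeff n (A * B) ∈ V := by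
  rw [PowerSeries.coeff_mul]
  exact sum_mem fun k _ => mul_mem (hA _) (hB _)

private theorem Lp_oneV (V : ValuationSubring K) (n : ℕ) :
    PowerSeries.coeff n (1 : PowerSeries K) ∈ V := by
  rw [PowerSeries.coeff_one]
  split_ifs
  · exact V.one_mem
  · exact V.zero_mem

private theorem Lp_powV (V : ValuationSubring K) {A : PowerSeries K}
    (hA : ∀ n, PowerSeries.coeff n A ∈ V) (k n : ℕ) : PowerSeries.coeff n (A ^ k) ∈ V := by
  induction k generalizing n with
  | zero => rw [pow_zero]; exact Lp_oneV V n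
  | succ k ih => rw [pow_succ]; exact Lp_mulV V ih hA n

private theorem Lp_CV (V : ValuationSubring K) {c : K} (hc : c ∈ V) (n : ℕ) :
    PowerSeries.coeff n (PowerSeries.C c) ∈ V := by
  rw [PowerSeries.coeff_C]
  split_ifs
  · exact hc
  · exact V.zero_mem

private theorem Lp_XV (V : ValuationSubring K) (n : ℕ) :
    PowerSeries.coeff n (PowerSeries.X : PowerSeries K) ∈ V := by
  rw [PowerSeries.coeff_X]
  split_ifs
  · exact V.one_mem
  · exact V.zero_mem

/-- the coefficients of `1 - 2 u Z² + Z⁴` -/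
private theorem Lp_qV (V : ValuationSubring K) {u : K} (hu : u ∈ V) {Z : PowerSeries K}
    (hZ : ∀ n, PowerSeries.coeff n Z ∈ V) (n : ℕ) :
    PowerSeries.coeff n (1 - 2 * PowerSeries.C u * Z ^ 2 + Z ^ 4) ∈ V := by
  have h1 : (2 * PowerSeries.C u : PowerSeries K) = PowerSeries.C (2 * u) := by
    rw [map_mul, map_ofNat]
  rw [h1, map_add, map_sub]
  refine add_mem (sub_mem (Lp_oneV V n) (Lp_mulV V (Lp_CV V ?_) (Lp_powV V hZ 2) n))
    (Lp_powV V hZ 4 n)
  rw [two_mul]
  exact add_mem hu hu

/-- the differential equation for polynomials in `X²` -/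
private theorem Lp_poly {u u' μ : K} {m : ℕ} {D : K[X]} (hI : Iso u u' μ m D) :
    (1 - 2 * C u * X ^ 2 + X ^ 4) *
      (derivative (X * expand K 2 (rp m D)) * expand K 2 D -
        X * expand K 2 (rp m D) * derivative (expand K 2 D)) ^ 2 =
      C (μ ^ 2) * (expand K 2 D ^ 4 - 2 * C u' * (X * expand K 2 (rp m D)) ^ 2 *
        expand K 2 D ^ 2 + (X * expand K 2 (rp m D)) ^ 4) := by
  have h1 := congrArg (expand K 2) hI.ode
  have hab : derivative (X * expand K 2 (rp m D)) * expand K 2 D -
        X * expand K 2 (rp m D) * derivative (expand K 2 D) =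
      expand K 2 (rp m D * D + 2 * X * (derivative (rp m D) * D - rp m D * derivative D)) := by
    rw [derivative_mul, derivative_X, derivative_expand, derivative_expand]
    simp only [map_add, map_sub, map_mul, expand_X, map_ofNat]
    push_cast
    ring
  rw [hab]
  simp only [map_add, map_sub, map_mul, map_pow, map_one, map_ofNat, expand_X, expand_C] at h1 ⊢
  linear_combination h1

end Lp

theorem thm_Lp : St_Lp := by
  intro K _ _ V p m u u' μ ε D hp hpm hV hu hu' hμ hμ0 hε hI hD hDm
  have hm : 1 ≤ m := by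
    have := hp.two_le
    omega
  -- the polynomials
  obtain ⟨a, ha⟩ : ∃ a : K[X], a = X * expand K 2 (rp m D) := ⟨_, rfl⟩
  obtain ⟨b, hb⟩ : ∃ b : K[X], b = expand K 2 D := ⟨_, rfl⟩
  have hpoly := Lp_poly hI
  rw [← ha, ← hb] at hpoly
  have hDs : ∀ j, j ≤ m → (rp m D).coeff j = D.coeff (m - j) := by
    intro j hj
    rw [rp, coeff_reflect, revAt_le hj]
  have hDs' : ∀ j, (rp m D).coeff j ∈ V := by
    intro j
    rw [rp, coeff_reflect]
    exact hD _
  have hac : ∀ j, a.coeff (2 * j + 1) = (rp m D).coeff j := by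
    intro j
    rw [ha, coeff_X_mul, coeff_expand_mul' (by norm_num)]
  have ha0 : a.coeff 0 = 0 := by rw [ha, coeff_X_mul_zero]
  have haV : ∀ n, a.coeff n ∈ V := by
    intro n
    rcases n with _ | n
    · rw [ha0]; exact V.zero_mem
    · rw [ha, coeff_X_mul, coeff_expand (by norm_num)]
      split_ifs
      · exact hDs' _
      · exact V.zero_mem
  have hbc : ∀ n, b.coeff n = if 2 ∣ n then D.coeff (n / 2) else 0 := by
    intro n
    rw [hb, coeff_expand (by norm_num)]
  have hb0 : b.coeff 0 = 1 := by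
    rw [hbc, if_pos (dvd_zero 2), Nat.zero_div, hI.one]
  have hbV : ∀ n, b.coeff n ∈ V := by
    intro n
    rw [hbc]
    split_ifs
    · exact hD _
    · exact V.zero_mem
  -- the power series
  obtain ⟨A, hA⟩ : ∃ A : PowerSeries K, A = (a : PowerSeries K) := ⟨_, rfl⟩
  obtain ⟨B, hB⟩ : ∃ B : PowerSeries K, B = (b : PowerSeries K) := ⟨_, rfl⟩
  have hAc : ∀ n, PowerSeries.coeff n A = a.coeff n := fun n => by rw [hA, Polynomial.coeff_coe]
  have hBc : ∀ n, PowerSeries.coeff n B = b.coeff n := fun n => by rw [hB, Polynomial.coeff_coe]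
  have hB0 : PowerSeries.coeff 0 B = 1 := by rw [hBc, hb0]
  have hB1 : PowerSeries.constantCoeff B ≠ 0 := by
    rw [← PowerSeries.coeff_zero_eq_constantCoeff_apply, hB0]
    exact one_ne_zero
  have hBne : B ≠ 0 := by
    intro h
    rw [h, map_zero] at hB0
    exact zero_ne_one hB0
  obtain ⟨R, hR⟩ : ∃ R : PowerSeries K, R * B = A :=
    ⟨A * B⁻¹, by rw [mul_assoc, PowerSeries.inv_mul_cancel _ hB1, mul_one]⟩
  have hRV : ∀ k, PowerSeries.coeff k R ∈ V :=
    Lp_div V hR hB0 (fun n => by rw [hBc]; exact hbV n) (fun n => by rw [hAc]; exact haV n)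
  have hR0 : PowerSeries.coeff 0 R = 0 := by
    have h1 := Lp_coeff_mul R B hB0 0
    rw [hR, hAc, ha0, Finset.sum_range_zero, zero_add] at h1
    exact h1.symm
  have hR1 : PowerSeries.coeff 1 R = ε * μ := by
    have h1 := Lp_coeff_mul R B hB0 1
    rw [hR, hAc, Finset.sum_range_one, hR0, zero_mul, zero_add] at h1
    rw [← h1, ← hDm]
    have h2 := hac 0
    rw [Nat.mul_zero, Nat.zero_add] at h2
    rw [h2, hDs 0 (Nat.zero_le _), Nat.sub_zero]
  -- the differential equation
  have hode : (1 - 2 * PowerSeries.C u * PowerSeries.X ^ 2 + PowerSeries.X ^ 4) *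
      PowerSeries.derivative K R ^ 2 =
    PowerSeries.C ((ε * μ) ^ 2) * (1 - 2 * PowerSeries.C u' * R ^ 2 + R ^ 4) := by
    have h1 := congrArg (fun q : K[X] => (q : PowerSeries K)) hpoly
    simp only [Polynomial.coe_mul, Polynomial.coe_sub, Polynomial.coe_add, Polynomial.coe_pow,
      Polynomial.coe_one, Polynomial.coe_C, Polynomial.coe_X,
      ← PowerSeries.derivative_coe, ← hA, ← hB] at h1
    have h2 : PowerSeries.derivative K R * B ^ 2 =
        PowerSeries.derivative K A * B - A * PowerSeries.derivative K B := by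
      have h3 : PowerSeries.derivative K A =
          R * PowerSeries.derivative K B + B * PowerSeries.derivative K R := by
        rw [← hR, Derivation.leibniz, smul_eq_mul, smul_eq_mul]
      rw [h3, ← hR]
      ring
    have h4 : ((2 : K[X]) : PowerSeries K) = 2 := by
      have h5 : (2 : K[X]) = C 2 := by rw [map_ofNat]
      rw [h5, Polynomial.coe_C, map_ofNat]
    rw [h4] at h1
    rw [← h2] at h1
    have h5 : (ε * μ) ^ 2 = μ ^ 2 := by rw [mul_pow, hε, one_mul]
    rw [h5]
    have h6 : B ^ 4 ≠ 0 := pow_ne_zero 4 hBne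
    apply mul_right_cancel₀ h6
    rw [← hR] at h1
    linear_combination h1
  -- the coefficients below `p`
  have hεV : ε ∈ V := by
    have h0 : (ε - 1) * (ε + 1) = 0 := by linear_combination hε
    rcases mul_eq_zero.1 h0 with h | h
    · rw [sub_eq_zero.1 h]; exact V.one_mem
    · rw [eq_neg_of_add_eq_zero_left h]; exact V.neg_mem _ V.one_mem
  have hε0 : ε ≠ 0 := by
    rintro rfl
    norm_num at hε
  have hεμ : ε * μ ≠ 0 := mul_ne_zero hε0 hμ0
  have h2V : (2 : K)⁻¹ ∈ V := by
    have := Lp_inv V hp hV (k := 2) (by norm_num) (by omega)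
    exact_mod_cast this
  have hdV : ∀ n, ∃ z ∈ V, PowerSeries.coeff n (PowerSeries.derivative K R) = μ * z := by
    obtain ⟨S, hS⟩ : ∃ S : PowerSeries K, S = PowerSeries.C (ε * μ)⁻¹ *
      PowerSeries.derivative K R := ⟨_, rfl⟩
    have hdS : PowerSeries.derivative K R = PowerSeries.C (ε * μ) * S := by
      rw [hS, ← mul_assoc, ← map_mul, mul_inv_cancel₀ hεμ, map_one, one_mul]
    have hS0 : PowerSeries.coeff 0 S = 1 := by
      rw [hS, PowerSeries.coeff_C_mul, PowerSeries.coeff_derivative, hR1]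
      push_cast
      rw [zero_add, mul_one, inv_mul_cancel₀ hεμ]
    have hC0 : (PowerSeries.C ((ε * μ) ^ 2) : PowerSeries K) ≠ 0 := by
      rw [Ne, ← map_zero (PowerSeries.C (R := K)), PowerSeries.C_injective.eq_iff]
      exact pow_ne_zero 2 hεμ
    have h1 : (S * S) * (1 - 2 * PowerSeries.C u * PowerSeries.X ^ 2 + PowerSeries.X ^ 4) =
        1 - 2 * PowerSeries.C u' * R ^ 2 + R ^ 4 := by
      apply mul_left_cancel₀ hC0
      rw [← hode, hdS, map_pow]
      ring
    have h2 : PowerSeries.coeff 0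
        (1 - 2 * PowerSeries.C u * PowerSeries.X ^ 2 + PowerSeries.X ^ 4 : PowerSeries K) = 1 := by
      rw [PowerSeries.coeff_zero_eq_constantCoeff_apply]
      simp
    have h3 := Lp_div V h1 h2 (Lp_qV V hu (Lp_XV V)) (Lp_qV V hu' hRV)
    have h4 := Lp_sqrt V (S := S) (E := S * S) rfl hS0 h2V two_ne_zero h3
    intro n
    refine ⟨ε * PowerSeries.coeff n S, mul_mem hεV (h4 n), ?_⟩
    rw [hdS, PowerSeries.coeff_C_mul]
    ring
  have hlow : ∀ k, k < p → ∃ z ∈ V, PowerSeries.coeff k R = μ * z := by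
    intro k hk
    rcases k with _ | k
    · exact ⟨0, V.zero_mem, by rw [hR0, mul_zero]⟩
    · obtain ⟨z, hz, h1⟩ := hdV k
      rw [PowerSeries.coeff_derivative] at h1
      have h2 := Lp_inv V hp hV (Nat.succ_pos k) hk
      have h3 : ((k.succ : ℕ) : K) ≠ 0 := Nat.cast_ne_zero.2 (Nat.succ_ne_zero k)
      refine ⟨z * ((k.succ : ℕ) : K)⁻¹, mul_mem hz h2, ?_⟩
      rw [← mul_assoc, ← h1, Nat.cast_succ, mul_assoc, mul_inv_cancel₀, mul_one]
      rwa [Nat.cast_succ] at h3
  -- the coefficients of `D`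
  have hBμ : ∀ n, 1 ≤ n → n ≤ p → PowerSeries.coeff n B ∈ Lp_I V μ := by
    intro n h1 h2
    rw [hBc, hbc]
    split_ifs with h3
    · obtain ⟨i, rfl⟩ := h3
      rw [Nat.mul_div_cancel_left i (by norm_num)]
      -- the coefficient at `X^(2 (m - i) + 1)`
      have h4 : m - (m - i) = i := by omega
      have h5 : D.coeff i = PowerSeries.coeff (2 * (m - i) + 1) (R * B) := by
        rw [hR, hAc, hac, hDs _ (Nat.sub_le _ _), h4]
      rw [h5, PowerSeries.coeff_mul]
      refine sum_mem fun q hq => ?_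
      have h6 : q.1 + q.2 = 2 * (m - i) + 1 := Finset.HasAntidiagonal.mem_antidiagonal.1 hq
      obtain ⟨z, hz, h7⟩ := hlow q.1 (by omega)
      refine ⟨z * PowerSeries.coeff q.2 B, mul_mem hz (by rw [hBc]; exact hbV _), ?_⟩
      rw [h7]
      ring
    · exact zero_mem _
  have hRp : ∃ z ∈ V, PowerSeries.coeff p R = 1 + μ ^ 2 * z := by
    have h1 := Lp_coeff_mul R B hB0 p
    have h2 : PowerSeries.coeff p A = 1 := by
      rw [hAc, hpm, hac, hDs m le_rfl, Nat.sub_self, hI.one]
    rw [hR, h2] at h1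
    have h3 : -∑ k ∈ Finset.range p, PowerSeries.coeff k R * PowerSeries.coeff (p - k) B ∈
        Lp_I V (μ ^ 2) := by
      refine neg_mem (sum_mem fun k hk => ?_)
      have hk' := Finset.mem_range.1 hk
      obtain ⟨z, hz, h4⟩ := hlow k hk'
      obtain ⟨w, hw, h5⟩ := hBμ (p - k) (by omega) (by omega)
      exact ⟨z * w, mul_mem hz hw, by rw [h4, h5]; ring⟩
    obtain ⟨z, hz, h4⟩ := h3
    refine ⟨z, hz, ?_⟩
    rw [← h4, h1]
    ring
  exact ⟨R, hRV, hR0, hR1, hlow, hRp, hode⟩

end Pool.Agent.CVH
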