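import Pool.Agent.CVH.St

/-!
# CVH, module Lr: an isogeny with a multiplier in the maximal ideal of a valuation ring
-/

set_option autoImplicit false

noncomputable section

namespace Pool.Agent.CVH

open Polynomial
open scoped Classical

/-- the expression `D* D + 2 X (D*' D - D* D')`, `D* = reflect m D` -/
def Lr_F {R : Type*} [CommRing R] (m : ℕ) (D : R[X]) : R[X] :=
  reflect m D * D + 2 * X * (derivative (reflect m D) * D - reflect m D * derivative D)

/-- the left side of the differential equation -/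
def Lr_G {R : Type*} [CommRing R] (u : R) (m : ℕ) (D : R[X]) : R[X] :=
  (X ^ 2 - C (2 * u) * X + 1) * Lr_F m D ^ 2

/-- the right side of the differential equation -/
def Lr_H {R : Type*} [CommRing R] (u' μ : R) (m : ℕ) (D : R[X]) : R[X] :=
  C (μ ^ 2) * (X ^ 2 * reflect m D ^ 4 - C (2 * u') * X * reflect m D ^ 2 * D ^ 2 + D ^ 4)

theorem Lr_F_map {R S : Type*} [CommRing R] [CommRing S] (f : R →+* S) (m : ℕ) (D : R[X]) :
    (Lr_F m D).map f = Lr_F m (D.map f) := by
  unfold Lr_F
  rw [reflect_map]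
  simp [derivative_map]

theorem Lr_G_map {R S : Type*} [CommRing R] [CommRing S] (f : R →+* S) (u : R) (m : ℕ) (D : R[X]) :
    (Lr_G u m D).map f = Lr_G (f u) m (D.map f) := by
  unfold Lr_G
  rw [← Lr_F_map]
  have h2 : f 2 = 2 := map_ofNat f 2
  simp [h2]

theorem Lr_H_map {R S : Type*} [CommRing R] [CommRing S] (f : R →+* S) (u' μ : R) (m : ℕ)
    (D : R[X]) : (Lr_H u' μ m D).map f = Lr_H (f u') (f μ) m (D.map f) := by
  unfold Lr_H
  rw [reflect_map]
  have h2 : f 2 = 2 := map_ofNat f 2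
  simp [h2]

theorem Lr_F_smul {R : Type*} [CommRing R] (m : ℕ) (D : R[X]) (c : R) :
    Lr_F m (C c * D) = C c ^ 2 * Lr_F m D := by
  unfold Lr_F
  rw [reflect_C_mul]
  simp only [derivative_mul, derivative_C, zero_mul, zero_add]
  ring

theorem Lr_G_smul {R : Type*} [CommRing R] (u : R) (m : ℕ) (D : R[X]) (c : R) :
    Lr_G u m (C c * D) = C c ^ 4 * Lr_G u m D := by
  unfold Lr_G
  rw [Lr_F_smul]
  ring

theorem Lr_H_smul {R : Type*} [CommRing R] (u' μ : R) (m : ℕ) (D : R[X]) (c : R) :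
    Lr_H u' μ m (C c * D) = C c ^ 4 * Lr_H u' μ m D := by
  unfold Lr_H
  rw [reflect_C_mul]
  ring

theorem Lr_quad {R : Type*} [CommRing R] [Nontrivial R] (a : R) :
    (X ^ 2 - C (2 * a) * X + 1 : R[X]) ≠ 0 := by
  intro h
  have h1 := congrArg (fun P : R[X] => P.coeff 0) h
  simp at h1

theorem thm_Lr (hLk : St_Lk) : St_Lr := by
  intro K _ _ V p u u' μ m D hp hres hu hu' hμ hD
  have hode : Lr_G u m D = Lr_H u' μ m D := hD.ode
  have hD0 : D ≠ 0 := by
    rintro rfl
    have h1 := hD.one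
    rw [coeff_zero] at h1
    exact zero_ne_one h1
  -- a coefficient of maximal value
  obtain ⟨j, hj, hmax⟩ := Finset.exists_max_image D.support (fun i => V.valuation (D.coeff i))
    (support_nonempty.2 hD0)
  have hlam : D.coeff j ≠ 0 := mem_support_iff.1 hj
  have hmax' : ∀ i, V.valuation (D.coeff i) ≤ V.valuation (D.coeff j) := by
    intro i
    by_cases hi : D.coeff i = 0
    · rw [hi, map_zero]
      exact zero_le
    · exact hmax i (mem_support_iff.2 hi)
  obtain ⟨c, hc⟩ : ∃ c, c = (D.coeff j)⁻¹ := ⟨_, rfl⟩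
  have hc0 : c ≠ 0 := hc ▸ inv_ne_zero hlam
  have hvc : V.valuation (D.coeff j) ≠ 0 := (Valuation.ne_zero_iff _).2 hlam
  have hmem : ∀ i, c * D.coeff i ∈ V := by
    intro i
    rw [← ValuationSubring.valuation_le_one_iff, map_mul, hc, map_inv₀]
    calc (V.valuation (D.coeff j))⁻¹ * V.valuation (D.coeff i)
        ≤ (V.valuation (D.coeff j))⁻¹ * V.valuation (D.coeff j) :=
          mul_le_mul_right (hmax' i) _
      _ = 1 := inv_mul_cancel₀ hvc
  obtain ⟨D₂, hD₂⟩ : ∃ D₂ : V[X], D₂.map V.subtype = C c * D := by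
    have h1 : C c * D ∈ lifts V.subtype := by
      rw [lifts_iff_coeff_lifts]
      intro i
      refine ⟨⟨c * D.coeff i, hmem i⟩, ?_⟩
      rw [coeff_C_mul]
      rfl
    rw [mem_lifts] at h1
    exact h1
  have hcoe : ∀ i, (D₂.coeff i : K) = c * D.coeff i := by
    intro i
    have h1 := congrArg (fun P : K[X] => P.coeff i) hD₂
    simp only [coeff_map, coeff_C_mul] at h1
    exact h1
  have hinj : Function.Injective V.subtype := Subtype.val_injective
  have hμV : μ ∈ V := V.nonunits_subset hμ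
  have hV : Lr_G (⟨u, hu⟩ : V) m D₂ = Lr_H (⟨u', hu'⟩ : V) ⟨μ, hμV⟩ m D₂ := by
    apply map_injective V.subtype hinj
    rw [Lr_G_map, Lr_H_map, hD₂]
    change Lr_G u m (C c * D) = Lr_H u' μ m (C c * D)
    rw [Lr_G_smul, Lr_H_smul, hode]
  -- reduction
  let k := IsLocalRing.ResidueField V
  let f : V →+* k := IsLocalRing.residue V
  have hfμ : f ⟨μ, hμV⟩ = 0 := by
    change IsLocalRing.residue V ⟨μ, hμV⟩ = 0
    rw [IsLocalRing.residue_eq_zero_iff, ← ValuationSubring.coe_mem_nonunits_iff]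
    exact hμ
  have hpk : (p : k) = 0 := by
    have h1 : f (p : V) = 0 := by
      change IsLocalRing.residue V (p : V) = 0
      rw [IsLocalRing.residue_eq_zero_iff, ← ValuationSubring.coe_mem_nonunits_iff]
      exact_mod_cast hres
    rw [map_natCast] at h1
    exact h1
  have : CharP k p := (CharP.charP_iff_prime_eq_zero hp).2 hpk
  let E : k[X] := D₂.map f
  have hEF : Lr_F m E = 0 := by
    have h1 := congrArg (fun P : V[X] => P.map f) hV
    rw [Lr_G_map, Lr_H_map, hfμ] at h1
    change (X ^ 2 - C (2 * f ⟨u, hu⟩) * X + 1) * Lr_F m E ^ 2 = Lr_H _ 0 m E at h1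
    have h2 : Lr_H (f ⟨u', hu'⟩) 0 m E = 0 := by
      unfold Lr_H
      rw [zero_pow two_ne_zero, map_zero, zero_mul]
    rw [h2] at h1
    exact pow_eq_zero_iff two_ne_zero |>.1 ((mul_eq_zero.1 h1).resolve_left (Lr_quad _))
  have hE0 : E ≠ 0 := by
    intro h
    have h1 := congrArg (fun P : k[X] => P.coeff j) h
    simp only [E, coeff_map, coeff_zero] at h1
    have h2 : D₂.coeff j = 1 := by
      apply Subtype.ext
      rw [hcoe, hc, inv_mul_cancel₀ hlam]
      rfl
    rw [h2, map_one] at h1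
    exact one_ne_zero h1
  have hdeg2 : D₂.natDegree ≤ m := by
    rw [← natDegree_map_eq_of_injective hinj D₂, hD₂]
    exact (natDegree_C_mul_le c D).trans hD.deg
  have hEdeg : E.natDegree ≤ m := natDegree_map_le.trans hdeg2
  obtain ⟨h1, h2⟩ := hLk k p m E hp hE0 hEdeg hEF
  refine ⟨h1, fun h3 => ?_⟩
  have h4 := h2 h3
  have h5 : f (D₂.coeff 0) ≠ 0 := by
    intro h6
    apply hE0
    rw [eq_C_of_natDegree_eq_zero h4]
    change C ((D₂.map f).coeff 0) = 0
    rw [coeff_map, h6, map_zero]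
  have h6 : ¬ (c ∈ V.nonunits) := by
    intro h7
    apply h5
    change IsLocalRing.residue V (D₂.coeff 0) = 0
    rw [IsLocalRing.residue_eq_zero_iff, ← ValuationSubring.coe_mem_nonunits_iff, hcoe, hD.one,
      mul_one]
    exact h7
  have h7 : D.coeff j ∈ V := by
    by_contra h8
    apply h6
    rw [hc, ValuationSubring.inv_mem_nonunits_iff]
    exact Or.inr h8
  intro i
  have h8 : D.coeff i = D.coeff j * (c * D.coeff i) := by
    rw [hc, mul_inv_cancel_left₀ hlam]
  rw [h8]
  exact V.mul_mem _ _ h7 (hmem i)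

end Pool.Agent.CVH
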