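import Pool.Agent.CVH.St

/-!
# CVH, module Lt: the logarithmic derivative is additive (proved by helper17)
-/

set_option autoImplicit false

noncomputable section

namespace Pool.Agent.CVH

open Polynomial
open scoped Classical

theorem Lt_add (hGr : St_Gr) (hLi : St_Li) (hLa : St_La) (hLb : St_Lb)
    {F : Type} [Field F] {δ : F → F} {u D : F} (hδ : Dn δ) (h2 : (2 : F) ≠ 0) (hD : D ≠ 0)
    (hu : u ^ 2 ≠ 1) (hδu : δ u = 0) (P Q : Ps u D) (c₁ c₂ : F) (h1 : Lg δ P c₁) (h2' : Lg δ Q c₂) :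
    Lg δ (P + Q) (c₁ + c₂) := by
  obtain ⟨g1, g2, g3, g4, g5, g6, g7, g8⟩ := hGr F u D h2 hD hu
  obtain ⟨l1, l2, l3⟩ := hLi F δ u D hδ h2 hD hu hδu
  rcases h1 with ⟨rfl, rfl⟩ | ⟨r₁, s₁, p1, e1, f1⟩
  · rw [zero_add, zero_add]
    exact h2'
  rcases h2' with ⟨rfl, rfl⟩ | ⟨r₂, s₂, p2, e2, f2⟩
  · rw [add_zero, add_zero]
    exact Or.inr ⟨r₁, s₁, p1, e1, f1⟩
  have hL1 : Lg δ P c₁ := Or.inr ⟨r₁, s₁, p1, e1, f1⟩
  have hL2 : Lg δ Q c₂ := Or.inr ⟨r₂, s₂, p2, e2, f2⟩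
  by_cases hr : r₁ = r₂
  · subst hr
    rcases g7 P Q r₁ s₁ s₂ p1 p2 with ⟨rfl, rfl⟩ | ⟨rfl, rfl⟩
    · by_cases hs : s₂ = 0
      · subst hs
        have z1 := l3 _ _ _ p1 hL1
        have z2 := l3 _ _ _ p1 hL2
        exact Or.inl ⟨(g8 _ _ p1).1, by rw [z1, z2, add_zero]⟩
      · have hc : c₂ = c₁ := mul_right_cancel₀ hs (e2.symm.trans e1)
        subst hc
        exact hLb F δ u D hδ h2 hD hu hδu _ _ _ _ p1 hs hL1
    · refine Or.inl ⟨add_neg_cancel P, ?_⟩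
      by_cases hs : s₁ = 0
      · subst hs
        rw [neg_zero] at p2
        rw [l3 _ _ _ p1 hL1, l3 _ _ _ p2 hL2, add_zero]
      · apply mul_right_cancel₀ hs
        linear_combination e2 - e1
  · exact hLa F δ u D hδ h2 hD hu hδu P Q r₁ s₁ r₂ s₂ c₁ c₂ p1 p2 hr hL1 hL2

theorem thm_Lt (hGr : St_Gr) (hLi : St_Li) (hLa : St_La) (hLb : St_Lb) : St_Lt := by
  intro F _ δ u D hδ h2 hD hu hδu
  have hadd := Lt_add hGr hLi hLa hLb hδ h2 hD hu hδu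
  have hneg := (hLi F δ u D hδ h2 hD hu hδu).2.1
  have hnat : ∀ (P : Ps u D) (c : F) (n : ℕ), Lg δ P c → Lg δ (n • P) ((n : F) * c) := by
    intro P c n h
    induction n with
    | zero =>
      rw [zero_smul, Nat.cast_zero, zero_mul]
      exact Or.inl ⟨rfl, rfl⟩
    | succ n ih =>
      rw [succ_nsmul, Nat.cast_succ, add_mul, one_mul]
      exact hadd _ _ _ _ ih h
  have hint : ∀ (P : Ps u D) (c : F) (n : ℤ), Lg δ P c → Lg δ (n • P) ((n : F) * c) := by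
    intro P c n h
    obtain ⟨m, rfl | rfl⟩ := n.eq_nat_or_neg
    · rw [natCast_zsmul, Int.cast_natCast]
      exact hnat P c m h
    · rw [neg_smul, natCast_zsmul, Int.cast_neg, Int.cast_natCast, neg_mul]
      exact hneg _ _ (hnat P c m h)
  exact ⟨hadd, fun P Q c₁ c₂ x y h1 h2' => hadd _ _ _ _ (hint P c₁ x h1) (hint Q c₂ y h2')⟩

end Pool.Agent.CVH
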