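import Pool.Agent.CVH.St

/-!
# CVH: the product of two conjugate Legendre polynomials modulo `μ²`
-/

set_option autoImplicit false

noncomputable section

namespace Pool.Agent.CVH

open Polynomial
open scoped Classical

private lemma Lw_coeff {K : Type} [Field K] (m : ℕ) (D : K[X]) :
    (rp m D).coeff 0 = D.coeff m := by
  rw [coeff_reflect, revAt_le (Nat.zero_le m), Nat.sub_zero]

private lemma Lw_sq {K : Type} [Field K] {u u' μ : K} {m : ℕ} {D : K[X]} (h : Iso u u' μ m D) :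
    D.coeff m ^ 2 = μ ^ 2 := by
  have h1 := congrArg (eval 0) h.ode
  have h2 : eval 0 D = 1 := by rw [← coeff_zero_eq_eval_zero, h.one]
  have h3 : eval 0 (rp m D) = D.coeff m := by rw [← coeff_zero_eq_eval_zero, Lw_coeff]
  simp only [eval_mul, eval_add, eval_sub, eval_pow, eval_X, eval_C, eval_one, h2, h3, eval_ofNat]
    at h1
  linear_combination h1

private lemma Lw_iso {K : Type} [Field K] (σ : K ≃+* K) {x x' μ : K} {m : ℕ} {D : K[X]}
    (h : Iso (1 - 2 * x) (1 - 2 * x') μ m D) :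
    Iso (1 - 2 * σ x) (1 - 2 * σ x') (σ μ) m (D.map (σ : K →+* K)) := by
  refine ⟨natDegree_map_le.trans h.deg, ?_, ?_⟩
  · rw [coeff_map, h.one, map_one]
  · have h1 := congrArg (Polynomial.map (σ : K →+* K)) h.ode
    have hr : rp m (D.map (σ : K →+* K)) = (rp m D).map (σ : K →+* K) := reflect_map _ _ _
    rw [hr]
    simp only [Polynomial.map_mul, Polynomial.map_add, Polynomial.map_sub, Polynomial.map_pow,
      Polynomial.map_X, Polynomial.map_C, Polynomial.map_one, Polynomial.map_ofNat,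
      ← derivative_map, map_mul, map_sub, map_pow, map_one, map_ofNat, RingEquiv.coe_toRingHom]
      at h1 ⊢
    exact h1

theorem thm_Lw (hLr : St_Lr) (hLc : St_Lc) : St_Lw := by
  intro K _ _ V p m σ x x' μ D hp hpm hres hx hx' hsx hsx' hμ hsμ hμ0 hd hsd hI
  have h2 : (2 : K) ∈ V := by
    have : (2 : K) = 1 + 1 := by norm_num
    rw [this]
    exact V.add_mem _ _ V.one_mem V.one_mem
  have hu : ∀ y ∈ V, 1 - 2 * y ∈ V := fun y hy =>
    sub_mem V.one_mem (mul_mem h2 hy)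
  have hle : ∀ y ∈ V.nonunits, y ∈ V := fun y hy => V.nonunits_subset hy
  have hD : ∀ i, D.coeff i ∈ V :=
    (hLr K V p _ _ μ m D hp hres (hu _ hx) (hu _ hx') hμ hI).2 hpm.symm
  have hI' := Lw_iso σ hI
  have hD' : ∀ i, (D.map (σ : K →+* K)).coeff i ∈ V :=
    (hLr K V p _ _ (σ μ) m _ hp hres (hu _ hsx) (hu _ hsx') hsμ hI').2 hpm.symm
  obtain ⟨ε, hε, hεV, hc, hσ⟩ : ∃ ε : K, ε ^ 2 = 1 ∧ ε ∈ V ∧ D.coeff m = ε * μ ∧ σ ε = ε := by
    rcases sq_eq_sq_iff_eq_or_eq_neg.1 (Lw_sq hI) with h | h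
    · exact ⟨1, one_pow _, V.one_mem, by rw [h, one_mul], map_one σ⟩
    · exact ⟨-1, by norm_num, neg_mem V.one_mem, by rw [h]; ring, by rw [map_neg, map_one]⟩
  have hc' : (D.map (σ : K →+* K)).coeff m = ε * σ μ := by
    rw [coeff_map, hc, map_mul]
    show σ ε * σ μ = _
    rw [hσ]
  have hsμ0 : σ μ ≠ 0 := fun h => hμ0 (by simpa using h)
  obtain ⟨z, hz, h1⟩ := hLc K V p m x x' μ ε D hp hpm hres hx hx' (hle _ hμ) hμ0 hd hε hI hD hc
  obtain ⟨z', hz', h1'⟩ := hLc K V p m (σ x) (σ x') (σ μ) ε _ hp hpm hres hsx hsx' (hle _ hsμ)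
    hsμ0 hsd hε hI' hD' hc'
  refine ⟨z * (ε * (p / σ μ) + (σ μ) ^ 2 * z'), ?_, ε * (p / μ) * z', ?_, ?_⟩
  · exact mul_mem hz (add_mem (mul_mem hεV hsd) (mul_mem (pow_mem (hle _ hsμ) 2) hz'))
  · exact mul_mem (mul_mem hεV hd) hz'
  · rw [h1, h1']
    linear_combination (p / μ) * (p / σ μ) * hε

end Pool.Agent.CVH
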