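import Pool.Agent.CVH.St

/-!
# CVH: [Ma] the isogenies of degree `p`
-/

set_option autoImplicit false

noncomputable section

namespace Pool.Agent.CVH

open Polynomial
open scoped Classical

private theorem Ma_odd (x y i j m : ℤ) (h : 2 * m + 1 = x ^ 2 * (2 * i + 1) + y ^ 2 * (2 * j + 1)) :
    Odd (x + y) := by
  obtain ⟨a, ha⟩ := Int.even_mul_pred_self x
  obtain ⟨b, hb⟩ := Int.even_mul_pred_self y
  exact ⟨m - x ^ 2 * i - y ^ 2 * j - a - b, by linear_combination (-1 : ℤ) * h - ha - hb⟩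

private theorem Ma_neg {K : Type} [Field K] (V : ValuationSubring K) (a : K) (h : a ∈ V.nonunits) :
    -a ∈ V.nonunits := by
  rw [ValuationSubring.mem_nonunits_iff] at h ⊢
  rwa [Valuation.map_neg]

private theorem Ma_mem {K : Type} [Field K] (V : ValuationSubring K) (g w : K) (hg : g ∈ V)
    (hw : w ∈ V) : u₁ g w ∈ V ∧ u₂ g w ∈ V := by
  have n : ∀ k : ℕ, (k : K) ∈ V := fun k => natCast_mem V k
  have h2w : 2 * w + 1 ∈ V := by
    have h := add_mem (mul_mem (n 2) hw) (n 1)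
    push_cast at h
    exact h
  constructor
  · have h := mul_mem (add_mem (mul_mem (n 14) hg) (n 9)) h2w
    push_cast at h
    exact h
  · have h := mul_mem (sub_mem (mul_mem (n 14) hg) (n 23)) h2w
    push_cast at h
    exact h

private theorem Ma_core (hLr : St_Lr) (hGp : St_Gp) (hVx : St_Vx) {K : Type} [Field K] [CharZero K]
    (δ : RatFunc K → RatFunc K) (hδ : IsDer δ) (g w : K) (hgw : Kg g w) (τ : K ≃+* K)
    (V : ValuationSubring K) (p m : ℕ) (x y : ℤ) (hp : p.Prime) (hpm : p = 2 * m + 1)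
    (hV : Res V p) (u u' : K)
    (hu : ∀ V : ValuationSubring K, g ∈ V → w ∈ V → u ∈ V ∧ u' ∈ V) (hu' : u' ^ 2 ≠ 1)
    (hirr : Irreducible (X ^ 2 - C (2 * u) * X + 1 : K[X]))
    (P Q : Ps (kc u') (DX u)) (c c' : K) (i j : ℕ) (hP : Lg δ P (kc c)) (hQ : Lg δ Q (kc c'))
    (hdP : dd P = 2 * i + 1) (hdQ : dd Q = 2 * j + 1)
    (hxy : (p : ℤ) = x ^ 2 * (2 * i + 1 : ℕ) + y ^ 2 * (2 * j + 1 : ℕ))
    (hn : (x : K) * c + y * c' ≠ 0) (hn' : (x : K) * c - y * c' ≠ 0)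
    (hτ : τ ((x : K) * c - y * c') = (x : K) * c + y * c' ∨
      τ ((x : K) * c - y * c') = -((x : K) * c + y * c'))
    (hμ : (x : K) * c + y * c' ∈ V.nonunits) :
    ∃ D : K[X], Iso u u' ((x : K) * c + y * c') m D := by
  obtain ⟨-, -, v3, v4⟩ := (hVx K p hp).2 V hV
  obtain ⟨hg, hw⟩ := v3 g w hgw.hg hgw.hw
  obtain ⟨hV', v5⟩ := v4 τ
  obtain ⟨-, -, v3', -⟩ := (hVx K p hp).2 (V.comap τ.toRingHom) hV'
  obtain ⟨hg', hw'⟩ := v3' g w hgw.hg hgw.hw
  have hodd : Odd (x + y) := by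
    refine Ma_odd x y i j m ?_
    have h1 : ((p : ℕ) : ℤ) = 2 * m + 1 := by rw [hpm]; push_cast; ring
    rw [← h1, hxy]
    push_cast
    ring
  obtain ⟨m₁, m₂, D₁, D₂, hI₁, hI₂, hsum⟩ := hGp K δ hδ u u' hu' hgw.hi hirr P Q c c' (2 * i + 1)
    (2 * j + 1) x y hP hQ hdP hdQ ⟨i, rfl⟩ ⟨j, rfl⟩ hodd hn hn'
  rw [← hxy] at hsum
  have h1 := (hLr K V p u u' _ m₁ D₁ hp hV (hu V hg hw).1 (hu V hg hw).2 hμ hI₁).1
  have hμ' : (x : K) * c - y * c' ∈ (V.comap τ.toRingHom).nonunits := by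
    rw [← v5]
    rcases hτ with h | h
    · rw [h]; exact hμ
    · rw [h]; exact Ma_neg V _ hμ
  have h2 := (hLr K (V.comap τ.toRingHom) p u u' _ m₂ D₂ hp hV' (hu _ hg' hw').1 (hu _ hg' hw').2
    hμ' hI₂).1
  have h3 : m₁ = m := by omega
  subst h3
  exact ⟨D₁, hI₁⟩

theorem thm_Ma (hDv : St_Dv) (hIc : St_Ic) (hEx : St_Ex) (hGp : St_Gp) (hLr : St_Lr)
    (hVx : St_Vx) : St_Ma := by
  intro K _ _ g w τ V p m x y hgw hτg hτw hp h3p hpm hV
  obtain ⟨δ, hδ⟩ := hDv K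
  obtain ⟨-, -, -, hu1, hu2, hirr, -, -, hd0, -⟩ := hIc K g w hgw
  obtain ⟨⟨P, Q, hP, hQ, hdP, hdQ⟩, P', Q', hP', hQ', hdP', hdQ'⟩ := hEx K δ hδ g w hgw
  have hpK : (p : K) ≠ 0 := Nat.cast_ne_zero.2 hp.ne_zero
  have t2 : τ 2 = 2 := map_ofNat τ 2
  have t3 : τ 3 = 3 := map_ofNat τ 3
  have t4 : τ 4 = 4 := map_ofNat τ 4
  constructor
  · intro hxy hμ
    have e1 : (x : K) * 1 + y * d₀ g w = (x : K) + y * d₀ g w := by rw [mul_one]
    have hprod : ((x : K) * 1 + y * d₀ g w) * ((x : K) * 1 - y * d₀ g w) = p := by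
      have h := congrArg (fun z : ℤ => (z : K)) hxy
      push_cast at h
      linear_combination -h - (y : K) ^ 2 * hd0
    have hne := hprod ▸ hpK
    rw [← e1]
    refine Ma_core hLr hGp hVx δ hδ g w hgw τ V p m x y hp hpm hV (u₁ g w) (u₁ g w)
      (fun V hg hw => ⟨(Ma_mem V g w hg hw).1, (Ma_mem V g w hg hw).1⟩) hu1 hirr P Q 1 (d₀ g w) 0 7
      hP hQ hdP hdQ ?_ (left_ne_zero_of_mul hne) (right_ne_zero_of_mul hne) (Or.inl ?_) ?_
    · rw [hxy]; push_cast; ring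
    · rw [map_sub, map_mul, map_mul, map_intCast, map_intCast, map_one]
      unfold d₀
      rw [map_mul, map_sub, map_add, map_mul, map_mul, map_one, t2, hτg, hτw]
      ring
    · rw [e1]; exact hμ
  · intro hxy hμ
    have hne1 : (2 * g + 1) ≠ 0 := by
      intro h
      have h1 : (2 * g + 1) * (2 * g - 3) = 1 := by linear_combination 4 * hgw.hg
      rw [h, zero_mul] at h1
      exact zero_ne_one h1
    have hprod : ((x : K) * c₃ g w + y * c₅ g) * ((x : K) * c₃ g w - y * c₅ g) =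
        -((2 * g + 1) ^ 2 * p) := by
      have h := congrArg (fun z : ℤ => (z : K)) hxy
      push_cast at h
      have hw3 : (2 * w + 1) ^ 2 = -3 := by linear_combination 4 * hgw.hw
      have e3 : c₃ g w ^ 2 = -3 * (2 * g + 1) ^ 2 := by
        unfold c₃
        linear_combination (2 * g + 1) ^ 2 * hw3
      have e5 : c₅ g ^ 2 = 5 * (2 * g + 1) ^ 2 := by
        unfold c₅
        linear_combination -4 * hgw.hg
      rw [h]
      linear_combination (x : K) ^ 2 * e3 - (y : K) ^ 2 * e5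
    have hne : ((x : K) * c₃ g w + y * c₅ g) * ((x : K) * c₃ g w - y * c₅ g) ≠ 0 := by
      rw [hprod]
      exact neg_ne_zero.2 (mul_ne_zero (pow_ne_zero 2 hne1) hpK)
    refine Ma_core hLr hGp hVx δ hδ g w hgw τ V p m x y hp hpm hV (u₁ g w) (u₂ g w)
      (fun V hg hw => Ma_mem V g w hg hw) hu2 hirr P' Q' (c₃ g w) (c₅ g) 1 2
      hP' hQ' hdP' hdQ' ?_ (left_ne_zero_of_mul hne) (right_ne_zero_of_mul hne) (Or.inr ?_) hμ
    · rw [hxy]; push_cast; ring
    · rw [map_sub, map_mul, map_mul, map_intCast, map_intCast]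
      unfold c₃ c₅
      rw [map_neg, map_neg, map_mul, map_add, map_add, map_add, map_mul, map_mul, map_mul, map_one,
        t2, t3, t4, hτg, hτw]
      ring

end Pool.Agent.CVH
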