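import Pool.Agent.CVH.St
import Pool.Agent.CTS.Main

/-!
# CVH, module Mb: the congruences (helper26)
-/

set_option autoImplicit false

noncomputable section

namespace Pool.Agent.CVH

open Polynomial
open scoped Classical

section val

variable {K : Type} [Field K] (V : ValuationSubring K)

private theorem Mb_mul {a b : K} (ha : a ∈ V) (hb : b ∈ V.nonunits) : a * b ∈ V.nonunits := by
  rw [ValuationSubring.mem_nonunits_iff] at hb ⊢
  rw [← V.valuation_le_one_iff] at ha
  rw [map_mul]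
  exact lt_of_le_of_lt (mul_le_of_le_one_left' ha) hb

private theorem Mb_add {a b : K} (ha : a ∈ V.nonunits) (hb : b ∈ V.nonunits) :
    a + b ∈ V.nonunits := by
  rw [ValuationSubring.mem_nonunits_iff] at ha hb ⊢
  exact V.valuation.map_add_lt ha hb

private theorem Mb_mem {a : K} (ha : a ∈ V.nonunits) : a ∈ V := by
  rw [ValuationSubring.mem_nonunits_iff] at ha
  rw [← V.valuation_le_one_iff]
  exact ha.le

private theorem Mb_inv {a : K} (h : a ∉ V.nonunits) : a ≠ 0 ∧ a⁻¹ ∈ V := by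
  have h0 : a ≠ 0 := by
    rintro rfl
    apply h
    rw [ValuationSubring.mem_nonunits_iff, map_zero]
    exact zero_lt_one
  refine ⟨h0, ?_⟩
  rw [ValuationSubring.mem_nonunits_iff, not_lt] at h
  rw [← V.valuation_le_one_iff, map_inv₀]
  exact inv_le_one_of_one_le₀ h

private theorem Mb_or {a b : K} (h : a * b ∈ V.nonunits) :
    a ∈ V.nonunits ∨ b ∈ V.nonunits := by
  by_contra hc
  rw [not_or] at hc
  obtain ⟨h1, h2⟩ := hc
  rw [ValuationSubring.mem_nonunits_iff] at h h1 h2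
  rw [not_lt] at h1 h2
  rw [map_mul] at h
  exact absurd (one_le_mul_of_one_le_of_one_le h1 h2) (not_le.2 h)

end val

/-- The end of both cases. -/
private theorem Mb_end {K : Type} [Field K] (V : ValuationSubring K) (p : ℕ) (S : ℤ)
    (a a' z z₂ P : K) (c : ℤ)
    (hN : ∀ (n : ℤ) (z : K), z ∈ V → (n : K) = p ^ 2 * z → (p : ℤ) ^ 2 ∣ n)
    (ha' : a' ∉ V.nonunits) (ha'V : a' ∈ V) (haa : a * a' = p) (hc : (c : K) = a ^ 2 + a' ^ 2)
    (hz : z ∈ V) (hz₂ : z₂ ∈ V) (hP : P = a' ^ 2 + a ^ 2 * z) (hS : (S : K) = P + p ^ 2 * z₂) :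
    (p : ℤ) ^ 2 ∣ S - c := by
  obtain ⟨h0, h1⟩ := Mb_inv V ha'
  refine hN (S - c) ((z - 1 + a' ^ 2 * z₂) * (a'⁻¹) ^ 2) ?_ ?_
  · exact V.mul_mem _ _ (V.add_mem _ _ (V.sub_mem hz V.one_mem)
      (V.mul_mem _ _ (pow_mem ha'V 2) hz₂)) (pow_mem h1 2)
  · have h2 : a' * a'⁻¹ = 1 := mul_inv_cancel₀ h0
    rw [Int.cast_sub, hS, hc, hP, ← haa]
    linear_combination (- (a ^ 2 * (z - 1 + a' ^ 2 * z₂)) * (a' * a'⁻¹ + 1)) * h2

private theorem Mb_gen (S : ℕ → ℤ) (hMa : St_Ma) (hLw : St_Lw) (hVx : St_Vx) (hVs : St_Vs S)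
    (hKf : St_Kf) (hIc : St_Ic) : St_Mb S := by
  intro p X Y hp hp3
  obtain ⟨K, iF, iC, g, w, σ, τ, hKg, hσg, hσw, hτg, hτw⟩ := hKf
  obtain ⟨⟨V, hV⟩, hVx2⟩ := hVx K p hp
  obtain ⟨hN1, hN2, hint, -⟩ := hVx2 V hV
  obtain ⟨hg, hw⟩ := hint g w hKg.hg hKg.hw
  obtain ⟨-, hu12, hu21, -, -, -, -, -, hd0, -⟩ := hIc K g w hKg
  have hg2 := hKg.hg
  have hw2 := hKg.hw
  have hodd : ∃ m, p = 2 * m + 1 := by
    rcases hp.eq_two_or_odd' with h | h
    · omega
    · exact h
  obtain ⟨m, hpm⟩ := hodd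
  have hpn : (p : K) ∈ V.nonunits := hV
  have hp0 : (p : K) ≠ 0 := by exact_mod_cast hp.ne_zero
  have hZV : ∀ n : ℤ, (n : K) ∈ V := fun n => intCast_mem V n
  have hNV : ∀ n : ℕ, (n : K) ∈ V := fun n => natCast_mem V n
  have h2V : (2 : K) ∈ V := by exact_mod_cast hNV 2
  have h3V : (3 : K) ∈ V := by exact_mod_cast hNV 3
  have h2i : (2 : K)⁻¹ ∈ V := by
    refine (Mb_inv V ?_).2
    intro h
    have h1 := hN1 2 (by exact_mod_cast h)
    have h2 : (p : ℤ) ≤ 2 := Int.le_of_dvd (by norm_num) h1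
    omega
  have hgg : 2 * g - 1 ∈ V := V.sub_mem (V.mul_mem _ _ h2V hg) V.one_mem
  have hgp : 2 * g + 1 ∈ V := V.add_mem _ _ (V.mul_mem _ _ h2V hg) V.one_mem
  have hgm : 3 - 2 * g ∈ V := V.sub_mem h3V (V.mul_mem _ _ h2V hg)
  have hww : 2 * w + 1 ∈ V := V.add_mem _ _ (V.mul_mem _ _ h2V hw) V.one_mem
  have hu₁ : u₁ g w ∈ V := by
    unfold u₁
    refine V.mul_mem _ _ (V.add_mem _ _ (V.mul_mem _ _ ?_ hg) ?_) hww
    · exact_mod_cast hNV 14
    · exact_mod_cast hNV 9
  have hu₂ : u₂ g w ∈ V := by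
    unfold u₂
    refine V.mul_mem _ _ (V.sub_mem (V.mul_mem _ _ ?_ hg) ?_) hww
    · exact_mod_cast hNV 14
    · exact_mod_cast hNV 23
  have hx₁ : (1 - u₁ g w) / 2 ∈ V := by
    rw [div_eq_mul_inv]
    exact V.mul_mem _ _ (V.sub_mem V.one_mem hu₁) h2i
  have hx₂ : (1 - u₂ g w) / 2 ∈ V := by
    rw [div_eq_mul_inv]
    exact V.mul_mem _ _ (V.sub_mem V.one_mem hu₂) h2i
  have hσu₁ : σ (u₁ g w) = u₂ g w := by
    rw [← hu12]
    unfold u₁
    simp only [map_mul, map_add, map_one, map_ofNat, hσg, hσw]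
  have hσu₂ : σ (u₂ g w) = u₁ g w := by
    rw [← hu21]
    unfold u₂
    simp only [map_mul, map_add, map_sub, map_one, map_ofNat, hσg, hσw]
  have hσx₁ : σ ((1 - u₁ g w) / 2) = (1 - u₂ g w) / 2 := by
    rw [map_div₀, map_sub, map_one, map_ofNat, hσu₁]
  have hσx₂ : σ ((1 - u₂ g w) / 2) = (1 - u₁ g w) / 2 := by
    rw [map_div₀, map_sub, map_one, map_ofNat, hσu₂]
  have e₁ : 1 - 2 * ((1 - u₁ g w) / 2) = u₁ g w := by ring
  have e₂ : 1 - 2 * ((1 - u₂ g w) / 2) = u₂ g w := by ring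
  obtain ⟨z₂, hz₂, hS⟩ := hVs K V p m g w hp hpm hV hKg.hg hKg.hw
  have hpp : Prime (p : ℤ) := Nat.prime_iff_prime_int.1 hp
  have h3p : ¬ (3 : ℤ) ∣ p := by
    intro h
    have h1 : 3 ∣ p := by exact_mod_cast h
    have h2 := (Nat.prime_dvd_prime_iff_eq Nat.prime_three hp).1 h1
    omega
  have hsmall : ∀ n : ℤ, (p : ℤ) ∣ n → n ^ 2 ≤ p → n = 0 := by
    intro n h1 h2
    by_contra h3
    obtain ⟨c, rfl⟩ := h1
    have hc : c ≠ 0 := by
      rintro rfl
      apply h3
      ring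
    have hc1 : 1 ≤ c ^ 2 := by
      have h4 : c ^ 2 ≠ 0 := pow_ne_zero 2 hc
      have h5 := sq_nonneg c
      omega
    have hp3' : (3 : ℤ) < p := by exact_mod_cast hp3
    have h4 : (p : ℤ) ^ 2 * 1 ≤ (p : ℤ) ^ 2 * c ^ 2 := mul_le_mul_of_nonneg_left hc1 (sq_nonneg _)
    rw [mul_pow] at h2
    nlinarith
  refine ⟨?_, ?_⟩
  · -- case A
    have key : ∀ x y : ℤ, (p : ℤ) = x ^ 2 + 15 * y ^ 2 → (x : K) + y * d₀ g w ∈ V.nonunits →
        (p : ℤ) ^ 2 ∣ S p - (4 * x ^ 2 - 2 * p) := by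
      intro x y hxy hμ
      set μ : K := (x : K) + y * d₀ g w with hμd
      set μ' : K := (x : K) - y * d₀ g w with hμ'd
      have hpK : (p : K) = (x : K) ^ 2 + 15 * (y : K) ^ 2 := by exact_mod_cast hxy
      have hmm : μ * μ' = p := by
        rw [hpK, hμd, hμ'd]
        linear_combination (-(y : K) ^ 2) * hd0
      have hd0V : d₀ g w ∈ V := V.mul_mem _ _ hgg hww
      have hμ'V : μ' ∈ V := V.sub_mem (hZV x) (V.mul_mem _ _ (hZV y) hd0V)
      have hμ' : μ' ∉ V.nonunits := by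
        intro h
        have h1 := Mb_add V hμ h
        have h2 : μ + μ' = ((2 * x : ℤ) : K) := by
          rw [hμd, hμ'd]
          push_cast
          ring
        rw [h2] at h1
        have h3 := hN1 _ h1
        have h4 : (p : ℤ) ∣ x := by
          rcases hpp.dvd_mul.1 h3 with h5 | h5
          · have := Int.le_of_dvd (by norm_num) h5
            omega
          · exact h5
        have h5 := hsmall x h4 (by nlinarith [sq_nonneg y])
        rw [h5] at hxy
        exact h3p ⟨5 * y ^ 2, by rw [hxy]; ring⟩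
      have hμ0 : μ ≠ 0 := by
        intro h
        rw [h, zero_mul] at hmm
        exact hp0 hmm.symm
      have hσd : σ (d₀ g w) = d₀ g w := by
        unfold d₀
        simp only [map_mul, map_add, map_sub, map_one, map_ofNat, hσg, hσw]
        ring
      have hσμ : σ μ = μ := by
        rw [hμd, map_add, map_mul, map_intCast, map_intCast, hσd]
      have hpμ : (p : K) / μ = μ' := by
        rw [← hmm]
        field_simp
      obtain ⟨D, hD⟩ := (hMa K g w τ V p m x y hKg hτg hτw hp hp3 hpm hV).1 hxy hμ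
      obtain ⟨z, hz, z', hz', hPL⟩ := hLw K V p m σ ((1 - u₁ g w) / 2) ((1 - u₁ g w) / 2) μ D hp hpm hV
        hx₁ hx₁ (by rw [hσx₁]; exact hx₂) (by rw [hσx₁]; exact hx₂) hμ (by rw [hσμ]; exact hμ) hμ0
        (by rw [hpμ]; exact hμ'V) (by rw [hσμ, hpμ]; exact hμ'V) (by rw [e₁]; exact hD)
      rw [hσμ, hpμ, hσx₁] at hPL
      refine Mb_end V p (S p) μ μ' (z + z') z₂ _ (4 * x ^ 2 - 2 * p) hN2 hμ' hμ'V hmm ?_
        (V.add_mem _ _ hz hz') hz₂ ?_ hS
      · push_cast
        rw [← hmm, hμd, hμ'd]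
        ring
      · rw [hPL]
        ring
    intro hXY
    have h1 : ((X : K) + Y * d₀ g w) * ((X : K) + ((-Y : ℤ) : K) * d₀ g w) ∈ V.nonunits := by
      have h2 : ((X : K) + Y * d₀ g w) * ((X : K) + ((-Y : ℤ) : K) * d₀ g w) = p := by
        have hpK : (p : K) = (X : K) ^ 2 + 15 * (Y : K) ^ 2 := by exact_mod_cast hXY
        rw [hpK]
        push_cast
        linear_combination (-(Y : K) ^ 2) * hd0
      rw [h2]
      exact hpn
    rcases Mb_or V h1 with h | h
    · exact key X Y hXY h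
    · exact key X (-Y) (by rw [hXY]; ring) h
  · -- case B
    intro hp5
    have key : ∀ x y : ℤ, (p : ℤ) = 3 * x ^ 2 + 5 * y ^ 2 →
        (x : K) * (2 * w + 1) + y * (2 * g - 1) ∈ V.nonunits →
        (p : ℤ) ^ 2 ∣ S p - (2 * p - 12 * x ^ 2) := by
      intro x y hxy hη
      set η : K := (x : K) * (2 * w + 1) + y * (2 * g - 1) with hηd
      set η' : K := (y : K) * (2 * g - 1) - x * (2 * w + 1) with hη'd
      have hpK : (p : K) = 3 * (x : K) ^ 2 + 5 * (y : K) ^ 2 := by exact_mod_cast hxy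
      have hmm : η * η' = p := by
        rw [hpK, hηd, hη'd]
        linear_combination (4 * (y : K) ^ 2) * hg2 - (4 * (x : K) ^ 2) * hw2
      have hη'V : η' ∈ V := V.sub_mem (V.mul_mem _ _ (hZV y) hgg) (V.mul_mem _ _ (hZV x) hww)
      have hη' : η' ∉ V.nonunits := by
        intro h
        have h1 := Mb_add V hη h
        have h2 : (η + η') * (η + η') = ((20 * y ^ 2 : ℤ) : K) := by
          rw [hηd, hη'd]
          push_cast
          linear_combination (16 * (y : K) ^ 2) * hg2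
        have h3 := Mb_mul V (Mb_mem V h1) h1
        rw [h2] at h3
        have h4 := hN1 _ h3
        have h5 : (p : ℤ) ∣ y := by
          rcases hpp.dvd_mul.1 h4 with h5 | h5
          · exfalso
            have h6 : (p : ℤ) ∣ 2 * (2 * 5) := by
              have : (20 : ℤ) = 2 * (2 * 5) := by norm_num
              rwa [this] at h5
            rcases hpp.dvd_mul.1 h6 with h7 | h7
            · have := Int.le_of_dvd (by norm_num) h7
              omega
            · rcases hpp.dvd_mul.1 h7 with h8 | h8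
              · have := Int.le_of_dvd (by norm_num) h8
                omega
              · have h9 : p ∣ 5 := by exact_mod_cast h8
                exact hp5 ((Nat.prime_dvd_prime_iff_eq hp Nat.prime_five).1 h9)
          · exact hpp.dvd_of_dvd_pow h5
        have h6 := hsmall y h5 (by nlinarith [sq_nonneg x, sq_nonneg y])
        rw [h6] at hxy
        exact h3p ⟨x ^ 2, by rw [hxy]; ring⟩
      have hη0 : η ≠ 0 := by
        intro h
        rw [h, zero_mul] at hmm
        exact hp0 hmm.symm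
      have hun : (2 * g + 1) * (3 - 2 * g) = -1 := by
        linear_combination (-4) * hg2
      have hgp0 : 2 * g + 1 ≠ 0 := by
        intro h
        rw [h, zero_mul] at hun
        exact one_ne_zero (neg_eq_zero.1 hun.symm)
      have hgm0 : 3 - 2 * g ≠ 0 := by
        intro h
        rw [h, mul_zero] at hun
        exact one_ne_zero (neg_eq_zero.1 hun.symm)
      set μ : K := (x : K) * c₃ g w + y * c₅ g with hμd
      have hμη : μ = -(2 * g + 1) * η := by
        rw [hμd, hηd]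
        unfold c₃ c₅
        linear_combination (4 * (y : K)) * hg2
      have hσμ : σ μ = (3 - 2 * g) * η := by
        rw [hμd, hηd]
        unfold c₃ c₅
        simp only [map_mul, map_add, map_neg, map_one, map_ofNat, map_intCast, hσg, hσw]
        linear_combination (4 * (y : K)) * hg2
      have hμ : μ ∈ V.nonunits := by
        rw [hμη]
        exact Mb_mul V (V.neg_mem _ hgp) hη
      have hσμn : σ μ ∈ V.nonunits := by
        rw [hσμ]
        exact Mb_mul V hgm hη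
      have hμ0 : μ ≠ 0 := by
        rw [hμη]
        exact mul_ne_zero (neg_ne_zero.2 hgp0) hη0
      have hpμ : (p : K) / μ = (3 - 2 * g) * η' := by
        rw [div_eq_iff hμ0, hμη, ← hmm]
        linear_combination (η * η') * hun
      have hσμ0 : σ μ ≠ 0 := by
        rw [hσμ]
        exact mul_ne_zero hgm0 hη0
      have hpσ : (p : K) / σ μ = -(2 * g + 1) * η' := by
        rw [div_eq_iff hσμ0, hσμ, ← hmm]
        linear_combination (η * η') * hun
      obtain ⟨D, hD⟩ := (hMa K g w τ V p m x y hKg hτg hτw hp hp3 hpm hV).2 hxy hμ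
      obtain ⟨z, hz, z', hz', hPL⟩ := hLw K V p m σ ((1 - u₁ g w) / 2) ((1 - u₂ g w) / 2) μ D hp hpm hV
        hx₁ hx₂ (by rw [hσx₁]; exact hx₂) (by rw [hσx₂]; exact hx₁) hμ hσμn hμ0
        (by rw [hpμ]; exact V.mul_mem _ _ hgm hη'V)
        (by rw [hpσ]; exact V.mul_mem _ _ (V.neg_mem _ hgp) hη'V) (by rw [e₁, e₂]; exact hD)
      rw [hpσ, hpμ, hσx₁, hσμ, hμη] at hPL
      refine Mb_end V p (S p) η η' ((2 * g + 1) ^ 2 * z + (3 - 2 * g) ^ 2 * z') z₂ _
        (2 * p - 12 * x ^ 2) hN2 hη' hη'V hmm ?_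
        (V.add_mem _ _ (V.mul_mem _ _ (pow_mem hgp 2) hz) (V.mul_mem _ _ (pow_mem hgm 2) hz')) hz₂ ?_ hS
      · push_cast
        rw [hpK, hηd, hη'd]
        linear_combination (-8 * (y : K) ^ 2) * hg2 - (8 * (x : K) ^ 2) * hw2
      · rw [hPL]
        linear_combination (-η' ^ 2) * hun
    intro hXY
    have h1 : ((X : K) * (2 * w + 1) + Y * (2 * g - 1)) *
        (((-X : ℤ) : K) * (2 * w + 1) + Y * (2 * g - 1)) ∈ V.nonunits := by
      have h2 : ((X : K) * (2 * w + 1) + Y * (2 * g - 1)) *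
          (((-X : ℤ) : K) * (2 * w + 1) + Y * (2 * g - 1)) = p := by
        have hpK : (p : K) = 3 * (X : K) ^ 2 + 5 * (Y : K) ^ 2 := by exact_mod_cast hXY
        rw [hpK]
        push_cast
        linear_combination (4 * (Y : K) ^ 2) * hg2 - (4 * (X : K) ^ 2) * hw2
      rw [h2]
      exact hpn
    rcases Mb_or V h1 with h | h
    · exact key X Y hXY h
    · have h2 := key (-X) Y (by rw [hXY]; ring) h
      rw [neg_sq] at h2
      exact h2

theorem thm_Mb (hMa : St_Ma) (hLw : St_Lw) (hVx : St_Vx) (hVs : St_Vs Pool.Agent.CTS.Ssum)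
    (hKf : St_Kf) (hIc : St_Ic) : St_Mb Pool.Agent.CTS.Ssum :=
  Mb_gen _ hMa hLw hVx hVs hKf hIc

end Pool.Agent.CVH
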