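import Pool.Agent.CVH.St

/-!
# CVH: the degree of a rational function
-/

set_option autoImplicit false

noncomputable section

namespace Pool.Agent.CVH

open Polynomial
open scoped Classical

private lemma Rd_ne {K : Type} [Field K] {B : K[X]} (hB : B ≠ 0) : io B ≠ 0 := by
  intro h
  have h0 : io (0 : K[X]) = 0 := map_zero _
  exact hB (RatFunc.algebraMap_injective K (h.trans h0.symm))

private lemma Rd_assoc {K : Type} [Field K] {A B : K[X]} (h1 : A ∣ B) (h2 : B ∣ A) :
    A.natDegree = B.natDegree :=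
  natDegree_eq_of_degree_eq (degree_eq_degree_of_associated (associated_of_dvd_dvd h1 h2))

private lemma Rd_1 {K : Type} [Field K] (A B : K[X]) (hc : IsCoprime A B) (hB : B ≠ 0) :
    rdeg (io A / io B) = max A.natDegree B.natDegree := by
  set r : RatFunc K := io A / io B with hr
  have hd : r.denom ≠ 0 := r.denom_ne_zero
  have hnd := RatFunc.isCoprime_num_denom r
  have h1 : io r.num / io r.denom = r := RatFunc.num_div_denom r
  have h2 : A * r.denom = r.num * B := by
    apply RatFunc.algebraMap_injective K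
    rw [map_mul, map_mul]
    have h3 : io A / io B = io r.num / io r.denom := by rw [h1, hr]
    rw [div_eq_div_iff (Rd_ne hB) (Rd_ne hd)] at h3
    exact h3
  have hA1 : A ∣ r.num := hc.dvd_of_dvd_mul_right (h2 ▸ dvd_mul_right A r.denom)
  have hA2 : r.num ∣ A := hnd.dvd_of_dvd_mul_right (h2 ▸ dvd_mul_right r.num B)
  have hB1 : B ∣ r.denom := hc.symm.dvd_of_dvd_mul_left (h2 ▸ dvd_mul_left B r.num)
  have hB2 : r.denom ∣ B := hnd.symm.dvd_of_dvd_mul_left (h2 ▸ dvd_mul_left r.denom A)
  unfold rdeg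
  rw [Rd_assoc hA1 hA2, Rd_assoc hB1 hB2]

private lemma Rd_2 {K : Type} [Field K] (r : RatFunc K) :
    ∃ A B : K[X], IsCoprime A B ∧ B.Monic ∧ r = io A / io B :=
  ⟨r.num, r.denom, RatFunc.isCoprime_num_denom r, r.monic_denom, (RatFunc.num_div_denom r).symm⟩

theorem thm_Rd : St_Rd := by
  intro K _
  refine ⟨Rd_1, Rd_2, ?_, ?_, ?_⟩
  · intro a
    have h1 : kc a = io (C a) / io (1 : K[X]) := by
      have h0 : io (1 : K[X]) = 1 := map_one _
      rw [h0, div_one]
      exact (RatFunc.algebraMap_C a).symm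
    rw [h1, Rd_1 _ _ isCoprime_one_right one_ne_zero, natDegree_C, natDegree_one, max_self]
  · intro r hr
    have h1 : r.num.natDegree = 0 ∧ r.denom.natDegree = 0 := by
      unfold rdeg at hr
      omega
    obtain ⟨a, ha⟩ := natDegree_eq_zero.1 h1.1
    have h2 : r.denom = 1 := eq_one_of_monic_natDegree_zero r.monic_denom h1.2
    refine ⟨a, ?_⟩
    have h3 := RatFunc.num_div_denom r
    rw [h2, map_one, div_one, ← ha] at h3
    rw [← h3]
    exact RatFunc.algebraMap_C a
  · intro r hr
    obtain ⟨A, B, hc, hB, h⟩ := Rd_2 r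
    have hA : A ≠ 0 := by
      rintro rfl
      apply hr
      have h0 : io (0 : K[X]) = 0 := map_zero _
      rw [h, h0, zero_div]
    have h1 : r⁻¹ = io B / io A := by rw [h, inv_div]
    rw [h1, Rd_1 B A hc.symm hA, h, Rd_1 A B hc hB.ne_zero, max_comm]

end Pool.Agent.CVH
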