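import Pool.Agent.CVH.St

/-! CVH, module Rm: the degree of the coordinate of an isogeny. -/

set_option autoImplicit false

noncomputable section

namespace Pool.Agent.CVH

open Polynomial
open scoped Classical

private lemma Rm_gen (hRd : St_Rd) {K : Type} [Field K] (m : ℕ) (D : K[X])
    (hc : IsCoprime (X * rp m D) D) (hd : D.natDegree ≤ m) (h1 : D.coeff 0 = 1) :
    rdeg (ir m D) = 2 * m + 1 := by
  have hD : D ≠ 0 := by
    intro h
    rw [h, coeff_zero] at h1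
    exact zero_ne_one h1
  have hco : (rp m D).coeff m = 1 := by
    rw [coeff_reflect, revAt_le (le_refl m), Nat.sub_self, h1]
  have hrle : (rp m D).natDegree ≤ m := by
    have := natDegree_reflect_le (N := m) (p := D)
    rwa [max_eq_left hd] at this
  have hrd : (rp m D).natDegree = m :=
    le_antisymm hrle (le_natDegree_of_ne_zero (by rw [hco]; exact one_ne_zero))
  have hr0 : rp m D ≠ 0 := by
    intro h
    rw [h, coeff_zero] at hco
    exact zero_ne_one hco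
  have hX : IsCoprime (X : K[X]) D := hc.of_mul_left_left
  have hR : IsCoprime (rp m D) D := hc.of_mul_left_right
  have hcop : IsCoprime (X * rp m D ^ 2) (D ^ 2) :=
    (IsCoprime.mul_left hX (hR.pow_left)).pow_right
  have e : ir m D = io (X * rp m D ^ 2) / io (D ^ 2) := by
    show RatFunc.X * io (rp m D) ^ 2 / io D ^ 2 = _
    rw [io, io, io, io, map_mul, map_pow, map_pow, RatFunc.algebraMap_X]
  rw [e, (hRd K).1 _ _ hcop (pow_ne_zero 2 hD), natDegree_mul X_ne_zero (pow_ne_zero 2 hr0),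
    natDegree_X, natDegree_pow, natDegree_pow, hrd]
  omega

theorem thm_Rm (hRd : St_Rd) : St_Rm := by
  intro K _
  refine ⟨fun m D hc hd h1 => Rm_gen hRd m D hc hd h1, ?_, ?_, ?_⟩
  · have := Rm_gen hRd 0 (1 : K[X]) isCoprime_one_right (by simp) (by simp)
    simpa using this
  · intro c hc
    have hrp : rp 1 (1 + C c * X : K[X]) = X + C c := by
      have h1 : (1 + C c * X : K[X]) = C 1 * X ^ 0 + C c * X ^ 1 := by
        rw [C_1, pow_zero, pow_one]
        ring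
      show reflect 1 (1 + C c * X : K[X]) = X + C c
      rw [h1, reflect_add, reflect_C_mul_X_pow, reflect_C_mul_X_pow, revAt_le (Nat.zero_le 1),
        revAt_le (le_refl 1), C_1]
      ring
    have hX : IsCoprime (X : K[X]) (1 + C c * X) := ⟨- C c, 1, by ring⟩
    have he : (1 : K) - c ^ 2 ≠ 0 := fun h => hc (by linear_combination -h)
    have hR : IsCoprime (X + C c : K[X]) (1 + C c * X) := by
      refine ⟨C ((1 - c ^ 2)⁻¹) * (- C c), C ((1 - c ^ 2)⁻¹), ?_⟩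
      have h2 : C ((1 - c ^ 2)⁻¹) * (- C c) * (X + C c) + C ((1 - c ^ 2)⁻¹) * (1 + C c * X) =
          C ((1 - c ^ 2)⁻¹) * C (1 - c ^ 2) := by
        rw [map_sub C (1 : K) (c ^ 2), map_pow, C_1]
        ring
      rw [h2, ← C_mul, inv_mul_cancel₀ he, C_1]
    have := Rm_gen hRd 1 (1 + C c * X : K[X]) (by rw [hrp]; exact hX.mul_left hR)
      (by compute_degree) (by simp)
    simpa using this
  · intro c₁ c₂ h2 h12
    have hrp : rp 2 (1 + C c₁ * X + C c₂ * X ^ 2 : K[X]) = X ^ 2 + C c₁ * X + C c₂ := by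
      have h1 : (1 + C c₁ * X + C c₂ * X ^ 2 : K[X]) =
          C 1 * X ^ 0 + C c₁ * X ^ 1 + C c₂ * X ^ 2 := by
        rw [C_1, pow_zero, pow_one]
        ring
      show reflect 2 (1 + C c₁ * X + C c₂ * X ^ 2 : K[X]) = X ^ 2 + C c₁ * X + C c₂
      rw [h1, reflect_add, reflect_add, reflect_C_mul_X_pow, reflect_C_mul_X_pow,
        reflect_C_mul_X_pow, revAt_le (Nat.zero_le 2), revAt_le (le_refl 2),
        revAt_le (show 1 ≤ 2 by norm_num), C_1]
      norm_num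
    have hX : IsCoprime (X : K[X]) (1 + C c₁ * X + C c₂ * X ^ 2) :=
      ⟨- C c₁ - C c₂ * X, 1, by ring⟩
    have he : (1 - c₂) * ((1 + c₂) ^ 2 - c₁ ^ 2) ≠ 0 :=
      mul_ne_zero (fun h => h2 (by linear_combination -h)) (sub_ne_zero.2 h12)
    have hR : IsCoprime (X ^ 2 + C c₁ * X + C c₂ : K[X]) (1 + C c₁ * X + C c₂ * X ^ 2) := by
      refine ⟨C (((1 - c₂) * ((1 + c₂) ^ 2 - c₁ ^ 2))⁻¹) * (C c₁ ^ 2 * (1 - C c₂) +
        C c₂ * (C c₁ * X + (C c₁ ^ 2 - 1 - C c₂))),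
        C (((1 - c₂) * ((1 + c₂) ^ 2 - c₁ ^ 2))⁻¹) * (- (C c₁ * X + (C c₁ ^ 2 - 1 - C c₂))), ?_⟩
      have h3 : C (((1 - c₂) * ((1 + c₂) ^ 2 - c₁ ^ 2))⁻¹) * (C c₁ ^ 2 * (1 - C c₂) +
            C c₂ * (C c₁ * X + (C c₁ ^ 2 - 1 - C c₂))) * (X ^ 2 + C c₁ * X + C c₂) +
          C (((1 - c₂) * ((1 + c₂) ^ 2 - c₁ ^ 2))⁻¹) * (- (C c₁ * X + (C c₁ ^ 2 - 1 - C c₂))) *
            (1 + C c₁ * X + C c₂ * X ^ 2) =
          C (((1 - c₂) * ((1 + c₂) ^ 2 - c₁ ^ 2))⁻¹) * C ((1 - c₂) * ((1 + c₂) ^ 2 - c₁ ^ 2)) := by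
        have h4 : (C ((1 - c₂) * ((1 + c₂) ^ 2 - c₁ ^ 2)) : K[X]) =
            (1 - C c₂) * ((1 + C c₂) ^ 2 - C c₁ ^ 2) := by
          simp only [map_mul, map_sub, map_add, map_pow, map_one]
        rw [h4]
        ring
      rw [h3, ← C_mul, inv_mul_cancel₀ he, C_1]
    have := Rm_gen hRd 2 (1 + C c₁ * X + C c₂ * X ^ 2 : K[X])
      (by rw [hrp]; exact hX.mul_left hR) (by compute_degree) (by simp)
    simpa using this

end Pool.Agent.CVH
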