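import Pool.Agent.CVH.St

/-!
# CVH Rp (helper66): degrees in the addition formulas
-/

set_option autoImplicit false

noncomputable section

namespace Pool.Agent.CVH

open Polynomial
open scoped Classical

/-- the coefficients of coprime polynomials at the larger degree are not both zero -/
theorem Rp_coeff {K : Type} [Field K] (A B : K[X]) (hB : B ≠ 0) :
    ¬ (A.coeff (max A.natDegree B.natDegree) = 0 ∧
      B.coeff (max A.natDegree B.natDegree) = 0) := by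
  rintro ⟨h1, h2⟩
  rcases le_total A.natDegree B.natDegree with h | h
  · rw [max_eq_right h] at h2
    exact hB (leadingCoeff_eq_zero.1 h2)
  · rw [max_eq_left h] at h1 h2
    have h3 : A = 0 := leadingCoeff_eq_zero.1 h1
    rw [h3, natDegree_zero] at h h2
    have h4 : B.natDegree = 0 := by omega
    rw [← h4] at h2
    exact hB (leadingCoeff_eq_zero.1 h2)

/-- the three entries generate the unit ideal, applied to `E²` -/
theorem Rp_dvd {R : Type} [CommRing R] (A₃ B₃ A₄ B₄ E S T : R) (h3 : IsCoprime A₃ B₃)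
    (h4 : IsCoprime A₄ B₄) (e1 : E * (A₃ * B₄ + A₄ * B₃) = S * (B₃ * B₄))
    (e2 : E * (A₃ * A₄) = T * (B₃ * B₄)) : B₃ * B₄ ∣ E := by
  obtain ⟨x, y, hxy⟩ := h3
  obtain ⟨z, w, hzw⟩ := h4
  -- 1 = 2 p - p² + q² + r² + 2 q r
  have key : E = E * ((x * A₃ + y * B₃) * (z * A₄ + w * B₄)) := by rw [hxy, hzw]; ring
  have h1 : (x * A₃ + y * B₃) * (z * A₄ + w * B₄) = 1 := by rw [hxy, hzw]; ring
  have h2 : E = E * (2 * (x * z * (A₃ * A₄) + y * w * (B₃ * B₄)) -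
      (x * z * (A₃ * A₄) + y * w * (B₃ * B₄)) ^ 2 +
      (x * w * (A₃ * B₄) + y * z * (A₄ * B₃)) ^ 2) := by
    have h3 : x * w * (A₃ * B₄) + y * z * (A₄ * B₃) =
        1 - (x * z * (A₃ * A₄) + y * w * (B₃ * B₄)) := by
      rw [← h1]; ring
    rw [h3]
    ring
  have h5 : E * (2 * (x * z * (A₃ * A₄) + y * w * (B₃ * B₄)) -
      (x * z * (A₃ * A₄) + y * w * (B₃ * B₄)) ^ 2 +
      (x * w * (A₃ * B₄) + y * z * (A₄ * B₃)) ^ 2) =
      (E * (A₃ * A₄)) * (x * z * (2 - (x * z * (A₃ * A₄) + 2 * y * w * (B₃ * B₄)))) +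
      (B₃ * B₄) * (E * (y * w * (2 - y * w * (B₃ * B₄)))) +
      (E * (A₃ * B₄ + A₄ * B₃)) * ((x * w) ^ 2 * (A₃ * B₄) + (y * z) ^ 2 * (A₄ * B₃)) -
      (E * (A₃ * A₄)) * (B₃ * B₄) * ((x * w) ^ 2 + (y * z) ^ 2) +
      (B₃ * B₄) * (E * (2 * x * w * y * z * (A₃ * A₄))) := by ring
  rw [h5, e1, e2] at h2
  rw [h2]
  refine ⟨T * (x * z * (2 - (x * z * (A₃ * A₄) + 2 * y * w * (B₃ * B₄)))) +
      (E * (y * w * (2 - y * w * (B₃ * B₄)))) +
      S * ((x * w) ^ 2 * (A₃ * B₄) + (y * z) ^ 2 * (A₄ * B₃)) -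
      T * (B₃ * B₄) * ((x * w) ^ 2 + (y * z) ^ 2) +
      (E * (2 * x * w * y * z * (A₃ * A₄))), ?_⟩
  ring

/-- a factor of a polynomial of small degree is small, if the product is not zero -/
theorem Rp_le {K : Type} [Field K] (H F G : K[X]) (n : ℕ) (hH : H ≠ 0) (h : H * F = G)
    (hG : G.natDegree ≤ n) : F.natDegree ≤ n := by
  by_cases hF : F = 0
  · rw [hF, natDegree_zero]; exact Nat.zero_le _
  · have h1 := natDegree_mul hH hF
    rw [h] at h1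
    omega

/-- the polynomial form -/
theorem Rp_poly {K : Type} [Field K] (u : K) (A₁ B₁ A₂ B₂ A₃ B₃ A₄ B₄ : K[X])
    (h3 : IsCoprime A₃ B₃) (h4 : IsCoprime A₄ B₄) (hB3 : B₃ ≠ 0) (hB4 : B₄ ≠ 0)
    (hE : A₁ * B₂ - A₂ * B₁ ≠ 0)
    (e1 : (A₁ * B₂ - A₂ * B₁) ^ 2 * (A₃ * B₄ + A₄ * B₃) =
      (2 * ((A₁ * B₂ + A₂ * B₁) * (A₁ * A₂ + B₁ * B₂) - 4 * C u * (A₁ * A₂ * (B₁ * B₂)))) *
        (B₃ * B₄))
    (e2 : (A₁ * B₂ - A₂ * B₁) ^ 2 * (A₃ * A₄) = (A₁ * A₂ - B₁ * B₂) ^ 2 * (B₃ * B₄)) :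
    max A₃.natDegree B₃.natDegree + max A₄.natDegree B₄.natDegree ≤
      2 * max A₁.natDegree B₁.natDegree + 2 * max A₂.natDegree B₂.natDegree := by
  set d₁ := max A₁.natDegree B₁.natDegree with hd1
  set d₂ := max A₂.natDegree B₂.natDegree with hd2
  set d₃ := max A₃.natDegree B₃.natDegree with hd3
  set d₄ := max A₄.natDegree B₄.natDegree with hd4
  have a1 : A₁.natDegree ≤ d₁ := le_max_left _ _
  have b1 : B₁.natDegree ≤ d₁ := le_max_right _ _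
  have a2 : A₂.natDegree ≤ d₂ := le_max_left _ _
  have b2 : B₂.natDegree ≤ d₂ := le_max_right _ _
  have a3 : A₃.natDegree ≤ d₃ := le_max_left _ _
  have b3 : B₃.natDegree ≤ d₃ := le_max_right _ _
  have a4 : A₄.natDegree ≤ d₄ := le_max_left _ _
  have b4 : B₄.natDegree ≤ d₄ := le_max_right _ _
  obtain ⟨H, hH⟩ := Rp_dvd A₃ B₃ A₄ B₄ _ _ _ h3 h4 e1 e2
  have hB : B₃ * B₄ ≠ 0 := mul_ne_zero hB3 hB4
  have hH0 : H ≠ 0 := by
    rintro rfl
    rw [mul_zero] at hH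
    exact hE (pow_eq_zero_iff (two_ne_zero)|>.1 hH)
  have f0 : H * (B₃ * B₄) = (A₁ * B₂ - A₂ * B₁) ^ 2 := by rw [hH]; ring
  have f1 : H * (A₃ * B₄ + A₄ * B₃) =
      2 * ((A₁ * B₂ + A₂ * B₁) * (A₁ * A₂ + B₁ * B₂) - 4 * C u * (A₁ * A₂ * (B₁ * B₂))) := by
    apply mul_right_cancel₀ hB
    rw [← e1, hH]; ring
  have f2 : H * (A₃ * A₄) = (A₁ * A₂ - B₁ * B₂) ^ 2 := by
    apply mul_right_cancel₀ hB
    rw [← e2, hH]; ring
  have m12 : ∀ P Q : K[X], P.natDegree ≤ d₁ → Q.natDegree ≤ d₂ →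
      (P * Q).natDegree ≤ d₁ + d₂ := fun P Q hP hQ => natDegree_mul_le_of_le hP hQ
  have g0 : ((A₁ * B₂ - A₂ * B₁) ^ 2).natDegree ≤ 2 * d₁ + 2 * d₂ := by
    have h := natDegree_sub_le_of_le (m12 _ _ a1 b2) (show (A₂ * B₁).natDegree ≤ d₁ + d₂ by
      rw [mul_comm]; exact m12 _ _ b1 a2)
    rw [max_self] at h
    have h' := natDegree_pow_le_of_le 2 h
    omega
  have g2 : ((A₁ * A₂ - B₁ * B₂) ^ 2).natDegree ≤ 2 * d₁ + 2 * d₂ := by
    have h := natDegree_sub_le_of_le (m12 _ _ a1 a2) (m12 _ _ b1 b2)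
    rw [max_self] at h
    have h' := natDegree_pow_le_of_le 2 h
    omega
  have g1 : (2 * ((A₁ * B₂ + A₂ * B₁) * (A₁ * A₂ + B₁ * B₂) -
      4 * C u * (A₁ * A₂ * (B₁ * B₂)))).natDegree ≤ 2 * d₁ + 2 * d₂ := by
    have h := natDegree_add_le_of_le (m12 _ _ a1 b2) (show (A₂ * B₁).natDegree ≤ d₁ + d₂ by
      rw [mul_comm]; exact m12 _ _ b1 a2)
    have h' := natDegree_add_le_of_le (m12 _ _ a1 a2) (m12 _ _ b1 b2)
    rw [max_self] at h h'
    have h2 := natDegree_mul_le_of_le h h'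
    have h3 := natDegree_mul_le_of_le (m12 _ _ a1 a2) (m12 _ _ b1 b2)
    have h4 : (4 * C u * (A₁ * A₂ * (B₁ * B₂))).natDegree ≤ (d₁ + d₂) + (d₁ + d₂) := by
      have e : (4 : K[X]) * C u = C (4 * u) := by
        rw [C_mul, map_ofNat C 4]
      rw [e]
      exact (natDegree_C_mul_le _ _).trans h3
    have h5 := natDegree_sub_le_of_le h2 h4
    rw [max_self] at h5
    have e : (2 : K[X]) = C 2 := (map_ofNat C 2).symm
    rw [e]
    exact (natDegree_C_mul_le _ _).trans (by omega)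
  have k0 := Rp_le H _ _ _ hH0 f0 g0
  have k1 := Rp_le H _ _ _ hH0 f1 g1
  have k2 := Rp_le H _ _ _ hH0 f2 g2
  by_contra hlt
  push Not at hlt
  have c0 : (B₃ * B₄).coeff (d₃ + d₄) = B₃.coeff d₃ * B₄.coeff d₄ :=
    coeff_mul_add_eq_of_natDegree_le b3 b4
  have c2 : (A₃ * A₄).coeff (d₃ + d₄) = A₃.coeff d₃ * A₄.coeff d₄ :=
    coeff_mul_add_eq_of_natDegree_le a3 a4
  have c1 : (A₃ * B₄ + A₄ * B₃).coeff (d₃ + d₄) =
      A₃.coeff d₃ * B₄.coeff d₄ + A₄.coeff d₄ * B₃.coeff d₃ := by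
    rw [coeff_add, coeff_mul_add_eq_of_natDegree_le a3 b4, mul_comm A₄ B₃,
      coeff_mul_add_eq_of_natDegree_le b3 a4, mul_comm (B₃.coeff d₃)]
  rw [coeff_eq_zero_of_natDegree_lt (by omega)] at c0 c1 c2
  have n3 := Rp_coeff A₃ B₃ hB3
  have n4 := Rp_coeff A₄ B₄ hB4
  rw [← hd3] at n3
  rw [← hd4] at n4
  rcases mul_eq_zero.1 c0.symm with h | h
  · have h5 : A₃.coeff d₃ ≠ 0 := fun h' => n3 ⟨h', h⟩
    rw [h, mul_zero, add_zero] at c1
    have h6 := (mul_eq_zero.1 c1.symm).resolve_left h5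
    have h7 := (mul_eq_zero.1 c2.symm).resolve_left h5
    exact n4 ⟨h7, h6⟩
  · have h5 : A₄.coeff d₄ ≠ 0 := fun h' => n4 ⟨h', h⟩
    rw [h, mul_zero, zero_add] at c1
    have h6 := (mul_eq_zero.1 c1.symm).resolve_left h5
    have h7 := (mul_eq_zero.1 c2.symm).resolve_right h5
    exact n3 ⟨h7, h6⟩

theorem thm_Rp (hRd : St_Rd) : St_Rp := by
  intro K _ u r₁ r₂ r₃ r₄ hne e1 e2
  obtain ⟨hdeg, hrep, -, -, -⟩ := hRd K
  obtain ⟨A₁, B₁, c1, m1, rfl⟩ := hrep r₁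
  obtain ⟨A₂, B₂, c2, m2, rfl⟩ := hrep r₂
  obtain ⟨A₃, B₃, c3, m3, rfl⟩ := hrep r₃
  obtain ⟨A₄, B₄, c4, m4, rfl⟩ := hrep r₄
  rw [hdeg A₁ B₁ c1 m1.ne_zero, hdeg A₂ B₂ c2 m2.ne_zero, hdeg A₃ B₃ c3 m3.ne_zero,
    hdeg A₄ B₄ c4 m4.ne_zero]
  have hinj : Function.Injective (algebraMap K[X] (RatFunc K)) := RatFunc.algebraMap_injective K
  have z1 : io B₁ ≠ 0 := fun h => m1.ne_zero ((map_eq_zero_iff _ hinj).1 h)
  have z2 : io B₂ ≠ 0 := fun h => m2.ne_zero ((map_eq_zero_iff _ hinj).1 h)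
  have z3 : io B₃ ≠ 0 := fun h => m3.ne_zero ((map_eq_zero_iff _ hinj).1 h)
  have z4 : io B₄ ≠ 0 := fun h => m4.ne_zero ((map_eq_zero_iff _ hinj).1 h)
  have hkc : kc u = io (C u) := (RatFunc.algebraMap_C u).symm
  refine Rp_poly u A₁ B₁ A₂ B₂ A₃ B₃ A₄ B₄ c3 c4 m3.ne_zero m4.ne_zero ?_ ?_ ?_
  · intro h
    apply hne
    rw [div_eq_div_iff z1 z2, ← map_mul, ← map_mul, sub_eq_zero.1 h]
  · apply hinj
    simp only [map_mul, map_add, map_sub, map_pow, map_ofNat]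
    rw [hkc] at e1
    field_simp at e1
    linear_combination e1
  · apply hinj
    simp only [map_mul, map_sub, map_pow]
    field_simp at e2
    linear_combination e2

end Pool.Agent.CVH
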