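import Pool.Agent.CVH.St

/-!
# CVH: module Rq (MP_7d6c83_nt)

The degree in the duplication formula.
-/

set_option autoImplicit false

noncomputable section

namespace Pool.Agent.CVH

open Polynomial
open scoped Classical

private lemma Rq_unit {K : Type} [Field K] (c : K) (hc : c ≠ 0) : IsUnit (C c : K[X]) :=
  Polynomial.isUnit_C.2 (isUnit_iff_ne_zero.2 hc)

private lemma Rq_uc {K : Type} [Field K] (x y : K[X]) (h : IsUnit x) : IsCoprime x y := by
  obtain ⟨v, hv⟩ := isUnit_iff_exists_inv'.1 h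
  exact ⟨v, 0, by rw [hv]; ring⟩

private lemma Rq_io_mul {K : Type} [Field K] (A B : K[X]) : io (A * B) = io A * io B :=
  map_mul _ _ _

private lemma Rq_io_add {K : Type} [Field K] (A B : K[X]) : io (A + B) = io A + io B :=
  map_add _ _ _

private lemma Rq_io_sub {K : Type} [Field K] (A B : K[X]) : io (A - B) = io A - io B :=
  map_sub _ _ _

private lemma Rq_io_pow {K : Type} [Field K] (A : K[X]) (n : ℕ) : io (A ^ n) = io A ^ n :=
  map_pow _ _ _

private lemma Rq_io_zero {K : Type} [Field K] : io (0 : K[X]) = 0 := map_zero _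

private lemma Rq_C2 {K : Type} [Field K] : (C 2 : K[X]) = 2 := map_ofNat C 2

private lemma Rq_C4 {K : Type} [Field K] : (C 4 : K[X]) = 4 := map_ofNat C 4

private lemma Rq_io2 {K : Type} [Field K] : io (C 2 : K[X]) = 2 := by
  rw [Rq_C2]
  exact map_ofNat _ 2

private lemma Rq_io4 {K : Type} [Field K] : io (C 4 : K[X]) = 4 := by
  rw [Rq_C4]
  exact map_ofNat _ 4

private lemma Rq_cop {K : Type} [Field K] [CharZero K] (u : K) (hu : u ^ 2 ≠ 1) (A B : K[X])
    (h : IsCoprime A B) :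
    IsCoprime ((A ^ 2 - B ^ 2) ^ 2) (C 4 * (A * B * (A ^ 2 - C (2 * u) * A * B + B ^ 2))) := by
  have h1 : IsCoprime (A ^ 2 - B ^ 2) A := by
    have h0 : IsCoprime (-(B ^ 2)) A := (h.symm.pow_left).neg_left
    have := h0.add_mul_left_left A
    have e : -(B ^ 2) + A * A = A ^ 2 - B ^ 2 := by ring
    rwa [e] at this
  have h2 : IsCoprime (A ^ 2 - B ^ 2) B := by
    have h0 : IsCoprime (A ^ 2) B := h.pow_left
    have := h0.add_mul_left_left (-B)
    have e : A ^ 2 + B * (-B) = A ^ 2 - B ^ 2 := by ring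
    rwa [e] at this
  have h3 : IsCoprime (A ^ 2 - B ^ 2) (B - C u * A) := by
    have h4 : IsCoprime A (B - C u * A) := by
      have := h.add_mul_left_right (-C u)
      have e : B + A * (-C u) = B - C u * A := by ring
      rwa [e] at this
    have h5 : IsCoprime (C (1 - u ^ 2) * A ^ 2) (B - C u * A) := by
      refine IsCoprime.mul_left ?_ h4.pow_left
      exact Rq_uc _ _ (Rq_unit _ (sub_ne_zero.2 (Ne.symm hu)))
    have := h5.add_mul_left_left (-(B + C u * A))
    have e : C (1 - u ^ 2) * A ^ 2 + (B - C u * A) * (-(B + C u * A)) = A ^ 2 - B ^ 2 := by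
      rw [C_sub, C_1, C_pow]
      ring
    rwa [e] at this
  have h6 : IsCoprime (A ^ 2 - B ^ 2) (A ^ 2 - C (2 * u) * A * B + B ^ 2) := by
    have h7 : IsCoprime (A ^ 2 - B ^ 2) (C 2 * (B * (B - C u * A))) :=
      IsCoprime.mul_right ((Rq_uc _ _ (Rq_unit 2 two_ne_zero)).symm) (h2.mul_right h3)
    have := h7.add_mul_left_right 1
    have e : C 2 * (B * (B - C u * A)) + (A ^ 2 - B ^ 2) * 1 =
        A ^ 2 - C (2 * u) * A * B + B ^ 2 := by
      rw [C_mul]
      rw [Rq_C2]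
      ring
    rwa [e] at this
  refine IsCoprime.pow_left ?_
  exact IsCoprime.mul_right ((Rq_uc _ _ (Rq_unit 4 (by norm_num))).symm)
    ((h1.mul_right h2).mul_right h6)

private lemma Rq_num {K : Type} [Field K] [CharZero K] (u a b : K) (hu : u ^ 2 ≠ 1)
    (hab : ¬ (a = 0 ∧ b = 0)) (h1 : (a ^ 2 - b ^ 2) ^ 2 = 0)
    (h2 : 4 * (a * b * (a ^ 2 - 2 * u * a * b + b ^ 2)) = 0) : False := by
  have h3 : a ^ 2 = b ^ 2 := sub_eq_zero.1 (pow_eq_zero_iff (two_ne_zero) |>.1 h1)
  have ha : a ≠ 0 := by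
    intro ha
    rw [ha] at h3
    have : b ^ 2 = 0 := by rw [← h3]; ring
    exact hab ⟨ha, pow_eq_zero_iff (two_ne_zero) |>.1 this⟩
  have hb : b ≠ 0 := by
    intro hb
    rw [hb] at h3
    have : a ^ 2 = 0 := by rw [h3]; ring
    exact ha (pow_eq_zero_iff (two_ne_zero) |>.1 this)
  have h4 : a ^ 2 - 2 * u * a * b + b ^ 2 = 0 := by
    rcases mul_eq_zero.1 h2 with h | h
    · exact absurd h (by norm_num)
    · rcases mul_eq_zero.1 h with h | h
      · rcases mul_eq_zero.1 h with h | h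
        · exact absurd h ha
        · exact absurd h hb
      · exact h
  have h5 : 2 * b * (b - u * a) = 0 := by
    have : 2 * b * (b - u * a) = (a ^ 2 - 2 * u * a * b + b ^ 2) - (a ^ 2 - b ^ 2) := by ring
    rw [this, h4, h3]
    ring
  have h6 : b = u * a := by
    rcases mul_eq_zero.1 h5 with h | h
    · rcases mul_eq_zero.1 h with h | h
      · exact absurd h two_ne_zero
      · exact absurd h hb
    · exact sub_eq_zero.1 h
  have h7 : (u ^ 2 - 1) * a ^ 2 = 0 := by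
    have : (u ^ 2 - 1) * a ^ 2 = (u * a) ^ 2 - a ^ 2 := by ring
    rw [this, ← h6, h3]
    ring
  rcases mul_eq_zero.1 h7 with h | h
  · exact hu (sub_eq_zero.1 h)
  · exact ha (pow_eq_zero_iff (two_ne_zero) |>.1 h)

private lemma Rq_deg {K : Type} [Field K] [CharZero K] (u : K) (hu : u ^ 2 ≠ 1) (A B : K[X])
    (hA : A ≠ 0) (hB : B ≠ 0) :
    max ((A ^ 2 - B ^ 2) ^ 2).natDegree
      (C 4 * (A * B * (A ^ 2 - C (2 * u) * A * B + B ^ 2))).natDegree =
      4 * max A.natDegree B.natDegree := by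
  have hAd : A.natDegree ≤ max A.natDegree B.natDegree := le_max_left _ _
  have hBd : B.natDegree ≤ max A.natDegree B.natDegree := le_max_right _ _
  have hab : ¬ (A.coeff (max A.natDegree B.natDegree) = 0 ∧
      B.coeff (max A.natDegree B.natDegree) = 0) := by
    rintro ⟨h1, h2⟩
    rcases max_choice A.natDegree B.natDegree with h | h
    · rw [h] at h1
      exact hA (leadingCoeff_eq_zero.1 h1)
    · rw [h] at h2
      exact hB (leadingCoeff_eq_zero.1 h2)
  generalize max A.natDegree B.natDegree = d at hAd hBd hab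
  have a2 : (A ^ 2).natDegree ≤ 2 * d :=
    natDegree_pow_le.trans (Nat.mul_le_mul_left 2 hAd)
  have b2 : (B ^ 2).natDegree ≤ 2 * d :=
    natDegree_pow_le.trans (Nat.mul_le_mul_left 2 hBd)
  have ca2 : (A ^ 2).coeff (2 * d) = A.coeff d ^ 2 := coeff_pow_of_natDegree_le hAd
  have cb2 : (B ^ 2).coeff (2 * d) = B.coeff d ^ 2 := coeff_pow_of_natDegree_le hBd
  have ab : (A * B).natDegree ≤ d + d :=
    natDegree_mul_le.trans (Nat.add_le_add hAd hBd)
  have cab : (A * B).coeff (d + d) = A.coeff d * B.coeff d := coeff_mul_add_eq_of_natDegree_le hAd hBd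
  have s1 : (A ^ 2 - B ^ 2).natDegree ≤ 2 * d :=
    (natDegree_sub_le _ _).trans (max_le a2 b2)
  have cs1 : (A ^ 2 - B ^ 2).coeff (2 * d) = A.coeff d ^ 2 - B.coeff d ^ 2 := by
    rw [coeff_sub, ca2, cb2]
  have eT : A ^ 2 - C (2 * u) * A * B + B ^ 2 = A ^ 2 - C (2 * u) * (A * B) + B ^ 2 := by ring
  have t0 : (C (2 * u) * (A * B)).natDegree ≤ 2 * d := by
    refine (natDegree_C_mul_le _ _).trans ?_
    rw [two_mul]
    exact ab
  have t1 : (A ^ 2 - C (2 * u) * (A * B) + B ^ 2).natDegree ≤ 2 * d :=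
    (natDegree_add_le _ _).trans
      (max_le ((natDegree_sub_le _ _).trans (max_le a2 t0)) b2)
  have ct1 : (A ^ 2 - C (2 * u) * (A * B) + B ^ 2).coeff (2 * d) =
      A.coeff d ^ 2 - 2 * u * A.coeff d * B.coeff d + B.coeff d ^ 2 := by
    rw [coeff_add, coeff_sub, ca2, cb2, coeff_C_mul, two_mul d, cab]
    ring
  have n1 : ((A ^ 2 - B ^ 2) ^ 2).natDegree ≤ 4 * d := by
    refine natDegree_pow_le.trans ((Nat.mul_le_mul_left 2 s1).trans (le_of_eq ?_))
    ring
  have cn1 : ((A ^ 2 - B ^ 2) ^ 2).coeff (4 * d) = (A.coeff d ^ 2 - B.coeff d ^ 2) ^ 2 := by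
    have e : 4 * d = 2 * (2 * d) := by ring
    rw [e, coeff_pow_of_natDegree_le s1, cs1]
  have m1 : (C 4 * (A * B * (A ^ 2 - C (2 * u) * A * B + B ^ 2))).natDegree ≤ 4 * d := by
    refine (natDegree_C_mul_le _ _).trans (natDegree_mul_le.trans ?_)
    rw [eT]
    refine (Nat.add_le_add ab t1).trans (le_of_eq ?_)
    ring
  have cm1 : (C 4 * (A * B * (A ^ 2 - C (2 * u) * A * B + B ^ 2))).coeff (4 * d) =
      4 * (A.coeff d * B.coeff d *
        (A.coeff d ^ 2 - 2 * u * A.coeff d * B.coeff d + B.coeff d ^ 2)) := by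
    have e : 4 * d = (d + d) + 2 * d := by ring
    rw [coeff_C_mul, eT, e, coeff_mul_add_eq_of_natDegree_le ab t1, cab, ct1]
  apply le_antisymm (max_le n1 m1)
  by_contra hlt
  push Not at hlt
  obtain ⟨l1, l2⟩ := max_lt_iff.1 hlt
  have z1 := coeff_eq_zero_of_natDegree_lt l1
  have z2 := coeff_eq_zero_of_natDegree_lt l2
  rw [cn1] at z1
  rw [cm1] at z2
  exact Rq_num u _ _ hu hab z1 z2

theorem thm_Rq (hRd : St_Rd) : St_Rq := by
  intro K _ _ u r r₂ hu hc h
  obtain ⟨hd, hr, -, -, -⟩ := hRd K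
  obtain ⟨A, B, hAB, hBm, rfl⟩ := hr r
  have hB : B ≠ 0 := hBm.ne_zero
  have hB' : io B ≠ 0 := by
    intro h0
    exact hB ((map_eq_zero_iff _ (IsFractionRing.injective K[X] (RatFunc K))).1 h0)
  have hA : A ≠ 0 := by
    rintro rfl
    apply hc
    unfold cub
    simp
  have hA' : io A ≠ 0 := by
    intro h0
    exact hA ((map_eq_zero_iff _ (IsFractionRing.injective K[X] (RatFunc K))).1 h0)
  have hk : ∀ a : K, kc a = io (C a) := fun a => (RatFunc.algebraMap_C a).symm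
  have hT : cub (kc u) (io A / io B) =
      io (A * (A ^ 2 - C (2 * u) * A * B + B ^ 2)) / io B ^ 3 := by
    unfold cub
    rw [hk]
    have e0 : (2 : RatFunc K) * io (C u) = io (C (2 * u)) := by
      rw [C_mul, Rq_io_mul, Rq_io2]
    rw [e0]
    simp only [Rq_io_mul, Rq_io_add, Rq_io_sub, Rq_io_pow]
    generalize io (C (2 * u)) = w
    field_simp
  have hM : (A * (A ^ 2 - C (2 * u) * A * B + B ^ 2)) ≠ 0 := by
    intro h0
    apply hc
    rw [hT, h0, Rq_io_zero, zero_div]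
  have hM' : C 4 * (A * B * (A ^ 2 - C (2 * u) * A * B + B ^ 2)) ≠ 0 := by
    have e : C 4 * (A * B * (A ^ 2 - C (2 * u) * A * B + B ^ 2)) =
        C 4 * (B * (A * (A ^ 2 - C (2 * u) * A * B + B ^ 2))) := by ring
    rw [e]
    exact mul_ne_zero (C_ne_zero.2 (by norm_num)) (mul_ne_zero hB hM)
  have hr2 : r₂ = io ((A ^ 2 - B ^ 2) ^ 2) /
      io (C 4 * (A * B * (A ^ 2 - C (2 * u) * A * B + B ^ 2))) := by
    have hM'' : io (C 4 * (A * B * (A ^ 2 - C (2 * u) * A * B + B ^ 2))) ≠ 0 := by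
      intro h0
      exact hM' ((map_eq_zero_iff _ (IsFractionRing.injective K[X] (RatFunc K))).1 h0)
    rw [eq_div_iff hM'']
    rw [hT] at h
    have e1 : io (C 4 * (A * B * (A ^ 2 - C (2 * u) * A * B + B ^ 2))) =
        io B ^ 4 * (4 * (io (A * (A ^ 2 - C (2 * u) * A * B + B ^ 2)) / io B ^ 3)) := by
      have : C 4 * (A * B * (A ^ 2 - C (2 * u) * A * B + B ^ 2)) =
        C 4 * (B * (A * (A ^ 2 - C (2 * u) * A * B + B ^ 2))) := by ring
      rw [this, Rq_io_mul, Rq_io_mul, Rq_io4]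
      generalize io (A * (A ^ 2 - C (2 * u) * A * B + B ^ 2)) = T
      field_simp
    have e3 : io ((A ^ 2 - B ^ 2) ^ 2) = io B ^ 4 * ((io A / io B) ^ 2 - 1) ^ 2 := by
      simp only [Rq_io_sub, Rq_io_pow]
      field_simp
    rw [e1, e3, ← h]
    ring
  rw [hr2, hd _ _ (Rq_cop u hu A B hAB) hM', Rq_deg u hu A B hA hB, hd A B hAB hB]

end Pool.Agent.CVH
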