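import Pool.Agent.CVH.St

/-!
# CVH, module Rt: the degree after the map of degree `3`
-/

set_option autoImplicit false

noncomputable section

namespace Pool.Agent.CVH

open Polynomial
open scoped Classical

private theorem Rt_lin {K : Type} [Field K] (A B : K[X]) (c : K) (d : ℕ)
    (hA : A.natDegree ≤ d) (hB : B.natDegree ≤ d) : (A + C c * B).natDegree ≤ d :=
  (natDegree_add_le _ _).trans (max_le hA ((natDegree_C_mul_le c B).trans hB))

private theorem Rt_deg {K : Type} [Field K] (A B : K[X]) (c : K) (d : ℕ)
    (hA : A.natDegree ≤ d) (hB : B.natDegree ≤ d) :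
    (A * (A + C c * B) ^ 2).natDegree ≤ 3 * d := by
  refine natDegree_mul_le.trans ?_
  have h1 := natDegree_pow_le_of_le 2 (Rt_lin A B c d hA hB)
  omega

private theorem Rt_coeff {K : Type} [Field K] (A B : K[X]) (c : K) (d : ℕ)
    (hA : A.natDegree ≤ d) (hB : B.natDegree ≤ d) :
    (A * (A + C c * B) ^ 2).coeff (3 * d) = A.coeff d * (A.coeff d + c * B.coeff d) ^ 2 := by
  have h1 := natDegree_pow_le_of_le 2 (Rt_lin A B c d hA hB)
  rw [show 3 * d = d + 2 * d by ring, coeff_mul_add_eq_of_natDegree_le hA h1,
    coeff_pow_of_natDegree_le (Rt_lin A B c d hA hB), coeff_add, coeff_C_mul]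

private theorem Rt_cop {K : Type} [Field K] (A B : K[X]) (c : K) (hc : c ^ 2 ≠ 1)
    (h : IsCoprime A B) :
    IsCoprime (A * (A + C c * B) ^ 2) (B * (B + C c * A) ^ 2) := by
  have h1 : IsCoprime A (B + C c * A) := h.add_mul_right_right (C c)
  have h2 : IsCoprime (A + C c * B) B := h.add_mul_right_left (C c)
  have h3 : IsCoprime (A + C c * B) (B + C c * A) := by
    have hu : IsUnit (C (1 - c ^ 2) : K[X]) := by
      rw [isUnit_C]
      exact IsUnit.mk0 _ (sub_ne_zero.2 (Ne.symm hc))
    have h4 : IsCoprime (A + C c * B) (C (1 - c ^ 2) * B) :=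
      (isCoprime_mul_unit_left_right hu _ _).2 h2
    have h5 : B + C c * A = C (1 - c ^ 2) * B + (A + C c * B) * C c := by
      rw [C_sub, C_pow, C_1]
      ring
    rw [h5]
    exact IsCoprime.add_mul_left_right h4 (C c)
  exact IsCoprime.mul_left (IsCoprime.mul_right h h1.pow_right)
    (IsCoprime.mul_right h2.pow_left (h3.pow))

theorem thm_Rt (hRd : St_Rd) : St_Rt := by
  intro K _ c r hc hne
  obtain ⟨hR1, hR2, -, -, -⟩ := hRd K
  obtain ⟨A, B, hcop, hBm, hr⟩ := hR2 r
  have hB0 : B ≠ 0 := hBm.ne_zero
  have hinj : Function.Injective (algebraMap K[X] (RatFunc K)) :=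
    RatFunc.algebraMap_injective K
  have hioB : io B ≠ 0 := fun h => hB0 (hinj (by rw [map_zero]; exact h))
  have hkc : kc c = io (C c) := (RatFunc.algebraMap_C c).symm
  have hden : 1 + kc c * r = io (B + C c * A) / io B := by
    rw [hr, hkc, eq_div_iff hioB]
    change (1 + algebraMap K[X] (RatFunc K) (C c) * (algebraMap K[X] (RatFunc K) A /
      algebraMap K[X] (RatFunc K) B)) * algebraMap K[X] (RatFunc K) B =
      algebraMap K[X] (RatFunc K) (B + C c * A)
    rw [map_add, map_mul]
    change algebraMap K[X] (RatFunc K) B ≠ 0 at hioB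
    field_simp
  have hioE : io (B + C c * A) ≠ 0 := by
    intro h
    apply hne
    rw [hden, h, zero_div]
  have hE : B + C c * A ≠ 0 := by
    intro h
    apply hioE
    rw [h]
    exact map_zero _
  have hval : r * (r + kc c) ^ 2 / (1 + kc c * r) ^ 2 =
      io (A * (A + C c * B) ^ 2) / io (B * (B + C c * A) ^ 2) := by
    have hnum : r + kc c = io (A + C c * B) / io B := by
      rw [hr, hkc, eq_div_iff hioB]
      change (algebraMap K[X] (RatFunc K) A / algebraMap K[X] (RatFunc K) B +
        algebraMap K[X] (RatFunc K) (C c)) * algebraMap K[X] (RatFunc K) B =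
        algebraMap K[X] (RatFunc K) (A + C c * B)
      rw [map_add, map_mul]
      change algebraMap K[X] (RatFunc K) B ≠ 0 at hioB
      field_simp
    have e1 : io (A * (A + C c * B) ^ 2) = io A * io (A + C c * B) ^ 2 := by
      change algebraMap K[X] (RatFunc K) _ = _
      rw [map_mul, map_pow]
    have e2 : io (B * (B + C c * A) ^ 2) = io B * io (B + C c * A) ^ 2 := by
      change algebraMap K[X] (RatFunc K) _ = _
      rw [map_mul, map_pow]
    rw [hnum, hden, e1, e2, hr]
    generalize io (A + C c * B) = y at *
    generalize io (B + C c * A) = z at *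
    generalize io A = a at *
    generalize io B = b at *
    field_simp
  have hM0 : B * (B + C c * A) ^ 2 ≠ 0 := mul_ne_zero hB0 (pow_ne_zero _ hE)
  rw [hval, hR1 _ _ (Rt_cop A B c hc hcop) hM0, hr, hR1 A B hcop hB0]
  obtain ⟨d, hd⟩ : ∃ d, d = max A.natDegree B.natDegree := ⟨_, rfl⟩
  rw [← hd]
  have hAd : A.natDegree ≤ d := by rw [hd]; exact le_max_left _ _
  have hBd : B.natDegree ≤ d := by rw [hd]; exact le_max_right _ _
  have hab : A.coeff d ≠ 0 ∨ B.coeff d ≠ 0 := by
    by_cases h : A.natDegree ≤ B.natDegree
    · right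
      have h1 : d = B.natDegree := by rw [hd]; exact max_eq_right h
      rw [h1]
      rw [show B.coeff B.natDegree = B.leadingCoeff from rfl, hBm.leadingCoeff]
      exact one_ne_zero
    · left
      have h1 : d = A.natDegree := by rw [hd]; exact max_eq_left (by omega)
      rw [h1]
      have h2 : A ≠ 0 := by
        intro h3
        rw [h3, natDegree_zero] at h
        omega
      exact leadingCoeff_ne_zero.2 h2
  apply le_antisymm
  · exact max_le (Rt_deg A B c d hAd hBd) (Rt_deg B A c d hBd hAd)
  · have h1 := Rt_coeff A B c d hAd hBd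
    have h2 := Rt_coeff B A c d hBd hAd
    by_cases h3 : A.coeff d * (A.coeff d + c * B.coeff d) ^ 2 = 0
    · have h4 : B.coeff d * (B.coeff d + c * A.coeff d) ^ 2 ≠ 0 := by
        intro h4
        generalize A.coeff d = a at *
        generalize B.coeff d = b at *
        rcases mul_eq_zero.1 h3 with h5 | h5
        · rw [h5] at h4 hab
          rw [mul_zero, add_zero, ← pow_succ'] at h4
          have h6 : b = 0 := by simpa using h4
          rcases hab with h7 | h7
          · exact h7 rfl
          · exact h7 h6
        · have h6 : a + c * b = 0 := by simpa using h5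
          rcases mul_eq_zero.1 h4 with h7 | h7
          · rw [h7, mul_zero, add_zero] at h6
            rcases hab with h8 | h8
            · exact h8 h6
            · exact h8 h7
          · have h8 : b + c * a = 0 := by simpa using h7
            have h9 : a * (c ^ 2 - 1) = 0 := by linear_combination c * h8 - h6
            rcases mul_eq_zero.1 h9 with h10 | h10
            · rw [h10, mul_zero, add_zero] at h8
              rcases hab with h11 | h11
              · exact h11 h10
              · exact h11 h8
            · exact hc (sub_eq_zero.1 h10)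
      exact le_max_of_le_right (le_natDegree_of_ne_zero (by rw [h2]; exact h4))
    · exact le_max_of_le_left (le_natDegree_of_ne_zero (by rw [h1]; exact h3))

end Pool.Agent.CVH
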