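import Pool.Agent.CVH.St

/-! [Se] A solution of odd degree of the differential equation gives an isogeny. -/

set_option autoImplicit false

noncomputable section

namespace Pool.Agent.CVH

open Polynomial
open scoped Classical

/-- the factor `q` is kept by the reflection -/
private lemma Se_dvd {K : Type} [Field K] (u : K) (F : K[X]) (d : ℕ) (hF : F ≠ 0)
    (hd : F.natDegree ≤ d) (h : (X ^ 2 - C (2 * u) * X + 1 : K[X]) ∣ F) :
    (X ^ 2 - C (2 * u) * X + 1 : K[X]) ∣ reflect d F := by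
  obtain ⟨G, rfl⟩ := h
  have hq : (X ^ 2 - C (2 * u) * X + 1 : K[X]).natDegree = 2 := by
    compute_degree!
  have hG : G ≠ 0 := right_ne_zero_of_mul hF
  have hq0 : (X ^ 2 - C (2 * u) * X + 1 : K[X]) ≠ 0 := left_ne_zero_of_mul hF
  rw [natDegree_mul hq0 hG, hq] at hd
  have e : d = 2 + (d - 2) := by omega
  have hr : reflect 2 (X ^ 2 - C (2 * u) * X + 1 : K[X]) = X ^ 2 - C (2 * u) * X + 1 := by
    have h1 : reflect 2 (X : K[X]) = X := by
      have := reflect_monomial (R := K) 2 1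
      rw [revAt_le (by norm_num)] at this
      simpa using this
    have h2 : reflect 2 (X ^ 2 : K[X]) = 1 := by
      rw [reflect_monomial, revAt_le le_rfl]
      simp
    rw [reflect_add, reflect_sub, reflect_C_mul, reflect_one, h1, h2]
    ring
  rw [e, reflect_mul _ _ hq.le (by omega), hr]
  exact dvd_mul_right _ _

/-- the last step: the shape `A = C (κ β) * X * E²`, `B = C β * D²` -/
private lemma Se_last {K : Type} [Field K] (u u' μ κ β : K) (m : ℕ) (D : K[X])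
    (hμ : μ ≠ 0) (hi : ∀ z : K, z ^ 2 ≠ -1) (hκ : κ ^ 2 = 1) (hβ : β ≠ 0)
    (hD : D.natDegree ≤ m) (h1 : D.coeff 0 = 1)
    (hS : Sol u u' μ (C (κ * β) * X * rp m D ^ 2) (C β * D ^ 2)) : Iso u u' μ m D := by
  obtain ⟨E, hE⟩ : ∃ E : K[X], E = rp m D := ⟨_, rfl⟩
  have hD0 : D ≠ 0 := by
    rintro rfl
    rw [coeff_zero] at h1
    exact zero_ne_one h1
  have hE0 : E ≠ 0 := by
    rw [hE]
    exact fun h => hD0 (reflect_eq_zero_iff.1 h)
  rw [← hE] at hS
  unfold Sol at hS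
  obtain ⟨W, hW⟩ : ∃ W : K[X], W = E * D + 2 * X * (derivative E * D - E * derivative D) :=
    ⟨_, rfl⟩
  have hκC : (C κ : K[X]) ^ 2 = 1 := by rw [← C_pow, hκ, C_1]
  have hkb : (C (κ * β) : K[X]) = C κ * C β := C_mul
  rw [hkb] at hS
  have e1 : derivative (C κ * C β * X * E ^ 2) * (C β * D ^ 2) -
      C κ * C β * X * E ^ 2 * derivative (C β * D ^ 2) = C κ * C β ^ 2 * (E * D * W) := by
    have g1 : derivative (E ^ 2) = 2 * E * derivative E := by
      rw [pow_two, derivative_mul]; ring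
    have g2 : derivative (D ^ 2) = 2 * D * derivative D := by
      rw [pow_two, derivative_mul]; ring
    have g3 : derivative (C κ * C β * X * E ^ 2) = C κ * C β * (E ^ 2 + X * derivative (E ^ 2)) := by
      rw [← hkb, mul_assoc, derivative_C_mul, derivative_mul, derivative_X]
      ring
    rw [hW, g3, derivative_C_mul, g1, g2]
    ring
  rw [e1] at hS
  have hX0 : (X : K[X]) ≠ 0 := X_ne_zero
  have hβC : (C β : K[X]) ≠ 0 := C_ne_zero.2 hβ
  have key : (X ^ 2 - C (2 * u) * X + 1) * W ^ 2 =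
      C (μ ^ 2) * (C κ * (X ^ 2 * E ^ 4 + D ^ 4) - C (2 * u') * X * E ^ 2 * D ^ 2) := by
    have h2 : X * C β ^ 4 * E ^ 2 * D ^ 2 * ((X ^ 2 - C (2 * u) * X + 1) * W ^ 2) =
        X * C β ^ 4 * E ^ 2 * D ^ 2 *
          (C (μ ^ 2) * (C κ * (X ^ 2 * E ^ 4 + D ^ 4) - C (2 * u') * X * E ^ 2 * D ^ 2)) := by
      linear_combination hS + (-(X * C β ^ 4 * E ^ 2 * D ^ 2 *
        ((X ^ 2 - C (2 * u) * X + 1) * W ^ 2)) + C (μ ^ 2) * C β ^ 4 * X * E ^ 2 * D ^ 2 *
          (C κ * X ^ 2 * E ^ 4 - C (2 * u') * X * E ^ 2 * D ^ 2)) * hκC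
    exact mul_left_cancel₀ (mul_ne_zero (mul_ne_zero (mul_ne_zero hX0 (pow_ne_zero _ hβC))
      (pow_ne_zero _ hE0)) (pow_ne_zero _ hD0)) h2
  have hk : κ = 1 := by
    have h2 := congrArg (fun P : K[X] => P.eval 0) key
    have hW0 : W.eval 0 = E.eval 0 * D.eval 0 := by rw [hW]; simp
    have hD1 : D.eval 0 = 1 := by rw [← coeff_zero_eq_eval_zero]; exact h1
    have h3 : (E.eval 0) ^ 2 = μ ^ 2 * κ := by
      have h4 : ((0 : K) ^ 2 - 2 * u * 0 + 1) * (E.eval 0 * 1) ^ 2 =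
          μ ^ 2 * (κ * (0 ^ 2 * (E.eval 0) ^ 4 + 1 ^ 4) - 2 * u' * 0 * (E.eval 0) ^ 2 * 1 ^ 2) := by
        simpa only [eval_mul, eval_add, eval_sub, eval_pow, eval_C, eval_X, eval_one, hW0, hD1]
          using h2
      linear_combination h4
    have h5 : (κ - 1) * (κ + 1) = 0 := by linear_combination hκ
    rcases mul_eq_zero.1 h5 with h | h
    · exact sub_eq_zero.1 h
    · exfalso
      apply hi (E.eval 0 / μ)
      have h6 : κ = -1 := by linear_combination h
      rw [div_pow, h3, h6]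
      field_simp
  subst hk
  refine ⟨hD, h1, ?_⟩
  rw [← hE, ← hW, key, C_1]
  ring

/-- the case `deg B < deg A` -/
private lemma Se_core (hSu : St_Su) (hSr : St_Sr) {K : Type} [Field K] [CharZero K]
    (u u' μ : K) (A B : K[X]) (m : ℕ) (hμ : μ ≠ 0) (hi : ∀ z : K, z ^ 2 ≠ -1)
    (hq : Irreducible (X ^ 2 - C (2 * u) * X + 1 : K[X])) (hAB : IsCoprime A B)
    (hS : Sol u u' μ A B) (hA : A.natDegree = 2 * m + 1) (hB : B.natDegree < A.natDegree)
    (i j : ℕ) (a b : K) (N M : K[X])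
    (eA : A = C a * X * (X ^ 2 - C (2 * u) * X + 1) ^ i * N ^ 2)
    (eB : B = C b * (X ^ 2 - C (2 * u) * X + 1) ^ j * M ^ 2) :
    ∃ D : K[X], Iso u u' μ m D := by
  obtain ⟨q, hqd⟩ : ∃ q : K[X], q = X ^ 2 - C (2 * u) * X + 1 := ⟨_, rfl⟩
  rw [← hqd] at hq eA eB
  have hA0 : A ≠ 0 := by
    rintro rfl
    rw [natDegree_zero] at hA
    omega
  have hXA : X ∣ A := by
    rw [eA]
    exact ⟨C a * q ^ i * N ^ 2, by ring⟩
  have hAc : A.coeff 0 = 0 := X_dvd_iff.1 hXA
  have hBc : B.coeff 0 ≠ 0 := by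
    intro h
    exact Polynomial.not_isUnit_X (hAB.isUnit_of_dvd' hXA (X_dvd_iff.2 h))
  have hB0 : B ≠ 0 := by
    rintro rfl
    exact hBc (coeff_zero 0)
  -- the reflected pair
  have hSr1 := (hSr K u u' μ A B (2 * m + 1) hS hA.le (by omega)).1
  have hSr2 := (hSr K u u' μ (reflect (2 * m + 1) A) (reflect (2 * m + 1) B) (2 * m + 1) hSr1
    (by
      have := natDegree_reflect_le (N := 2 * m + 1) (p := A)
      omega)
    (by
      have := natDegree_reflect_le (N := 2 * m + 1) (p := B)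
      omega)).2
  have hBs0 : reflect (2 * m + 1) B ≠ 0 := fun h => hB0 (reflect_eq_zero_iff.1 h)
  have hBsc : (reflect (2 * m + 1) B).coeff 0 = 0 := by
    rw [coeff_reflect, revAt_zero]
    exact coeff_eq_zero_of_natDegree_lt (by omega)
  have hAsc : (reflect (2 * m + 1) A).coeff 0 ≠ 0 := by
    rw [coeff_reflect, revAt_zero, ← hA]
    exact leadingCoeff_ne_zero.2 hA0
  have hprop := hSu K u u' μ A B (reflect (2 * m + 1) B) (reflect (2 * m + 1) A) hμ hA0 hBs0
    hS hSr2 hAc hBc hBsc hAsc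
  -- `B* = κ A`, `A* = κ B`
  have hdvd : A ∣ reflect (2 * m + 1) B := by
    have h1 : A ∣ reflect (2 * m + 1) B * B := ⟨_, hprop.symm⟩
    exact hAB.dvd_of_dvd_mul_right h1
  obtain ⟨c, hc⟩ := hdvd
  have hc0 : c ≠ 0 := by
    rintro rfl
    rw [mul_zero] at hc
    exact hBs0 hc
  have hcd : c.natDegree = 0 := by
    have h1 : (reflect (2 * m + 1) B).natDegree ≤ 2 * m + 1 := by
      have := natDegree_reflect_le (N := 2 * m + 1) (p := B)
      omega
    rw [hc, natDegree_mul hA0 hc0] at h1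
    omega
  obtain ⟨κ, hκ⟩ : ∃ κ : K, c = C κ := ⟨c.coeff 0, eq_C_of_natDegree_eq_zero hcd⟩
  have hκ0 : κ ≠ 0 := by
    rintro rfl
    rw [C_0] at hκ
    exact hc0 hκ
  rw [hκ] at hc
  have hAs : reflect (2 * m + 1) A = C κ * B := by
    rw [hc] at hprop
    apply mul_left_cancel₀ hA0
    rw [hprop]
    ring
  have hκ2 : κ ^ 2 = 1 := by
    have h1 : B = C κ * (C κ * B) := by
      have h2 : reflect (2 * m + 1) (reflect (2 * m + 1) B) = B := reflect_reflect
      rw [hc, mul_comm A (C κ), reflect_C_mul, hAs] at h2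
      exact h2.symm
    have h3 : (C (κ ^ 2) - 1) * B = 0 := by
      rw [C_pow]
      linear_combination -h1
    rcases mul_eq_zero.1 h3 with h | h
    · have h4 : (C (κ ^ 2) : K[X]) = C 1 := by rw [C_1]; exact sub_eq_zero.1 h
      exact C_injective h4
    · exact absurd h hB0
  -- no factor `q`
  have hqA : ¬ q ∣ A := by
    intro h
    have h1 : q ∣ reflect (2 * m + 1) A := by
      rw [hqd] at h ⊢
      exact Se_dvd u A _ hA0 hA.le h
    rw [hAs] at h1
    have h2 : q ∣ B := by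
      have h3 : C κ * (C κ * B) = B := by
        rw [← mul_assoc, ← C_mul, ← pow_two, hκ2, C_1, one_mul]
      rw [← h3]
      exact dvd_mul_of_dvd_right h1 _
    exact hq.not_isUnit (hAB.isUnit_of_dvd' h h2)
  have hqB : ¬ q ∣ B := by
    intro h
    have h1 : q ∣ reflect (2 * m + 1) B := by
      rw [hqd] at h ⊢
      exact Se_dvd u B _ hB0 (by omega) h
    rw [hc] at h1
    have h2 : q ∣ A := by
      have h3 : C κ * (A * C κ) = A := by
        rw [mul_comm A, ← mul_assoc, ← C_mul, ← pow_two, hκ2, C_1, one_mul]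
      rw [← h3]
      exact dvd_mul_of_dvd_right h1 _
    exact hqA h2
  have hj : j = 0 := by
    by_contra h
    apply hqB
    rw [eB]
    exact dvd_mul_of_dvd_left (dvd_mul_of_dvd_right (dvd_pow_self q h) _) _
  rw [hj, pow_zero, mul_one] at eB
  -- the square root of `B`
  have hb0 : b ≠ 0 := by
    rintro rfl
    rw [C_0, zero_mul] at eB
    exact hB0 eB
  have hMc : M.coeff 0 ≠ 0 := by
    intro h
    apply hBc
    rw [eB, coeff_C_mul, pow_two, mul_coeff_zero, h]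
    ring
  have hM0 : M ≠ 0 := by
    rintro rfl
    exact hMc (coeff_zero 0)
  have hMd : M.natDegree ≤ m := by
    have h1 : B.natDegree = 2 * M.natDegree := by
      rw [eB, natDegree_C_mul hb0, natDegree_pow]
    omega
  have hBr : reflect (2 * m + 1) B = C b * X * rp m M ^ 2 := by
    have h1 : reflect (m + m + 1) (M * M * 1) = rp m M * rp m M * X ^ 1 := by
      rw [reflect_mul (M * M) 1 (F := m + m) (G := 1)
        (natDegree_mul_le.trans (by omega)) (by rw [natDegree_one]; omega),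
        reflect_mul M M hMd hMd, reflect_one]
    have h2 : 2 * m + 1 = m + m + 1 := by omega
    have h3 : B = C b * (M * M * 1) := by rw [eB]; ring
    rw [h2, h3, reflect_C_mul, h1]
    ring
  obtain ⟨v, hv⟩ : ∃ v : K, v = M.coeff 0 := ⟨_, rfl⟩
  have hv0 : v ≠ 0 := by rw [hv]; exact hMc
  have hMD : M = C v * (C v⁻¹ * M) := by
    rw [← mul_assoc, ← C_mul, mul_inv_cancel₀ hv0, C_1, one_mul]
  have hrM : rp m M = C v * rp m (C v⁻¹ * M) := by
    have h1 : rp m (C v * (C v⁻¹ * M)) = C v * rp m (C v⁻¹ * M) := reflect_C_mul _ _ _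
    rw [← hMD] at h1
    exact h1
  refine ⟨C v⁻¹ * M, Se_last u u' μ κ (b * v ^ 2) m (C v⁻¹ * M) hμ hi hκ2
    (mul_ne_zero hb0 (pow_ne_zero _ hv0)) ?_ ?_ ?_⟩
  · exact (natDegree_C_mul_le _ _).trans hMd
  · rw [coeff_C_mul, ← hv, inv_mul_cancel₀ hv0]
  · have e1 : C (b * v ^ 2) * (C v⁻¹ * M) ^ 2 = B := by
      have h1 : C (b * v ^ 2) * (C v⁻¹ * M) ^ 2 = C b * (C v * (C v⁻¹ * M)) ^ 2 := by
        rw [C_mul, C_pow]; ring
      rw [h1, ← hMD, eB]
    have e2 : C (κ * (b * v ^ 2)) * X * rp m (C v⁻¹ * M) ^ 2 = A := by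
      have h1 : C (κ * (b * v ^ 2)) * X * rp m (C v⁻¹ * M) ^ 2 =
          C κ * (C b * X * (C v * rp m (C v⁻¹ * M)) ^ 2) := by
        rw [C_mul, C_mul, C_pow]; ring
      rw [h1, ← hrM, ← hBr, hc, mul_comm A, ← mul_assoc, ← C_mul, ← pow_two, hκ2, C_1, one_mul]
    rw [e1, e2]
    exact hS

theorem thm_Se (hSq : St_Sq) (hSu : St_Su) (hSr : St_Sr) : St_Se := by
  intro K _ _ u u' μ A B m hμ hi hq hAB hS hdeg
  rcases hSq K u u' μ A B m hμ hq hAB hS hdeg with
    ⟨h1, i, j, a, b, N, M, -, eA, eB⟩ | ⟨h1, i, j, a, b, N, M, -, eB, eA⟩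
  · exact Se_core hSu hSr u u' μ A B m hμ hi hq hAB hS (by omega) h1 i j a b N M eA eB
  · exact Se_core hSu hSr u u' μ B A m hμ hi hq hAB.symm
      (hSr K u u' μ A B (2 * m + 1) hS (by omega) (by omega)).2 (by omega) h1 i j a b N M eB eA

end Pool.Agent.CVH
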