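import Pool.Agent.CVH.St

/-!
# CVH: module Sf (MP_7d6c83_nt)

The differential equation for rational functions and for polynomials.
-/

set_option autoImplicit false

noncomputable section

namespace Pool.Agent.CVH

open Polynomial
open scoped Classical

private lemma Sf_io_mul {K : Type} [Field K] (A B : K[X]) : io (A * B) = io A * io B :=
  map_mul _ _ _

private lemma Sf_io_add {K : Type} [Field K] (A B : K[X]) : io (A + B) = io A + io B :=
  map_add _ _ _

private lemma Sf_io_sub {K : Type} [Field K] (A B : K[X]) : io (A - B) = io A - io B :=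
  map_sub _ _ _

private lemma Sf_io_pow {K : Type} [Field K] (A : K[X]) (n : ℕ) : io (A ^ n) = io A ^ n :=
  map_pow _ _ _

private lemma Sf_io_one {K : Type} [Field K] : io (1 : K[X]) = 1 := map_one _

private lemma Sf_io_X {K : Type} [Field K] : io (X : K[X]) = RatFunc.X := RatFunc.algebraMap_X

private lemma Sf_io_C {K : Type} [Field K] (a : K) : io (C a : K[X]) = kc a :=
  RatFunc.algebraMap_C a

private lemma Sf_two {K : Type} [Field K] (a : K) : kc (2 * a) = 2 * kc a := by
  show RatFunc.C (2 * a) = 2 * RatFunc.C a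
  rw [map_mul, map_ofNat]

private lemma Sf_inj {K : Type} [Field K] {A B : K[X]} (h : io A = io B) : A = B :=
  IsFractionRing.injective K[X] (RatFunc K) h

theorem thm_Sf (hDc : St_Dc) : St_Sf := by
  intro K _ _ δ hδ u u' μ r h
  obtain ⟨-, -, h3, -⟩ := hDc K δ hδ
  have hB : r.denom ≠ 0 := RatFunc.denom_ne_zero r
  have hB' : io r.denom ≠ 0 := by
    intro h0
    exact hB (Sf_inj (h0.trans (map_zero _).symm))
  have hr : r = io r.num / io r.denom := (RatFunc.num_div_denom r).symm
  have hd : δ r = io (derivative r.num * r.denom - r.num * derivative r.denom) /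
      io r.denom ^ 2 := by
    have := h3 r.num r.denom hB
    rw [← hr] at this
    exact this
  unfold Sol
  apply Sf_inj
  rw [hd] at h
  have hc : cub (kc u') r * io r.denom ^ 4 =
      io r.num * io r.denom * (io r.num ^ 2 - kc (2 * u') * io r.num * io r.denom +
        io r.denom ^ 2) := by
    unfold cub
    have e : r * io r.denom = io r.num := by
      exact (eq_div_iff hB').1 hr
    have e1 : (r ^ 3 - 2 * kc u' * r ^ 2 + r) * io r.denom ^ 4 =
        (r * io r.denom) ^ 3 * io r.denom - 2 * kc u' * (r * io r.denom) ^ 2 * io r.denom ^ 2 +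
          (r * io r.denom) * io r.denom ^ 3 := by ring
    rw [e1, e, Sf_two]
    ring
  have h4 : DX u * (io (derivative r.num * r.denom - r.num * derivative r.denom) /
      io r.denom ^ 2) ^ 2 * io r.denom ^ 4 = kc μ ^ 2 * cub (kc u') r * io r.denom ^ 4 := by
    rw [h]
  rw [mul_assoc (kc μ ^ 2), hc] at h4
  have e5 : DX u * (io (derivative r.num * r.denom - r.num * derivative r.denom) /
      io r.denom ^ 2) ^ 2 * io r.denom ^ 4 =
      DX u * io (derivative r.num * r.denom - r.num * derivative r.denom) ^ 2 := by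
    field_simp
  rw [e5] at h4
  have e6 : io (X * (X ^ 2 - C (2 * u) * X + 1)) = DX u := by
    rw [Sf_io_mul, Sf_io_add, Sf_io_sub, Sf_io_mul, Sf_io_pow, Sf_io_X, Sf_io_C, Sf_io_one,
      Sf_two]
    unfold DX cub
    ring
  rw [Sf_io_mul, Sf_io_pow, e6, h4]
  rw [Sf_io_mul (C (μ ^ 2)), Sf_io_C, Sf_io_mul, Sf_io_mul, Sf_io_add, Sf_io_sub, Sf_io_mul,
    Sf_io_mul, Sf_io_pow, Sf_io_pow, Sf_io_C]
  have e7 : kc (μ ^ 2) = kc μ ^ 2 := map_pow _ _ _
  rw [e7]

end Pool.Agent.CVH
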