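import Pool.Agent.CVH.St

/-!
# CVH Sq: the shape of the solutions of odd degree
-/

set_option autoImplicit false

noncomputable section

namespace Pool.Agent.CVH

open Polynomial
open scoped Classical

private theorem Sq_step {K : Type} [Field K] {π c A B E V : K[X]} (hπ : Prime π) (hc : IsUnit c)
    (h1 : IsCoprime A B) (h2 : IsCoprime A E) (h3 : IsCoprime B E)
    (h : π * V = c * (A * B * E)) :
    ∃ (A₁ B₁ E₁ : K[X]) (i j : ℕ), i + j ≤ 1 ∧ A = π ^ i * A₁ ∧ B = π ^ j * B₁ ∧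
      IsCoprime A₁ B₁ ∧ IsCoprime A₁ E₁ ∧ IsCoprime B₁ E₁ ∧ V = c * (A₁ * B₁ * E₁) := by
  have hd : π ∣ c * (A * B * E) := ⟨V, h.symm⟩
  have hπc : ¬ π ∣ c := fun hd' => hπ.not_isUnit (isUnit_of_dvd_unit hd' hc)
  rcases hπ.dvd_or_dvd hd with hd | hd
  · exact absurd hd hπc
  rcases hπ.dvd_or_dvd hd with hd | ⟨E₁, rfl⟩
  · rcases hπ.dvd_or_dvd hd with ⟨A₁, rfl⟩ | ⟨B₁, rfl⟩
    · refine ⟨A₁, B, E, 1, 0, by omega, by ring, by ring, h1.of_mul_left_right,
        h2.of_mul_left_right, h3, ?_⟩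
      refine mul_left_cancel₀ hπ.ne_zero ?_
      rw [h]
      ring
    · refine ⟨A, B₁, E, 0, 1, by omega, by ring, by ring, h1.of_mul_right_right, h2,
        h3.of_mul_left_right, ?_⟩
      refine mul_left_cancel₀ hπ.ne_zero ?_
      rw [h]
      ring
  · refine ⟨A, B, E₁, 0, 0, by omega, by ring, by ring, h1, h2.of_mul_right_right,
      h3.of_mul_right_right, ?_⟩
    refine mul_left_cancel₀ hπ.ne_zero ?_
    rw [h]
    ring

private theorem Sq_sq {K : Type} [Field K] {c A B W : K[X]} (hc : IsUnit c)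
    (h1 : IsCoprime A B) (h : W ^ 2 = c * (A * B)) :
    ∃ (a : K) (N : K[X]), A = C a * N ^ 2 := by
  have h2 : IsCoprime A (c * B) := by
    refine IsCoprime.mul_right ?_ h1
    exact (isCoprime_one_right (x := A)).of_isCoprime_of_dvd_right hc.dvd
  have h3 : A * (c * B) = W ^ 2 := by
    rw [h]
    ring
  obtain ⟨d, u, hd⟩ := exists_associated_pow_of_mul_eq_pow' h2 h3
  obtain ⟨a, -, ha⟩ := Polynomial.isUnit_iff.1 u.isUnit
  refine ⟨a, d, ?_⟩
  rw [← hd, ← ha]
  ring

private theorem Sq_deg {K : Type} [Field K] {q N P : K[X]} {a : K} {i k : ℕ}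
    (hq : q.natDegree = 2) (hP : P = X ^ i * (q ^ k * (C a * N ^ 2))) :
    P = 0 ∨ P.natDegree = i + (2 * k + 2 * N.natDegree) := by
  by_cases h0 : P = 0
  · exact Or.inl h0
  · right
    rw [hP] at h0
    have h1 := right_ne_zero_of_mul h0
    have h2 := right_ne_zero_of_mul h1
    rw [hP, natDegree_mul (left_ne_zero_of_mul h0) h1, natDegree_mul (left_ne_zero_of_mul h1) h2,
      natDegree_mul (left_ne_zero_of_mul h2) (right_ne_zero_of_mul h2), natDegree_X_pow,
      natDegree_pow, natDegree_C, natDegree_pow, hq]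
    omega

theorem thm_Sq : St_Sq := by
  intro K _ _ u u' μ A B m hμ hirr hcop hsol hmax
  obtain ⟨q, hqdef⟩ : ∃ q : K[X], q = X ^ 2 - C (2 * u) * X + 1 := ⟨_, rfl⟩
  have hq : q.natDegree = 2 := by
    rw [hqdef]
    compute_degree!
  unfold Sol at hsol
  rw [← hqdef] at hirr hsol ⊢
  have hc : IsUnit (C (μ ^ 2) : K[X]) := by
    rw [Polynomial.isUnit_C]
    exact (pow_ne_zero 2 hμ).isUnit
  obtain ⟨E, hE⟩ : ∃ E : K[X], E = A ^ 2 - C (2 * u') * A * B + B ^ 2 := ⟨_, rfl⟩
  rw [← hE] at hsol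
  have hAE : IsCoprime A E := by
    have h1 : IsCoprime A (B ^ 2) := hcop.pow_right
    have h2 : E = B ^ 2 + A * (A - C (2 * u') * B) := by
      rw [hE]
      ring
    rw [h2]
    exact IsCoprime.add_mul_left_right h1 _
  have hBE : IsCoprime B E := by
    have h1 : IsCoprime B (A ^ 2) := hcop.symm.pow_right
    have h2 : E = A ^ 2 + B * (B - C (2 * u') * A) := by
      rw [hE]
      ring
    rw [h2]
    exact IsCoprime.add_mul_left_right h1 _
  obtain ⟨W, hW⟩ : ∃ W : K[X], W = derivative A * B - A * derivative B := ⟨_, rfl⟩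
  rw [← hW] at hsol
  have hsol' : X * (q * W ^ 2) = C (μ ^ 2) * (A * B * E) := by
    rw [← hsol]
    ring
  obtain ⟨A₁, B₁, E₁, i, j, hij, hA, hB, c1, c2, c3, hV⟩ :=
    Sq_step Polynomial.prime_X hc hcop hAE hBE hsol'
  obtain ⟨A₂, B₂, E₂, k, l, hkl, hA₁, hB₁, d1, d2, d3, hV₂⟩ :=
    Sq_step hirr.prime hc c1 c2 c3 hV
  obtain ⟨a, N, hN⟩ : ∃ (a : K) (N : K[X]), A₂ = C a * N ^ 2 := by
    refine Sq_sq (B := B₂ * E₂) (W := W) hc (d1.mul_right d2) ?_
    rw [hV₂]
    ring
  obtain ⟨b, M, hM⟩ : ∃ (a : K) (N : K[X]), B₂ = C a * N ^ 2 := by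
    refine Sq_sq (B := A₂ * E₂) (W := W) hc (d1.symm.mul_right d3) ?_
    rw [hV₂]
    ring
  rw [hN] at hA₁
  rw [hM] at hB₁
  rw [hA₁] at hA
  rw [hB₁] at hB
  have dA := Sq_deg hq hA
  have dB := Sq_deg hq hB
  rcases le_or_gt B.natDegree A.natDegree with hle | hlt
  · left
    rw [max_eq_left hle] at hmax
    have hA0 : A ≠ 0 := by
      rintro h0
      rw [h0, natDegree_zero] at hmax
      omega
    have e1 : A.natDegree = i + (2 * k + 2 * N.natDegree) := dA.resolve_left hA0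
    have hi : i = 1 := by omega
    have hj : j = 0 := by omega
    subst hi hj
    refine ⟨?_, k, l, a, b, N, M, hkl, ?_, ?_⟩
    · rcases dB with h0 | h0
      · rw [h0, natDegree_zero]
        omega
      · omega
    · rw [hA]
      ring
    · rw [hB]
      ring
  · right
    rw [max_eq_right hlt.le] at hmax
    have hB0 : B ≠ 0 := by
      rintro h0
      rw [h0, natDegree_zero] at hmax
      omega
    have e1 : B.natDegree = j + (2 * l + 2 * M.natDegree) := dB.resolve_left hB0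
    have hj : j = 1 := by omega
    have hi : i = 0 := by omega
    subst hi hj
    refine ⟨hlt, l, k, b, a, M, N, by omega, ?_, ?_⟩
    · rw [hB]
      ring
    · rw [hA]
      ring

end Pool.Agent.CVH
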