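import Pool.Agent.CVH.St

/-!
# CVH: [Sr] the differential equation is invariant under `X ↦ 1 / X` and `r ↦ 1 / r`
-/

set_option autoImplicit false

noncomputable section

namespace Pool.Agent.CVH

open Polynomial
open scoped Classical

private theorem Sr_coeff {K : Type} [Field K] (A : K[X]) (j : ℕ) :
    (X * derivative A).coeff j = j * A.coeff j := by
  rcases j with _ | j
  · rw [mul_coeff_zero, coeff_X_zero, zero_mul, Nat.cast_zero, zero_mul]
  · rw [coeff_X_mul, coeff_derivative]
    push_cast
    ring

private theorem Sr_deg {K : Type} [Field K] (A : K[X]) (n : ℕ) (hA : A.natDegree ≤ n) :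
    (X * derivative A).natDegree ≤ n := by
  rw [natDegree_le_iff_coeff_eq_zero]
  intro j hj
  rw [Sr_coeff, coeff_eq_zero_of_natDegree_lt (lt_of_le_of_lt hA hj), mul_zero]

private theorem Sr_theta {K : Type} [Field K] (A : K[X]) (n : ℕ) (hA : A.natDegree ≤ n) :
    reflect n (X * derivative A) = C (n : K) * reflect n A - X * derivative (reflect n A) := by
  ext i
  rw [coeff_reflect, coeff_sub, coeff_C_mul, Sr_coeff, Sr_coeff, coeff_reflect]
  rcases le_or_gt i n with h | h
  · rw [revAt_le h, Nat.cast_sub h]
    ring
  · rw [revAt_eq_self_of_lt h, coeff_eq_zero_of_natDegree_lt (lt_of_le_of_lt hA h)]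
    ring

theorem thm_Sr : St_Sr := by
  intro K _ u u' μ A B n h hA hB
  unfold Sol at h
  constructor
  swap
  · unfold Sol
    linear_combination h
  -- the equation with the Euler derivations
  have h1 : (X ^ 2 - C (2 * u) * X + 1) *
      ((X * derivative A * B - A * (X * derivative B)) *
        (X * derivative A * B - A * (X * derivative B))) =
      C (μ ^ 2) * (X * (A * B * (A * A - C (2 * u') * (A * B) + B * B))) := by
    linear_combination X * h
  have dA := Sr_deg A n hA
  have dB := Sr_deg B n hB
  have d1 : (X * derivative A * B).natDegree ≤ n + n := natDegree_mul_le_of_le dA hB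
  have d2 : (A * (X * derivative B)).natDegree ≤ n + n := natDegree_mul_le_of_le hA dB
  have d3 : (X * derivative A * B - A * (X * derivative B)).natDegree ≤ n + n :=
    (natDegree_sub_le _ _).trans (max_le d1 d2)
  have d4 := natDegree_mul_le_of_le d3 d3
  have dq : (X ^ 2 - C (2 * u) * X + 1 : K[X]).natDegree ≤ 2 := by
    refine (natDegree_add_le _ _).trans (max_le ((natDegree_sub_le _ _).trans (max_le ?_ ?_)) ?_)
    · exact natDegree_X_pow_le 2
    · exact (natDegree_C_mul_le _ _).trans (natDegree_X_le.trans (by omega))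
    · rw [natDegree_one]; exact Nat.zero_le _
  have dAB : (A * B).natDegree ≤ n + n := natDegree_mul_le_of_le hA hB
  have dAA : (A * A).natDegree ≤ n + n := natDegree_mul_le_of_le hA hA
  have dBB : (B * B).natDegree ≤ n + n := natDegree_mul_le_of_le hB hB
  have dS : (A * A - C (2 * u') * (A * B) + B * B).natDegree ≤ n + n :=
    (natDegree_add_le _ _).trans (max_le ((natDegree_sub_le _ _).trans
      (max_le dAA ((natDegree_C_mul_le _ _).trans dAB))) dBB)
  have dG := natDegree_mul_le_of_le dAB dS
  have rX : reflect 2 (X : K[X]) = X := by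
    have e := reflect_monomial (R := K) 2 1
    rwa [pow_one, revAt_le (by omega), Nat.add_one_sub_one, pow_one] at e
  have rq : reflect 2 (X ^ 2 - C (2 * u) * X + 1 : K[X]) = X ^ 2 - C (2 * u) * X + 1 := by
    rw [reflect_add, reflect_sub, reflect_C_mul, rX, reflect_monomial, reflect_one,
      revAt_le (le_refl 2), Nat.sub_self, pow_zero]
    ring
  have h2 := congrArg (reflect (2 + ((n + n) + (n + n)))) h1
  rw [reflect_mul _ _ dq d4, reflect_mul _ _ d3 d3, reflect_sub, reflect_mul _ _ dA hB,
    reflect_mul _ _ hA dB, Sr_theta A n hA, Sr_theta B n hB, rq, reflect_C_mul,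
    reflect_mul X _ (natDegree_X_le.trans (by omega)) dG, rX, reflect_mul _ _ dAB dS,
    reflect_add, reflect_sub, reflect_C_mul, reflect_mul _ _ hA hB, reflect_mul _ _ hA hA,
    reflect_mul _ _ hB hB] at h2
  unfold Sol
  have hX : (X : K[X]) ≠ 0 := X_ne_zero
  apply mul_left_cancel₀ hX
  linear_combination h2

end Pool.Agent.CVH
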