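import Pool.Agent.CVH.St

/-!
# CVH, module Su: uniqueness of the solution (helper26)
-/

set_option autoImplicit false

noncomputable section

namespace Pool.Agent.CVH

open Polynomial
open scoped Classical

private theorem Su_fac {K : Type*} [Field K] {P : K[X]} (hP : P ≠ 0) :
    ∃ (e : ℕ) (Q : K[X]), P = X ^ e * Q ∧ eval 0 Q ≠ 0 := by
  obtain ⟨Q, h1, h2⟩ := exists_eq_pow_rootMultiplicity_mul_and_not_dvd P hP 0
  refine ⟨P.rootMultiplicity 0, Q, ?_, ?_⟩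
  · rw [C_0, sub_zero] at h1
    exact h1
  · intro h
    apply h2
    rw [dvd_iff_isRoot]
    exact h

private theorem Su_ord {K : Type*} [Field K] {a b : ℕ} {P Q : K[X]} (h : X ^ a * P = X ^ b * Q)
    (hP : eval 0 P ≠ 0) (hQ : eval 0 Q ≠ 0) : a = b ∧ P = Q := by
  have key : ∀ (a c : ℕ) (P Q : K[X]), X ^ a * P = X ^ (a + c) * Q → eval 0 P ≠ 0 → c = 0 ∧ P = Q := by
    intro a c P Q h hP
    have hX : (X : K[X]) ^ a ≠ 0 := pow_ne_zero _ X_ne_zero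
    rw [pow_add, mul_assoc] at h
    have h1 := mul_left_cancel₀ hX h
    rcases Nat.eq_zero_or_pos c with hc | hc
    · subst hc
      refine ⟨rfl, ?_⟩
      rw [h1, pow_zero, one_mul]
    · exfalso
      apply hP
      rw [h1, eval_mul, eval_pow, eval_X, zero_pow (by omega), zero_mul]
  rcases le_total a b with hab | hab
  · obtain ⟨c, rfl⟩ := Nat.exists_eq_add_of_le hab
    obtain ⟨h1, h2⟩ := key a c P Q h hP
    exact ⟨by omega, h2⟩
  · obtain ⟨c, rfl⟩ := Nat.exists_eq_add_of_le hab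
    obtain ⟨h1, h2⟩ := key b c Q P h.symm hQ
    exact ⟨by omega, h2.symm⟩

private theorem Su_loc {K : Type*} [Field K] [CharZero K] {u u' μ : K} {A B : K[X]} (hμ : μ ≠ 0)
    (hA : A ≠ 0) (h : Sol u u' μ A B) (hA0 : eval 0 A = 0) (hB0 : eval 0 B ≠ 0) :
    eval 0 (derivative A * B - A * derivative B) = μ ^ 2 * eval 0 B ^ 2 := by
  obtain ⟨e, P, hP, hP0⟩ := Su_fac hA
  have he : e ≠ 0 := by
    rintro rfl
    apply hP0
    rw [pow_zero, one_mul] at hP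
    rw [← hP]
    exact hA0
  obtain ⟨j, rfl⟩ := Nat.exists_eq_succ_of_ne_zero he
  have hd : derivative A = X ^ j * (C ((j : K) + 1) * P + X * derivative P) := by
    rw [hP, derivative_mul, derivative_X_pow]
    simp only [Nat.succ_eq_add_one, Nat.add_sub_cancel, Nat.cast_add, Nat.cast_one]
    rw [pow_succ]
    ring
  set W : K[X] := C ((j : K) + 1) * P * B + X * (derivative P * B - P * derivative B) with hW
  have hWA : derivative A * B - A * derivative B = X ^ j * W := by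
    rw [hd, hW, hP, Nat.succ_eq_add_one, pow_succ]
    ring
  have hj : ((j : K) + 1) ≠ 0 := by exact_mod_cast Nat.succ_ne_zero j
  have hW0 : eval 0 W = ((j : K) + 1) * eval 0 P * eval 0 B := by
    rw [hW]
    simp
  unfold Sol at h
  rw [hWA] at h
  have hq : eval 0 (X ^ 2 - C (2 * u) * X + 1 : K[X]) = 1 := by simp
  have hr : eval 0 (A ^ 2 - C (2 * u') * A * B + B ^ 2) = eval 0 B ^ 2 := by simp [hA0]
  have h1 : X ^ (2 * j + 1) * ((X ^ 2 - C (2 * u) * X + 1) * W ^ 2) =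
      X ^ (j + 1) * (C (μ ^ 2) * (P * B * (A ^ 2 - C (2 * u') * A * B + B ^ 2))) := by
    have e1 : X ^ (2 * j + 1) * ((X ^ 2 - C (2 * u) * X + 1) * W ^ 2) =
        X * (X ^ 2 - C (2 * u) * X + 1) * (X ^ j * W) ^ 2 := by
      rw [mul_pow, ← pow_mul, mul_comm j 2, pow_succ]
      ring
    rw [e1, h]
    have e2 : A * B = X ^ (j + 1) * (P * B) := by
      rw [← mul_assoc]
      congr 1
    rw [e2]
    ring
  obtain ⟨h2, h3⟩ := Su_ord h1 (by
      rw [eval_mul, eval_pow, hq, hW0, one_mul]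
      exact pow_ne_zero _ (mul_ne_zero (mul_ne_zero hj hP0) hB0)) (by
      rw [eval_mul, eval_C, eval_mul, eval_mul, hr]
      exact mul_ne_zero (pow_ne_zero _ hμ) (mul_ne_zero (mul_ne_zero hP0 hB0) (pow_ne_zero _ hB0)))
  have hj0 : j = 0 := by omega
  subst hj0
  have h4 := congrArg (eval 0) h3
  rw [eval_mul, eval_pow, hq, hW0, one_mul, eval_mul, eval_C, eval_mul, eval_mul, hr] at h4
  rw [hWA, pow_zero, one_mul, hW0]
  simp only [Nat.cast_zero, zero_add, one_mul] at h4 ⊢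
  have h5 : eval 0 P * eval 0 B ≠ 0 := mul_ne_zero hP0 hB0
  have h6 : (eval 0 P * eval 0 B) * (eval 0 P * eval 0 B) =
      (eval 0 P * eval 0 B) * (μ ^ 2 * eval 0 B ^ 2) := by
    linear_combination h4
  exact mul_left_cancel₀ h5 h6

theorem thm_Su : St_Su := by
  intro K _ _ u u' μ A₁ B₁ A₂ B₂ hμ hA₁ hA₂ h₁ h₂ ha₁ hb₁ ha₂ hb₂
  rw [coeff_zero_eq_eval_zero] at ha₁ hb₁ ha₂ hb₂
  have w₁ := Su_loc hμ hA₁ h₁ ha₁ hb₁
  have w₂ := Su_loc hμ hA₂ h₂ ha₂ hb₂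
  by_contra hne
  have hE : A₁ * B₂ - A₂ * B₁ ≠ 0 := sub_ne_zero.2 hne
  obtain ⟨k, E, hEk, hE0⟩ := Su_fac hE
  have hk : k ≠ 0 := by
    rintro rfl
    apply hE0
    rw [pow_zero, one_mul] at hEk
    rw [← hEk, eval_sub, eval_mul, eval_mul, ha₁, ha₂, zero_mul, zero_mul, sub_zero]
  obtain ⟨j, rfl⟩ := Nat.exists_eq_succ_of_ne_zero hk
  rw [Nat.succ_eq_add_one] at hEk
  set W₁ : K[X] := derivative A₁ * B₁ - A₁ * derivative B₁ with hW₁
  set W₂ : K[X] := derivative A₂ * B₂ - A₂ * derivative B₂ with hW₂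
  set q : K[X] := X ^ 2 - C (2 * u) * X + 1 with hq
  set G : K[X] := A₁ ^ 2 * B₂ ^ 2 + A₁ * A₂ * B₁ * B₂ + A₂ ^ 2 * B₁ ^ 2 -
    C (2 * u') * (A₁ * B₁ * B₂ ^ 2 + A₂ * B₂ * B₁ ^ 2) + B₁ ^ 2 * B₂ ^ 2 with hG
  -- the difference of the two equations
  have h₁' : X * q * W₁ ^ 2 = C (μ ^ 2) * (A₁ * B₁ * (A₁ ^ 2 - C (2 * u') * A₁ * B₁ + B₁ ^ 2)) := h₁
  have h₂' : X * q * W₂ ^ 2 = C (μ ^ 2) * (A₂ * B₂ * (A₂ ^ 2 - C (2 * u') * A₂ * B₂ + B₂ ^ 2)) := h₂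
  have h3 : X * q * ((W₁ * B₂ ^ 2 - W₂ * B₁ ^ 2) * (W₁ * B₂ ^ 2 + W₂ * B₁ ^ 2)) =
      C (μ ^ 2) * (B₁ * B₂ * (A₁ * B₂ - A₂ * B₁) * G) := by
    rw [hG]
    linear_combination B₂ ^ 4 * h₁' - B₁ ^ 4 * h₂'
  have h4 : W₁ * B₂ ^ 2 - W₂ * B₁ ^ 2 = derivative (A₁ * B₂ - A₂ * B₁) * (B₁ * B₂) -
      (A₁ * B₂ - A₂ * B₁) * derivative (B₁ * B₂) := by
    rw [hW₁, hW₂, derivative_sub, derivative_mul, derivative_mul, derivative_mul]
    ring
  have h5 : derivative (X ^ (j + 1) * E) * (B₁ * B₂) - (X ^ (j + 1) * E) * derivative (B₁ * B₂) =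
      X ^ j * (C ((j : K) + 1) * E * (B₁ * B₂) +
        X * (derivative E * (B₁ * B₂) - E * derivative (B₁ * B₂))) := by
    rw [derivative_mul (f := X ^ (j + 1)), derivative_X_pow]
    simp only [Nat.add_sub_cancel, Nat.cast_add, Nat.cast_one]
    rw [pow_succ]
    ring
  rw [h4, hEk, h5] at h3
  have hX : (X : K[X]) ^ (j + 1) ≠ 0 := pow_ne_zero _ X_ne_zero
  have h6 : X ^ (j + 1) * (q * (C ((j : K) + 1) * E * (B₁ * B₂) +
      X * (derivative E * (B₁ * B₂) - E * derivative (B₁ * B₂))) * (W₁ * B₂ ^ 2 + W₂ * B₁ ^ 2)) =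
      X ^ (j + 1) * (C (μ ^ 2) * (B₁ * B₂ * E * G)) := by
    rw [pow_succ] at h3 ⊢
    linear_combination h3
  have h7 := congrArg (eval 0) (mul_left_cancel₀ hX h6)
  have hq0 : eval 0 q = 1 := by
    rw [hq]
    simp
  have hG0 : eval 0 G = eval 0 B₁ ^ 2 * eval 0 B₂ ^ 2 := by
    rw [hG]
    simp [ha₁, ha₂]
  simp only [eval_mul, eval_add, eval_pow, eval_C, eval_X, zero_mul, add_zero, hq0, hG0, w₁, w₂,
    one_mul] at h7
  have h8 : eval 0 E * eval 0 B₁ ^ 3 * eval 0 B₂ ^ 3 * μ ^ 2 * (2 * ((j : K) + 1) - 1) = 0 := by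
    linear_combination h7
  have h9 : (2 * ((j : K) + 1) - 1) ≠ 0 := by
    have : (2 * ((j : K) + 1) - 1) = ((2 * j + 1 : ℕ) : K) := by
      push_cast
      ring
    rw [this]
    exact Nat.cast_ne_zero.2 (Nat.succ_ne_zero (2 * j))
  have h10 : eval 0 E * eval 0 B₁ ^ 3 * eval 0 B₂ ^ 3 * μ ^ 2 ≠ 0 :=
    mul_ne_zero (mul_ne_zero (mul_ne_zero hE0 (pow_ne_zero _ hb₁)) (pow_ne_zero _ hb₂))
      (pow_ne_zero _ hμ)
  exact (mul_ne_zero h10 h9) h8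

end Pool.Agent.CVH
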