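import Pool.Agent.CVH.St
import Pool.Agent.CTS.Main

/-!
# CVH, module Vs: the sum `S(p)` in the valuation ring (helper30)
-/

set_option autoImplicit false

noncomputable section

namespace Pool.Agent.CVH

open Polynomial
open scoped Classical

private theorem Vs_PP {R : Type*} [CommRing R] (n : ℕ) (x : R) :
    Pool.Agent.CTS.PP n x = PL n x := rfl

private theorem Vs_map {R S : Type*} [CommRing R] [CommRing S] (φ : R →+* S) (n : ℕ) (x : R) :
    φ (PL n x) = PL n (φ x) := by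
  unfold PL
  rw [map_sum]
  refine Finset.sum_congr rfl fun i _ => ?_
  rw [map_mul, map_mul, map_pow, map_pow, map_neg, map_one, map_natCast]

theorem thm_Vs (hVx : St_Vx) : St_Vs Pool.Agent.CTS.Ssum := by
  intro K _ _ V p n g w hp hn hres hg hw
  obtain ⟨-, hV⟩ := hVx K p hp
  obtain ⟨V1, V2, V3, V4⟩ := hV V hres
  obtain ⟨hgV, hwV⟩ := V3 g w hg hw
  obtain ⟨G, hGg⟩ : ∃ G : V, (G : K) = g := ⟨⟨g, hgV⟩, rfl⟩
  obtain ⟨Y, hYw⟩ : ∃ Y : V, (Y : K) = w := ⟨⟨w, hwV⟩, rfl⟩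
  have hG : G ^ 2 = G + 1 := by
    apply Subtype.ext
    push_cast
    rw [hGg, hg]
  have hY : Y ^ 2 = -1 - Y := by
    apply Subtype.ext
    push_cast
    rw [hYw, hw]
  have h2V : IsUnit (2 : V) := by
    by_contra hno
    have h1 : (2 : V) ∈ IsLocalRing.maximalIdeal V := by
      rw [IsLocalRing.mem_maximalIdeal]
      exact hno
    have h3 : ((2 : V) : K) ∈ V.nonunits := ValuationSubring.coe_mem_nonunits_iff.2 h1
    have h4 := V1 2 (by
      push_cast
      exact h3)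
    have h5 : (p : ℤ) ≤ 2 := Int.le_of_dvd (by norm_num) h4
    have h6 := hp.two_le
    have h7 : p = 2 := by omega
    omega
  set I : Ideal V := Ideal.span {((p : V)) ^ 2} with hI
  set φ : V →+* V ⧸ I := Ideal.Quotient.mk I with hφ
  have h0 : ((p : V ⧸ I)) ^ 2 = 0 := by
    have h1 : ((p : V ⧸ I)) ^ 2 = φ ((p : V) ^ 2) := by
      rw [map_pow, map_natCast]
    rw [h1]
    exact Ideal.Quotient.eq_zero_iff_mem.2 (Ideal.subset_span (Set.mem_singleton _))
  have h2 : IsUnit (2 : V ⧸ I) := by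
    have h1 := h2V.map φ
    rwa [map_ofNat] at h1
  have hg' : (φ G) ^ 2 = φ G + 1 := by
    rw [← map_pow, hG, map_add, map_one]
  have hw' : (φ Y) ^ 2 = -1 - φ Y := by
    rw [← map_pow, hY, map_sub, map_neg, map_one]
  have key := Pool.Agent.CTS.S_eq hp hn h0 h2 hg' hw'
  rw [Vs_PP, Vs_PP] at key
  have hs : Pool.Agent.CTS.sS (φ G) (φ Y) = φ (Pool.Agent.CTS.sS G Y) := by
    unfold Pool.Agent.CTS.sS
    rw [map_sub, map_sub, map_mul, map_mul, map_ofNat]
  have ht : Pool.Agent.CTS.tT (φ G) (φ Y) = φ (Pool.Agent.CTS.tT G Y) := by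
    unfold Pool.Agent.CTS.tT
    simp only [map_sub, map_add, map_mul, map_ofNat]
  rw [hs, ht, ← map_pow, ← map_pow, ← Vs_map, ← Vs_map, ← map_mul] at key
  have hk2 : φ ((Pool.Agent.CTS.Ssum p : V) -
      PL n (Pool.Agent.CTS.sS G Y ^ 2) * PL n (Pool.Agent.CTS.tT G Y ^ 2)) = 0 := by
    rw [map_sub, map_intCast, key, sub_self]
  have hmem := Ideal.Quotient.eq_zero_iff_mem.1 hk2
  rw [hI, Ideal.mem_span_singleton'] at hmem
  obtain ⟨z, hz⟩ := hmem
  refine ⟨(z : K), z.2, ?_⟩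
  have hz2 : ((z * (p : V) ^ 2 : V) : K) = (((Pool.Agent.CTS.Ssum p : V) -
      PL n (Pool.Agent.CTS.sS G Y ^ 2) * PL n (Pool.Agent.CTS.tT G Y ^ 2) : V) : K) := by rw [hz]
  have hGs : V.subtype G = g := hGg
  have hYs : V.subtype Y = w := hYw
  have e1 : ((PL n (Pool.Agent.CTS.sS G Y ^ 2) : V) : K) = PL n ((1 - u₁ g w) / 2) := by
    have h1 := Vs_map V.subtype n (Pool.Agent.CTS.sS G Y ^ 2)
    have h3 : V.subtype (Pool.Agent.CTS.sS G Y ^ 2) = (1 - u₁ g w) / 2 := by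
      rw [Pool.Agent.CTS.sS_sq hG hY]
      simp only [map_sub, map_add, map_mul, map_neg, map_ofNat]
      rw [hGs, hYs]
      unfold u₁
      ring
    rw [h3] at h1
    exact h1
  have e2 : ((PL n (Pool.Agent.CTS.tT G Y ^ 2) : V) : K) = PL n ((1 - u₂ g w) / 2) := by
    have h1 := Vs_map V.subtype n (Pool.Agent.CTS.tT G Y ^ 2)
    have h3 : V.subtype (Pool.Agent.CTS.tT G Y ^ 2) = (1 - u₂ g w) / 2 := by
      rw [Pool.Agent.CTS.tT_sq hG hY]
      simp only [map_sub, map_add, map_mul, map_neg, map_ofNat]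
      rw [hGs, hYs]
      unfold u₂
      ring
    rw [h3] at h1
    exact h1
  push_cast at hz2
  rw [e1, e2] at hz2
  linear_combination -hz2

end Pool.Agent.CVH
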