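import Pool.Agent.CVH.Dv
import Pool.Agent.CVH.Dc
import Pool.Agent.CVH.Rd
import Pool.Agent.CVH.Rp
import Pool.Agent.CVH.Rq
import Pool.Agent.CVH.Rt
import Pool.Agent.CVH.Rm
import Pool.Agent.CVH.Gr
import Pool.Agent.CVH.Gs
import Pool.Agent.CVH.Li
import Pool.Agent.CVH.La
import Pool.Agent.CVH.Lb
import Pool.Agent.CVH.Lt
import Pool.Agent.CVH.Fd
import Pool.Agent.CVH.Ab
import Pool.Agent.CVH.Cp
import Pool.Agent.CVH.Ip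
import Pool.Agent.CVH.Ic
import Pool.Agent.CVH.Ie
import Pool.Agent.CVH.Ex
import Pool.Agent.CVH.Sf
import Pool.Agent.CVH.Sq
import Pool.Agent.CVH.Su
import Pool.Agent.CVH.Sr
import Pool.Agent.CVH.Se
import Pool.Agent.CVH.Gp
import Pool.Agent.CVH.Lk
import Pool.Agent.CVH.Lr
import Pool.Agent.CVH.Le
import Pool.Agent.CVH.Lf
import Pool.Agent.CVH.Lp
import Pool.Agent.CVH.Lc
import Pool.Agent.CVH.Lw
import Pool.Agent.CVH.Vx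
import Pool.Agent.CVH.Vs
import Pool.Agent.CVH.Kf
import Pool.Agent.CVH.Ma
import Pool.Agent.CVH.Mb

/-!
# Statement (a) of MP_7d6c83_nt
-/

set_option autoImplicit false

namespace Pool.Agent.CVH

open Pool.Agent.CTS

theorem fin_of (h : St_Mb Ssum) : ∀ p : ℕ, p.Prime → 3 < p →
    ((p % 15 = 1 ∨ p % 15 = 4) → ∀ x y : ℤ, (p : ℤ) = x ^ 2 + 15 * y ^ 2 →
      Ssum p ≡ 4 * x ^ 2 - 2 * p [ZMOD (p : ℤ) ^ 2]) ∧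
    ((p % 15 = 2 ∨ p % 15 = 8) → ∀ x y : ℤ, (p : ℤ) = 3 * x ^ 2 + 5 * y ^ 2 →
      Ssum p ≡ 2 * p - 12 * x ^ 2 [ZMOD (p : ℤ) ^ 2]) ∧
    ((p % 15 = 7 ∨ p % 15 = 11 ∨ p % 15 = 13 ∨ p % 15 = 14) →
      Ssum p ≡ 0 [ZMOD (p : ℤ) ^ 2]) := by
  intro p hp h3
  refine ⟨fun _ x y hxy => ?_, fun hr x y hxy => ?_, fun hr => ?_⟩
  · exact ((Int.modEq_iff_dvd.2 ((h p x y hp h3).1 hxy))).symm
  · refine (Int.modEq_iff_dvd.2 ((h p x y hp h3).2 ?_ hxy)).symm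
    rintro rfl
    omega
  · exact (Int.modEq_zero_iff_dvd.2 (third_case hp hr))

theorem all_Gs : St_Gs := thm_Gs thm_Gr

theorem all_Li : St_Li := thm_Li thm_Gr

theorem all_Lt : St_Lt := thm_Lt thm_Gr all_Li (thm_La thm_Gr all_Gs) (thm_Lb thm_Gr all_Gs)

theorem all_Fd : St_Fd := thm_Fd thm_Gr all_Gs thm_Rd (thm_Rp thm_Rd) (thm_Rq thm_Rd)

theorem all_Ip : St_Ip := thm_Ip thm_Dc thm_Gr all_Li

theorem all_Ie : St_Ie := thm_Ie thm_Ic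

theorem all_Ex : St_Ex :=
  thm_Ex thm_Dc thm_Rd (thm_Rt thm_Rd) (thm_Rm thm_Rd) thm_Gr all_Li all_Fd thm_Cp all_Ip thm_Ic all_Ie

theorem all_Se : St_Se := thm_Se thm_Sq thm_Su thm_Sr

theorem all_Gp : St_Gp := thm_Gp thm_Dc thm_Gr all_Lt all_Fd thm_Ab (thm_Sf thm_Dc) all_Se

theorem all_Lr : St_Lr := thm_Lr thm_Lk

theorem all_Lc : St_Lc := thm_Lc (thm_Lf thm_Le) thm_Lp

theorem all_Lw : St_Lw := thm_Lw all_Lr all_Lc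

theorem all_Vs : St_Vs Ssum := thm_Vs thm_Vx

theorem all_Ma : St_Ma := thm_Ma thm_Dv thm_Ic all_Ex all_Gp all_Lr thm_Vx

theorem all_Mb : St_Mb Ssum := thm_Mb all_Ma all_Lw thm_Vx all_Vs thm_Kf thm_Ic

/-- statement (a) -/
theorem statement_a : ∀ p : ℕ, p.Prime → 3 < p →
    ((p % 15 = 1 ∨ p % 15 = 4) → ∀ x y : ℤ, (p : ℤ) = x ^ 2 + 15 * y ^ 2 →
      Ssum p ≡ 4 * x ^ 2 - 2 * p [ZMOD (p : ℤ) ^ 2]) ∧
    ((p % 15 = 2 ∨ p % 15 = 8) → ∀ x y : ℤ, (p : ℤ) = 3 * x ^ 2 + 5 * y ^ 2 →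
      Ssum p ≡ 2 * p - 12 * x ^ 2 [ZMOD (p : ℤ) ^ 2]) ∧
    ((p % 15 = 7 ∨ p % 15 = 11 ∨ p % 15 = 13 ∨ p % 15 = 14) →
      Ssum p ≡ 0 [ZMOD (p : ℤ) ^ 2]) :=
  fin_of all_Mb

end Pool.Agent.CVH
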