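import Pool.Agent.CVH.St

/-!
# CVH, module Ip: an isogeny gives a point
-/

set_option autoImplicit false

noncomputable section

namespace Pool.Agent.CVH

open Polynomial
open scoped Classical

private lemma Ip_mul {K : Type} [Field K] (a b : K[X]) : io (a * b) = io a * io b :=
  map_mul (algebraMap K[X] (RatFunc K)) a b

private lemma Ip_add {K : Type} [Field K] (a b : K[X]) : io (a + b) = io a + io b :=
  map_add (algebraMap K[X] (RatFunc K)) a b

private lemma Ip_sub {K : Type} [Field K] (a b : K[X]) : io (a - b) = io a - io b :=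
  map_sub (algebraMap K[X] (RatFunc K)) a b

private lemma Ip_pow {K : Type} [Field K] (a : K[X]) (n : ℕ) : io (a ^ n) = io a ^ n :=
  map_pow (algebraMap K[X] (RatFunc K)) a n

private lemma Ip_one {K : Type} [Field K] : io (1 : K[X]) = 1 :=
  map_one (algebraMap K[X] (RatFunc K))

private lemma Ip_zero {K : Type} [Field K] : io (0 : K[X]) = 0 :=
  map_zero (algebraMap K[X] (RatFunc K))

private lemma Ip_two {K : Type} [Field K] : io (2 : K[X]) = 2 :=
  map_ofNat (algebraMap K[X] (RatFunc K)) 2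

private lemma Ip_ioC {K : Type} [Field K] (a : K) : io (C a) = kc a := RatFunc.algebraMap_C a

private lemma Ip_ioX {K : Type} [Field K] : io (X : K[X]) = RatFunc.X := RatFunc.algebraMap_X

private lemma Ip_inj {K : Type} [Field K] {a b : K[X]} (h : io a = io b) : a = b :=
  RatFunc.algebraMap_injective K h

private lemma Ip_kinj {K : Type} [Field K] {a b : K} (h : kc a = kc b) : a = b :=
  RatFunc.C_injective h

private lemma Ip_kpow {K : Type} [Field K] (a : K) (n : ℕ) : kc (a ^ n) = kc a ^ n :=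
  map_pow RatFunc.C a n

private lemma Ip_ktwo {K : Type} [Field K] (a : K) : kc (2 * a) = 2 * kc a := by
  show RatFunc.C (2 * a) = 2 * RatFunc.C a
  rw [map_mul, map_ofNat]

theorem thm_Ip (hDc : St_Dc) (hGr : St_Gr) (hLi : St_Li) : St_Ip := by
  intro K _ _ δ hδ u u' μ m D hu' hμ iso
  obtain ⟨hc0, -, hquot, hconst⟩ := hDc K δ hδ
  set E : K[X] := rp m D with hE
  have hD0 : D ≠ 0 := by
    intro h
    have := iso.one
    rw [h, coeff_zero] at this
    exact zero_ne_one this
  have hd0 : io D ≠ 0 := fun h => hD0 (Ip_inj (h.trans Ip_zero.symm))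
  have hk0 : (kc (0 : K)) = 0 := map_zero RatFunc.C
  have hk1 : (kc (1 : K)) = 1 := map_one RatFunc.C
  have hM : kc μ ≠ 0 := fun h => hμ (Ip_kinj (h.trans hk0.symm))
  have hEm : E.coeff m = 1 := by
    rw [hE, coeff_reflect, revAt_le le_rfl, Nat.sub_self]
    exact iso.one
  -- the derivative of `r`
  have hr : ir m D = io (X * E ^ 2) / io (D ^ 2) := by
    rw [Ip_mul, Ip_pow, Ip_pow, Ip_ioX]
  set W : K[X] := E * D + 2 * X * (derivative E * D - E * derivative D) with hW
  have hder : δ (ir m D) = io (E * D * W) / io (D ^ 2) ^ 2 := by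
    rw [hr, hquot _ _ (pow_ne_zero 2 hD0)]
    congr 2
    rw [hW, derivative_mul, derivative_X, derivative_pow, derivative_pow]
    simp only [Nat.cast_ofNat, Nat.add_one_sub_one, pow_one, map_ofNat]
    ring
  -- the equation
  have hode0 := congrArg io iso.ode
  rw [← hE, ← hW] at hode0
  have hode : (RatFunc.X ^ 2 - 2 * kc u * RatFunc.X + 1) * io W ^ 2 =
      kc μ ^ 2 * (RatFunc.X ^ 2 * io E ^ 4 - 2 * kc u' * RatFunc.X * io E ^ 2 * io D ^ 2 +
        io D ^ 4) := by
    simp only [Ip_mul, Ip_add, Ip_sub, Ip_pow, Ip_one, Ip_ioC, Ip_ioX, Ip_ktwo, Ip_kpow] at hode0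
    exact hode0
  have hx0 : (RatFunc.X : RatFunc K) ≠ 0 := RatFunc.X_ne_zero
  have h2 : (2 : RatFunc K) ≠ 0 := by
    have h : (kc (2 : K)) = 2 := map_ofNat RatFunc.C 2
    intro h0
    have := Ip_kinj ((h.trans h0).trans hk0.symm)
    exact two_ne_zero this
  have hDX : DX u ≠ 0 := by
    have h1 : DX u = io (X ^ 3 - 2 * C u * X ^ 2 + X) := by
      simp only [Ip_mul, Ip_add, Ip_sub, Ip_pow, Ip_ioC, Ip_ioX, Ip_two]
      rfl
    rw [h1]
    intro h
    have h3 := Ip_inj (h.trans Ip_zero.symm)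
    have h4 := congrArg (fun P : K[X] => P.coeff 1) h3
    have h5 : (2 * C u * X ^ 2 : K[X]) = C (2 * u) * X ^ 2 := by
      rw [map_mul, map_ofNat]
    simp only [h5, coeff_add, coeff_sub, coeff_X_pow, coeff_C_mul, coeff_X, coeff_zero] at h4
    norm_num at h4
  have hu1 : (kc u') ^ 2 ≠ 1 := by
    intro h
    rw [← Ip_kpow, ← hk1] at h
    exact hu' (Ip_kinj h)
  obtain ⟨-, hpt, -⟩ := hGr (RatFunc K) (kc u') (DX u) h2 hDX hu1
  -- the coordinate `s`
  set s : RatFunc K := io E * io W / (io D ^ 3 * kc μ) with hs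
  have hds : δ (ir m D) = kc μ * s := by
    rw [hder, hs]
    simp only [Ip_mul, Ip_pow]
    field_simp
  have hcurve : DX u * s ^ 2 = cub (kc u') (ir m D) := by
    have h1 : DX u = RatFunc.X * (RatFunc.X ^ 2 - 2 * kc u * RatFunc.X + 1) := by
      show cub (kc u) RatFunc.X = _
      unfold cub
      ring
    have h3 : ir m D = RatFunc.X * io E ^ 2 / io D ^ 2 := rfl
    rw [h1, h3, hs]
    unfold cub
    have h4 : RatFunc.X * (RatFunc.X ^ 2 - 2 * kc u * RatFunc.X + 1) *
        (io E * io W / (io D ^ 3 * kc μ)) ^ 2 =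
        RatFunc.X * io E ^ 2 * ((RatFunc.X ^ 2 - 2 * kc u * RatFunc.X + 1) * io W ^ 2) /
          (io D ^ 6 * kc μ ^ 2) := by
      field_simp
    rw [h4, hode]
    field_simp
  obtain ⟨P, hP⟩ := hpt _ _ hcurve
  have hs0 : s ≠ 0 := by
    intro h0
    obtain ⟨a, ha⟩ := hconst (ir m D) (by rw [hds, h0, mul_zero])
    have hdd : io (D ^ 2) ≠ 0 := by
      rw [Ip_pow]
      exact pow_ne_zero 2 hd0
    rw [hr, div_eq_iff hdd, ← Ip_ioC, ← Ip_mul] at ha
    have h3 := Ip_inj ha
    have h4 := congrArg (fun P : K[X] => P.coeff 0) h3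
    have h5 : (D ^ 2).coeff 0 = 1 := by
      rw [coeff_zero_eq_eval_zero, eval_pow, ← coeff_zero_eq_eval_zero, iso.one, one_pow]
    simp only [mul_coeff_zero, coeff_X_zero, zero_mul, coeff_C_zero] at h4
    rw [h5, mul_one] at h4
    rw [← h4, map_zero, zero_mul] at h3
    have h6 : E = 0 := by
      rcases mul_eq_zero.1 h3 with h | h
      · exact absurd h X_ne_zero
      · exact pow_eq_zero_iff (two_ne_zero) |>.1 h
    rw [h6, coeff_zero] at hEm
    exact zero_ne_one hEm
  obtain ⟨hlg, -⟩ := hLi (RatFunc K) δ (kc u') (DX u) hδ.1 h2 hDX hu1 (hc0 u')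
  exact ⟨P, s, hP, hs0, hds, hlg P _ _ _ hP hs0 hds⟩

end Pool.Agent.CVH
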