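import Pool.Agent.CVH.Defs

/-!
# CVH (helper13): statements of the modules

Every module proves `theorem thm_X (h : St_Y) ... : St_X` in `Pool/Agent/CVH/X.lean` (namespace
`Pool.Agent.CVH`); the other lemmas of the module are private or in the namespace
`Pool.Agent.CVH.X`.  The docstrings contain the proofs.
-/

set_option autoImplicit false

noncomputable section

namespace Pool.Agent.CVH

open Polynomial
open scoped Classical

/-! ## Part 1: rational functions -/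

/-- [Dv] The derivation of the field of rational functions exists.

Proof.  Define `δ r = (A' B - A B') / B²` with `A = r.num`, `B = r.denom`; first show that for every
`A`, `B ≠ 0` with `r = A / B` the same formula holds (from `A * r.denom = r.num * B`, differentiate),
then additivity and the Leibniz rule follow with `B = B₁ B₂`.  (Or use a general result on
derivations of localizations or fraction fields if Mathlib has one.) -/
def St_Dv : Prop := ∀ (K : Type) [Field K],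
  ∃ δ : RatFunc K → RatFunc K, IsDer δ

/-- [Dc] Facts on the derivation of the rational functions.

(1) `kc a = io (C a)` and `X = io X`.
(2) `δ (A/B) = (A' B - A B') / B²`: from `A = (A/B) B` and the Leibniz rule.
(3) If `δ r = 0` then with `r = A / B`, `A`, `B` coprime, `B` monic (`RatFunc.num`, `denom`):
`A' B = A B'`, so `B ∣ B'` (coprime to `A`), `B' = 0` by degree, `B` is constant (characteristic
zero), then `A' = 0` and `A` is constant. -/
def St_Dc : Prop := ∀ (K : Type) [Field K] [CharZero K]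
  (δ : RatFunc K → RatFunc K), IsDer δ →
  (∀ a : K, δ (kc a) = 0) ∧ δ RatFunc.X = 1 ∧
  (∀ A B : K[X], B ≠ 0 → δ (io A / io B) =
    io (derivative A * B - A * derivative B) / io B ^ 2) ∧
  (∀ r : RatFunc K, δ r = 0 → ∃ a : K, r = kc a)

/-- [Rd] Facts on the degree of a rational function.

For coprime `A`, `B ≠ 0` the numerator and the denominator of `A / B` are `A / c` and `B / c` with a
constant `c ≠ 0` (`RatFunc.num_div`, `RatFunc.denom_div`, or: `A * denom = num * B`, both pairs are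
coprime, so `A ∣ num`, `num ∣ A` and so on). -/
def St_Rd : Prop := ∀ (K : Type) [Field K],
  (∀ A B : K[X], IsCoprime A B → B ≠ 0 → rdeg (io A / io B) = max A.natDegree B.natDegree) ∧
  (∀ r : RatFunc K, ∃ A B : K[X], IsCoprime A B ∧ B.Monic ∧ r = io A / io B) ∧
  (∀ a : K, rdeg (kc a) = 0) ∧
  (∀ r : RatFunc K, rdeg r = 0 → ∃ a : K, r = kc a) ∧
  (∀ r : RatFunc K, r ≠ 0 → rdeg r⁻¹ = rdeg r)

/-- [Rp] (uses `St_Rd`) The degrees in the addition formulas.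

Proof.  Write `rᵢ = Aᵢ / Bᵢ` with coprime `Aᵢ`, `Bᵢ`, `dᵢ = rdeg rᵢ = max (deg Aᵢ, deg Bᵢ)`.  The two
equations say that the triple `(B₃ B₄, A₃ B₄ + A₄ B₃, A₃ A₄)` is proportional to
`(E², 2 ((A₁ B₂ + A₂ B₁) (A₁ A₂ + B₁ B₂) - 4 u A₁ A₂ B₁ B₂), (A₁ A₂ - B₁ B₂)²)`,
`E = A₁ B₂ - A₂ B₁ ≠ 0`: that is, `E² (A₃ A₄) = (A₁ A₂ - B₁ B₂)² (B₃ B₄)` and
`E² (A₃ B₄ + A₄ B₃) = 2 (…) (B₃ B₄)`.  No irreducible polynomial divides all three entries of the
first triple: if it divides `B₃` (say), it does not divide `A₃`, so it divides `A₄`, so not `B₄`, so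
not `A₃ B₄ + A₄ B₃`.  Hence the ideal generated by the three entries is `⊤`, and from the two
equations `B₃ B₄ ∣ E²`: `E² = H B₃ B₄`, `H ≠ 0`, then `H (A₃ A₄) = (A₁ A₂ - B₁ B₂)²` and
`H (A₃ B₄ + A₄ B₃) = 2 (…)`.  The right sides have degree at most `2 (d₁ + d₂)`, so each entry of the
first triple is zero or has degree at most `2 (d₁ + d₂)`.  Finally one of the entries has degree
exactly `d₃ + d₄`: let `aᵢ`, `bᵢ` be the coefficients of `Aᵢ`, `Bᵢ` at `X^dᵢ`, not both zero; the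
coefficients of the three entries at `X^(d₃ + d₄)` are `b₃ b₄`, `a₃ b₄ + a₄ b₃`, `a₃ a₄`, not all
zero (same argument as for the irreducible polynomial). -/
def St_Rp : Prop := ∀ (K : Type) [Field K] (u : K) (r₁ r₂ r₃ r₄ : RatFunc K), r₁ ≠ r₂ →
  (r₁ - r₂) ^ 2 * (r₃ + r₄) =
    2 * ((r₁ + r₂) * (r₁ * r₂ + 1) - 4 * kc u * (r₁ * r₂)) →
  (r₁ - r₂) ^ 2 * (r₃ * r₄) = (r₁ * r₂ - 1) ^ 2 →
  rdeg r₃ + rdeg r₄ ≤ 2 * rdeg r₁ + 2 * rdeg r₂

/-- [Rq] (uses `St_Rd`) The degree in the duplication formula.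

Proof.  `r = A / B` coprime, `d = rdeg r = max (deg A, deg B)`.  Then
`r₂ = (A² - B²)² / (4 A B (A² - 2 u A B + B²))`, and numerator and denominator are coprime: an
irreducible `π` dividing both does not divide `A` (else it divides `B`), nor `B`, so it divides
`A² - B²` and `A² - 2 u A B + B²`; then `2 B (B - u A)` (difference), so `B ≡ u A`,
`A² ≡ B² ≡ u² A²`, `(u² - 1) A² ≡ 0`, contradiction (`2 ≠ 0` as the characteristic is zero).  The
degrees: all are at most `4 d`, and with the coefficients `a`, `b` of `A`, `B` at `X^d` (not both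
zero) the coefficients at `X^(4 d)` are `(a² - b²)²` and `4 a b (a² - 2 u a b + b²)`, not both zero by
the same argument. -/
def St_Rq : Prop := ∀ (K : Type) [Field K] [CharZero K] (u : K) (r r₂ : RatFunc K), u ^ 2 ≠ 1 →
  cub (kc u) r ≠ 0 → r₂ * (4 * cub (kc u) r) = (r ^ 2 - 1) ^ 2 → rdeg r₂ = 4 * rdeg r

/-- [Rt] (uses `St_Rd`) The degree after the map of degree `3`.

Proof.  `r = A / B` coprime; `r (r + c)² / (1 + c r)² = A (A + c B)² / (B (B + c A)²)`, and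
numerator and denominator are coprime: an irreducible `π` dividing `A` does not divide `B` nor
`B + c A`; if it divides `A + c B` then `A ≡ -c B`, `π ∤ B`, and `B + c A ≡ (1 - c²) B`.  The
degree: coefficients at `X^(3 d)` are `a (a + c b)²` and `b (b + c a)²`, not both zero by the same
argument. -/
def St_Rt : Prop := ∀ (K : Type) [Field K] (c : K) (r : RatFunc K), c ^ 2 ≠ 1 →
  1 + kc c * r ≠ 0 → rdeg (r * (r + kc c) ^ 2 / (1 + kc c * r) ^ 2) = 3 * rdeg r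

/-- [Rm] (uses `St_Rd`) The degree of the coordinate of an isogeny, and two explicit cases.

(1) If `X (rp m D)` and `D` are coprime, `deg D ≤ m` and `D(0) = 1`, then the degree of
`X (rp m D)² / D²` is `2 m + 1` (`rp m D` has degree `m` with the leading coefficient `D(0) = 1`).
(2) The condition holds for `D = 1`, `m = 0`.
(3) It holds for `m = 1`, `D = 1 + c X`, `c² ≠ 1` (`rp 1 D = X + c`).
(4) It holds for `m = 2`, `D = 1 + c₁ X + c₂ X²`, `c₂ ≠ 1`, `(1 + c₂)² ≠ c₁²`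
(`rp 2 D = X² + c₁ X + c₂`): `D - c₂ (rp 2 D) = (1 - c₂) (c₁ X + 1 + c₂)`, and
`c₁² (X² + c₁ X + c₂) ≡ (1 + c₂)² - c₁²` modulo `c₁ X + 1 + c₂`. -/
def St_Rm : Prop := ∀ (K : Type) [Field K],
  (∀ (m : ℕ) (D : K[X]), IsCoprime (X * rp m D) D → D.natDegree ≤ m → D.coeff 0 = 1 →
    rdeg (ir m D) = 2 * m + 1) ∧
  rdeg (ir 0 (1 : K[X])) = 1 ∧
  (∀ c : K, c ^ 2 ≠ 1 → rdeg (ir 1 (1 + C c * X)) = 3) ∧
  (∀ c₁ c₂ : K, c₂ ≠ 1 → (1 + c₂) ^ 2 ≠ c₁ ^ 2 →
    rdeg (ir 2 (1 + C c₁ * X + C c₂ * X ^ 2)) = 5)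

/-! ## Part 2: the points -/

/-- [Gr] The points of the curve `WD u D` and the coordinates `r`, `s`.

(1) `Pt` gives the equation (`WeierstrassCurve.Affine.equation_iff`, cancel `D³`).
(2) Every solution gives a point: nonsingularity (`WeierstrassCurve.Affine.nonsingular_iff`): if
`s = 0` and both partial derivatives vanish then `cub u r = 0` and `dcub u r = 0`, which contradicts
`u² ≠ 1`: `r (r² - 2 u r + 1) = 0`; if `r = 0` then `dcub u r = 1`; else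
`r² - 2 u r + 1 = 0` and `dcub u r = r (2 r - 2 u)` (modulo the cubic), so `r = u`, `1 - u² = 0`.
(3)–(7) are direct from the definitions (injectivity of the constructor, `D ≠ 0`).
(8) `dcub u r ≠ 0` when `s = 0` (as in (2)). -/
def St_Gr : Prop := ∀ (F : Type) [Field F] (u D : F), (2 : F) ≠ 0 → D ≠ 0 → u ^ 2 ≠ 1 →
  (∀ (P : Ps u D) (r s : F), Pt P r s → D * s ^ 2 = cub u r) ∧
  (∀ r s : F, D * s ^ 2 = cub u r → ∃ P : Ps u D, Pt P r s) ∧
  (∀ P : Ps u D, P ≠ 0 → ∃ r s : F, Pt P r s) ∧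
  (∀ (P : Ps u D) (r s : F), Pt P r s → P ≠ 0) ∧
  (∀ (P : Ps u D) (r s r' s' : F), Pt P r s → Pt P r' s' → r = r' ∧ s = s') ∧
  (∀ (P : Ps u D) (r s : F), Pt P r s → Pt (-P) r (-s)) ∧
  (∀ (P Q : Ps u D) (r s s' : F), Pt P r s → Pt Q r s' → (Q = P ∧ s' = s) ∨
    (Q = -P ∧ s' = -s)) ∧
  (∀ (P : Ps u D) (r : F), Pt P r 0 → P + P = 0 ∧ dcub u r ≠ 0)

/-- [Gs] (uses `St_Gr`) The addition and the duplication in the coordinates `r`, `s`.

Proof.  In the coordinates `x = D r`, `y = D² s` the slope is `D λ`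
(`WeierstrassCurve.Affine.slope_of_X_ne`, `slope_of_Y_ne`, `addX`, `addY`, `Point.add_some` or
`Point.add_of_X_ne` …): `(y₁ - y₂) / (x₁ - x₂) = D (s₁ - s₂) / (r₁ - r₂)` and
`(3 x² + 2 a₂ x + a₄) / (2 y) = dcub u r / (2 s)`.  Then
`x₃ = (D λ)² - a₂ - x₁ - x₂ = D (D λ² + 2 u - r₁ - r₂)` and
`y₃ = -(y₁ + D λ (x₃ - x₁)) = D² (λ (r₁ - r₃) - s₁)`. -/
def St_Gs : Prop := ∀ (F : Type) [Field F] (u D : F), (2 : F) ≠ 0 → D ≠ 0 → u ^ 2 ≠ 1 →
  (∀ (P Q : Ps u D) (r₁ s₁ r₂ s₂ l : F), Pt P r₁ s₁ → Pt Q r₂ s₂ → r₁ ≠ r₂ →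
    l * (r₁ - r₂) = s₁ - s₂ →
    Pt (P + Q) (D * l ^ 2 + 2 * u - r₁ - r₂)
      (l * (r₁ - (D * l ^ 2 + 2 * u - r₁ - r₂)) - s₁)) ∧
  (∀ (P : Ps u D) (r s l : F), Pt P r s → s ≠ 0 → l * (2 * D * s) = dcub u r →
    Pt (P + P) (D * l ^ 2 + 2 * u - 2 * r)
      (l * (r - (D * l ^ 2 + 2 * u - 2 * r)) - s))

/-- [Li] (uses `St_Gr`) Logarithmic derivatives: first facts.

(1) If `s ≠ 0` then the first equation `δ r = c s` gives the second one: differentiate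
`D s² = cub u r`: `δ D s² + 2 D s δ s = dcub u r δ r` (here `δ u = 0` is used) `= dcub u r c s`;
divide by `s`.
(2) negation.
(3) if `P` has the order two, i.e. `Pt P r 0`, then `Lg δ P c` forces `c = 0` (second equation:
`0 = dcub u r c`). -/
def St_Li : Prop := ∀ (F : Type) [Field F] (δ : F → F) (u D : F), Dn δ → (2 : F) ≠ 0 →
  D ≠ 0 → u ^ 2 ≠ 1 → δ u = 0 →
  (∀ (P : Ps u D) (r s c : F), Pt P r s → s ≠ 0 → δ r = c * s → Lg δ P c) ∧
  (∀ (P : Ps u D) (c : F), Lg δ P c → Lg δ (-P) (-c)) ∧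
  (∀ (P : Ps u D) (r c : F), Pt P r 0 → Lg δ P c → c = 0)

/-- [La] (uses `St_Gr`, `St_Gs`) Logarithmic derivatives: the sum of two points with different `r`.

Proof.  `l = (s₁ - s₂) / (r₁ - r₂)`, `r₃ = D l² + 2 u - r₁ - r₂`, `s₃ = l (r₁ - r₃) - s₁
= l (r₂ - r₃) - s₂`; write `D'` for `δ D`.  From the two curve equations, after division by
`r₁ - r₂`: `r₁² + r₁ r₂ + r₂² - 2 u (r₁ + r₂) + 1 = D l (s₁ + s₂)` (E).  (E) gives
`dcub u r₁ - 2 D l s₁ = (r₁ - r₂) (r₁ - r₃)`, `dcub u r₂ - 2 D l s₂ = (r₂ - r₁) (r₂ - r₃)`,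
`dcub u r₃ + 2 D l s₃ = (r₃ - r₁) (r₃ - r₂)`.
Key: `2 D δ l = c₁ (r₁ - r₃) + c₂ (r₂ - r₃) - D' l` (*): differentiate `l (r₁ - r₂) = s₁ - s₂`,
multiply by `2 D`, insert `2 D δ sᵢ = dcub u rᵢ cᵢ - D' sᵢ` and `δ rᵢ = cᵢ sᵢ`, and divide by
`r₁ - r₂`.
Then `δ r₃ = D' l² + 2 D l δ l - c₁ s₁ - c₂ s₂ = c₁ s₃ + c₂ s₃` (`δ u = 0`), and
`2 D δ s₃ = 2 D δ l (r₁ - r₃) + 2 D l (c₁ s₁ - (c₁ + c₂) s₃) - (dcub u r₁ c₁ - D' s₁)`, where the
coefficient of `c₁` is `(r₁ - r₃)² + 2 D l s₁ - 2 D l s₃ - dcub u r₁ = dcub u r₃`, that of `c₂` is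
`(r₂ - r₃) (r₁ - r₃) - 2 D l s₃ = dcub u r₃`, and the rest is `-D' s₃`.  If `P` or `Q` is `0` there
is nothing to prove here (both have coordinates). -/
def St_La : Prop := ∀ (F : Type) [Field F] (δ : F → F) (u D : F), Dn δ → (2 : F) ≠ 0 →
  D ≠ 0 → u ^ 2 ≠ 1 → δ u = 0 →
  ∀ (P Q : Ps u D) (r₁ s₁ r₂ s₂ c₁ c₂ : F), Pt P r₁ s₁ → Pt Q r₂ s₂ → r₁ ≠ r₂ →
    Lg δ P c₁ → Lg δ Q c₂ → Lg δ (P + Q) (c₁ + c₂)

/-- [Lb] (uses `St_Gr`, `St_Gs`) Logarithmic derivatives: duplication.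

Proof.  `l (2 D s) = dcub u r`, `r₃ = D l² + 2 u - 2 r`, `s₃ = l (r - r₃) - s`, `D' = δ D`.
Key: `2 D δ l = 2 c (r - r₃) - D' l`: differentiate `2 D s l = dcub u r` (`δ u = 0`):
`2 D' s l + 2 D (δ s) l + 2 D s δ l = (6 r - 4 u) δ r`, insert `δ r = c s`,
`2 D δ s = dcub u r c - D' s` and `dcub u r = 2 D s l`, divide by `s ≠ 0`:
`2 D δ l = (6 r - 4 u) c - D' l - 2 D l² c` and `2 (r - r₃) = 6 r - 4 u - 2 D l²`.
Then `δ r₃ = D' l² + 2 D l δ l - 2 c s = 2 c s₃`, and `2 D δ s₃ = 2 c dcub u r₃ - D' s₃` with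
`dcub u r₃ + 2 D l s₃ = (r₃ - r)²` (from the curve equation). -/
def St_Lb : Prop := ∀ (F : Type) [Field F] (δ : F → F) (u D : F), Dn δ → (2 : F) ≠ 0 →
  D ≠ 0 → u ^ 2 ≠ 1 → δ u = 0 →
  ∀ (P : Ps u D) (r s c : F), Pt P r s → s ≠ 0 → Lg δ P c → Lg δ (P + P) (c + c)

/-- [Lt] (uses `St_Gr`, `St_Li`, `St_La`, `St_Lb`) The logarithmic derivative is additive.

Proof.  (1) Cases: `P = 0` or `Q = 0` trivial (note that `Lg δ P c` with `P = 0` means `c = 0` as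
`Pt P r s` implies `P ≠ 0`).  Otherwise both have coordinates.  If `r₁ ≠ r₂`: `St_La`.  If
`r₁ = r₂`: `Q = P` or `Q = -P` (`St_Gr`).  If `Q = P` and `s ≠ 0` then `c₂ = c₁` (from `δ r = c s`)
and `St_Lb`; if `s = 0` then `P + P = 0` and `c₁ = c₂ = 0`.  If `Q = -P`: `P + Q = 0`, and
`c₁ + c₂ = 0`: if `s₁ ≠ 0` from `c₁ s₁ = δ r = c₂ s₂ = -c₂ s₁`, else both are `0`.
(2) by induction on integers, with (1) and negation. -/
def St_Lt : Prop := ∀ (F : Type) [Field F] (δ : F → F) (u D : F), Dn δ → (2 : F) ≠ 0 →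
  D ≠ 0 → u ^ 2 ≠ 1 → δ u = 0 →
  (∀ (P Q : Ps u D) (c₁ c₂ : F), Lg δ P c₁ → Lg δ Q c₂ → Lg δ (P + Q) (c₁ + c₂)) ∧
  (∀ (P Q : Ps u D) (c₁ c₂ : F) (x y : ℤ), Lg δ P c₁ → Lg δ Q c₂ →
    Lg δ (x • P + y • Q) ((x : F) * c₁ + (y : F) * c₂))

/-- [Fd] (uses `St_Gr`, `St_Gs`, `St_Rd`, `St_Rp`, `St_Rq`) The degree of the points.

(0) `dd P = rdeg r` if `Pt P r s`; `dd 0 = 0`.
(1) `dd (P + P) = 4 dd P`: if `P = 0` trivial; if `s = 0` then `P + P = 0` and `cub u r = 0`, so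
`r` is `0` or a root of a monic quadratic polynomial with constant coefficients, so `r` is constant
(e.g. `r = A / B` coprime, `B² ∣ A ⋯`: `B ∣ A²` so `B` is a unit, then by degrees `A` is constant)
and `dd P = rdeg r = 0`.  If `s ≠ 0` then with `l = dcub u r / (2 D s)`:
`(D l² + 2 u - 2 r) (4 cub u r) = dcub u r ² + (2 u - 2 r) 4 cub u r = (r² - 1)²` and `St_Rq`.
(2) `dd (P + Q) + dd (P - Q) ≤ 2 dd P + 2 dd Q`: if `P = 0` or `Q = 0` clear (`dd (-Q) = dd Q`, same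
`r`).  If `r₁ = r₂` then `Q = P` or `Q = -P` and (1).  If `r₁ ≠ r₂`: with `l₊ = (s₁ - s₂)/(r₁ - r₂)`,
`l₋ = (s₁ + s₂)/(r₁ - r₂)` (`-Q` has the coordinates `r₂`, `-s₂`), `r₃ = D l₊² + 2 u - r₁ - r₂`,
`r₄ = D l₋² + 2 u - r₁ - r₂` satisfy the two equations of `St_Rp` (use `D sᵢ² = cub u rᵢ`):
`(r₁ - r₂)² (r₃ + r₄) = 2 (D s₁² + D s₂²) + (4 u - 2 (r₁ + r₂)) (r₁ - r₂)²`, and
`(r₁ - r₂)⁴ r₃ r₄ = (D s₁² + D s₂² + e)² - 4 D s₁² D s₂² = (r₁ - r₂)² (r₁ r₂ - 1)²` with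
`e = (2 u - r₁ - r₂) (r₁ - r₂)²`. -/
def St_Fd : Prop := ∀ (K : Type) [Field K] [CharZero K] (u : K) (D : RatFunc K), D ≠ 0 →
  u ^ 2 ≠ 1 →
  (∀ (P : Ps (kc u) D) (r s : RatFunc K), Pt P r s → dd P = rdeg r) ∧
  (∀ P : Ps (kc u) D, dd (P + P) = 4 * dd P) ∧
  (∀ P Q : Ps (kc u) D, dd (P + Q) + dd (P - Q) ≤ 2 * dd P + 2 * dd Q)

/-- [Ab] A function on an abelian group with the upper parallelogram inequality and
`d (P + P) = 4 d P` is a quadratic form.

Proof.  First `d 0 = 0` and the parallelogram equality: apply the inequality to `P + Q`, `P - Q`: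
`4 d P + 4 d Q = d (2 P) + d (2 Q) ≤ 2 d (P + Q) + 2 d (P - Q) ≤ 4 d P + 4 d Q`.  Then `d (-Q) = d Q`
(take `P = 0`).  A function with the parallelogram equality is a quadratic form: for fixed `P`, `Q`
put `B (R) = d (R + Q) - d R - d Q`; it is known that `B` is additive (Jordan–von Neumann); here only
this is needed: `d (x P + y Q) = x² d P + y² d Q + x y b`, `b = d (P + Q) - d P - d Q`.  Direct proof:
for fixed `y`, the function `f x = d (x P + y Q)` satisfies `f (x + 1) + f (x - 1) = 2 f x + 2 d P`,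
so it is determined by `f 0`, `f 1` (both directions), and the right side satisfies the same
recurrence; `f 0 = d (y Q)` and `f 1 = d (P + y Q)` are handled in the same way by the recurrence in
`y` (`g (y + 1) + g (y - 1) = 2 g y + 2 d Q`) with the initial values `d 0 = 0`, `d Q`, and `d P`,
`d (P + Q)`. -/
def St_Ab : Prop := ∀ (G : Type) [AddCommGroup G] (d : G → ℕ),
  (∀ P, d (P + P) = 4 * d P) → (∀ P Q, d (P + Q) + d (P - Q) ≤ 2 * d P + 2 * d Q) →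
  ∀ (P Q : G) (x y : ℤ), (d (x • P + y • Q) : ℤ) =
    x ^ 2 * d P + y ^ 2 * d Q + x * y * ((d (P + Q) : ℤ) - d P - d Q)

/-- [Cp] The map of degree `3` on general points (pure algebra in a field with a derivation).

Proof.  `(1)` The equation: after multiplication by `c² (1 + c r)⁶ / (r (r + c)²)` it is
`(r² - 2 u r + 1) (c r² + (3 - c²) r + c)² = c² (r² (r + c)⁴ - 2 u' r (r + c)² (1 + c r)² +
(1 + c r)⁴)`, a polynomial identity modulo the two relations for `u`, `u'` (multiply by `8`: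
`linear_combination`).  `(2)` `δ r₂ = δ r (r + c) (c r² + (3 - c²) r + c) / (1 + c r)³` by the
quotient rule (`δ c = 0`). -/
def St_Cp : Prop := ∀ (F : Type) [Field F] (δ : F → F) (u u' c D r s : F), Dn δ →
  (2 : F) ≠ 0 → c ≠ 0 → δ c = 0 → 8 * c * u = c ^ 4 - 6 * c ^ 2 - 3 →
  8 * c ^ 3 * u' = c ^ 4 + 18 * c ^ 2 - 27 → D * s ^ 2 = cub u r → 1 + c * r ≠ 0 →
  D * (s * (r + c) * (c * r ^ 2 + (3 - c ^ 2) * r + c) / (c * (1 + c * r) ^ 3)) ^ 2 =
    cub u' (r * (r + c) ^ 2 / (1 + c * r) ^ 2) ∧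
  ∀ e : F, δ r = e * s → δ (r * (r + c) ^ 2 / (1 + c * r) ^ 2) =
    c * e * (s * (r + c) * (c * r ^ 2 + (3 - c ^ 2) * r + c) / (c * (1 + c * r) ^ 3))

/-- [Ip] (uses `St_Dc`, `St_Gr`, `St_Li`) An isogeny gives a point.

Proof.  Write `D* = rp m D`, `r = X D*² / D²`, `W = D* D + 2 X (D*' D - D* D')`.  Then
`δ r = D* W / D³`; put `s = δ r / μ`.  `DX u = X (X² - 2 u X + 1)`, and by `ode`
`DX u s² = X D*² (X² D*⁴ - 2 u' X D*² D² + D⁴) / D⁶ = cub u' r`.  So there is a point with the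
coordinates `r`, `s`.  `s ≠ 0`: otherwise `δ r = 0`, `r` is a constant `a`, `X D*² = a D²` as
polynomials, at `0`: `a = 0` (`D(0) = 1`), so `D* = 0`, but its coefficient at `X^m` is
`D(0) = 1`.  By `St_Li` (1) `Lg δ P (kc μ)`. -/
def St_Ip : Prop := ∀ (K : Type) [Field K] [CharZero K]
  (δ : RatFunc K → RatFunc K), IsDer δ →
  ∀ (u u' μ : K) (m : ℕ) (D : K[X]), u' ^ 2 ≠ 1 → μ ≠ 0 → Iso u u' μ m D →
  ∃ (P : Ps (kc u') (DX u)) (s : RatFunc K), Pt P (ir m D) s ∧ s ≠ 0 ∧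
    δ (ir m D) = kc μ * s ∧ Lg δ P (kc μ)

/-- [Ic] The constants.  All are identities modulo `g² = g + 1`, `w² = -1 - w`
(`linear_combination`), or follow from `K` having characteristic zero and no `√-1`.

Notes: `(2 w + 1)² = -3`, `(2 g - 1)² = 5`, `c₃² = -15 - 24 g`, `c₅ = -(4 g + 3)`,
`2 g + 1 = g³`, `4 g + 3 = g³ (2 g - 1)`.  `u₁² - 1 = -(2 s s')²` with `s = g - w - 2 w g`,
`s' = 3 g + 1 + w + 2 w g` (`(1 - u₁) / 2 = s²`, `(1 + u₁) / 2 = s'²`; `u₁² - 1 ≠ 0`).  Any relation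
`a + b g = 0` or the like with rational `a`, `b` forces `a = b = 0` (take norms: `a² + a b - b² = 0`
has no rational solution, `5` is not a square of a rational number): to prove that an explicit
element `z` of `ℤ[g, w]` is nonzero, exhibit a multiple of it which is a nonzero integer.
Irreducibility of `X² - 2 u₁ X + 1`: degree `2` (`Polynomial.Monic.irreducible_iff_roots_eq_zero_of_degree_le_three`
or similar); a root `z` gives `(z - u₁)² = u₁² - 1 = -(2 s s')²`, `s s' ≠ 0`, so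
`((z - u₁) / (2 s s'))² = -1`, which contradicts `Kg.hi`. -/
def St_Ic : Prop := ∀ (K : Type) [Field K] [CharZero K] (g w : K), Kg g w →
  Kg (1 - g) (-1 - w) ∧ u₁ (1 - g) (-1 - w) = u₂ g w ∧ u₂ (1 - g) (-1 - w) = u₁ g w ∧
  u₁ g w ^ 2 ≠ 1 ∧ u₂ g w ^ 2 ≠ 1 ∧
  Irreducible (X ^ 2 - C (2 * u₁ g w) * X + 1 : K[X]) ∧
  c₃ g w ≠ 0 ∧ c₅ g ≠ 0 ∧ d₀ g w ^ 2 = -15 ∧ c₃ g w ^ 2 ≠ 1 ∧
  c₃ (1 - g) (-1 - w) * c₅ g = d₀ g w ∧
  c₅ g ≠ 1 ∧ (1 + c₅ g) ^ 2 ≠ (2 * c₅ g * (2 * w + 1)) ^ 2 ∧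
  8 * c₃ g w * u₁ g w = c₃ g w ^ 4 - 6 * c₃ g w ^ 2 - 3 ∧
  8 * c₃ g w ^ 3 * u₂ g w = c₃ g w ^ 4 + 18 * c₃ g w ^ 2 - 27

/-- [Ie] (uses `St_Ic`) The explicit isogenies of degrees `1`, `3` and `5`.

Proof.  Expand the polynomials in `X` (`rp 1 (1 + C c * X) = X + C c`,
`rp 2 (1 + C c₁ * X + C c₂ * X ^ 2) = X ^ 2 + C c₁ * X + C c₂`) and compare: after substituting
everything the difference is a polynomial in `X` whose coefficients vanish modulo `g² = g + 1`,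
`w² = -1 - w` (map the relations by `C` and use `linear_combination`; the coefficients of the
relations are found by polynomial division, e.g. with a small script). -/
def St_Ie : Prop := ∀ (K : Type) [Field K] [CharZero K] (g w : K), Kg g w →
  Iso (u₁ g w) (u₁ g w) 1 0 1 ∧
  Iso (u₁ g w) (u₂ g w) (c₃ g w) 1 (1 + C (c₃ g w) * X) ∧
  Iso (u₁ g w) (u₂ g w) (c₅ g) 2 (1 + C (2 * c₅ g * (2 * w + 1)) * X + C (c₅ g) * X ^ 2)

/-- [Ex] (uses `St_Dc`, `St_Rd`, `St_Rt`, `St_Rm`, `St_Gr`, `St_Li`, `St_Fd`, `St_Cp`, `St_Ip`,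
`St_Ic`, `St_Ie`) The explicit points.

Proof.  `P₀`, `P₃`, `P₅` from `St_Ie` and `St_Ip`, with the degrees from `St_Rm` and `St_Fd` (0)
(`DX u₁ ≠ 0`).  `Q₀`: apply the map of degree `3` with `c = c₃ (1 - g) (-1 - w)` (from the curve with
the parameter `u₂` to the one with `u₁`; relations: `St_Ic` for `1 - g`, `-1 - w`) to the coordinates
`r`, `s` of `P₅`: `St_Cp` with `e = kc (c₅ g)`, over `F = RatFunc K`, all constants mapped by `kc`;
`1 + c r ≠ 0` as `r` is not constant (its degree is `5`).  This gives `r₂`, `s₂` with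
`DX u₁ s₂² = cub u₁ r₂`, `δ r₂ = c c₅ s₂`, `rdeg r₂ = 15` (`St_Rt`), `c c₅ = d₀`; `s₂ ≠ 0` since
`δ r₂ ≠ 0` (`r₂` is not constant).  So there is a point `Q₀` (`St_Gr` (2)) with
`Lg δ Q₀ (kc d₀)` (`St_Li` (1)). -/
def St_Ex : Prop := ∀ (K : Type) [Field K] [CharZero K]
  (δ : RatFunc K → RatFunc K), IsDer δ → ∀ g w : K, Kg g w →
  (∃ P Q : Ps (kc (u₁ g w)) (DX (u₁ g w)), Lg δ P (kc 1) ∧ Lg δ Q (kc (d₀ g w)) ∧
    dd P = 1 ∧ dd Q = 15) ∧
  (∃ P Q : Ps (kc (u₂ g w)) (DX (u₁ g w)), Lg δ P (kc (c₃ g w)) ∧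
    Lg δ Q (kc (c₅ g)) ∧ dd P = 3 ∧ dd Q = 5)

/-! ## Part 3: solutions of the differential equation -/

/-- [Sf] (uses `St_Dc`) The differential equation for rational functions and for polynomials.

Proof.  `r = A / B`, `A = r.num`, `B = r.denom`, `δ r = (A' B - A B') / B²`; multiply by `B⁴`. -/
def St_Sf : Prop := ∀ (K : Type) [Field K] [CharZero K]
  (δ : RatFunc K → RatFunc K), IsDer δ →
  ∀ (u u' μ : K) (r : RatFunc K), DX u * δ r ^ 2 = kc μ ^ 2 * cub (kc u') r →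
  Sol u u' μ r.num r.denom

/-- [Sq] The shape of the solutions of odd degree.

Proof.  Put `q = X² - 2 u X + 1` (irreducible), `W = A' B - A B'`, `E = A² - 2 u' A B + B²`:
`X q W² = μ² A B E`.  `A`, `B` and `E` are nonzero (if `A = 0` then `B` is a unit and the maximal
degree is `0`, not odd; the same for `B`; if `E = 0` then `A ∣ B²` so `A` is a unit, and `B` too) and
pairwise coprime.  Compare the exponents of the primes `X` and `q`: exactly one of `A`, `B`, `E` has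
an odd exponent at `X`, and exactly one at `q` (the others are even; the two primes are not
associated since `q(0) = 1`).  Dividing by these, the remaining parts `A₀`, `B₀`, `E₀` are pairwise
coprime with the product a constant times a square, so each is a constant times a square
(`exists_associated_pow_of_mul_eq_pow'` or `UniqueFactorizationMonoid` arguments).  So
`A = α X^a q^i N²`, `B = β X^b q^j M²` with `a + b ≤ 1`, `i + j ≤ 1`; `deg A ≡ a`, `deg B ≡ b`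
modulo `2`.  If the larger degree is that of `A` (odd) then `a = 1`, `b = 0` and `deg B` is even; if
it is that of `B` then `b = 1`, `a = 0`. -/
def St_Sq : Prop := ∀ (K : Type) [Field K] [CharZero K] (u u' μ : K) (A B : K[X]) (m : ℕ),
  μ ≠ 0 → Irreducible (X ^ 2 - C (2 * u) * X + 1 : K[X]) → IsCoprime A B → Sol u u' μ A B →
  max A.natDegree B.natDegree = 2 * m + 1 →
  (B.natDegree < A.natDegree ∧ ∃ (i j : ℕ) (a b : K) (N M : K[X]), i + j ≤ 1 ∧
    A = C a * X * (X ^ 2 - C (2 * u) * X + 1) ^ i * N ^ 2 ∧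
    B = C b * (X ^ 2 - C (2 * u) * X + 1) ^ j * M ^ 2) ∨
  (A.natDegree < B.natDegree ∧ ∃ (i j : ℕ) (a b : K) (N M : K[X]), i + j ≤ 1 ∧
    B = C a * X * (X ^ 2 - C (2 * u) * X + 1) ^ i * N ^ 2 ∧
    A = C b * (X ^ 2 - C (2 * u) * X + 1) ^ j * M ^ 2)

/-- [Su] Uniqueness of the solution with the value `0` at `0`.

Proof.  For a solution with `A(0) = 0`, `B(0) ≠ 0`, `A ≠ 0` (if `A = 0` for one of them see below)
let `e ≥ 1` be the order of `A` at `0`: `A = X^e A₀`, `A₀(0) ≠ 0`.  In the equation the order of the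
left side is `1 + 2 (e - 1)` (`A' B - A B'` has the lowest term `e A₀(0) B(0) X^(e-1)`), that of the
right side is `e` (`μ ≠ 0`), so `e = 1` and, comparing the coefficients at `X`,
`A₀(0) = μ² B(0)`.  Now let both be solutions, and `E = A₁ B₂ - A₂ B₁`; suppose `E ≠ 0`, `E = X^k E₀`,
`E₀(0) ≠ 0`, `k ≥ 1`.  Put `Wᵢ = Aᵢ' Bᵢ - Aᵢ Bᵢ'`.  Multiply the first equation by `B₂⁴`, the second
by `B₁⁴` and subtract: the left side is `X q (W₁ B₂² - W₂ B₁²) (W₁ B₂² + W₂ B₁²)`, the right side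
`μ² B₁ B₂ …` is `μ² E (…)` with the last factor having the value `(B₁(0) B₂(0))³` at `0` (it is
`B₁³ B₂³ (1 - 2 u' (r₁ + r₂) + r₁² + r₁ r₂ + r₂²)`, `rᵢ = Aᵢ / Bᵢ`).  And
`W₁ B₂² - W₂ B₁² = E' B₁ B₂ - E (B₁ B₂)'` has the lowest term `k E₀(0) B₁(0) B₂(0) X^(k-1)`,
`(W₁ B₂² + W₂ B₁²)(0) = 2 μ² B₁(0)² B₂(0)²`, `q(0) = 1`.  Comparing the coefficients at `X^k`:
`2 k μ² = μ²`, impossible for an integer `k`. (If `A₁ = 0`, exclude by the hypothesis.) -/
def St_Su : Prop := ∀ (K : Type) [Field K] [CharZero K] (u u' μ : K) (A₁ B₁ A₂ B₂ : K[X]),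
  μ ≠ 0 → A₁ ≠ 0 → A₂ ≠ 0 → Sol u u' μ A₁ B₁ → Sol u u' μ A₂ B₂ →
  A₁.coeff 0 = 0 → B₁.coeff 0 ≠ 0 → A₂.coeff 0 = 0 → B₂.coeff 0 ≠ 0 → A₁ * B₂ = A₂ * B₁

/-- [Sr] The differential equation is invariant under `X ↦ 1 / X` and `r ↦ 1 / r`.

Proof.  The second claim is clear.  For the first let `A* = reflect n A`, `B* = reflect n B`,
`n ≥ 1` (for `n = 0` both are constants, then `A* = A`, `B* = B`).  Then
`X (A*' B* - A* B*') = -reflect (2 n - 1) (…)`; concretely, with `θ = X d/dX`,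
`θ A* = n A* - reflect n (θ A)` (compare coefficients), so
`θ A* B* - A* θ B* = -(reflect n (θ A) B* - A* reflect n (θ B)) = -reflect (2 n) (θ A B - A θ B)`
(`Polynomial.reflect_mul`).  The equation `Sol` multiplied by `X` reads
`q (θ A B - A θ B)² = μ² X A B (A² - 2 u' A B + B²)`, `q = X² - 2 u X + 1`; apply
`reflect (4 n + 2)`: `q` is its own `reflect 2`, `reflect 2 X = X`. -/
def St_Sr : Prop := ∀ (K : Type) [Field K] (u u' μ : K) (A B : K[X]) (n : ℕ),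
  Sol u u' μ A B → A.natDegree ≤ n → B.natDegree ≤ n →
  Sol u u' μ (reflect n A) (reflect n B) ∧ Sol u u' μ B A

/-- [Se] (uses `St_Sq`, `St_Su`, `St_Sr`) A solution of odd degree gives an isogeny.

Proof.  By `St_Sq` and the symmetry `A ↔ B` (`St_Sr`) let `deg B < deg A = d = 2 m + 1`,
`A = α X q^i N²`, `B = β q^j M²`, `i + j ≤ 1`.  Let `A* = reflect d A`, `B* = reflect d B`; the pair
`(B*, A*)` is a solution (`St_Sr` twice), `B*(0)` is the coefficient of `B` at `X^d`, that is `0`,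
`A*(0) ≠ 0` (the leading coefficient of `A`), `A(0) = 0`, `B(0) ≠ 0` (coprime).  By `St_Su`
`A A* = B* B`.  `A` and `B` are coprime, so `A ∣ B*`, and `deg B* ≤ d = deg A`, so `B* = κ A` with a
constant `κ ≠ 0`, `A* = κ B`; reflecting, `B = κ A* = κ² B`, so `κ² = 1`.
The exponents of `q` in `A` and in `B` have the same parity (`κ A = reflect d B`, and `reflect`
preserves the exponent of `q`, as `q` is palindromic: `q^n ∣ F` implies `q^n ∣ reflect d F` when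
`deg F ≤ d`, `2 n ≤ d`), so `i = j = 0`.  Hence `B = β M²`, `2 deg M = deg B ≤ 2 m`, and
`κ A = reflect d (β M²) = β X (rp m M)²`.  Normalize `D = M / M(0)` (`M(0)² β = B(0) ≠ 0`).  Then
`(κ X (rp m D)², D²)` is a solution (`Sol` is homogeneous of degree `4` in `(A, B)`), and
the coefficients at `X` give: the coefficient `e` of `D` at `X^m` (that is `(rp m D)(0)`) satisfies
`(κ e²)² = μ² κ e²` and `e ≠ 0` (as `A(0) = 0` and the order of `A` at `0` is `1`, see `St_Su`), so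
`κ e² = μ²`.  If `κ = -1` then `(μ / e)² = -1`, excluded.  So `κ = 1`, and the equation
`Sol u u' μ (X (rp m D)²) (D²)` divided by `X (rp m D)² D²` is `Iso.ode`
(`A' B - A B' = D* D (D* D + 2 X (D*' D - D* D'))` for `A = X D*²`, `B = D²`). -/
def St_Se : Prop := ∀ (K : Type) [Field K] [CharZero K] (u u' μ : K) (A B : K[X]) (m : ℕ),
  μ ≠ 0 → (∀ z : K, z ^ 2 ≠ -1) → Irreducible (X ^ 2 - C (2 * u) * X + 1 : K[X]) →
  IsCoprime A B → Sol u u' μ A B → max A.natDegree B.natDegree = 2 * m + 1 →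
  ∃ D : K[X], Iso u u' μ m D

/-- [Gp] (uses `St_Dc`, `St_Gr`, `St_Lt`, `St_Fd`, `St_Ab`, `St_Sf`, `St_Se`) From two points to two
isogenies.

Proof.  Put `P₊ = x P + y Q`, `P₋ = x P - y Q = x P + (-y) Q`.  By `St_Ab` (with `St_Fd`)
`dd P₊ = x² i + y² j + x y b`, `dd P₋ = x² i + y² j - x y b` with an integer `b`; since `x + y` is odd,
`x y` is even, and `x² i + y² j` is odd (`i`, `j` odd), so both are odd, with the sum
`2 (x² i + y² j)`; let them be `2 m₊ + 1`, `2 m₋ + 1`.  In particular `P₊ ≠ 0`, so it has coordinates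
`r`, `s` (`St_Gr`), `rdeg r = dd P₊`, and by `St_Lt` `Lg δ P₊ (kc (x c + y c'))`, so
`δ r = kc μ₊ s` (uniqueness of the coordinates), `DX u (δ r)² = μ₊² DX u s² = μ₊² cub u' r`.  By
`St_Sf` and `St_Se` (`r.num`, `r.denom` are coprime and `rdeg r` is the maximum of the degrees).  The
same for `P₋`. -/
def St_Gp : Prop := ∀ (K : Type) [Field K] [CharZero K]
  (δ : RatFunc K → RatFunc K), IsDer δ → ∀ u u' : K, u' ^ 2 ≠ 1 →
  (∀ z : K, z ^ 2 ≠ -1) → Irreducible (X ^ 2 - C (2 * u) * X + 1 : K[X]) →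
  ∀ (P Q : Ps (kc u') (DX u)) (c c' : K) (i j : ℕ) (x y : ℤ),
  Lg δ P (kc c) → Lg δ Q (kc c') → dd P = i → dd Q = j → Odd i → Odd j → Odd (x + y) →
  (x : K) * c + (y : K) * c' ≠ 0 → (x : K) * c - (y : K) * c' ≠ 0 →
  ∃ (m m' : ℕ) (D D' : K[X]), Iso u u' ((x : K) * c + (y : K) * c') m D ∧
    Iso u u' ((x : K) * c - (y : K) * c') m' D' ∧
    (((2 * m + 1) + (2 * m' + 1) : ℕ) : ℤ) = 2 * (x ^ 2 * i + y ^ 2 * j)

/-! ## Part 4: the valuation ring -/

/-- [Lk] An isogeny with multiplier zero in characteristic `p`.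

Proof.  Put `D* = rp m D`, `A = X D*²`, `B = D²`; both are nonzero (`D* ≠ 0` as `deg D ≤ m`, `D ≠ 0`)
and the hypothesis multiplied by `D* D` is `A' B = A B'`.  Let `a`, `b` be the orders of `A`, `B` at
`0` (`natTrailingDegree`); `a` is odd, `b` is even.  The coefficient of `A' B - A B'` at
`X^(a + b - 1)` is `(a - b)` times the product of the lowest coefficients, so `p ∣ a - b`, and
`a ≠ b`, so `|a - b| ≥ p`.  `a ≤ 2 m + 1`, `b ≤ 2 m`.  So `p ≤ 2 m + 1`.  If `2 m + 1 = p` then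
`b - a ≥ p` is impossible, so `a ≥ p = 2 m + 1`, `a = 2 m + 1`, so the order of `D*` at `0` is `m`
(and `b = 0`): the coefficients of `D` at `X^i`, `i ≥ 1`, are zero. -/
def St_Lk : Prop := ∀ (k : Type) [Field k] (p : ℕ) [CharP k p] (m : ℕ) (D : k[X]), p.Prime →
  D ≠ 0 → D.natDegree ≤ m →
  rp m D * D + 2 * X * (derivative (rp m D) * D - rp m D * derivative D) = 0 →
  p ≤ 2 * m + 1 ∧ (2 * m + 1 = p → D.natDegree = 0)

/-- [Lr] (uses `St_Lk`) An isogeny with a multiplier in the maximal ideal of a valuation ring.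

Proof.  Choose a coefficient `λ ≠ 0` of `D` of maximal value (`V.valuation`), so that `D₁ = D / λ` has
all coefficients in `V` and one of them is `1`.  `Iso.ode` is homogeneous of degree `4` in `D`, so it
holds for `D₁`.  Lift to `V[X]` (`u`, `u'`, `μ ∈ V`) and reduce modulo the maximal ideal, with `k` the
residue field (`IsLocalRing.ResidueField V`), which has the characteristic `p` (`Res V p`, `p` prime:
`CharP` from `p = 0` in `k`).  The reduction `E` of `D₁` is nonzero, `deg E ≤ m`, `rp m` commutes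
with the reduction, and the equation becomes `(X² - 2 u X + 1) (rp m E E + 2 X (…))² = 0`, so
`St_Lk` applies (over the field `k`).  This gives `p ≤ 2 m + 1`, and if `2 m + 1 = p` then
`deg E = 0`, `E ≠ 0`, so the constant coefficient of `D₁`, which is `1 / λ`, is a unit of `V`.  So
`λ ∈ V` and all coefficients of `D = λ D₁` are in `V`. -/
def St_Lr : Prop := ∀ (K : Type) [Field K] [CharZero K] (V : ValuationSubring K) (p : ℕ)
  (u u' μ : K) (m : ℕ) (D : K[X]), p.Prime → Res V p → u ∈ V → u' ∈ V → μ ∈ V.nonunits →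
  Iso u u' μ m D → p ≤ 2 * m + 1 ∧ (2 * m + 1 = p → ∀ i, D.coeff i ∈ V)

/-- [Le] The generating function of the Legendre polynomials.

Proof.  Put `t = 1 - 2 x`, `Pₙ = PL n x`.  Three-term recurrence
`(n + 2) P_(n+2) = (2 n + 3) t P_(n+1) - (n + 1) P_n`: compare the coefficients of `x^i`
(binomial identities in `ℚ`; or in `ℤ`).  With `G = ∑ Pₙ Xⁿ` this says
`(1 - 2 t X + X²) G' = (t - X) G` (`P₀ = 1`, `P₁ = t`).  Then the derivative of
`G² (1 - 2 t X + X²)` is `0`, so it is the constant `1` (characteristic zero). -/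
def St_Le : Prop := ∀ (K : Type) [Field K] [CharZero K] (x : K),
  (PowerSeries.mk fun n => PL n x) ^ 2 *
    (1 - 2 * PowerSeries.C (1 - 2 * x) * PowerSeries.X + PowerSeries.X ^ 2) = 1

/-- [Lf] (uses `St_Le`) The differential of an isogeny and Legendre polynomials.

Proof.  Let `G_x = ∑ PL n x Xⁿ`.  Substituting `X²` for `X` in `St_Le`:
`G_x(X²)² (1 - 2 (1 - 2 x) X² + X⁴) = 1`; substituting `R²` (constant coefficient zero) in `St_Le` for
`x'`: `G_(x')(R²)² (1 - 2 (1 - 2 x') R² + R⁴) = 1` (`PowerSeries.subst`, `HasSubst`).  So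
`(R' G_(x')(R²))² = μ² G_x(X²)²`, so `R' G_(x')(R²) = ± μ G_x(X²)`, and the constant coefficients are
`μ` and `± μ`, `μ ≠ 0`, so the sign is `+`.  The coefficient at `X^(2N)`: in
`G_(x')(R²) = ∑ PL k x' R^(2k)` the terms with `k > 2 N` have order `> 2 N`.  (To avoid infinite
substitution one can also work modulo `X^(2N+1)`: let `H = ∑_{k ≤ 2 N} PL k x' Y^k`, then
`H² (1 - 2 (1 - 2 x') Y + Y²) - 1` is a polynomial in `Y` divisible by `Y^(2N+1)`; substitute `R²`.) -/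
def St_Lf : Prop := ∀ (K : Type) [Field K] [CharZero K] (x x' μ : K) (R : PowerSeries K),
  μ ≠ 0 → PowerSeries.coeff 0 R = 0 → PowerSeries.coeff 1 R = μ →
  (1 - 2 * PowerSeries.C (1 - 2 * x) * PowerSeries.X ^ 2 + PowerSeries.X ^ 4) *
      PowerSeries.derivative K R ^ 2 =
    PowerSeries.C (μ ^ 2) * (1 - 2 * PowerSeries.C (1 - 2 * x') * R ^ 2 + R ^ 4) →
  ∀ N : ℕ, PowerSeries.coeff (2 * N) (PowerSeries.derivative K R *
    ∑ k ∈ Finset.range (2 * N + 1), PowerSeries.C (PL k x') * R ^ (2 * k)) = μ * PL N x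

/-- [Lp] The power series of an isogeny of degree `p` over a valuation ring.

Proof.  `D(0) = 1`, so `D(X²)` has an inverse in `K⟦X⟧`, with coefficients in `V`; put
`R = X D*(X²) / D(X²)`, `D* = rp m D`.  All coefficients of `R` are in `V`.  The equation for `R`:
`R' = (D*(X²) D(X²) + 2 X² (D*'(X²) D(X²) - D*(X²) D'(X²))) / D(X²)²`, use `Iso.ode` at `X²`.
`R(0) = 0`, the coefficient at `X` is `D*(0) = D.coeff m = ε μ`.
Divisibility: put `S = R' / (ε μ)` (constant coefficient `1`); `S² = E` where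
`E = (1 - 2 u' R² + R⁴) / (1 - 2 u X² + X⁴)` has coefficients in `V` and constant coefficient `1`.  As
`2` is a unit of `V` (`p` odd) the coefficients of `S` are in `V` (recursively:
`2 S_n = E_n - ∑_{0<i<n} S_i S_(n-i)`).  So `k R_k ∈ μ V` for all `k`, and for `0 < k < p` the integer
`k` is a unit of `V` (`p` is in the maximal ideal: Bezout).  So `R_k ∈ μ V` for `k < p`.
The coefficient at `X^p`: compare the coefficients in `D(X²) R = X D*(X²)`.  At `X^(2 j + 1)`, `j < m`: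
the left side is in `μ V`, so the coefficient of `D*` at `X^j`, which is `D.coeff (m - j)`, is in
`μ V`; so `D.coeff i ∈ μ V` for `1 ≤ i ≤ m`.  At `X^p = X^(2 m + 1)`: the right side is
`D*.coeff m = D.coeff 0 = 1`, the left side is
`R_p + ∑_{1 ≤ i ≤ m} D.coeff i R_(p - 2 i) ∈ R_p + μ² V`. -/
def St_Lp : Prop := ∀ (K : Type) [Field K] [CharZero K] (V : ValuationSubring K) (p m : ℕ)
  (u u' μ ε : K) (D : K[X]), p.Prime → p = 2 * m + 1 → Res V p → u ∈ V → u' ∈ V → μ ∈ V →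
  μ ≠ 0 → ε ^ 2 = 1 → Iso u u' μ m D → (∀ i, D.coeff i ∈ V) → D.coeff m = ε * μ →
  ∃ R : PowerSeries K, (∀ k, PowerSeries.coeff k R ∈ V) ∧ PowerSeries.coeff 0 R = 0 ∧
    PowerSeries.coeff 1 R = ε * μ ∧
    (∀ k, k < p → ∃ z ∈ V, PowerSeries.coeff k R = μ * z) ∧
    (∃ z ∈ V, PowerSeries.coeff p R = 1 + μ ^ 2 * z) ∧
    (1 - 2 * PowerSeries.C u * PowerSeries.X ^ 2 + PowerSeries.X ^ 4) *
      PowerSeries.derivative K R ^ 2 =
    PowerSeries.C ((ε * μ) ^ 2) * (1 - 2 * PowerSeries.C u' * R ^ 2 + R ^ 4)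

/-- [Lc] (uses `St_Lf`, `St_Lp`) The Legendre polynomial modulo `μ²`.

Proof.  `x, x' ∈ V`: `u = 1 - 2 x`, `u' = 1 - 2 x'`.  Take `R` from `St_Lp` and apply `St_Lf` with
`ε μ` in the place of `μ` and `2 N = p - 1 = 2 m`: the coefficient at `X^(p-1)` of
`∑_k PL k x' R^(2k) R'` is `ε μ PL m x`.  For every `k` the coefficient of `R^(2k) R'` at `X^(p-1)` is
`p / (2 k + 1)` times the coefficient of `R^(2k+1)` at `X^p` (derivative of `R^(2k+1)`).
`k = 0`: `p R_p = p (1 + μ² z)`.  `1 ≤ k < m`: `2 k + 1 < p` is a unit of `V`; the coefficient of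
`R^(2k+1)` at `X^p` is in `μ³ V`: only the coefficients `R_j`, `j < p`, occur (as `R_0 = 0` and
`2 k + 1 ≥ 2`; precisely `R^(2k+1) ≡ T^(2k+1)` modulo `X^(p+1)`, `T` the truncation of `R` below
`X^p`, `T ∈ μ V⟦X⟧`).  `k = m`: the coefficient of `R^p` at `X^p` is `(ε μ)^p` and the factor is `1`.
`k > m`: zero.  So `ε μ PL m x = p (1 + μ² z) + p μ³ z₁ + (ε μ)^p PL m x'`; divide by `ε μ`
(`ε = ε⁻¹`, `p / μ ∈ V`, `p - 1 ≥ 2`); `PL k x' ∈ V` as `x' ∈ V`. -/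
def St_Lc : Prop := ∀ (K : Type) [Field K] [CharZero K] (V : ValuationSubring K) (p m : ℕ)
  (x x' μ ε : K) (D : K[X]), p.Prime → p = 2 * m + 1 → Res V p → x ∈ V → x' ∈ V → μ ∈ V →
  μ ≠ 0 → (p : K) / μ ∈ V → ε ^ 2 = 1 → Iso (1 - 2 * x) (1 - 2 * x') μ m D →
  (∀ i, D.coeff i ∈ V) → D.coeff m = ε * μ →
  ∃ z ∈ V, PL m x = ε * (p / μ) + μ ^ 2 * z

/-- [Lw] (uses `St_Lr`, `St_Lc`) The product of two conjugate Legendre polynomials modulo `μ²`.

Proof.  By `St_Lr` the coefficients of `D` are in `V`; the constant coefficient of `Iso.ode` gives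
`(D.coeff m)² = μ²` (`(rp m D)(0) = D.coeff m`, `D(0) = 1`), so `D.coeff m = ε μ`, `ε = 1` or `-1`.
The polynomial `D' = D.map σ` satisfies `Iso (σ u) (σ u') (σ μ) m D'` (apply `σ` to the equation; `rp m`
commutes with `map`), `D'.coeff m = σ (ε μ) = ε σ μ`; by `St_Lr` its coefficients are in `V` too.
By `St_Lc` (twice) `PL m x = ε (p / μ) + μ² z`, `PL m (σ x) = ε (p / σ μ) + (σ μ)² z'`; multiply. -/
def St_Lw : Prop := ∀ (K : Type) [Field K] [CharZero K] (V : ValuationSubring K) (p m : ℕ)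
  (σ : K ≃+* K) (x x' μ : K) (D : K[X]), p.Prime → p = 2 * m + 1 → Res V p → x ∈ V → x' ∈ V →
  σ x ∈ V → σ x' ∈ V → μ ∈ V.nonunits → σ μ ∈ V.nonunits → μ ≠ 0 → (p : K) / μ ∈ V →
  (p : K) / σ μ ∈ V → Iso (1 - 2 * x) (1 - 2 * x') μ m D →
  ∃ z ∈ V, ∃ z' ∈ V, PL m x * PL m (σ x) = (p / μ) * (p / σ μ) + μ ^ 2 * z + (σ μ) ^ 2 * z'

/-- [Vx] Valuation rings: existence, integers, integral elements.

(1) `Ideal.image_subset_nonunits_valuationSubring` (for the subring `ℤ` of `K`, the image of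
`Int.castRingHom`, or `⊥`, and the ideal generated by `p`, which is proper as `K` has characteristic
zero).
(2) `p ∣ n` if `n` is a nonunit (otherwise Bezout: `1 = a n + b p` would be a nonunit).
(3) if `n = p² z`, `z ∈ V` then `p² ∣ n`: if `n = p^e n'` with `p ∤ n'`, `e < 2`, then `n'` is a unit of
`V` by (2), so `p^(2 - e) z = n'` is a unit but `p` is not (`n ≠ 0`).
(4) `g`, `w` are integral over `ℤ`, `V` is integrally closed (or: if `g ∉ V` then `g⁻¹` is in the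
maximal ideal and `1 = g⁻¹ + g⁻²` gives a contradiction).
(5) the ring `V.comap τ`. -/
def St_Vx : Prop := ∀ (K : Type) [Field K] [CharZero K] (p : ℕ), p.Prime →
  (∃ V : ValuationSubring K, Res V p) ∧
  ∀ V : ValuationSubring K, Res V p →
    (∀ n : ℤ, (n : K) ∈ V.nonunits → (p : ℤ) ∣ n) ∧
    (∀ (n : ℤ) (z : K), z ∈ V → (n : K) = p ^ 2 * z → (p : ℤ) ^ 2 ∣ n) ∧
    (∀ g w : K, g ^ 2 = g + 1 → w ^ 2 = -1 - w → g ∈ V ∧ w ∈ V) ∧
    (∀ τ : K ≃+* K, Res (V.comap τ.toRingHom) p ∧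
      ∀ z : K, (τ z ∈ V.nonunits ↔ z ∈ (V.comap τ.toRingHom).nonunits))

/-- [Vs] (uses `St_Vx`; imports `Pool.Agent.CTS.Main`) The sum `S(p)` in the valuation ring.

Proof.  Let `R = V / (p²)` (`V` as a ring, `Ideal.span {(p : V) ^ 2}`).  In `R`, `p² = 0` and `2` is a
unit (`p` odd: `2` is a unit of `V` as `p ∤ 2`).  `g`, `w ∈ V` give elements of `R` with the same
relations, and `Pool.Agent.CTS.S_eq` (with `n`) gives
`Ssum p = PP n (sS g w ^ 2) * PP n (tT g w ^ 2)` in `R`; `PP` commutes with ring homomorphisms and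
`PP n X = PL n X` (`Pool.Agent.CTS.AA n i = C(n,i) C(n+i,i)`).  Lift to `V`.  Finally
`sS g w ^ 2 = (1 - u₁ g w) / 2` and `tT g w ^ 2 = (1 - u₂ g w) / 2` (`sS_sq`, `tT_sq`). -/
def St_Vs (S : ℕ → ℤ) : Prop := ∀ (K : Type) [Field K] [CharZero K] (V : ValuationSubring K)
  (p n : ℕ) (g w : K), p.Prime → p = 2 * n + 1 → Res V p → g ^ 2 = g + 1 → w ^ 2 = -1 - w →
  ∃ z ∈ V, (S p : K) = PL n ((1 - u₁ g w) / 2) * PL n ((1 - u₂ g w) / 2) + p ^ 2 * z

/-- [Kf] The field `ℚ(√5, √-3)` with its automorphisms.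

Proof.  E.g. `K₁ = ℚ[X]/(X² - X - 1)`, `K = K₁[Y]/(Y² + Y + 1)` (`AdjoinRoot`, or
`QuadraticAlgebra`), or a subfield of `ℂ`.  There is no square root of `-1`: `z = a + b w`, `a`,
`b ∈ K₁`: `z² = a² - b² + (2 a b - b²) w = -1` gives `b = 0`, `a² = -1` (impossible: `K₁ ⊂ ℝ`), or
`b = 2 a`, `3 a² = 1`, `a = α + β g`: `α² + β² + (2 α β + β²) g = 1/3`, so `β = 0`, `α² = 1/3`, or
`β = -2 α`, `5 α² = 1/3`; both are impossible for rational `α`.  The automorphisms `σ` and `τ`: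
`g ↦ 1 - g`, `w ↦ -1 - w` and `g ↦ g`, `w ↦ -1 - w` (lifts of the roots, bijective since they are
involutions; or by Galois theory). -/
def St_Kf : Prop := ∃ (K : Type) (_ : Field K) (_ : CharZero K) (g w : K) (σ τ : K ≃+* K),
  Kg g w ∧ σ g = 1 - g ∧ σ w = -1 - w ∧ τ g = g ∧ τ w = -1 - w

/-! ## Part 5: the end -/

/-- [Ma] (uses `St_Dv`, `St_Ic`, `St_Ex`, `St_Gp`, `St_Lr`, `St_Vx`) The isogenies of degree `p`.

Proof.  Case A: `P`, `Q` from `St_Ex` (first part), `i = 1`, `j = 15`, `μ₊ = x + y d₀`,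
`μ₋ = x - y d₀`, `μ₊ μ₋ = x² + 15 y² = p` (so both are nonzero), `x + y` is odd as `p` is odd
(`p > 3`).  `St_Gp` gives isogenies with `(2 m + 1) + (2 m' + 1) = 2 p`.  Suppose `μ₊` is a nonunit of
`V`.  `p ≤ 2 m + 1` by `St_Lr`.  For `V' = V.comap τ`: `τ μ₋ = μ₊` (`τ d₀ = -d₀`), so `μ₋` is a
nonunit of `V'`, and `p ≤ 2 m' + 1` by `St_Lr` for `V'`.  So both are equal to `p`.
Case B: second part of `St_Ex`, `i = 3`, `j = 5`, `μ₊ = x c₃ + y c₅`, `μ₋ = x c₃ - y c₅`,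
`μ₊ μ₋ = x² c₃² - y² c₅² = -(2 g + 1)² (3 x² + 5 y²)` (`c₃ = -(2 g + 1) (2 w + 1)`,
`c₅ = -(4 g + 3) = -(2 g + 1) (2 g - 1)`), nonzero; `τ μ₋ = -μ₊`.  All constants are in `V` and `V'`
(`St_Vx` (4)). -/
def St_Ma : Prop := ∀ (K : Type) [Field K] [CharZero K] (g w : K) (τ : K ≃+* K)
  (V : ValuationSubring K) (p m : ℕ) (x y : ℤ), Kg g w → τ g = g → τ w = -1 - w → p.Prime →
  3 < p → p = 2 * m + 1 → Res V p →
  ((p : ℤ) = x ^ 2 + 15 * y ^ 2 → (x : K) + y * d₀ g w ∈ V.nonunits →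
    ∃ D : K[X], Iso (u₁ g w) (u₁ g w) ((x : K) + y * d₀ g w) m D) ∧
  ((p : ℤ) = 3 * x ^ 2 + 5 * y ^ 2 → (x : K) * c₃ g w + y * c₅ g ∈ V.nonunits →
    ∃ D : K[X], Iso (u₁ g w) (u₂ g w) ((x : K) * c₃ g w + y * c₅ g) m D)

/-- [Mb] (uses `St_Ma`, `St_Lw`, `St_Vx`, `St_Vs S`, `St_Kf`, `St_Ic`) The congruences.

Proof.  Take `K`, `g`, `w`, `σ`, `τ` from `St_Kf` and `V` from `St_Vx` (1).
Case A.  `μ = x + y d₀`, `μ' = x - y d₀`, `μ μ' = p ∈ V.nonunits`, both in `V`; so one of them is a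
nonunit; replacing `y` by `-y` let it be `μ`.  `μ'` is a unit: otherwise `2 x` and `p` would be
nonunits, `p ∣ 2 x` (`St_Vx` (2)), `p ∣ x`, `p² ≤ x² ≤ p` or `x = 0`, `p = 15 y²`; contradictions.
`St_Ma` gives `D`; `σ d₀ = d₀`, `σ μ = μ`, `σ u₁ = u₂`; `St_Lw` with `x := (1 - u₁) / 2`,
`x' := (1 - u₁) / 2` gives `PL m ((1 - u₁)/2) PL m ((1 - u₂)/2) = (p/μ)² + μ² z₀ = μ'² + μ² z₀`.  With
`St_Vs`: `S p - (4 x² - 2 p) = μ'² + μ² z₀ + p² z - (μ² + μ'²) = μ² z₁` (as `4 x² = (μ + μ')²`,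
`2 p = 2 μ μ'`, `p² = μ² μ'²`) `= p² (z₁ / μ'²)`, so `p²` divides this integer by `St_Vx` (3).
Case B.  `η = x (2 w + 1) + y (2 g - 1)`, `η' = y (2 g - 1) - x (2 w + 1)`, `η η' = 5 y² + 3 x² = p`;
again one of them is a nonunit, and replacing `x` by `-x` let it be `η`; `η'` is a unit (otherwise
`η + η' = 2 y (2 g - 1)`, its square `20 y²` and `p` are nonunits, `p ∣ 20 y²`; `p > 5` since
`p % 15 ∈ {2, 8}` and `p > 3`; `p ∣ y`, `p² ≤ y² < p` or `y = 0`, `p = 3 x²`; contradictions).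
`μ = x c₃ + y c₅ = -(2 g + 1) η`, `σ μ = (2 (1 - g) + 1) η = (3 - 2 g) η`, and
`(2 g + 1) (3 - 2 g) = -1`, so `2 g + 1` and `3 - 2 g` are units of `V`, `μ`, `σ μ` are nonunits,
`μ · σ μ = η²`, `p / μ = -η' / (2 g + 1) ∈ V`, `(p / μ) (p / σ μ) = η'²`.  `St_Lw` (with
`x = (1 - u₁)/2`, `x' = (1 - u₂)/2`) gives the product `= η'² + η² z₀`; and
`2 p - 12 x² = η² + η'²`.  So `S p - (2 p - 12 x²) = η² z₁ = p² (z₁ / η'²)`.
(The second case of the residue classes is used only to exclude `p = 5`.) -/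
def St_Mb (S : ℕ → ℤ) : Prop := ∀ (p : ℕ) (x y : ℤ), p.Prime → 3 < p →
  ((p : ℤ) = x ^ 2 + 15 * y ^ 2 → (p : ℤ) ^ 2 ∣ S p - (4 * x ^ 2 - 2 * p)) ∧
  (p ≠ 5 → (p : ℤ) = 3 * x ^ 2 + 5 * y ^ 2 → (p : ℤ) ^ 2 ∣ S p - (2 * p - 12 * x ^ 2))

end Pool.Agent.CVH
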