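import Pool.Agent.CVH.St

/-!
# CVH [Vx]: valuation rings, existence, integers, integral elements
-/

set_option autoImplicit false

noncomputable section

namespace Pool.Agent.CVH

open Polynomial
open scoped Classical

private theorem Vx_nonunits {K : Type} [Field K] (V : ValuationSubring K) (a : K) :
    a ∈ V.nonunits ↔ a = 0 ∨ a⁻¹ ∉ V := by
  rw [ValuationSubring.mem_nonunits_iff, ← V.valuation_le_one_iff a⁻¹, not_le, map_inv₀]
  by_cases ha : a = 0
  · simp [ha]
  · have hv : V.valuation a ≠ 0 := by simpa using ha
    simp only [ha, false_or]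
    rw [one_lt_inv₀ (zero_lt_iff.mpr hv)]

private theorem Vx_int {K : Type} [Field K] (V : ValuationSubring K) (n : ℤ) :
    V.valuation (n : K) ≤ 1 := by
  rw [V.valuation_le_one_iff]
  exact intCast_mem V n

private theorem Vx_mul {G : Type} [LinearOrderedCommGroupWithZero G] {a b : G} (ha : a ≤ 1)
    (hb : b < 1) : a * b < 1 :=
  lt_of_le_of_lt (mul_le_of_le_one_left' ha) hb

theorem thm_Vx : St_Vx := by
  intro K _ _ p hp
  constructor
  · let A : Subring K := (Int.castRingHom K).range
    have hpA : (p : K) ∈ A := ⟨(p : ℤ), by simp⟩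
    have hI : Ideal.span {(⟨(p : K), hpA⟩ : A)} ≠ ⊤ := by
      intro h
      have h1 : (1 : A) ∈ Ideal.span {(⟨(p : K), hpA⟩ : A)} := by rw [h]; trivial
      rw [Ideal.mem_span_singleton'] at h1
      obtain ⟨⟨a, n, hn⟩, ha⟩ := h1
      have h2 : a * (p : K) = 1 := by
        have := congrArg (Subtype.val) ha
        simpa using this
      have h3 : (n : K) * (p : K) = 1 := by
        rw [← h2, ← hn]; simp
      have h4 : n * (p : ℤ) = 1 := by exact_mod_cast h3
      have h5 : (p : ℤ) ∣ 1 := ⟨n, by linear_combination -h4⟩
      have h6 : p ∣ 1 := by exact_mod_cast h5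
      exact hp.one_lt.ne' (Nat.dvd_one.mp h6)
    obtain ⟨V, hV1, hV2⟩ := Ideal.image_subset_nonunits_valuationSubring
      (Ideal.span {(⟨(p : K), hpA⟩ : A)}) hI
    refine ⟨V, hV2 ⟨⟨(p : K), hpA⟩, Ideal.subset_span rfl, rfl⟩⟩
  · intro V hV
    have hvp : V.valuation (p : K) < 1 := (V.mem_nonunits_iff).mp hV
    have h2 : ∀ n : ℤ, (n : K) ∈ V.nonunits → (p : ℤ) ∣ n := by
      intro n hn
      by_contra hc
      have hcop : IsCoprime (p : ℤ) n := by
        have hpp : Prime (p : ℤ) := Nat.prime_iff_prime_int.mp hp
        exact (Irreducible.coprime_iff_not_dvd hpp.irreducible).mpr hc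
      obtain ⟨a, b, hab⟩ := hcop
      have e : (a : K) * (p : K) + (b : K) * (n : K) = 1 := by exact_mod_cast hab
      have hvn : V.valuation (n : K) < 1 := (V.mem_nonunits_iff).mp hn
      have h1 : V.valuation ((a : K) * (p : K)) < 1 := by
        rw [map_mul]
        exact Vx_mul (Vx_int V a) hvp
      have h2 : V.valuation ((b : K) * (n : K)) < 1 := by
        rw [map_mul]
        exact Vx_mul (Vx_int V b) hvn
      have h3 : V.valuation (1 : K) < 1 := by
        rw [← e]
        exact V.valuation.map_add_lt h1 h2
      rw [map_one] at h3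
      exact lt_irrefl _ h3
    have hp0 : (p : K) ≠ 0 := by exact_mod_cast hp.ne_zero
    refine ⟨h2, ?_, ?_, ?_⟩
    · intro n z hz hn
      have hvz : V.valuation z ≤ 1 := (V.valuation_le_one_iff z).mpr hz
      have h3 : (p : ℤ) ∣ n := by
        apply h2
        rw [V.mem_nonunits_iff, hn, pow_two, mul_assoc, map_mul]
        have h4 : V.valuation ((p : K) * z) < 1 := by
          rw [map_mul, mul_comm]
          exact Vx_mul hvz hvp
        rw [mul_comm]
        exact Vx_mul h4.le hvp
      obtain ⟨m, rfl⟩ := h3
      have h5 : (m : K) = p * z := by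
        have : (p : K) * (m : K) = p * (p * z) := by
          push_cast at hn
          rw [hn]; ring
        exact mul_left_cancel₀ hp0 this
      have h6 : (p : ℤ) ∣ m := by
        apply h2
        rw [V.mem_nonunits_iff, h5, map_mul, mul_comm]
        exact Vx_mul hvz hvp
      obtain ⟨k, rfl⟩ := h6
      exact ⟨k, by ring⟩
    · intro g w hg hw
      constructor
      · rcases V.mem_or_inv_mem g with h | h
        · exact h
        · have hg0 : g ≠ 0 := by
            rintro rfl
            simp at hg
          have e : g = 1 + g⁻¹ := by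
            field_simp
            linear_combination hg
          rw [e]
          exact add_mem (one_mem V) h
      · rcases V.mem_or_inv_mem w with h | h
        · exact h
        · have hw0 : w ≠ 0 := by
            rintro rfl
            have : (1 : K) = 0 := by linear_combination hw
            exact one_ne_zero this
          have e : w = -w⁻¹ - 1 := by
            field_simp
            linear_combination hw
          rw [e]
          exact sub_mem (neg_mem h) (one_mem V)
    · intro τ
      have key : ∀ z : K, (τ z ∈ V.nonunits ↔ z ∈ (V.comap τ.toRingHom).nonunits) := by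
        intro z
        rw [Vx_nonunits, Vx_nonunits, ValuationSubring.mem_comap]
        have e1 : τ z = 0 ↔ z = 0 := by simp
        have e2 : (τ.toRingHom z⁻¹) = (τ z)⁻¹ := by simp
        rw [e1, e2]
      refine ⟨?_, key⟩
      have := (key (p : K)).mp (by rw [map_natCast]; exact hV)
      exact this

end Pool.Agent.CVH
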